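import Pool.Agent.MP_7258fc_nt.H38.Basic

namespace Pool.Agent.MP_7258fc_nt.H38

open PowerSeries Finset Filter Topology
open scoped PowerSeries.WithPiTopology

theorem tendsto_iff_dvd {ι : Type*} {l : Filter ι} {f : ι → A} {s : A} :
    Tendsto f l (𝓝 s) ↔ ∀ K : ℕ, ∀ᶠ i in l, X ^ K ∣ s - f i := by
  rw [PowerSeries.WithPiTopology.tendsto_iff_coeff_tendsto]
  simp only [nhds_discrete, tendsto_pure]
  constructor
  · intro h K
    have := (Filter.eventually_all_finset (range K)).2 fun d _ => h d
    filter_upwards [this] with i hi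
    rw [X_pow_dvd_iff]
    intro m hm
    rw [map_sub, hi m (mem_range.2 hm), sub_self]
  · intro h d
    filter_upwards [h (d + 1)] with i hi
    have := X_pow_dvd_iff.1 hi d (by omega)
    rw [map_sub, sub_eq_zero] at this
    exact this.symm

theorem eq_of_dvd {a b : A} (h : ∀ K : ℕ, X ^ K ∣ a - b) : a = b := by
  ext d
  have := X_pow_dvd_iff.1 (h (d + 1)) d (by omega)
  rwa [map_sub, sub_eq_zero] at this

theorem summable_iff_finite {ι : Type*} {f : ι → A} :
    Summable f ↔ ∀ K : ℕ, {i | ¬ X ^ K ∣ f i}.Finite := by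
  constructor
  · intro h K
    have := tendsto_iff_dvd.1 h.tendsto_cofinite_zero K
    rw [Filter.eventually_cofinite] at this
    simpa using this
  · intro h
    rw [PowerSeries.WithPiTopology.summable_iff_summable_coeff]
    intro d
    refine summable_of_hasFiniteSupport ((h (d + 1)).subset fun i hi hd => hi ?_)
    exact X_pow_dvd_iff.1 hd d (by omega)

theorem summable_mul {ι κ : Type*} {f : ι → A} {g : κ → A} (hf : Summable f) (hg : Summable g) :
    Summable fun x : ι × κ => f x.1 * g x.2 := by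
  rw [summable_iff_finite] at *
  intro K
  refine ((hf K).prod (hg K)).subset fun x hx => ⟨fun h => hx (h.mul_right _), fun h => hx (h.mul_left _)⟩

theorem hasSum_mul {ι κ : Type*} {f : ι → A} {g : κ → A} {a b : A} (hf : HasSum f a)
    (hg : HasSum g b) : HasSum (fun x : ι × κ => f x.1 * g x.2) (a * b) :=
  hf.mul hg (summable_mul hf.summable hg.summable)

theorem hs_congr {ι : Type*} {f g : ι → A} {a : A} (h : HasSum f a) (e : ∀ x, g x = f x) :
    HasSum g a := (funext e : g = f) ▸ h

theorem hp_congr {ι : Type*} {f g : ι → A} {a : A} (h : HasProd f a) (e : ∀ x, g x = f x) :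
    HasProd g a := (funext e : g = f) ▸ h

theorem summable_pow {ι : Type*} (e : ι → ℤ) (w : ι → A) (h : ∀ K : ℤ, {i | e i < K}.Finite) :
    Summable fun i => X ^ (e i).toNat * w i := by
  rw [summable_iff_finite]
  intro K
  refine (h K).subset fun i hi => ?_
  by_contra hc
  simp only [Set.mem_ofPred_eq, not_lt] at hc
  exact hi ((pow_dvd_pow X (by omega)).mul_right _)

theorem HasSum.approx {ι : Type*} {f : ι → A} {s : A} (h : HasSum f s) (K : ℕ) :
    ∃ T0 : Finset ι, ∀ T, T0 ⊆ T → X ^ K ∣ s - ∑ i ∈ T, f i := by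
  have := tendsto_iff_dvd.1 h K
  simpa using this

theorem multipliable_of_dvd {g : ℕ → A} (h : ∀ n, X ^ n ∣ g n - 1) : Multipliable g := by
  have := PowerSeries.WithPiTopology.multipliable_one_add_of_tendsto_order_atTop_nhds_top ℤ
    (f := fun n => g n - 1) ?_
  · simpa using this
  · rw [ENat.tendsto_nhds_top_iff_natCast_lt]
    intro k
    filter_upwards [eventually_gt_atTop k] with n hn
    refine lt_of_lt_of_le (b := (n : ℕ∞)) (by exact_mod_cast hn) ?_
    exact le_order _ _ fun i hi => X_pow_dvd_iff.1 (h n) i (by exact_mod_cast hi)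

/-- The infinite product `∏ (1 - X^(m n + a))`. -/
noncomputable def pr (m a : ℕ) : A := ∏' n : ℕ, (1 - X ^ (m * n + a))

theorem hasProd_pr (m a : ℕ) (hm : m ≠ 0) : HasProd (fun n : ℕ => (1 - X ^ (m * n + a) : A)) (pr m a) := by
  refine (multipliable_of_dvd fun n => ?_).hasProd
  rw [sub_sub_cancel_left, dvd_neg]
  exact pow_dvd_pow X (by nlinarith [Nat.pos_of_ne_zero hm])

theorem pr_approx (m a : ℕ) (hm : m ≠ 0) (K : ℕ) :
    ∀ᶠ n in atTop, X ^ K ∣ pr m a - ∏ k ∈ range n, (1 - X ^ (m * k + a) : A) :=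
  tendsto_iff_dvd.1 (hasProd_pr m a hm).tendsto_prod_nat K

theorem poch_approx (m : ℕ) (hm : m ≠ 0) (K : ℕ) :
    ∀ᶠ n in atTop, X ^ K ∣ pr m m - poch m n := by
  simpa only [poch, mul_add, mul_one] using pr_approx m m hm K

end Pool.Agent.MP_7258fc_nt.H38
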