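import Mathlib

namespace Pool.Agent.MP_7258fc_nt.H38

open PowerSeries Finset

/-- Integer power series. -/
abbrev A : Type := PowerSeries ℤ

/-- Its field of fractions. -/
def R : Type := FractionRing A

noncomputable instance fieldR : Field R := inferInstanceAs (Field (FractionRing A))

/-- The inclusion. -/
noncomputable def io : A →+* R := (algebraMap A (FractionRing A) : A →+* FractionRing A)

theorem io_inj : Function.Injective io := IsFractionRing.injective A (FractionRing A)

/-- The variable. -/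
noncomputable def q : R := io X

theorem q_ne : q ≠ 0 := by
  intro h
  have : (X : A) = 0 := io_inj (by rw [map_zero]; exact h)
  exact X_ne_zero this

instance charZeroR : CharZero R := by
  refine ⟨fun a b h => ?_⟩
  have : io (a : A) = io (b : A) := by simpa using h
  have h2 := congrArg (constantCoeff (R := ℤ)) (io_inj this)
  simpa using h2

/-- Order at least `d`. -/
def O (d : ℤ) (x : R) : Prop := ∃ y : A, x = q ^ d * io y

theorem O.zero (d : ℤ) : O d 0 := ⟨0, by simp⟩

theorem O.add {d : ℤ} {x y : R} (hx : O d x) (hy : O d y) : O d (x + y) := by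
  obtain ⟨a, rfl⟩ := hx
  obtain ⟨b, rfl⟩ := hy
  exact ⟨a + b, by rw [map_add]; ring⟩

theorem O.neg {d : ℤ} {x : R} (hx : O d x) : O d (-x) := by
  obtain ⟨a, rfl⟩ := hx
  exact ⟨-a, by rw [map_neg]; ring⟩

theorem O.sub {d : ℤ} {x y : R} (hx : O d x) (hy : O d y) : O d (x - y) := by
  rw [sub_eq_add_neg]; exact hx.add hy.neg

theorem O.mul {d e : ℤ} {x y : R} (hx : O d x) (hy : O e y) : O (d + e) (x * y) := by
  obtain ⟨a, rfl⟩ := hx
  obtain ⟨b, rfl⟩ := hy
  exact ⟨a * b, by rw [map_mul, zpow_add₀ q_ne]; ring⟩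

theorem O.mono {d e : ℤ} {x : R} (hx : O d x) (h : e ≤ d) : O e x := by
  obtain ⟨a, rfl⟩ := hx
  refine ⟨X ^ (d - e).toNat * a, ?_⟩
  rw [map_mul, map_pow, ← mul_assoc, ← q, ← zpow_natCast, ← zpow_add₀ q_ne]
  congr 2
  omega

theorem O.mul' {d e f : ℤ} {x y : R} (hx : O d x) (hy : O e y) (h : f ≤ d + e) :
    O f (x * y) := (hx.mul hy).mono h

theorem O.io (a : A) : O 0 (io a) := ⟨a, by simp⟩

theorem O.one : O 0 1 := ⟨1, by simp⟩

theorem O.zpow (d : ℤ) : O d (q ^ d) := ⟨1, by simp⟩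

theorem O.q : O 1 q := ⟨1, by simp⟩

theorem O.pow (n : ℕ) : O n (H38.q ^ n) := ⟨1, by simp⟩

theorem O.int (n : ℤ) : O 0 (n : R) := ⟨n, by simp⟩

theorem O.sum {ι : Type*} {d : ℤ} (s : Finset ι) (f : ι → R) (h : ∀ i ∈ s, O d (f i)) :
    O d (∑ i ∈ s, f i) := by
  classical
  induction s using Finset.induction_on with
  | empty => simpa using O.zero d
  | insert a s ha ih =>
    rw [sum_insert ha]
    exact (h a (mem_insert_self _ _)).add (ih fun i hi => h i (mem_insert_of_mem hi))

theorem O.zmul {d e : ℤ} {x : R} (hx : O d x) : O (e + d) (H38.q ^ e * x) := (O.zpow e).mul hx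

theorem O.of_zmul {d e : ℤ} {x : R} (hx : O d (H38.q ^ e * x)) : O (d - e) x := by
  have := hx.zmul (e := -e)
  rw [← mul_assoc, ← zpow_add₀ q_ne, neg_add_cancel, zpow_zero, one_mul] at this
  exact this.mono (by omega)

theorem O_io_iff (n : ℕ) (a : A) : O n (io a) ↔ X ^ n ∣ a := by
  constructor
  · rintro ⟨b, hb⟩
    refine ⟨b, io_inj ?_⟩
    rw [hb, map_mul, map_pow, zpow_natCast, q]
  · rintro ⟨b, rfl⟩
    exact ⟨b, by rw [map_mul, map_pow, zpow_natCast, q]⟩

theorem isUnit_one_sub (k : ℕ) (hk : k ≠ 0) : IsUnit (1 - X ^ k : A) := by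
  rw [isUnit_iff_constantCoeff]
  simp [hk]

theorem one_sub_ne (k : ℕ) (hk : k ≠ 0) : (1 : R) - q ^ k ≠ 0 := by
  have := ((isUnit_one_sub k hk).map io).ne_zero
  simpa [q] using this

theorem io_inverse {a : A} (h : IsUnit a) : io (Ring.inverse a) = (io a)⁻¹ := by
  have := congrArg io (Ring.mul_inverse_cancel a h)
  rw [map_mul, map_one] at this
  exact eq_inv_of_mul_eq_one_right this

theorem O.inv_one_sub (k : ℕ) (hk : k ≠ 0) : O 0 ((1 : R) - H38.q ^ k)⁻¹ := by
  have := O.io (Ring.inverse (1 - X ^ k : A))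
  rw [io_inverse (isUnit_one_sub k hk)] at this
  simpa [H38.q] using this

theorem O.one_sub (k : ℕ) : O 0 ((1 : R) - H38.q ^ k) :=
  O.one.sub ((O.pow k).mono (by omega))

theorem O.of_one_sub_mul {d : ℤ} {x : R} (k : ℕ) (hk : k ≠ 0) (h : O d ((1 - H38.q ^ k) * x)) :
    O d x := by
  have := (O.inv_one_sub k hk).mul h
  rw [← mul_assoc, inv_mul_cancel₀ (one_sub_ne k hk), one_mul, zero_add] at this
  exact this

/-- The finite product `(q^a; q^a)_n`. -/
noncomputable def poch (a n : ℕ) : A := ∏ k ∈ range n, (1 - X ^ (a * (k + 1)))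

theorem poch_zero (a : ℕ) : poch a 0 = 1 := by simp [poch]

theorem poch_succ (a n : ℕ) : poch a (n + 1) = poch a n * (1 - X ^ (a * (n + 1))) := by
  simp [poch, prod_range_succ]

theorem isUnit_poch (a n : ℕ) (ha : a ≠ 0) : IsUnit (poch a n) := by
  induction n with
  | zero => simp [poch]
  | succ n ih => rw [poch_succ]; exact ih.mul (isUnit_one_sub _ (by positivity))

/-- The weight `1 / ((q;q)_i (q^3;q^3)_j)`. -/
noncomputable def wt (i j : ℕ) : A := Ring.inverse (poch 1 i) * Ring.inverse (poch 3 j)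

theorem inverse_poch_succ (a n : ℕ) (ha : a ≠ 0) :
    (1 - X ^ (a * (n + 1))) * Ring.inverse (poch a (n + 1)) = Ring.inverse (poch a n) := by
  have h1 := Ring.mul_inverse_cancel _ (isUnit_poch a n ha)
  have h2 := Ring.mul_inverse_cancel _ (isUnit_poch a (n + 1) ha)
  rw [poch_succ] at h2 ⊢
  linear_combination (Ring.inverse (poch a n)) * h2
    - (1 - X ^ (a * (n + 1))) * Ring.inverse (poch a n * (1 - X ^ (a * (n + 1)))) * h1

theorem wt_zero : wt 0 0 = 1 := by simp [wt, poch_zero]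

theorem wt_succ_left (i j : ℕ) : (1 - X ^ (i + 1)) * wt (i + 1) j = wt i j := by
  have := inverse_poch_succ 1 i one_ne_zero
  rw [one_mul] at this
  rw [wt, wt, ← mul_assoc, this]

theorem wt_succ_right (i j : ℕ) : (1 - X ^ (3 * (j + 1))) * wt i (j + 1) = wt i j := by
  have := inverse_poch_succ 3 j (by norm_num)
  rw [wt, wt, ← this]; ring

theorem wt_mul (i j : ℕ) : poch 1 i * poch 3 j * wt i j = 1 := by
  have h1 := Ring.mul_inverse_cancel _ (isUnit_poch 1 i one_ne_zero)
  have h2 := Ring.mul_inverse_cancel _ (isUnit_poch 3 j (by norm_num))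
  rw [wt]
  linear_combination (poch 3 j * Ring.inverse (poch 3 j)) * h1 + h2

end Pool.Agent.MP_7258fc_nt.H38
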