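import Pool.Agent.MP_7258fc_nt.H38.Sums

namespace Pool.Agent.MP_7258fc_nt.H38

open PowerSeries Finset Filter Topology
open scoped PowerSeries.WithPiTopology

/-- Power series in two further variables. -/
abbrev B : Type := MvPowerSeries (Fin 2) A

/-- Exponent vectors. -/
noncomputable def e2 : ℕ × ℕ ≃ (Fin 2 →₀ ℕ) where
  toFun μ := Finsupp.single 0 μ.1 + Finsupp.single 1 μ.2
  invFun d := (d 0, d 1)
  left_inv μ := by simp
  right_inv d := by ext i; fin_cases i <;> simp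

theorem e2_zero (μ : ℕ × ℕ) : e2 μ 0 = μ.1 := by simp [e2]
theorem e2_one (μ : ℕ × ℕ) : e2 μ 1 = μ.2 := by simp [e2]

/-- Coefficients. -/
noncomputable def cB (f : B) (i j : ℕ) : A := MvPowerSeries.coeff (e2 (i, j)) f

/-- A series from its coefficients. -/
noncomputable def mk2 (g : ℕ → ℕ → A) : B := fun d => g (d 0) (d 1)

/-- A monomial. -/
noncomputable def mn (a b k : ℕ) : B := MvPowerSeries.monomial (e2 (a, b)) (X ^ k)

/-- Rescaling. -/
noncomputable def rs (s t : A) : B →+* B := MvPowerSeries.rescale ![s, t]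

theorem cB_mk2 (g : ℕ → ℕ → A) (i j : ℕ) : cB (mk2 g) i j = g i j := by
  simp [cB, mk2, MvPowerSeries.coeff_apply, e2_zero, e2_one]

theorem B_ext {f g : B} (h : ∀ i j, cB f i j = cB g i j) : f = g := by
  ext1 d
  obtain ⟨⟨i, j⟩, rfl⟩ := e2.surjective d
  exact h i j

theorem cB_add (f g : B) (i j : ℕ) : cB (f + g) i j = cB f i j + cB g i j := by simp [cB]
theorem cB_sub (f g : B) (i j : ℕ) : cB (f - g) i j = cB f i j - cB g i j := by simp [cB]

theorem cB_mn_mul (a b k : ℕ) (f : B) (i j : ℕ) :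
    cB (mn a b k * f) i j = if a ≤ i ∧ b ≤ j then X ^ k * cB f (i - a) (j - b) else 0 := by
  rw [cB, mn, MvPowerSeries.coeff_monomial_mul]
  have h1 : e2 (a, b) ≤ e2 (i, j) ↔ a ≤ i ∧ b ≤ j := by
    rw [Finsupp.le_def, Fin.forall_fin_two, e2_zero, e2_zero, e2_one, e2_one]
  have h2 : e2 (i, j) - e2 (a, b) = e2 (i - a, j - b) := by
    ext k; fin_cases k <;> simp [e2_zero, e2_one]
  simp only [h1, h2, cB]

theorem mn_mul (a b k a' b' k' : ℕ) : mn a b k * mn a' b' k' = mn (a + a') (b + b') (k + k') := by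
  rw [mn, mn, mn, MvPowerSeries.monomial_mul_monomial, pow_add]
  congr 2
  ext k; fin_cases k <;> simp [e2_zero, e2_one]

theorem cB_rs (s t : A) (f : B) (i j : ℕ) : cB (rs s t f) i j = s ^ i * t ^ j * cB f i j := by
  rw [cB, rs, MvPowerSeries.coeff_rescale, Finsupp.prod_fintype _ _ (by simp), Fin.prod_univ_two,
    e2_zero, e2_one]
  rfl

theorem cB_mn (a b k i j : ℕ) : cB (mn a b k) i j = if i = a ∧ j = b then X ^ k else 0 := by
  rw [cB, mn, MvPowerSeries.coeff_monomial]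
  simp

theorem rs_mn (s t a b k : ℕ) : rs (X ^ s) (X ^ t) (mn a b k) = mn a b (s * a + t * b + k) := by
  refine B_ext fun i j => ?_
  rw [cB_rs, cB_mn, cB_mn]
  split_ifs with h
  · obtain ⟨rfl, rfl⟩ := h
    ring
  · simp

/-- The basic coefficient. -/
noncomputable def cs (a b i j : ℕ) : A :=
  X ^ (i ^ 2 + 3 * i * j + 3 * j ^ 2 + a * i + 3 * b * j) * wt i j

theorem cs1 (a b i j : ℕ) :
    cs a b (i + 1) j = cs (a + 1) b (i + 1) j + X ^ (a + 1) * cs (a + 2) (b + 1) i j := by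
  rw [cs, cs, cs, ← wt_succ_left i j]; ring

theorem cs1' (a b j : ℕ) : cs a b 0 j = cs (a + 1) b 0 j := by simp [cs]

theorem cs2 (a b i j : ℕ) :
    cs a b i (j + 1) = cs a (b + 1) i (j + 1) + X ^ (3 * (b + 1)) * cs (a + 3) (b + 2) i j := by
  rw [cs, cs, cs, ← wt_succ_right i j]; ring

theorem cs2' (a b i : ℕ) : cs a b i 0 = cs a (b + 1) i 0 := by simp [cs]

/-- First factor. -/
noncomputable def U (a b : ℕ) : B := mk2 fun I J => if 3 * J ≤ I then cs a b (I - 3 * J) J else 0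
/-- Second factor. -/
noncomputable def W (a b : ℕ) : B := mk2 fun I J => if I ≤ J then cs a b I (J - I) else 0

theorem U1 (a b : ℕ) : U a b = U (a + 1) b + mn 1 0 (a + 1) * U (a + 2) (b + 1) := by
  refine B_ext fun I J => ?_
  simp only [cB_add, cB_mn_mul, U, cB_mk2, Nat.sub_zero]
  by_cases h : 3 * J ≤ I
  · obtain ⟨i, rfl⟩ := Nat.exists_eq_add_of_le h
    rcases i with _ | i
    · rw [if_pos h, if_pos h, show 3 * J + 0 - 3 * J = 0 by omega, cs1']
      split_ifs <;> first | omega | simp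
    · rw [if_pos h, if_pos h, if_pos (by omega), if_pos (by omega),
        show 3 * J + (i + 1) - 3 * J = i + 1 by omega,
        show 3 * J + (i + 1) - 1 - 3 * J = i by omega, cs1]
  · split_ifs <;> first | omega | simp

theorem U2 (a b : ℕ) : U a b = U a (b + 1) + mn 3 1 (3 * (b + 1)) * U (a + 3) (b + 2) := by
  refine B_ext fun I J => ?_
  simp only [cB_add, cB_mn_mul, U, cB_mk2]
  by_cases h : 3 * J ≤ I
  · rcases J with _ | J
    · rw [if_pos h, if_pos h, cs2', if_neg (by omega), add_zero]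
    · rw [if_pos h, if_pos h, if_pos (by omega), if_pos (by omega), Nat.add_sub_cancel,
        show I - 3 - 3 * J = I - 3 * (J + 1) by omega, cs2]
  · split_ifs <;> first | omega | simp

theorem W1 (a b : ℕ) : W a b = W (a + 1) b + mn 1 1 (a + 1) * W (a + 2) (b + 1) := by
  refine B_ext fun I J => ?_
  simp only [cB_add, cB_mn_mul, W, cB_mk2]
  by_cases h : I ≤ J
  · rcases I with _ | I
    · rw [if_pos h, if_pos h, cs1', if_neg (by omega), add_zero]
    · rw [if_pos h, if_pos h, if_pos (by omega), if_pos (by omega), Nat.add_sub_cancel,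
        show J - 1 - I = J - (I + 1) by omega, cs1]
  · split_ifs <;> first | omega | simp

theorem W2 (a b : ℕ) : W a b = W a (b + 1) + mn 0 1 (3 * (b + 1)) * W (a + 3) (b + 2) := by
  refine B_ext fun I J => ?_
  simp only [cB_add, cB_mn_mul, W, cB_mk2, Nat.sub_zero]
  by_cases h : I ≤ J
  · obtain ⟨j, rfl⟩ := Nat.exists_eq_add_of_le h
    rcases j with _ | j
    · rw [if_pos h, if_pos h, show I + 0 - I = 0 by omega, cs2']
      split_ifs <;> first | omega | simp
    · rw [if_pos h, if_pos h, if_pos (by omega), if_pos (by omega),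
        show I + (j + 1) - I = j + 1 by omega, show I + (j + 1) - 1 - I = j by omega, cs2]
  · split_ifs <;> first | omega | simp

theorem rs_U (s t a b : ℕ) : rs (X ^ s) (X ^ (3 * t)) (U a b) = U (a + s) (b + s + t) := by
  refine B_ext fun I J => ?_
  simp only [cB_rs, U, cB_mk2]
  split_ifs with h
  · obtain ⟨i, rfl⟩ := Nat.exists_eq_add_of_le h
    rw [Nat.add_sub_cancel_left, cs, cs]; ring
  · simp

theorem rs_W (s t a b : ℕ) : rs (X ^ s) (X ^ (3 * t)) (W a b) = W (a + s + 3 * t) (b + t) := by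
  refine B_ext fun I J => ?_
  simp only [cB_rs, W, cB_mk2]
  split_ifs with h
  · obtain ⟨i, rfl⟩ := Nat.exists_eq_add_of_le h
    rw [Nat.add_sub_cancel_left, cs, cs]; ring
  · simp

/-- The bilinear combination. -/
noncomputable def GG : B := U 0 0 * W 0 0 + mn 2 1 1 * (U 2 1 * W 1 1)

theorem GG_rec : rs (X ^ 0) (X ^ (3 * 1)) GG - rs (X ^ 1) (X ^ (3 * 1)) GG =
    mn 1 0 1 * rs (X ^ 2) (X ^ (3 * 0)) GG := by
  simp only [GG, map_add, map_mul, rs_U, rs_W, rs_mn]
  norm_num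
  have u1 := U1 0 1
  have u2 := U2 1 1
  have u3 := U1 1 2
  have v1 := W2 2 0
  have v2 := W1 2 1
  have v3 := W1 3 1
  have m1 : mn 1 0 1 * mn 1 1 3 = mn 2 1 4 := mn_mul _ _ _ _ _ _
  have m2 : mn 1 0 1 * mn 0 1 3 = mn 1 1 4 := mn_mul _ _ _ _ _ _
  have m3 : mn 1 1 4 * mn 1 0 2 = mn 2 1 6 := mn_mul _ _ _ _ _ _
  have m4 : mn 1 0 1 * mn 2 1 5 = mn 3 1 6 := mn_mul _ _ _ _ _ _
  norm_num at u1 u2 u3 v1 v2 v3
  linear_combination W 3 1 * u1 + W 3 1 * u2 - mn 1 0 1 * U 2 2 * v1 - mn 1 0 1 * U 2 2 * v2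
    + U 1 2 * v3 + mn 1 1 4 * W 5 2 * u3 - U 2 2 * W 4 2 * m1 - U 2 2 * W 5 2 * m2
    + U 3 3 * W 5 2 * m3 - U 4 3 * W 3 1 * m4

/-- The exponent of the sum in the problem. -/
def exF (i j : ℕ) : ℤ := (i : ℤ) ^ 2 - 3 * i * j + 3 * j ^ 2

theorem exF_nonneg (i j : ℕ) : 0 ≤ exF i j := by
  simp only [exF]; nlinarith [sq_nonneg (2 * (i : ℤ) - 3 * j), sq_nonneg (j : ℤ)]

theorem cB_GG (I J : ℕ) : cB GG I J = tm exF (I, J) := by
  induction I with
  | zero =>
    have h1 : rs 0 1 (U 0 0) = mn 0 0 0 := by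
      refine B_ext fun i j => ?_
      rw [cB_rs, U, cB_mk2, cB_mn]
      rcases i with _ | i
      · rcases j with _ | j
        · simp [cs, wt_zero]
        · simp
      · simp
    have h2 : rs 0 1 (mn 2 1 1) = 0 := by
      refine B_ext fun i j => ?_
      rw [cB_rs, cB_mn]
      split_ifs with h
      · simp [h.1, cB]
      · simp [cB]
    have h3 := congrArg (fun f => cB (rs 0 1 f) 0 J) (rfl : GG = GG)
    conv_rhs at h3 => rw [GG, map_add, map_mul, map_mul, h1, h2, zero_mul, add_zero, cB_mn_mul]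
    simp only [cB_rs, W, cB_mk2] at h3
    simp only [tm, exF]
    simp [cs] at h3
    rw [h3]
    congr 2
    have : (((0 : ℕ) : ℤ) ^ 2 - 3 * (0 : ℕ) * J + 3 * J ^ 2) = ((3 * J ^ 2 : ℕ) : ℤ) := by
      push_cast; ring
    rw [this, Int.toNat_natCast]
  | succ I ih =>
    have h := congrArg (fun f => cB f (I + 1) J) GG_rec
    simp only [cB_sub, cB_rs, cB_mn_mul, Nat.add_sub_cancel, Nat.sub_zero, ih] at h
    rw [if_pos (by omega)] at h
    have hne : (X : A) ^ (3 * J) * (1 - X ^ (I + 1)) ≠ 0 :=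
      mul_ne_zero (pow_ne_zero _ X_ne_zero) (isUnit_one_sub _ (by omega)).ne_zero
    apply mul_left_cancel₀ hne
    have e : 3 * J + (exF (I + 1) J).toNat = 2 * I + 1 + (exF I J).toNat := by
      have h1 := exF_nonneg I J
      have h2 := exF_nonneg (I + 1) J
      have h3 : exF (I + 1) J + 3 * J = exF I J + 2 * I + 1 := by
        simp only [exF]; push_cast; ring
      omega
    have e2 : (X : A) ^ (3 * J) * X ^ (exF (I + 1) J).toNat = X ^ (2 * I + 1) * X ^ (exF I J).toNat := by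
      rw [← pow_add, ← pow_add, e]
    simp only [tm] at h ⊢
    rw [← wt_succ_left I J] at h
    linear_combination h - (1 - X ^ (I + 1)) * wt (I + 1) J * e2

/-- Evaluation at one. -/
def HS (f : B) (a : A) : Prop := HasSum (fun d => MvPowerSeries.coeff d f) a

theorem HS_iff {f : B} {a : A} : HS f a ↔ HasSum (fun μ : ℕ × ℕ => cB f μ.1 μ.2) a :=
  (e2.hasSum_iff (f := fun d => MvPowerSeries.coeff d f)).symm

theorem HS.add {f g : B} {a b : A} (hf : HS f a) (hg : HS g b) : HS (f + g) (a + b) :=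
  hs_congr (HasSum.add hf hg) fun d => by simp

theorem HS.mul {f g : B} {a b : A} (hf : HS f a) (hg : HS g b) : HS (f * g) (a * b) := by
  have h := summable_mul hf.summable hg.summable
  have h1 := summable_sum_mul_antidiagonal_of_summable_mul h
  have h2 := hf.summable.tsum_mul_tsum_eq_tsum_sum_antidiagonal hg.summable h
  rw [hf.tsum_eq, hg.tsum_eq] at h2
  rw [h2]
  exact hs_congr h1.hasSum fun d => MvPowerSeries.coeff_mul d f g

theorem HS_mn (a b k : ℕ) : HS (mn a b k) (X ^ k) := by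
  refine hs_congr (hasSum_ite_eq (e2 (a, b)) (X ^ k)) fun d => ?_
  rw [mn, MvPowerSeries.coeff_monomial]

theorem cs_eq (a b i j : ℕ) : cs a b i j = tm (ex a b) (i, j) := by
  have : ex a b i j = ((i ^ 2 + 3 * i * j + 3 * j ^ 2 + a * i + 3 * b * j : ℕ) : ℤ) := by
    simp only [ex]; push_cast; ring
  rw [cs, tm, this, Int.toNat_natCast]

theorem HS_U (a b : ℕ) : HS (U a b) (S a b) := by
  rw [HS_iff, ← (Function.Injective.hasSum_iff
    (g := fun μ : ℕ × ℕ => (μ.1 + 3 * μ.2, μ.2)) ?_ ?_)]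
  · refine hs_congr (hasSum_S a b) fun μ => ?_
    simp only [Function.comp, U, cB_mk2]
    rw [if_pos (by omega), Nat.add_sub_cancel, cs_eq]
  · intro x y hxy
    simp only [Prod.mk.injEq] at hxy
    exact Prod.ext (by omega) hxy.2
  · rintro ⟨I, J⟩ hx
    rw [U, cB_mk2, if_neg]
    intro h
    exact hx ⟨(I - 3 * J, J), Prod.ext (by simp only at h ⊢; omega) rfl⟩

theorem HS_W (a b : ℕ) : HS (W a b) (S a b) := by
  rw [HS_iff, ← (Function.Injective.hasSum_iff
    (g := fun μ : ℕ × ℕ => (μ.1, μ.2 + μ.1)) ?_ ?_)]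
  · refine hs_congr (hasSum_S a b) fun μ => ?_
    simp only [Function.comp, W, cB_mk2]
    rw [if_pos (by omega), Nat.add_sub_cancel, cs_eq]
  · intro x y hxy
    simp only [Prod.mk.injEq] at hxy
    exact Prod.ext hxy.1 (by omega)
  · rintro ⟨I, J⟩ hx
    rw [W, cB_mk2, if_neg]
    intro h
    exact hx ⟨(I, J - I), Prod.ext rfl (by simp only at h ⊢; omega)⟩

theorem bilinear : HasSum (tm exF) (S 0 0 * S 0 0 + X * (S 2 1 * S 1 1)) := by
  have h := ((HS_U 0 0).mul (HS_W 0 0)).add ((HS_mn 2 1 1).mul ((HS_U 2 1).mul (HS_W 1 1)))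
  rw [pow_one, ← GG, HS_iff] at h
  exact hs_congr h fun μ => (cB_GG μ.1 μ.2).symm

end Pool.Agent.MP_7258fc_nt.H38
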