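import Pool.Agent.MP_7258fc_nt.H38.Theta

namespace Pool.Agent.MP_7258fc_nt.H38

open Finset

/-- The sign function supported on two sublattices of index seven. -/
def chi (a b : ℤ) : ℤ := (if 7 ∣ a - 2 * b then 1 else 0) - (if 7 ∣ b - 2 * a then 1 else 0)

/-- The weight function. -/
noncomputable def psi (a b : ℤ) : R := q ^ (2 * (Qf (a, b) / 7) - 2) * (chi a b : R)

theorem psi_s1 (a b : ℤ) : psi b a = -psi a b := by
  have h1 : Qf (b, a) = Qf (a, b) := by simp only [Qf]; ring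
  have h2 : chi b a = -chi a b := by simp [chi]
  rw [psi, psi, h1, h2]; push_cast; ring

theorem psi_s2 (a b : ℤ) : psi (a + b) (-b) = -psi a b := by
  have h1 : Qf (a + b, -b) = Qf (a, b) := by simp only [Qf]; ring
  have h2 : chi (a + b) (-b) = -chi a b := by
    simp only [chi]; split_ifs <;> omega
  rw [psi, psi, h1, h2]; push_cast; ring

theorem psi_aff (a b : ℤ) : psi (-a - b + 7) b = -(q ^ (14 - 2 * (2 * a + b)) * psi a b) := by
  have h1 : Qf (-a - b + 7, b) = Qf (a, b) + 7 * (7 - (2 * a + b)) := by simp only [Qf]; ring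
  have h2 : chi (-a - b + 7) b = -chi a b := by
    simp only [chi]; split_ifs <;> omega
  rw [psi, psi, h1, h2, ← mul_assoc, ← zpow_add₀ q_ne]
  push_cast
  rw [mul_neg]
  congr 3
  omega

/-- The basic functional. -/
noncomputable def ell : L →ₗ[R] R := lin fun v => psi (v.1 + 2) (v.2 + 1)

theorem ell_mo (v : V) : ell (mo v) = psi (v.1 + 2) (v.2 + 1) := lin_mo _ _

theorem ell_s1 (g : L) : ell (mo (-1, 1) * s1 g) = -ell g := by
  refine lin_ext (T := ell ∘ₗ LinearMap.mulLeft R (mo (-1, 1)) ∘ₗ s1.toLinearMap) (S := -ell)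
    (fun v => ?_) g
  simp only [LinearMap.comp_apply, AlgHom.toLinearMap_apply, LinearMap.mulLeft_apply, s1_mo,
    mo_mul, ell_mo, LinearMap.neg_apply, Prod.mk_add_mk]
  rw [← psi_s1]; congr 1 <;> ring

theorem ell_s2 (g : L) : ell (mo (1, -2) * s2 g) = -ell g := by
  refine lin_ext (T := ell ∘ₗ LinearMap.mulLeft R (mo (1, -2)) ∘ₗ s2.toLinearMap) (S := -ell)
    (fun v => ?_) g
  simp only [LinearMap.comp_apply, AlgHom.toLinearMap_apply, LinearMap.mulLeft_apply, s2_mo,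
    mo_mul, ell_mo, LinearMap.neg_apply, Prod.mk_add_mk]
  rw [← psi_s2]; congr 1 <;> ring

theorem s2_D2 (f : L) : s2 (D2 f) = D2 f := by
  apply mul_left_cancel₀ ne2'
  have h := D2_key f
  have h2 := congrArg s2 h
  rw [map_mul, map_sub, map_sub, map_mul, map_one, s2_s2, s2_mo] at h2
  have h3 : mo (-1, 2) * mo (1, -2) = 1 := by rw [mo_mul]; exact mo_zero'
  norm_num at h2
  linear_combination h2 + mo (-1, 2) * h + (D2 f - s2 f) * h3

theorem ell_D1 (f : L) : ell (D1 f) = ell f := by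
  have h := congrArg ell (D1_key f)
  have h2 := ell_s1 (D1 f)
  rw [s1_D1] at h2
  rw [sub_mul, one_mul, map_sub, map_sub, h2, ell_s1] at h
  linear_combination (1 / 2 : R) * h

theorem ell_D2 (f : L) : ell (D2 f) = ell f := by
  have h := congrArg ell (D2_key f)
  have h2 := ell_s2 (D2 f)
  rw [s2_D2] at h2
  rw [sub_mul, one_mul, map_sub, map_sub, h2, ell_s2] at h
  linear_combination (1 / 2 : R) * h

theorem ell_M (k : ℤ) (f : L) : ell (M k f) = ell (D0 k f) := by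
  simp only [M_apply, DD_apply, ell_D1, ell_D2]

theorem ell_sub (k : ℤ) {f : L} (h : Inv f) :
    ell (M k f) = ell (M (k - 1) f) + ell (yk k * T (-2) (-1) f) := by
  have := congrArg ell (D0_sub k f)
  rw [h.st, map_sub] at this
  rw [ell_M, ell_M, ← this]; ring

theorem ell_refl (k : ℤ) (f : L) : ell (yk (2 - k) * T (-2) (-1) (st f)) =
    -(q ^ (2 - 2 * k) * ell (yk k * T (-2) (-1) f)) := by
  refine lin_ext
    (T := ell ∘ₗ LinearMap.mulLeft R (yk (2 - k)) ∘ₗ (T (-2) (-1)).toLinearMap ∘ₗ st.toLinearMap)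
    (S := -(q ^ (2 - 2 * k) • (ell ∘ₗ LinearMap.mulLeft R (yk k) ∘ₗ (T (-2) (-1)).toLinearMap)))
    (fun ⟨a, b⟩ => ?_) f
  simp only [LinearMap.comp_apply, AlgHom.toLinearMap_apply, LinearMap.mulLeft_apply, st_mo,
    yk_T, map_smul, ell_mo, LinearMap.neg_apply, LinearMap.smul_apply, smul_eq_mul]
  rw [show -a - b + (2 - k) + 2 = -(a + k + 2) - (b + 1) + 7 by ring, psi_aff, mul_neg,
    ← mul_assoc, ← mul_assoc, ← zpow_add₀ q_ne, ← zpow_add₀ q_ne]
  congr 3
  ring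

theorem ell_y1 {f : L} (h : Inv f) : ell (yk 1 * T (-2) (-1) f) = 0 := by
  have := ell_refl 1 f
  rw [h.st] at this
  norm_num at this
  linear_combination (1 / 2 : R) * this

theorem ell_y2 {f : L} (h : Inv f) :
    ell (yk 2 * T (-2) (-1) f) = -(q ^ 2 * ell (T (-2) (-1) f)) := by
  have := ell_refl 0 f
  rw [h.st, yk_zero, one_mul] at this
  simpa using this

theorem ell_M1 {f : L} (h : Inv f) : ell (M 1 f) = ell (M 0 f) := by
  simpa [ell_y1 h] using ell_sub 1 h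

theorem ell_tau {f : L} (h : Inv f) : ell (T (-2) (-1) f) = ell (M 0 f) - ell (M (-1) f) := by
  have := ell_sub 0 h
  rw [yk_zero, one_mul, zero_sub] at this
  rw [this]; ring

theorem ell_M2 {f : L} (h : Inv f) :
    ell (M 2 f) = ell (M 0 f) - q ^ 2 * (ell (M 0 f) - ell (M (-1) f)) := by
  have := ell_sub 2 h
  rw [ell_y2 h, ell_tau h, show (2 : ℤ) - 1 = 1 by norm_num, ell_M1 h] at this
  rw [this]; ring

theorem ell_P (i j : ℕ) : ell (P i j) = q ^ i * (q ^ j) ^ 3 := by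
  have hq := q_ne
  have step : ∀ i j : ℕ, ell (P (i + 1) j) = q * ell (P i j) := by
    intro i j
    rw [P_succ2, map_smul, ell_M1 (inv_P i j), (act i j).a0, map_smul, smul_eq_mul, smul_eq_mul]
    field_simp
  have all : ∀ j : ℕ, ell (P 0 j) = (q ^ j) ^ 3 → ∀ i, ell (P i j) = q ^ i * (q ^ j) ^ 3 := by
    intro j h i
    induction i with
    | zero => simpa using h
    | succ i ih => rw [step, ih]; ring
  induction j generalizing i with
  | zero =>
    refine all 0 ?_ i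
    rw [P_zero, ← mo_zero', ell_mo]
    norm_num [psi, chi, Qf]
  | succ j ih =>
    refine all (j + 1) ?_ i
    have b1 : M (-1) (P 0 j) = 0 := by simpa using (act 0 j).a1
    rw [P_succ2', map_smul, map_sub, map_smul, ell_M2 (inv_P 0 j), b1, (act 0 j).a0, map_smul, ih,
      ih, map_zero]
    simp only [smul_eq_mul]
    field_simp
    ring

/-- The second functional. -/
noncomputable def ella : L →ₗ[R] R := ell ∘ₗ (T (-2) (-1)).toLinearMap

theorem ella_apply (f : L) : ella f = ell (T (-2) (-1) f) := rfl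

theorem ella_P (i j : ℕ) : ella (P i j) = 1 := by
  have hq := q_ne
  rw [ella_apply, ell_tau (inv_P i j), (act i j).a0, (act i j).a1, map_smul, map_smul, ell_P, ell_P]
  simp only [smul_eq_mul]
  rcases i with _ | i
  · field_simp
    ring
  · rw [Nat.add_sub_cancel]
    field_simp
    ring

/-- The third functional. -/
noncomputable def ellc : L →ₗ[R] R := q • (ella ∘ₗ M 0)

theorem ellc_apply (f : L) : ellc f = q * ella (M 0 f) := rfl

theorem ellc_P (i j : ℕ) : ellc (P i j) = q ^ (1 - (2 * (i : ℤ) + 3 * j)) := by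
  have hq := q_ne
  rw [ellc_apply, (act i j).a0, map_smul, ella_P]
  simp only [smul_eq_mul, zpow_sub₀ hq, zpow_add₀ hq, zpow_mul', zpow_natCast, zpow_ofNat]
  field_simp

theorem Ord.ell {d : ℤ} {f : L} (h : Ord d f) : O (d - 2) (ell f) := by
  refine h.fun H38.ell (e := -2) fun v => ?_
  rw [ell_mo, psi]
  have := Qf_nonneg (v.1 + 2, v.2 + 1)
  exact (O.zpow _).mul' (O.int _) (by omega)

theorem Ord.ella {d : ℤ} {f : L} (h : Ord d f) : O (d - 3) (ella f) := by
  refine h.fun H38.ella (e := -3) fun ⟨a, b⟩ => ?_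
  rw [ella_apply, T_mo, map_smul, ell_mo, psi, smul_eq_mul]
  refine (O.zpow _).mul' ((O.zpow _).mul (O.int _)) ?_
  simp only
  have h1 : Qf (a + 2, b + 1) - 6 ≤ 7 * (Qf (a + 2, b + 1) / 7) := by omega
  generalize Qf (a + 2, b + 1) / 7 = d at *
  simp only [Qf] at h1
  nlinarith [sq_nonneg (b + 1), sq_nonneg (2 * a + b - 2)]

theorem DD_theta : DD (mo (1, 0)) =
    1 + mo (1, 0) + mo (0, 1) + mo (-1, 1) + mo (-1, 0) + mo (0, -1) + mo (1, -1) := by
  have h1 := congrArg DD (D0_sub 1 1)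
  rw [map_sub, ← M_apply, ← M_apply, sub_self, M0_one, map_one st, map_one (T _ _), mul_one, yk,
    map_smul] at h1
  apply ev0_inj
  have h2 := congrArg ev0 h1
  have hQ := (Fr_ev0).nd.hQ
  simp only [map_sub, ev_smul, ev_M Fr_ev0 _ Inv.one, map_one, Mr_one1 Fr_ev0, p1] at h2
  simp only [map_add, map_one]
  rw [zpow_neg_one] at h2
  field_simp at h2
  linear_combination -h2

theorem tau_Th (N : ℤ) : T (-2) (-1) (Th N) = yk 1 * Th N - yk 1 * del N := by
  have e2 : yk 1 * yk (-1) = 1 := by rw [yk_mul]; exact yk_zero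
  rw [del]
  linear_combination (-T (-2) (-1) (Th N)) * e2

/-- Twisted values on the theta function. -/
noncomputable def Lk (a b N : ℤ) : R := ell (mo (a, b) * Th N)

theorem ell_tau_Th (a b K : ℤ) (hK : 0 ≤ K) :
    O (K - 3) (ell (mo (a, b) * T (-2) (-1) (Th (5 * K + 1))) - q⁻¹ * Lk (a + 1) b (5 * K + 1)) := by
  have h := (((ord_del K hK).yk_mul 1).mo_mul (a, b)).ell.neg
  have e : mo (a, b) * (yk 1 * Th (5 * K + 1)) = q⁻¹ • (mo (a + 1, b) * Th (5 * K + 1)) := by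
    rw [yk, smul_mul_assoc, mul_smul_comm, ← mul_assoc, mo_mul]; simp
  rw [tau_Th, mul_sub, map_sub, e, map_smul, Lk, smul_eq_mul, sub_sub_cancel_left]
  exact h.mono (by omega)

theorem Lk_zero1 (N : ℤ) : Lk 0 1 N = 0 := by
  have := ell_s1 (mo (0, 1) * Th N)
  rw [map_mul s1, (inv_Th N).h1, s1_mo, ← mul_assoc, mo_mul] at this
  norm_num at this
  rw [Lk]
  linear_combination (1 / 2 : R) * this

theorem Lk_zero2 (a N : ℤ) : Lk a (-1) N = 0 := by
  have := ell_s2 (mo (a, -1) * Th N)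
  rw [map_mul s2, (inv_Th N).h2, s2_mo, ← mul_assoc, mo_mul] at this
  norm_num at this
  rw [Lk]
  linear_combination (1 / 2 : R) * this

theorem ella_Th (K : ℤ) (hK : 0 ≤ K) :
    O (K - 3) (ella (Th (5 * K + 1)) - q⁻¹ * Lk 1 0 (5 * K + 1)) := by
  simpa [mo_zero', ella_apply] using ell_tau_Th 0 0 K hK

theorem ellc_Th (K : ℤ) (hK : 0 ≤ K) :
    O (K - 4) (ellc (Th (5 * K + 1)) - ((1 + q) * (q⁻¹ * Lk 1 0 (5 * K + 1))
      + q * Lk 0 0 (5 * K + 1) + q * (q⁻¹ ^ 3 * Lk 1 1 (5 * K + 1)))) := by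
  have hq := q_ne
  set Θ := Th (5 * K + 1) with hΘ
  have hi : Inv Θ := inv_Th _
  have h1 := congrArg DD (D0_sub 0 Θ)
  rw [map_sub, ← M_apply, ← M_apply, yk_zero, one_mul, hi.st, hΘ, tau_Th, ← hΘ, map_sub, yk,
    smul_mul_assoc, map_smul, DD_mul _ hi, DD_theta, ← yk, zero_sub] at h1
  have h2 : M 0 Θ = Θ + q ^ (-1 : ℤ) • ((1 + mo (1, 0) + mo (0, 1) + mo (-1, 1) + mo (-1, 0)
      + mo (0, -1) + mo (1, -1)) * Θ) + ((M (-1) Θ - Θ) - DD (yk 1 * del (5 * K + 1))) := by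
    linear_combination h1
  have a0 := (((ord_Mm1_Th K hK).mono (show K - 1 ≤ K by omega)).sub
    ((ord_del K hK).yk_mul 1).DD).ella
  have a1 := ella_Th K hK
  have a2 := ell_y1 hi
  have a3 := ell_tau_Th 0 1 K hK
  have a4 := ell_tau_Th (-1) 1 K hK
  have a5 := ell_tau_Th (-1) 0 K hK
  have a6 := ell_tau_Th 0 (-1) K hK
  have a7 := ell_tau_Th 1 (-1) K hK
  rw [yk, smul_mul_assoc, map_smul, smul_eq_zero] at a2
  have a2' := a2.resolve_left (zpow_ne_zero _ hq)
  simp only [zero_add, neg_add_cancel, Lk_zero1, Lk_zero2, mul_zero, sub_zero, ← hΘ]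
    at a0 a1 a3 a4 a5 a6 a7
  have key : ellc Θ - ((1 + q) * (q⁻¹ * Lk 1 0 (5 * K + 1))
      + q * Lk 0 0 (5 * K + 1) + q * (q⁻¹ ^ 3 * Lk 1 1 (5 * K + 1))) =
      q ^ (1 : ℤ) * ella ((M (-1) Θ - Θ) - DD (yk 1 * del (5 * K + 1)))
      + (1 + q) * (ella Θ - q⁻¹ * Lk 1 0 (5 * K + 1))
      + q ^ (-1 : ℤ) * (ell (mo (0, 1) * T (-2) (-1) Θ) - q⁻¹ * Lk 1 1 (5 * K + 1))
      + q ^ (1 : ℤ) * ell (mo (-1, 1) * T (-2) (-1) Θ)
      + q ^ (2 : ℤ) * (ell (mo (-1, 0) * T (-2) (-1) Θ) - q⁻¹ * Lk 0 0 (5 * K + 1))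
      + q ^ (1 : ℤ) * ell (mo (0, -1) * T (-2) (-1) Θ)
      + q ^ (-1 : ℤ) * ell (mo (1, -1) * T (-2) (-1) Θ) := by
    rw [ellc_apply, h2, map_add, map_add, map_smul, ella_apply (_ * _)]
    simp only [map_mul, map_add, T_mo, add_mul, one_mul, smul_mul_assoc, map_smul,
      smul_eq_mul, a2', ← ella_apply Θ]
    norm_num
    field_simp
    ring
  rw [key]
  refine (((((((O.zpow _).mul' a0 ?_).add ((O.one.add (O.q.mono ?_)).mul' a1 ?_)).add
    ((O.zpow _).mul' a3 ?_)).add ((O.zpow _).mul' a4 ?_)).add ((O.zpow _).mul' a5 ?_)).add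
    ((O.zpow _).mul' a6 ?_)).add ((O.zpow _).mul' a7 ?_) <;> omega

end Pool.Agent.MP_7258fc_nt.H38
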