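import Pool.Agent.MP_7258fc_nt.H38.Adic

namespace Pool.Agent.MP_7258fc_nt.H38

open PowerSeries Finset Filter Topology
open scoped PowerSeries.WithPiTopology

/-- A term of a double sum with exponent function `E`. -/
noncomputable def tm (E : ℕ → ℕ → ℤ) (μ : ℕ × ℕ) : A := X ^ (E μ.1 μ.2).toNat * wt μ.1 μ.2

theorem summable_tm (E : ℕ → ℕ → ℤ) (h : ∀ i j : ℕ, (i : ℤ) + j - 8 ≤ 2 * E i j) :
    Summable (tm E) := by
  refine summable_pow (fun μ : ℕ × ℕ => E μ.1 μ.2) (fun μ => wt μ.1 μ.2) fun K => ?_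
  refine ((range (2 * K + 8).toNat ×ˢ range (2 * K + 8).toNat).finite_toSet).subset fun μ hμ => ?_
  have := h μ.1 μ.2
  simp only [Set.mem_ofPred_eq] at hμ
  simp only [coe_product, coe_range, Set.mem_prod, Set.mem_Iio]
  omega

theorem tm_congr {E E' : ℕ → ℕ → ℤ} {a : A} (h : HasSum (tm E) a) (e : ∀ i j, E' i j = E i j) :
    HasSum (tm E') a := hs_congr h fun μ => by simp only [tm, e]

theorem hasSum_left {E : ℕ → ℕ → ℤ} {a b : A} (h0 : ∀ i j, 0 ≤ E i j)
    (h1 : HasSum (tm fun i j => E i j + i) a) (h2 : HasSum (tm fun i j => E (i + 1) j) b) :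
    HasSum (tm E) (a + b) := by
  have h3 : HasSum (fun μ : ℕ × ℕ => (1 - X ^ μ.1) * tm E μ) b := by
    rw [← (Function.Injective.hasSum_iff (g := fun μ : ℕ × ℕ => (μ.1 + 1, μ.2)) ?_ ?_)]
    · refine hs_congr h2 fun μ => ?_
      simp only [Function.comp, tm]
      rw [← wt_succ_left μ.1 μ.2]; ring
    · intro x y hxy
      simp only [Prod.mk.injEq] at hxy
      exact Prod.ext (by omega) hxy.2
    · rintro ⟨i, j⟩ hx
      rcases i with _ | i
      · simp
      · exact absurd ⟨(i, j), rfl⟩ hx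
  refine hs_congr (h1.add h3) fun μ => ?_
  simp only [tm]
  have := h0 μ.1 μ.2
  rw [show (E μ.1 μ.2 + μ.1).toNat = (E μ.1 μ.2).toNat + μ.1 by omega]
  ring

theorem hasSum_right {E : ℕ → ℕ → ℤ} {a b : A} (h0 : ∀ i j, 0 ≤ E i j)
    (h1 : HasSum (tm fun i j => E i j + 3 * j) a) (h2 : HasSum (tm fun i j => E i (j + 1)) b) :
    HasSum (tm E) (a + b) := by
  have h3 : HasSum (fun μ : ℕ × ℕ => (1 - X ^ (3 * μ.2)) * tm E μ) b := by
    rw [← (Function.Injective.hasSum_iff (g := fun μ : ℕ × ℕ => (μ.1, μ.2 + 1)) ?_ ?_)]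
    · refine hs_congr h2 fun μ => ?_
      simp only [Function.comp, tm]
      rw [← wt_succ_right μ.1 μ.2]; ring
    · intro x y hxy
      simp only [Prod.mk.injEq] at hxy
      exact Prod.ext hxy.1 (by omega)
    · rintro ⟨i, j⟩ hx
      rcases j with _ | j
      · simp
      · exact absurd ⟨(i, j), rfl⟩ hx
  refine hs_congr (h1.add h3) fun μ => ?_
  simp only [tm]
  have := h0 μ.1 μ.2
  rw [show (E μ.1 μ.2 + 3 * μ.2).toNat = (E μ.1 μ.2).toNat + 3 * μ.2 by omega]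
  ring

theorem hasSum_shift {E : ℕ → ℕ → ℤ} {a : A} (h0 : ∀ i j, 0 ≤ E i j)
    (h1 : HasSum (tm E) a) : HasSum (tm fun i j => E i j + 1) (X * a) := by
  refine hs_congr (h1.mul_left X) fun μ => ?_
  simp only [tm]
  have := h0 μ.1 μ.2
  rw [show (E μ.1 μ.2 + 1).toNat = (E μ.1 μ.2).toNat + 1 by omega]
  ring

/-- The exponent of the Kanade and Russell double sums. -/
def ex (a b : ℤ) (i j : ℕ) : ℤ := (i : ℤ) ^ 2 + 3 * i * j + 3 * j ^ 2 + a * i + 3 * b * j

/-- The Kanade and Russell double sums. -/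
noncomputable def S (a b : ℕ) : A := ∑' μ, tm (ex a b) μ

theorem hasSum_S (a b : ℕ) : HasSum (tm (ex a b)) (S a b) := by
  refine (summable_tm _ fun i j => ?_).hasSum
  simp only [ex]
  have hi : (0 : ℤ) ≤ i := by positivity
  have hj : (0 : ℤ) ≤ j := by positivity
  have ha : (0 : ℤ) ≤ a * i := by positivity
  have hb : (0 : ℤ) ≤ b * j := by positivity
  nlinarith [sq_nonneg ((i : ℤ) - 1), sq_nonneg ((j : ℤ) - 1), mul_nonneg hi hj]

theorem sq_ge (i : ℕ) : (i : ℤ) ≤ (i : ℤ) ^ 2 := by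
  rcases i with _ | i
  · simp
  · push_cast; nlinarith [Int.natCast_nonneg i]

theorem hasSum_c : HasSum (tm fun i j => ex (-2) (-1) i j + 1)
    (X * (S 1 1 + S 0 0 + S 2 1) + S 0 0) := by
  have p : ∀ i j : ℕ, (0 : ℤ) ≤ i * j := fun i j => by positivity
  have h1 : HasSum (tm (ex (-1) 0)) (S 0 0 + S 1 1) := by
    refine hasSum_left (fun i j => ?_) ?_ ?_
    · simp only [ex]; nlinarith [sq_ge i, sq_ge j, p i j]
    · exact tm_congr (hasSum_S 0 0) fun i j => by simp only [ex]; push_cast; ring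
    · exact tm_congr (hasSum_S 1 1) fun i j => by simp only [ex]; push_cast; ring
  have h0 : ∀ i j, 0 ≤ ex (-1) (-1) i j := fun i j => by
    simp only [ex]; nlinarith [sq_ge i, sq_ge j, p i j]
  have h2 : HasSum (tm (ex (-1) (-1))) (S 0 0 + S 1 1 + S 2 1) := by
    refine hasSum_right h0 ?_ ?_
    · exact tm_congr (h1) fun i j => by simp only [ex]; ring
    · exact tm_congr (hasSum_S 2 1) fun i j => by simp only [ex]; push_cast; ring
  rw [add_comm (S 1 1)]
  refine hasSum_left (fun i j => ?_) ?_ ?_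
  · simp only [ex]; nlinarith [sq_nonneg ((i : ℤ) - 1), sq_ge j, p i j]
  · exact tm_congr (hasSum_shift h0 h2) fun i j => by simp only [ex]; ring
  · exact tm_congr (hasSum_S 0 0) fun i j => by simp only [ex]; push_cast; ring

/-- A term of a hexagonal theta series. -/
noncomputable def G (α β γ : ℤ) (p : ℤ × ℤ) : A :=
  X ^ (9 * (p.1 ^ 2 + p.1 * p.2 + p.2 ^ 2) - α * p.1 - β * p.2 + γ).toNat

/-- A hexagonal theta series. -/
noncomputable def GS (α β γ : ℤ) : A := ∑' p, G α β γ p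

theorem hasSum_G (α β γ : ℤ) : HasSum (G α β γ) (GS α β γ) := by
  refine Summable.hasSum ?_
  have := summable_pow (fun p : ℤ × ℤ => 9 * (p.1 ^ 2 + p.1 * p.2 + p.2 ^ 2) - α * p.1 - β * p.2 + γ)
    (fun _ => 1) fun K => ?_
  · exact (hs_congr this.hasSum fun p => by simp only [G, mul_one]).summable
  set N := K + α ^ 2 + β ^ 2 - γ with hN
  refine ((Icc (-N) N ×ˢ Icc (-N) N).finite_toSet).subset fun ⟨u, w⟩ hp => ?_
  simp only [Set.mem_ofPred_eq] at hp
  have h1 : u ^ 2 + w ^ 2 < N := by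
    nlinarith [sq_nonneg (2 * u - α), sq_nonneg (2 * w - β), sq_nonneg (u + w), sq_nonneg α,
      sq_nonneg β, sq_nonneg u, sq_nonneg w]
  simp only [coe_product, coe_Icc, Set.mem_prod, Set.mem_Icc]
  refine ⟨⟨?_, ?_⟩, ?_, ?_⟩ <;>
    nlinarith [sq_nonneg (2 * u - 1), sq_nonneg (2 * u + 1), sq_nonneg (2 * w - 1),
      sq_nonneg (2 * w + 1), sq_nonneg u, sq_nonneg w]

theorem G_exp_nonneg {α β γ : ℤ} (h : -108 < 108 * γ - 3 * α ^ 2 - (2 * β - α) ^ 2) (u w : ℤ) :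
    0 ≤ 9 * (u ^ 2 + u * w + w ^ 2) - α * u - β * w + γ := by
  have : -108 < 108 * (9 * (u ^ 2 + u * w + w ^ 2) - α * u - β * w + γ) := by
    nlinarith [sq_nonneg (18 * u + 9 * w - α), sq_nonneg (27 * w - 2 * β + α)]
  omega

end Pool.Agent.MP_7258fc_nt.H38
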