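import Pool.Agent.MP_7258fc_nt.H38.JTP
import Pool.Agent.MP_7258fc_nt.H38.Sums

namespace Pool.Agent.MP_7258fc_nt.H38

open PowerSeries Finset Filter Topology
open scoped PowerSeries.WithPiTopology

/-- A term of the triple sum. -/
noncomputable def f3 (a b : ℕ) (x : (ℤ × ℤ) × ℤ) : A :=
  jt 9 a x.1.1 * jt 9 b x.1.2 * jt 9 (a + b) x.2

theorem mac_class {a b : ℕ} (hab : a + b ≤ 9) (c α β γ : ℤ) (hc : 0 ≤ c ∧ c < 3) (ac : ℕ)
    (hac : ac ≤ 27)
    (he : ∀ u w n : ℤ, je 9 a (-w - n) + je 9 b (u + w + c - n) + je 9 (a + b) (n + u) =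
      9 * (u ^ 2 + u * w + w ^ 2) - α * u - β * w + γ + je 27 ac n)
    {s : A} (hs : HasSum (jt 27 ac) s) :
    HasSum (fun x : (ℤ × ℤ) × ℤ => if (x.1.1 + x.1.2 + 2 * x.2) % 3 = c then f3 a b x else 0)
      (sg c * (GS α β γ * s)) := by
  rw [← (Function.Injective.hasSum_iff (g := fun x : (ℤ × ℤ) × ℤ =>
    (((-x.1.2 - x.2, x.1.1 + x.1.2 + c - x.2), x.2 + x.1.1) : (ℤ × ℤ) × ℤ)) ?_ ?_)]
  · refine hs_congr ((hasSum_mul (hasSum_G α β γ) hs).mul_left (sg c)) fun ⟨⟨u, w⟩, n⟩ => ?_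
    simp only [Function.comp, f3, jt]
    rw [if_pos (by omega)]
    have p1 := je_nonneg (m := 9) (a := a) (by omega)
    have p2 := je_nonneg (m := 9) (a := b) (by omega)
    have p3 := je_nonneg (m := 9) (a := a + b) hab
    have h0 : 0 ≤ 9 * (u ^ 2 + u * w + w ^ 2) - α * u - β * w + γ := by
      have := he u w 0
      have h1 : je 27 ac 0 = 0 := by simp [je, tri]
      rw [h1, add_zero] at this
      rw [← this]
      exact add_nonneg (add_nonneg (p1 _) (p2 _)) (p3 _)
    have h1 : xp (je 9 a (-w - n)) * xp (je 9 b (u + w + c - n)) * xp (je 9 (a + b) (n + u)) =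
        G α β γ (u, w) * xp (je 27 ac n) := by
      rw [← xp_add (p1 _) (p2 _), ← xp_add (add_nonneg (p1 _) (p2 _)) (p3 _), he,
        xp_add h0 (je_nonneg hac n)]
      rfl
    have h2 : sg (-w - n) * sg (u + w + c - n) * sg (n + u) = sg c * sg n := by
      rw [← sg_add, ← sg_add, ← sg_add]
      exact sg_congr (by omega)
    linear_combination (sg (-w - n) * sg (u + w + c - n) * sg (n + u)) * h1
      + (G α β γ (u, w) * xp (je 27 ac n)) * h2
  · rintro ⟨⟨u, w⟩, n⟩ ⟨⟨u', w'⟩, n'⟩ h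
    simp only [Prod.mk.injEq] at h ⊢
    omega
  · rintro ⟨⟨k, l⟩, m⟩ hx
    rw [if_neg]
    intro h
    simp only at h
    refine hx ⟨(((k + l + 2 * m) / 3, -k - m + (k + l + 2 * m) / 3), m - (k + l + 2 * m) / 3), ?_⟩
    simp only [Prod.mk.injEq]
    omega

theorem hasProd_res {m a : ℕ} (h : a < m) :
    HasProd (fun n : ℕ => if n % m = a then (1 - X ^ n : A) else 1) (pr m a) := by
  have hm : m ≠ 0 := by omega
  rw [← (Function.Injective.hasProd_iff (g := fun n : ℕ => m * n + a) ?_ ?_)]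
  · refine hp_congr (hasProd_pr m a hm) fun n => ?_
    simp only [Function.comp]
    rw [if_pos (by rw [Nat.mul_add_mod, Nat.mod_eq_of_lt h])]
  · intro x y hxy
    exact Nat.eq_of_mul_eq_mul_left (by omega) (Nat.add_right_cancel hxy)
  · intro n hn
    rw [if_neg]
    intro h1
    exact hn ⟨n / m, by simp only; rw [← h1, Nat.div_add_mod]⟩

theorem hasProd_res0 {m : ℕ} (hm : m ≠ 0) :
    HasProd (fun n : ℕ => if n % m = 0 ∧ n ≠ 0 then (1 - X ^ n : A) else 1) (pr m m) := by
  rw [← (Function.Injective.hasProd_iff (g := fun n : ℕ => m * n + m) ?_ ?_)]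
  · refine hp_congr (hasProd_pr m m hm) fun n => ?_
    simp only [Function.comp]
    rw [if_pos ⟨by simp, by omega⟩]
  · intro x y hxy
    exact Nat.eq_of_mul_eq_mul_left (by omega) (Nat.add_right_cancel hxy)
  · intro n hn
    rw [if_neg]
    rintro ⟨h1, h2⟩
    obtain ⟨k, rfl⟩ := Nat.dvd_of_mod_eq_zero h1
    rcases k with _ | k
    · simp at h2
    · exact hn ⟨k, by simp only; ring⟩

theorem pr99 : pr 27 9 * pr 27 18 * pr 27 27 = pr 9 9 := by
  refine HasProd.unique (((hasProd_res (by norm_num)).mul (hasProd_res (by norm_num))).mul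
    (hasProd_res0 (by norm_num))) (hp_congr (hasProd_res0 (by norm_num)) fun n => ?_)
  split_ifs <;> first | omega | simp

theorem pr33 : pr 9 3 * pr 9 6 * pr 9 9 = pr 3 3 := by
  refine HasProd.unique (((hasProd_res (by norm_num)).mul (hasProd_res (by norm_num))).mul
    (hasProd_res0 (by norm_num))) (hp_congr (hasProd_res0 (by norm_num)) fun n => ?_)
  split_ifs <;> first | omega | simp

theorem pr31 : pr 9 1 * pr 9 4 * pr 9 7 = pr 3 1 := by
  refine HasProd.unique (((hasProd_res (by norm_num)).mul (hasProd_res (by norm_num))).mul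
    (hasProd_res (by norm_num))) (hp_congr (hasProd_res (by norm_num)) fun n => ?_)
  split_ifs <;> first | omega | simp

theorem pr32 : pr 9 2 * pr 9 5 * pr 9 8 = pr 3 2 := by
  refine HasProd.unique (((hasProd_res (by norm_num)).mul (hasProd_res (by norm_num))).mul
    (hasProd_res (by norm_num))) (hp_congr (hasProd_res (by norm_num)) fun n => ?_)
  split_ifs <;> first | omega | simp

theorem pr11 : pr 3 1 * pr 3 2 * pr 3 3 = pr 1 1 := by
  refine HasProd.unique (((hasProd_res (by norm_num)).mul (hasProd_res (by norm_num))).mul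
    (hasProd_res0 (by norm_num))) (hp_congr (hasProd_res0 (by norm_num)) fun n => ?_)
  split_ifs <;> first | omega | simp

theorem mac {a b : ℕ} (ha : 0 < a) (hb : 0 < b) (hab : a + b < 9) :
    pr 9 a * pr 9 (9 - a) * pr 9 9 * (pr 9 b * pr 9 (9 - b) * pr 9 9) *
      (pr 9 (a + b) * pr 9 (9 - (a + b)) * pr 9 9) =
    pr 9 9 * (GS (9 - a - 2 * b) (a - b) 0 - GS (-a - 2 * b) (a - b - 9) b) := by
  have h := hasSum_mul (hasSum_mul (jtp ha (show a < 9 by omega)) (jtp hb (show b < 9 by omega)))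
    (jtp (show 0 < a + b by omega) hab)
  have c0 := mac_class hab.le 0 (9 - a - 2 * b) (a - b) 0 (by norm_num) 18 (by norm_num)
    (fun u w n => by
      have h1 := two_tri (-w - n)
      have h2 := two_tri (u + w + 0 - n)
      have h3 := two_tri (n + u)
      have h4 := two_tri n
      simp only [je]; push_cast; linarith) (jtp (by norm_num) (by norm_num))
  have c1 := mac_class hab.le 1 (-a - 2 * b) (a - b - 9) b (by norm_num) 9 (by norm_num)
    (fun u w n => by
      have h1 := two_tri (-w - n)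
      have h2 := two_tri (u + w + 1 - n)
      have h3 := two_tri (n + u)
      have h4 := two_tri n
      simp only [je]; push_cast; linarith) (jtp (by norm_num) (by norm_num))
  have c2 := mac_class hab.le 2 (-9 - a - 2 * b) (a - b - 18) (9 + 2 * b) (by norm_num) 0
    (by norm_num) (fun u w n => by
      have h1 := two_tri (-w - n)
      have h2 := two_tri (u + w + 2 - n)
      have h3 := two_tri (n + u)
      have h4 := two_tri n
      simp only [je]; push_cast; linarith) (jtp_zero (by norm_num))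
  have e := h.unique (hs_congr ((c0.add c1).add c2) fun x => by
    change f3 a b x = _
    split_ifs <;> first | omega | simp)
  rw [e, ← pr99]
  norm_num [sg]
  ring

theorem GS_sw (α β γ : ℤ) : GS α β γ = GS β α γ := by
  rw [GS, GS, ← (Equiv.prodComm ℤ ℤ).tsum_eq]
  refine tsum_congr fun p => ?_
  simp only [G, Equiv.prodComm_apply, Prod.fst_swap, Prod.snd_swap]
  congr 2; ring

theorem GS_neg (α β γ : ℤ) : GS α β γ = GS (-α) (-β) γ := by
  rw [GS, GS, ← (Equiv.neg (ℤ × ℤ)).tsum_eq]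
  refine tsum_congr fun p => ?_
  simp only [G, Equiv.neg_apply, Prod.fst_neg, Prod.snd_neg]
  congr 2; ring

theorem GS_sh (α β γ : ℤ) : GS α β γ = GS α (α - β) γ := by
  let e : ℤ × ℤ ≃ ℤ × ℤ := Function.Involutive.toPerm (fun p => (p.1 + p.2, -p.2))
    (fun p => by simp)
  rw [GS, GS, ← e.tsum_eq]
  refine tsum_congr fun p => ?_
  rw [show e p = (p.1 + p.2, -p.2) from rfl]
  simp only [G]
  congr 2; ring

theorem GS_tr (α β γ : ℤ) : GS α β γ = GS (α - 18) (β - 9) (γ + 9 - α) := by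
  rw [GS, GS, ← (Equiv.addRight ((1, 0) : ℤ × ℤ)).tsum_eq]
  refine tsum_congr fun p => ?_
  simp only [G, Equiv.coe_addRight, Prod.fst_add, Prod.snd_add]
  congr 2; ring

theorem mac_a : pr 9 9 * (GS 19 8 10 - GS 17 16 10) =
    pr 9 4 * pr 9 5 * pr 9 9 * (pr 9 2 * pr 9 7 * pr 9 9) * (pr 9 6 * pr 9 3 * pr 9 9) := by
  have h := mac (a := 4) (b := 2) (by norm_num) (by norm_num) (by norm_num)
  have e1 : GS 19 8 10 = GS 1 2 0 := by
    rw [GS_sh, GS_tr]; norm_num
  have e2 : GS 17 16 10 = GS (-8) (-7) 2 := by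
    rw [GS_sh, GS_tr, GS_sw, GS_sh]; norm_num
  norm_num at h
  rw [e1, e2, h]

theorem mac_b : pr 9 9 * (GS 14 7 5 - GS 13 11 5) =
    pr 9 3 * pr 9 6 * pr 9 9 * (pr 9 1 * pr 9 8 * pr 9 9) * (pr 9 4 * pr 9 5 * pr 9 9) := by
  have h := mac (a := 3) (b := 1) (by norm_num) (by norm_num) (by norm_num)
  have e1 : GS 14 7 5 = GS 4 2 0 := by
    rw [GS_tr, GS_neg]; norm_num
  have e2 : GS 13 11 5 = GS (-5) (-7) 1 := by
    rw [GS_sh, GS_tr]; norm_num
  norm_num at h
  rw [e1, e2, h]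

theorem mac_c : pr 9 9 * (GS 23 13 14 - GS 22 17 14) =
    pr 9 2 * pr 9 7 * pr 9 9 * (pr 9 1 * pr 9 8 * pr 9 9) * (pr 9 3 * pr 9 6 * pr 9 9) := by
  have h := mac (a := 2) (b := 1) (by norm_num) (by norm_num) (by norm_num)
  have e1 : GS 23 13 14 = GS 5 1 0 := by
    rw [GS_sh, GS_tr]; norm_num
  have e2 : GS 22 17 14 = GS (-4) (-8) 1 := by
    rw [GS_tr, GS_neg]; norm_num
  norm_num at h
  rw [e1, e2, h]

theorem isUnit_pr {m a : ℕ} (hm : m ≠ 0) (ha : a ≠ 0) : IsUnit (pr m a) := by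
  have h := pr_dvd hm a 1
  rw [pow_one, X_dvd_iff] at h
  rw [isUnit_iff_constantCoeff]
  simp [ha, sub_eq_zero] at h
  simp [h]

end Pool.Agent.MP_7258fc_nt.H38
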