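import Pool.Agent.MP_7258fc_nt.H38.KR
import Pool.Agent.MP_7258fc_nt.H38.Mac
import Pool.Agent.MP_7258fc_nt.H38.Bilin

namespace Pool.Agent.MP_7258fc_nt.H38

open PowerSeries Finset Filter Topology
open scoped PowerSeries.WithPiTopology

theorem u9 (a : ℕ) (ha : a ≠ 0) : pr 9 a ≠ 0 := (isUnit_pr (by norm_num) ha).ne_zero

theorem E_eq : pr 1 1 * pr 3 3 = pr 9 1 * pr 9 4 * pr 9 7 * (pr 9 2 * pr 9 5 * pr 9 8) *
    (pr 9 3 * pr 9 6 * pr 9 9) * (pr 9 3 * pr 9 6 * pr 9 9) := by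
  rw [pr31, pr32, pr33, pr11]

theorem S00_prod : S 0 0 * (pr 9 1 * pr 9 3 * pr 9 6 * pr 9 8) = 1 := by
  have h := mac_a
  rw [KR_a, E_eq] at h
  apply mul_left_cancel₀ (a := pr 9 2 * pr 9 3 * pr 9 4 * pr 9 5 * pr 9 6 * pr 9 7 * pr 9 9 ^ 3)
  · simp [u9]
  · linear_combination h

theorem S11_prod : S 1 1 * (pr 9 2 * pr 9 3 * pr 9 6 * pr 9 7) = 1 := by
  have h := mac_b
  rw [KR_b, E_eq] at h
  apply mul_left_cancel₀ (a := pr 9 1 * pr 9 3 * pr 9 4 * pr 9 5 * pr 9 6 * pr 9 8 * pr 9 9 ^ 3)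
  · simp [u9]
  · linear_combination h

theorem S21_prod : S 2 1 * (pr 9 3 * pr 9 4 * pr 9 5 * pr 9 6) = 1 := by
  have h := mac_c
  rw [KR_c, E_eq] at h
  apply mul_left_cancel₀ (a := pr 9 1 * pr 9 2 * pr 9 3 * pr 9 6 * pr 9 7 * pr 9 8 * pr 9 9 ^ 3)
  · simp [u9]
  · linear_combination h

theorem inv_prod {p : ℕ → Prop} [DecidablePred p] (hp : ¬ p 0) (e : ℕ) {s : A}
    (h : HasProd (fun n : ℕ => if p n then (1 - X ^ n : A) else 1) s) :
    Multipliable (fun n : ℕ => if p n then Ring.inverse ((1 - X ^ n : A) ^ e) else 1) ∧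
      (∏' n : ℕ, if p n then Ring.inverse ((1 - X ^ n : A) ^ e) else 1) * s ^ e = 1 := by
  have hu : ∀ n, p n → Ring.inverse ((1 - X ^ n : A) ^ e) * (1 - X ^ n) ^ e = 1 := fun n hn =>
    Ring.inverse_mul_cancel _ ((isUnit_one_sub n (by rintro rfl; exact hp hn)).pow e)
  have hm : Multipliable (fun n : ℕ => if p n then Ring.inverse ((1 - X ^ n : A) ^ e) else 1) := by
    refine multipliable_of_dvd fun n => ?_
    split_ifs with hn
    · have h1 : (X : A) ^ n ∣ 1 - (1 - X ^ n) ^ e := by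
        have := sub_dvd_pow_sub_pow (1 : A) (1 - X ^ n) e
        rwa [sub_sub_cancel, one_pow] at this
      have := h1.mul_left (Ring.inverse ((1 - X ^ n : A) ^ e))
      rwa [mul_sub, mul_one, hu n hn] at this
    · simp
  refine ⟨hm, HasProd.unique (hm.hasProd.mul (h.pow e)) (hp_congr hasProd_one fun n => ?_)⟩
  split_ifs with hn
  · exact hu n hn
  · simp

theorem hp1 : HasProd (fun n : ℕ => if n % 9 = 1 ∨ n % 9 = 8 ∨ n % 9 = 3 ∨ n % 9 = 6 then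
    (1 - X ^ n : A) else 1) (pr 9 1 * pr 9 3 * pr 9 6 * pr 9 8) := by
  refine hp_congr ((((hasProd_res (by norm_num)).mul (hasProd_res (by norm_num))).mul
    (hasProd_res (by norm_num))).mul (hasProd_res (by norm_num))) fun n => ?_
  split_ifs <;> first | omega | simp

theorem hp2 : HasProd (fun n : ℕ => if n % 9 = 3 ∨ n % 9 = 6 then
    (1 - X ^ n : A) else 1) (pr 9 3 * pr 9 6) := by
  refine hp_congr ((hasProd_res (by norm_num)).mul (hasProd_res (by norm_num))) fun n => ?_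
  split_ifs <;> first | omega | simp

theorem hp3 : HasProd (fun n : ℕ => if n % 9 = 2 ∨ n % 9 = 7 ∨ n % 9 = 4 ∨ n % 9 = 5 then
    (1 - X ^ n : A) else 1) (pr 9 2 * pr 9 4 * pr 9 5 * pr 9 7) := by
  refine hp_congr ((((hasProd_res (by norm_num)).mul (hasProd_res (by norm_num))).mul
    (hasProd_res (by norm_num))).mul (hasProd_res (by norm_num))) fun n => ?_
  split_ifs <;> first | omega | simp

theorem final :
    Multipliable (fun n : ℕ => if n % 9 = 1 ∨ n % 9 = 8 ∨ n % 9 = 3 ∨ n % 9 = 6 then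
      Ring.inverse ((1 - X ^ n : A) ^ 2) else 1) ∧
    Multipliable (fun n : ℕ => if n % 9 = 3 ∨ n % 9 = 6 then
      Ring.inverse ((1 - X ^ n : A) ^ 2) else 1) ∧
    Multipliable (fun n : ℕ => if n % 9 = 2 ∨ n % 9 = 7 ∨ n % 9 = 4 ∨ n % 9 = 5 then
      Ring.inverse (1 - X ^ n : A) else 1) ∧
    HasSum (tm exF)
      ((∏' n : ℕ, if n % 9 = 1 ∨ n % 9 = 8 ∨ n % 9 = 3 ∨ n % 9 = 6 then
          Ring.inverse ((1 - X ^ n : A) ^ 2) else 1) +
        X * (∏' n : ℕ, if n % 9 = 3 ∨ n % 9 = 6 then Ring.inverse ((1 - X ^ n : A) ^ 2) else 1) *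
          ∏' n : ℕ, if n % 9 = 2 ∨ n % 9 = 7 ∨ n % 9 = 4 ∨ n % 9 = 5 then
            Ring.inverse (1 - X ^ n : A) else 1) := by
  obtain ⟨m1, e1⟩ := inv_prod (by norm_num) 2 hp1
  obtain ⟨m2, e2⟩ := inv_prod (by norm_num) 2 hp2
  obtain ⟨m3, e3⟩ := inv_prod (by norm_num) 1 hp3
  simp only [pow_one] at m3 e3
  refine ⟨m1, m2, m3, ?_⟩
  have a := S00_prod
  have b := S11_prod
  have c := S21_prod
  generalize (∏' n : ℕ, if n % 9 = 1 ∨ n % 9 = 8 ∨ n % 9 = 3 ∨ n % 9 = 6 then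
    Ring.inverse ((1 - X ^ n : A) ^ 2) else 1) = T1 at *
  generalize (∏' n : ℕ, if n % 9 = 3 ∨ n % 9 = 6 then
    Ring.inverse ((1 - X ^ n : A) ^ 2) else 1) = T2 at *
  generalize (∏' n : ℕ, if n % 9 = 2 ∨ n % 9 = 7 ∨ n % 9 = 4 ∨ n % 9 = 5 then
    Ring.inverse (1 - X ^ n : A) else 1) = T3 at *
  have h1 : T1 = S 0 0 * S 0 0 := by
    linear_combination (S 0 0 * S 0 0) * e1
      - T1 * (1 + S 0 0 * (pr 9 1 * pr 9 3 * pr 9 6 * pr 9 8)) * a
  have h2 : T2 * T3 = S 2 1 * S 1 1 := by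
    linear_combination (S 2 1 * S 1 1 * T3 * (pr 9 2 * pr 9 4 * pr 9 5 * pr 9 7)) * e2
      + (S 2 1 * S 1 1) * e3
      - T2 * T3 * (S 2 1 * (pr 9 3 * pr 9 4 * pr 9 5 * pr 9 6)) * b - T2 * T3 * c
  rw [h1, mul_assoc X, h2]
  exact bilinear

end Pool.Agent.MP_7258fc_nt.H38
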