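import Mathlib

namespace Pool.Agent.MP_7258fc_nt.H38

variable {K : Type*} [Field K]

/-- Multiplicative independence of `x`, `z` modulo powers of `Q`. -/
structure ND (Q x z : K) : Prop where
  hQ : Q ≠ 0
  hx : x ≠ 0
  hz : z ≠ 0
  ind : ∀ k m n : ℤ, (m ≠ 0 ∨ n ≠ 0) → Q ^ k * x ^ m * z ^ n ≠ 1

/-- A binomial. -/
def dd (Q x z : K) (a b c a' b' c' : ℕ) : K := Q ^ a * x ^ b * z ^ c - Q ^ a' * x ^ b' * z ^ c'

theorem ND.ne {Q x z : K} (h : ND Q x z) (a b c a' b' c' : ℕ) (hb : b ≠ b' ∨ c ≠ c') :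
    dd Q x z a b c a' b' c' ≠ 0 := by
  intro h0
  have hQ := h.hQ
  have hx := h.hx
  have hz := h.hz
  apply h.ind ((a : ℤ) - a') ((b : ℤ) - b') ((c : ℤ) - c') (by omega)
  rw [zpow_sub₀ hQ, zpow_sub₀ hx, zpow_sub₀ hz]
  simp only [zpow_natCast]
  have := sub_eq_zero.1 h0
  field_simp
  linear_combination this

theorem ND.inv1 {Q x z : K} (h : ND Q x z) (a b c a' b' c' : ℕ) (t : K)
    (ht : t * (Q ^ a * x ^ b * z ^ c) = Q ^ a' * x ^ b' * z ^ c') :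
    (1 - t)⁻¹ = Q ^ a * x ^ b * z ^ c / dd Q x z a b c a' b' c' := by
  have hQ := h.hQ
  have hx := h.hx
  have hz := h.hz
  have : 1 - t = dd Q x z a b c a' b' c' / (Q ^ a * x ^ b * z ^ c) := by
    rw [eq_div_iff (by positivity), dd, ← ht]; ring
  rw [this, inv_div]

theorem ND.inv2 {Q x z : K} (h : ND Q x z) (a b c a' b' c' : ℕ) (t : K)
    (ht : t * (Q ^ a' * x ^ b' * z ^ c') = Q ^ a * x ^ b * z ^ c) :
    (1 - t)⁻¹ = -(Q ^ a' * x ^ b' * z ^ c') / dd Q x z a b c a' b' c' := by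
  have hQ := h.hQ
  have hx := h.hx
  have hz := h.hz
  have : 1 - t = dd Q x z a b c a' b' c' / -(Q ^ a' * x ^ b' * z ^ c') := by
    rw [eq_div_iff (neg_ne_zero.2 (by positivity)), dd, ← ht]; ring
  rw [this, inv_div]

theorem ND.rot {Q x z : K} (h : ND Q x z) : ND Q z (z / x) := by
  have hQ := h.hQ
  have hx := h.hx
  have hz := h.hz
  refine ⟨hQ, hz, div_ne_zero hz hx, fun k m n hmn h1 => h.ind k (-n) (m + n) (by omega) ?_⟩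
  rw [← h1, div_zpow, zpow_add₀ hz, zpow_neg]
  field_simp

theorem ND.swap {Q x z : K} (h : ND Q x z) : ND Q z x :=
  ⟨h.hQ, h.hz, h.hx, fun k m n hmn h1 => h.ind k n m (by omega) (by rw [← h1]; ring)⟩

theorem ND.shift {Q x z : K} (h : ND Q x z) (u v : ℤ) : ND Q (Q ^ u * x) (Q ^ v * z) := by
  have hQ := h.hQ
  have hx := h.hx
  have hz := h.hz
  refine ⟨hQ, mul_ne_zero (zpow_ne_zero _ hQ) hx, mul_ne_zero (zpow_ne_zero _ hQ) hz,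
    fun k m n hmn h1 => h.ind (k + u * m + v * n) m n hmn ?_⟩
  rw [← h1, mul_zpow, mul_zpow, zpow_add₀ hQ, zpow_add₀ hQ, zpow_mul, zpow_mul]
  ring

/-- The six short-root monomials. -/
structure Frame (Q X0 X1 X2 X3 X4 X5 : K) : Prop where
  nd : ND Q X0 X1
  h2 : X2 = X1 / X0
  h3 : X3 = X0⁻¹
  h4 : X4 = X1⁻¹
  h5 : X5 = X0 / X1

theorem Frame.rot {Q X0 X1 X2 X3 X4 X5 : K} (h : Frame Q X0 X1 X2 X3 X4 X5) :
    Frame Q X1 X2 X3 X4 X5 X0 := by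
  obtain ⟨nd, rfl, rfl, rfl, rfl⟩ := h
  have hx := nd.hx
  have hz := nd.hz
  refine ⟨nd.rot, ?_, rfl, ?_, ?_⟩ <;> field_simp

theorem Frame.flip {Q X0 X1 X2 X3 X4 X5 : K} (h : Frame Q X0 X1 X2 X3 X4 X5) :
    Frame Q X1 X0 X5 X4 X3 X2 := by
  obtain ⟨nd, rfl, rfl, rfl, rfl⟩ := h
  exact ⟨nd.swap, rfl, rfl, rfl, rfl⟩

theorem Frame.shift {Q X0 X1 X2 X3 X4 X5 : K} (h : Frame Q X0 X1 X2 X3 X4 X5) (u v : ℤ) :
    Frame Q (Q ^ u * X0) (Q ^ v * X1) (Q ^ (v - u) * X2) (Q ^ (-u) * X3) (Q ^ (-v) * X4)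
      (Q ^ (u - v) * X5) := by
  obtain ⟨nd, rfl, rfl, rfl, rfl⟩ := h
  have hQ := nd.hQ
  have hx := nd.hx
  have hz := nd.hz
  have hu := zpow_ne_zero u hQ
  have hv := zpow_ne_zero v hQ
  refine ⟨nd.shift u v, ?_, ?_, ?_, ?_⟩
  · rw [zpow_sub₀ hQ]; field_simp
  · rw [zpow_neg]; field_simp
  · rw [zpow_neg]; field_simp
  · rw [zpow_sub₀ hQ]; field_simp

/-- Coefficient of the Demazure symmetriser. -/
def gC (a b : K) : K :=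
  (1 - 1 / a)⁻¹ * (1 - b / a)⁻¹ * (1 - 1 / b)⁻¹ * (1 - b / a ^ 2)⁻¹ * (1 - 1 / (a * b))⁻¹

/-- Coefficient of a shift. -/
def gA (Q a b : K) : K := (1 - Q / a)⁻¹ * gC a b

/-- One factor of the unshifted coefficient. -/
def gi (Q a : K) : K := (1 - Q * a)⁻¹

/-- The unshifted coefficient. -/
def gP (Q X0 X1 X2 X3 X4 X5 : K) : K :=
  Q ^ 5 * (1 + Q) * gi Q X0 * gi Q X1 * gi Q X2 * gi Q X3 * gi Q X4 * gi Q X5

/-- Rational form of the difference operator of level `k`. -/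
def Mr (k : ℤ) (Q X0 X1 X2 X3 X4 X5 : K) (F : ℤ → ℤ → K) : K :=
  gP Q X0 X1 X2 X3 X4 X5 * F 0 0 + gA Q X0 X1 * (X0 / Q) ^ k * F (-2) (-1)
    + gA Q X1 X2 * (X1 / Q) ^ k * F (-1) (-2) + gA Q X2 X3 * (X2 / Q) ^ k * F 1 (-1)
    + gA Q X3 X4 * (X3 / Q) ^ k * F 2 1 + gA Q X4 X5 * (X4 / Q) ^ k * F 1 2
    + gA Q X5 X0 * (X5 / Q) ^ k * F (-1) 1

/-- Rational form of a product of two operators. -/
def MM (a b : ℤ) (Q X0 X1 X2 X3 X4 X5 : K) (F : ℤ → ℤ → K) : K :=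
  Mr a Q X0 X1 X2 X3 X4 X5 (fun u v => Mr b Q (Q ^ u * X0) (Q ^ v * X1) (Q ^ (v - u) * X2)
    (Q ^ (-u) * X3) (Q ^ (-v) * X4) (Q ^ (u - v) * X5) (fun u' v' => F (u + u') (v + v')))

/-- Level one operator applied to `1`. -/
def p1 (Q X0 X1 X2 X3 X4 X5 : K) : K := 1 + (1 + X0 + X1 + X2 + X3 + X4 + X5) / Q

/-- Level two operator applied to `1`. -/
def p2 (Q X0 X1 X2 X3 X4 X5 : K) : K :=
  p1 Q X0 X1 X2 X3 X4 X5 + (3 + 2 * (X0 + X1 + X2 + X3 + X4 + X5)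
    + (X0 * X1 + X1 * X2 + X2 * X3 + X3 * X4 + X4 * X5 + X5 * X0)
    + (X0 ^ 2 + X1 ^ 2 + X2 ^ 2 + X3 ^ 2 + X4 ^ 2 + X5 ^ 2)) / Q ^ 2

end Pool.Agent.MP_7258fc_nt.H38
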