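import Pool.Agent.MP_7258fc_nt.H38.Adic

namespace Pool.Agent.MP_7258fc_nt.H38

open PowerSeries Finset Filter Topology
open scoped PowerSeries.WithPiTopology

/-- Powers with integer exponent. -/
noncomputable def xp (e : ℤ) : A := X ^ e.toNat

theorem xp_add {a b : ℤ} (ha : 0 ≤ a) (hb : 0 ≤ b) : xp (a + b) = xp a * xp b := by
  rw [xp, xp, xp, ← pow_add, Int.toNat_add ha hb]

theorem xp_nat (n : ℕ) : xp n = X ^ n := by simp [xp]

theorem dvd_xp {n : ℕ} {e : ℤ} (h : (n : ℤ) ≤ e) : X ^ n ∣ xp e := pow_dvd_pow X (by omega)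

/-- The sign. -/
noncomputable def sg (k : ℤ) : A := if k % 2 = 0 then 1 else -1

theorem sg_add (a b : ℤ) : sg (a + b) = sg a * sg b := by
  simp only [sg]; split_ifs <;> first | omega | simp

theorem sg_congr {a b : ℤ} (h : (a - b) % 2 = 0) : sg a = sg b := by
  simp only [sg]; split_ifs <;> first | omega | simp

theorem sg_neg {a b : ℤ} (h : (a - b) % 2 = 1) : sg a = -sg b := by
  simp only [sg]; split_ifs <;> first | omega | simp

/-- Triangular numbers. -/
def tri (k : ℤ) : ℤ := k * (k - 1) / 2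

theorem two_tri (k : ℤ) : 2 * tri k = k * (k - 1) := by
  rw [tri]
  exact Int.mul_ediv_cancel' (Int.even_mul_pred_self k).two_dvd

/-- The exponent in the triple product. -/
def je (m a : ℕ) (k : ℤ) : ℤ := m * tri k + a * k

theorem tri_succ (k : ℤ) : tri (k + 1) = tri k + k := by
  have h1 := two_tri k
  have h2 := two_tri (k + 1)
  linarith

theorem tri_nonneg (k : ℤ) : 0 ≤ tri k := by
  have h1 := two_tri k
  rcases le_or_gt k 0 with h | h <;> nlinarith

theorem tri_ge (k : ℤ) : -k ≤ tri k := by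
  have h1 := tri_succ k
  have h2 := tri_nonneg (k + 1)
  omega

theorem je_nonneg {m a : ℕ} (h : a ≤ m) (k : ℤ) : 0 ≤ je m a k := by
  have h1 := tri_nonneg k
  have h2 := tri_ge k
  have h3 : (a : ℤ) ≤ m := by exact_mod_cast h
  have h4 : (0 : ℤ) ≤ a := by positivity
  rw [je]
  rcases le_or_gt k 0 with h | h <;> nlinarith

theorem je_ge {m a : ℕ} (h0 : 0 < a) (h : a < m) (k : ℤ) : |k| ≤ je m a k := by
  have h1 := tri_nonneg k
  have h2 := tri_ge k
  have h3 : (a : ℤ) + 1 ≤ m := by exact_mod_cast h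
  have h4 : (1 : ℤ) ≤ a := by exact_mod_cast h0
  rw [je]
  rcases le_or_gt k 0 with h | h
  · rw [abs_of_nonpos h]; nlinarith
  · rw [abs_of_pos h]; nlinarith

/-- Inverse Pochhammer symbols, extended by zero. -/
noncomputable def ip (m : ℕ) (j : ℤ) : A := if 0 ≤ j then Ring.inverse (poch m j.toNat) else 0

theorem ip_neg (m : ℕ) {j : ℤ} (h : j < 0) : ip m j = 0 := if_neg (by omega)

theorem ip_rec {m : ℕ} (hm : m ≠ 0) (j : ℤ) : (1 - xp (m * j)) * ip m j = ip m (j - 1) := by
  rcases lt_trichotomy j 0 with h | h | h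
  · rw [ip_neg m h, ip_neg m (by omega), mul_zero]
  · subst h
    rw [ip_neg m (j := 0 - 1) (by omega)]; simp [xp]
  · obtain ⟨n, rfl⟩ : ∃ n : ℕ, j = (n + 1 : ℕ) := ⟨(j - 1).toNat, by omega⟩
    rw [ip, ip, if_pos (by omega), if_pos (by omega), ← Nat.cast_mul, xp_nat, Int.toNat_natCast,
      inverse_poch_succ m n hm]
    congr 2
    omega

/-- Gaussian binomial coefficients. -/
noncomputable def gz (m n : ℕ) (j : ℤ) : A := poch m n * ip m j * ip m (n - j)

theorem pascal1 {m : ℕ} (hm : m ≠ 0) (n : ℕ) (j : ℤ) :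
    gz m (n + 1) j = gz m n j + xp (m * (n + 1 - j)) * gz m n (j - 1) := by
  have h1 := ip_rec hm j
  have h2 := ip_rec hm (n + 1 - j)
  rw [gz, gz, gz, poch_succ, ← h1, show (n : ℤ) - j = n + 1 - j - 1 by ring, ← h2,
    show (n : ℤ) - (j - 1) = n + 1 - j by ring, Nat.cast_succ]
  by_cases h : 0 ≤ j ∧ j ≤ n + 1
  · have : (X : A) ^ (m * (n + 1)) = xp (m * (n + 1 - j)) * xp (m * j) := by
      rw [← xp_add (mul_nonneg (by positivity) (by omega)) (mul_nonneg (by positivity) h.1),
        ← xp_nat]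
      congr 1; push_cast; ring
    rw [this]; ring
  · rcases lt_or_ge j 0 with h3 | h3
    · rw [ip_neg m h3]; ring
    · rw [ip_neg m (j := n + 1 - j) (by omega)]; ring

theorem gz_symm (m n : ℕ) (j : ℤ) : gz m n (n - j) = gz m n j := by
  rw [gz, gz, sub_sub_cancel]; ring

theorem pascal2 {m : ℕ} (hm : m ≠ 0) (n : ℕ) (j : ℤ) :
    gz m (n + 1) (j + 1) = gz m n j + xp (m * (j + 1)) * gz m n (j + 1) := by
  have h := pascal1 hm n (n - j)
  rw [gz_symm, show (n : ℤ) - j = ((n + 1 : ℕ) : ℤ) - (j + 1) by push_cast; ring, gz_symm,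
    show ((n + 1 : ℕ) : ℤ) - (j + 1) - 1 = n - (j + 1) by push_cast; ring, gz_symm] at h
  rw [h]
  congr 3
  push_cast; ring

/-- A term of the Jacobi theta series. -/
noncomputable def jt (m a : ℕ) (k : ℤ) : A := sg k * xp (je m a k)

theorem fin_step1 {m a : ℕ} (hm : m ≠ 0) (h : a ≤ m) (N M : ℕ) {s : A}
    (hs : HasSum (fun k : ℤ => jt m a k * gz m (N + M) (M + k)) s) :
    HasSum (fun k : ℤ => jt m a k * gz m (N + 1 + M) (M + k)) (s * (1 - X ^ (m * N + a))) := by
  have h2 := ((Equiv.subRight (1 : ℤ)).hasSum_iff.2 hs).mul_left (X ^ (m * N + a))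
  rw [mul_sub, mul_one, mul_comm s]
  refine hs_congr (hs.sub h2) fun k => ?_
  simp only [Function.comp, Equiv.subRight_apply]
  rw [show N + 1 + M = N + M + 1 by ring, pascal1 hm, jt, jt, sg_neg (a := k - 1) (b := k) (by omega),
    show (M : ℤ) + (k - 1) = M + k - 1 by ring]
  by_cases hk : k ≤ N + 1
  · have : X ^ (m * N + a) * xp (je m a (k - 1)) =
        xp (je m a k) * xp (m * (((N + M : ℕ) : ℤ) + 1 - (M + k))) := by
      rw [← xp_nat, ← xp_add (by positivity) (je_nonneg h _),
        ← xp_add (je_nonneg h _) (mul_nonneg (by positivity) (by omega))]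
      congr 1
      have := tri_succ (k - 1)
      rw [sub_add_cancel] at this
      simp only [je, this]; push_cast; ring
    linear_combination (-sg k * gz m (N + M) (M + k - 1)) * this
  · have : gz m (N + M) (M + k - 1) = 0 := by
      rw [gz, ip_neg m (j := ((N + M : ℕ) : ℤ) - _) (by omega), mul_zero]
    rw [this]; ring

theorem fin_step2 {m a : ℕ} (hm : m ≠ 0) (h : a ≤ m) (N M : ℕ) {s : A}
    (hs : HasSum (fun k : ℤ => jt m a k * gz m (N + M) (M + k)) s) :
    HasSum (fun k : ℤ => jt m a k * gz m (N + (M + 1)) ((M + 1 : ℕ) + k))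
      (s * (1 - X ^ (m * M + (m - a)))) := by
  have h2 := ((Equiv.addRight (1 : ℤ)).hasSum_iff.2 hs).mul_left (X ^ (m * M + (m - a)))
  rw [mul_sub, mul_one, mul_comm s]
  refine hs_congr (hs.sub h2) fun k => ?_
  simp only [Function.comp, Equiv.coe_addRight]
  rw [← add_assoc, show ((M + 1 : ℕ) : ℤ) + k = M + k + 1 by push_cast; ring, pascal2 hm, jt, jt,
    sg_neg (a := k + 1) (b := k) (by omega), show (M : ℤ) + (k + 1) = M + k + 1 by ring]
  by_cases hk : 0 ≤ (M : ℤ) + k + 1
  · have : X ^ (m * M + (m - a)) * xp (je m a (k + 1)) = xp (je m a k) * xp (m * (M + k + 1)) := by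
      rw [← xp_nat, ← xp_add (by positivity) (je_nonneg h _),
        ← xp_add (je_nonneg h _) (mul_nonneg (by positivity) hk)]
      congr 1
      simp only [je, tri_succ]; push_cast [h]; ring
    linear_combination (-sg k * gz m (N + M) (M + k + 1)) * this
  · have : gz m (N + M) (M + k + 1) = 0 := by
      rw [gz, ip_neg m (j := M + k + 1) (by omega), mul_zero, zero_mul]
    rw [this]; ring

theorem fin_jtp {m a : ℕ} (hm : m ≠ 0) (h : a ≤ m) (N : ℕ) :
    HasSum (fun k : ℤ => jt m a k * gz m (N + N) (N + k))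
      ((∏ n ∈ range N, (1 - X ^ (m * n + a))) * ∏ n ∈ range N, (1 - X ^ (m * n + (m - a)))) := by
  induction N with
  | zero =>
    refine hs_congr (a := (∏ n ∈ range 0, (1 - X ^ (m * n + a))) *
      ∏ n ∈ range 0, (1 - X ^ (m * n + (m - a)))) (by simpa using hasSum_ite_eq (0 : ℤ) (1 : A))
      fun k => ?_
    rcases lt_trichotomy k 0 with hk | hk | hk
    · rw [gz, ip_neg m (j := (0 : ℕ) + k) (by omega), if_neg (by omega)]; ring
    · subst hk
      simp [jt, gz, ip, sg, xp, je, tri, poch_zero]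
    · rw [gz, ip_neg m (j := _ - _) (by omega), if_neg (by omega)]; ring
  | succ N ih =>
    have := fin_step2 hm h (N + 1) N (fin_step1 hm h N N ih)
    rw [prod_range_succ, prod_range_succ]
    convert this using 1
    ring

theorem dvd_of_hasSum {ι : Type*} {f : ι → A} {s : A} (h : HasSum f s) {N : ℕ}
    (hd : ∀ i, X ^ N ∣ f i) : X ^ N ∣ s := by
  obtain ⟨T, hT⟩ := HasSum.approx h N
  have := (hT T subset_rfl).add (dvd_sum fun i (_ : i ∈ T) => hd i)
  rwa [sub_add_cancel] at this

theorem pr_dvd {m : ℕ} (hm : m ≠ 0) (a N : ℕ) :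
    X ^ N ∣ pr m a - ∏ k ∈ range N, (1 - X ^ (m * k + a) : A) := by
  obtain ⟨n, hn, h⟩ := ((eventually_ge_atTop N).and (pr_approx m a hm N)).exists
  have key : ∀ n, N ≤ n → X ^ N ∣ ∏ k ∈ range n, (1 - X ^ (m * k + a) : A)
      - ∏ k ∈ range N, (1 - X ^ (m * k + a) : A) := by
    intro n hn
    induction n, hn using Nat.le_induction with
    | base => simp
    | succ n hn ih =>
      rw [prod_range_succ, mul_sub, mul_one, sub_right_comm]
      refine ih.sub (Dvd.dvd.mul_left (pow_dvd_pow X ?_) _)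
      nlinarith [Nat.pos_of_ne_zero hm]
  have := h.add (key n hn)
  rwa [sub_add_sub_cancel] at this

theorem poch_dvd {m : ℕ} (hm : m ≠ 0) {N n : ℕ} (h : N ≤ n) : X ^ N ∣ pr m m - poch m n := by
  have := pr_dvd hm m n
  refine (pow_dvd_pow X h).trans ?_
  simpa only [poch, mul_add, mul_one] using this

theorem summable_jt {m a : ℕ} (h0 : 0 < a) (h : a < m) : Summable (jt m a) := by
  rw [summable_iff_finite]
  intro K
  refine (Icc (-(K : ℤ)) K).finite_toSet.subset fun k hk => ?_
  by_contra hc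
  apply hk
  refine Dvd.dvd.mul_left (dvd_xp (le_trans ?_ (je_ge h0 h k))) _
  simp only [coe_Icc, Set.mem_Icc] at hc
  rw [le_abs]; omega

theorem jtp {m a : ℕ} (h0 : 0 < a) (h : a < m) :
    HasSum (jt m a) (pr m a * pr m (m - a) * pr m m) := by
  have hm : m ≠ 0 := by omega
  have hs := (summable_jt h0 h).hasSum
  convert hs using 1
  refine eq_of_dvd fun N => ?_
  have h1 := dvd_of_hasSum (((fin_jtp hm h.le N).mul_right (pr m m)).sub hs) (N := N) fun k => by
    by_cases hk : (N : ℤ) ≤ |k|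
    · have : X ^ N ∣ jt m a k := Dvd.dvd.mul_left (dvd_xp (hk.trans (je_ge h0 h k))) _
      exact ((this.mul_right _).mul_right _).sub this
    · have hk2 := abs_lt.1 (not_le.1 hk)
      have a1 : X ^ k.natAbs ∣ jt m a k :=
        Dvd.dvd.mul_left (dvd_xp (by rw [Int.natCast_natAbs]; exact je_ge h0 h k)) _
      have a2 : X ^ (N - k.natAbs) ∣ gz m (N + N) (N + k) * pr m m - 1 := by
        rw [gz, ip, ip, if_pos (by omega), if_pos (by omega)]
        have b1 := poch_dvd hm (N := N - k.natAbs) (n := N + N) (by omega)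
        have b2 := poch_dvd hm (N := N - k.natAbs) (n := ((N : ℤ) + k).toNat) (by omega)
        have b3 := poch_dvd hm (N := N - k.natAbs) (n := (((N + N : ℕ) : ℤ) - (N + k)).toNat)
          (by omega)
        have c2 := Ring.mul_inverse_cancel _ (isUnit_poch m ((N : ℤ) + k).toNat hm)
        have c3 := Ring.mul_inverse_cancel _ (isUnit_poch m (((N + N : ℕ) : ℤ) - (N + k)).toNat hm)
        generalize poch m ((N : ℤ) + k).toNat = v at *
        generalize poch m (((N + N : ℕ) : ℤ) - (N + k)).toNat = w at *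
        have := (((b2.sub b1).mul_right (pr m m)).add (b3.mul_left v)).mul_left
          (Ring.inverse v * Ring.inverse w)
        convert this using 1
        linear_combination (w * Ring.inverse w) * c2 + c3
      have := mul_dvd_mul a1 a2
      rw [← pow_add, show k.natAbs + (N - k.natAbs) = N by omega] at this
      convert this using 1
      ring
  have h2 := pr_dvd hm a N
  have h3 := pr_dvd hm (m - a) N
  have := (h1.add ((h2.mul_right (pr m (m - a))).mul_right (pr m m))).add
    ((h3.mul_left (∏ k ∈ range N, (1 - X ^ (m * k + a) : A))).mul_right (pr m m))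
  convert this using 1
  ring

theorem jtp_zero {m : ℕ} (hm : m ≠ 0) : HasSum (jt m 0) 0 := by
  have hs : Summable (jt m 0) := by
    rw [summable_iff_finite]
    intro K
    refine (Icc (-(K : ℤ)) (K + 1)).finite_toSet.subset fun k hk => ?_
    by_contra hc
    apply hk
    refine Dvd.dvd.mul_left (dvd_xp ?_) _
    simp only [coe_Icc, Set.mem_Icc] at hc
    have h1 := tri_ge k
    have h2 := tri_ge (1 - k)
    have h3 := two_tri k
    have h4 := two_tri (1 - k)
    have h7 : tri (1 - k) = tri k := by nlinarith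
    have h5 : (K : ℤ) ≤ tri k := by omega
    have h6 : (1 : ℤ) ≤ m := by omega
    simp only [je, Nat.cast_zero, zero_mul, add_zero]
    nlinarith [tri_nonneg k]
  have h1 := hs.hasSum
  have h2 : HasSum (jt m 0) (-∑' k, jt m 0 k) := by
    refine hs_congr ((Equiv.subLeft (1 : ℤ)).hasSum_iff.2 h1).neg fun k => ?_
    have h3 := two_tri k
    have h4 := two_tri (1 - k)
    have h5 : tri (1 - k) = tri k := by nlinarith
    simp only [Function.comp, Equiv.subLeft_apply, jt, je, h5]
    rw [sg_neg (a := k) (b := 1 - k) (by omega)]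
    simp
  have h3 := h1.unique h2
  have h4 : ∑' k, jt m 0 k = 0 := by
    ext d
    have := congrArg (coeff d) h3
    rw [map_neg] at this
    simp only [map_zero]; omega
  rwa [h4] at h1

end Pool.Agent.MP_7258fc_nt.H38
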