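import Pool.Agent.MP_7258fc_nt.H38.Ell
import Pool.Agent.MP_7258fc_nt.H38.Sums

namespace Pool.Agent.MP_7258fc_nt.H38

open PowerSeries Finset Filter Topology
open scoped PowerSeries.WithPiTopology

theorem io_pow (e : ℤ) (h : 0 ≤ e) : io (X ^ e.toNat) = q ^ e := by
  rw [map_pow, ← q, ← zpow_natCast, Int.toNat_of_nonneg h]

theorem main_link (φ : L →ₗ[R] R) (hφ : ∀ i j : ℕ, O (-(2 * i + 3 * j)) (φ (P i j)))
    {t : ℕ × ℕ → A} {s : A} (ht : HasSum t s)
    (hio : ∀ i j, io (t (i, j)) = cc i j * φ (P i j)) {θ : A}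
    (hθ : ∀ n : ℕ, ∃ K0 : ℤ, ∀ K, K0 ≤ K → O n (φ (Th (5 * K + 1)) - io θ)) :
    θ = pr 1 1 * pr 3 3 * s := by
  refine eq_of_dvd fun n => ?_
  obtain ⟨m, hm, h1, h3⟩ := ((eventually_ge_atTop n).and ((poch_approx 1 one_ne_zero n).and
    (poch_approx 3 (by norm_num) n))).exists
  obtain ⟨K0, hK0⟩ := hθ n
  obtain ⟨e0, he0, T0, hT0⟩ := expansion φ hφ m
    (K := max K0 (7 * (m : ℤ) ^ 2 + m + 2)) (le_max_right _ _)
  obtain ⟨T1, hT1⟩ := HasSum.approx ht n
  have a1 := hK0 _ (le_max_left K0 (7 * (m : ℤ) ^ 2 + m + 2))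
  have a2 := (hT0 (T0 ∪ T1) subset_union_left).mono (show (n : ℤ) ≤ m by omega)
  have a3 := (O_io_iff _ _).2 (hT1 (T0 ∪ T1) subset_union_right)
  have a4 : O n (io (pr 1 1 * pr 3 3 - poch 1 m * poch 3 m)) := by
    rw [O_io_iff]
    have : pr 1 1 * pr 3 3 - poch 1 m * poch 3 m =
        (pr 1 1 - poch 1 m) * pr 3 3 + poch 1 m * (pr 3 3 - poch 3 m) := by ring
    rw [this]
    exact (h1.mul_right _).add (h3.mul_left _)
  have e : ∑ μ ∈ T0 ∪ T1, cc μ.1 μ.2 * φ (P μ.1 μ.2) = io (∑ μ ∈ T0 ∪ T1, t μ) := by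
    rw [map_sum]; exact sum_congr rfl fun μ _ => (hio μ.1 μ.2).symm
  rw [e] at a2
  rw [← O_io_iff]
  have b := (((a2.sub a1).sub ((he0.mono (show (n : ℤ) ≤ m by omega)).mul'
    (O.io (∑ μ ∈ T0 ∪ T1, t μ)) (by omega))).sub
      ((O.io (poch 1 m * poch 3 m)).mul' a3 (by omega))).sub (a4.mul' (O.io s) (by omega))
  convert b using 1
  simp only [map_sub, map_mul]
  ring

/-- Half of a theta term. -/
noncomputable def uh (a c s : ℤ) (v : V) : A :=
  if 7 ∣ v.1 + a - 2 * (v.2 + c) then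
    X ^ (Qf v + (2 * (Qf (v.1 + a, v.2 + c) / 7) - 2) - s).toNat else 0

theorem uh_exp (a c s u w : ℤ) :
    Qf (2 * u - w - a, u + 3 * w - c) + (2 * (Qf (2 * u - w - a + a, u + 3 * w - c + c) / 7) - 2) - s
      = 9 * (u ^ 2 + u * w + w ^ 2) - (5 * a + 4 * c) * u - (a + 5 * c) * w
        + (a ^ 2 + a * c + c ^ 2 - 2 - s) := by
  have : Qf (2 * u - w - a + a, u + 3 * w - c + c) = 7 * (u ^ 2 + u * w + w ^ 2) := by
    simp only [Qf]; ring
  rw [this, Int.mul_ediv_cancel_left _ (by norm_num)]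
  simp only [Qf]; ring

theorem uh_range {a c : ℤ} {v : V} (h : 7 ∣ v.1 + a - 2 * (v.2 + c)) :
    ∃ u w : ℤ, (2 * u - w - a, u + 3 * w - c) = v := by
  obtain ⟨k, hk⟩ := h
  exact ⟨v.2 + c + 3 * k, -k, Prod.ext (by simp only; omega) (by simp only; omega)⟩

theorem hasSum_uh (a c s : ℤ) :
    HasSum (uh a c s) (GS (5 * a + 4 * c) (a + 5 * c) (a ^ 2 + a * c + c ^ 2 - 2 - s)) := by
  rw [← (Function.Injective.hasSum_iff
    (g := fun p : ℤ × ℤ => ((2 * p.1 - p.2 - a, p.1 + 3 * p.2 - c) : V)) ?_ ?_)]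
  · refine hs_congr (hasSum_G _ _ _) fun p => ?_
    simp only [Function.comp, uh, G]
    rw [if_pos (by omega), uh_exp]
  · intro x y hxy
    simp only [Prod.mk.injEq] at hxy
    exact Prod.ext (by omega) (by omega)
  · intro v hv
    rw [uh, if_neg]
    intro h
    obtain ⟨u, w, huw⟩ := uh_range h
    exact hv ⟨(u, w), huw⟩

theorem io_uh {a c s : ℤ} (h : -108 < 108 * (a ^ 2 + a * c + c ^ 2 - 2 - s) - 3 * (5 * a + 4 * c) ^ 2
    - (2 * (a + 5 * c) - (5 * a + 4 * c)) ^ 2) (v : V) :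
    io (uh a c s v) = q ^ (Qf v + (2 * (Qf (v.1 + a, v.2 + c) / 7) - 2) - s) *
      (if 7 ∣ v.1 + a - 2 * (v.2 + c) then 1 else 0) := by
  rw [uh]
  split_ifs with h1
  · obtain ⟨u, w, rfl⟩ := uh_range h1
    rw [io_pow, mul_one]
    rw [uh_exp]
    exact G_exp_nonneg h u w
  · simp

theorem Lk_approx (a b s α β α' β' γ : ℤ) (h1 : α = 5 * (a + 2) + 4 * (b + 1))
    (h2 : β = (a + 2) + 5 * (b + 1)) (h3 : α' = 5 * (b + 1) + 4 * (a + 2))
    (h4 : β' = (b + 1) + 5 * (a + 2))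
    (h5 : γ = (a + 2) ^ 2 + (a + 2) * (b + 1) + (b + 1) ^ 2 - 2 - s)
    (h6 : -108 < 108 * γ - 3 * α ^ 2 - (2 * β - α) ^ 2)
    (h7 : -108 < 108 * γ - 3 * α' ^ 2 - (2 * β' - α') ^ 2) (n : ℕ) :
    ∃ K0 : ℤ, ∀ K, K0 ≤ K → O n (q ^ (-s) * Lk a b (5 * K + 1) - io (GS α β γ - GS α' β' γ)) := by
  have h5' : γ = (b + 1) ^ 2 + (b + 1) * (a + 2) + (a + 2) ^ 2 - 2 - s := by rw [h5]; ring
  have s1 := hasSum_uh (a + 2) (b + 1) s
  have s2 := (Equiv.prodComm ℤ ℤ).hasSum_iff.2 (hasSum_uh (b + 1) (a + 2) s)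
  rw [← h1, ← h2, ← h5] at s1
  rw [← h3, ← h4, ← h5'] at s2
  obtain ⟨T0, hT0⟩ := HasSum.approx (s1.sub s2) n
  refine ⟨((T0.sup fun v => (Qf v).toNat : ℕ) : ℤ), fun K hK => ?_⟩
  have hsub : T0 ⊆ ball (5 * K + 1) := fun v hv => by
    have := le_sup (f := fun v => (Qf v).toNat) hv
    rw [mem_ball]
    omega
  have := ((O_io_iff _ _).2 (hT0 _ hsub)).neg
  convert this using 1
  rw [map_sub (f := io) (_ - _), neg_sub, Lk, Th, mul_sum, map_sum, map_sum, mul_sum]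
  congr 1
  refine sum_congr rfl fun v _ => ?_
  have hQ : Qf (v.2 + (b + 1), v.1 + (a + 2)) = Qf (v.1 + (a + 2), v.2 + (b + 1)) := by
    simp only [Qf]; ring
  have hQ2 : Qf (v.2, v.1) = Qf v := by simp only [Qf]; ring
  rw [map_sub, Function.comp, Equiv.prodComm_apply, io_uh (by rwa [← h1, ← h2, ← h5]),
    io_uh (by rwa [← h3, ← h4, ← h5']), mul_smul_comm, mo_mul, map_smul, ell_mo,
    show ((a, b) + v).1 + 2 = v.1 + (a + 2) by simp only [Prod.fst_add]; ring,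
    show ((a, b) + v).2 + 1 = v.2 + (b + 1) by simp only [Prod.snd_add]; ring, psi, chi]
  simp only [Prod.swap, hQ, hQ2, smul_eq_mul]
  rw [← mul_assoc, ← mul_assoc, ← zpow_add₀ q_ne, ← zpow_add₀ q_ne, ← mul_sub]
  congr 1
  · congr 1; ring
  · push_cast; rfl

theorem io_tm (E : ℕ → ℕ → ℤ) (i j : ℕ) (h : 0 ≤ E i j) :
    io (tm E (i, j)) = q ^ E i j * io (wt i j) := by
  rw [tm, map_mul, io_pow _ h]

theorem cc_eq (i j : ℕ) : cc i j = q ^ ((i : ℤ) ^ 2 + 3 * i * j + 3 * j ^ 2) * io (wt i j) := by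
  rw [cc, ← zpow_natCast]; push_cast; rfl

theorem KR_b : GS 14 7 5 - GS 13 11 5 = pr 1 1 * pr 3 3 * S 1 1 := by
  refine main_link ell (fun i j => ?_) (hasSum_S 1 1) (fun i j => ?_) fun n => ?_
  · rw [ell_P, ← pow_mul]
    exact (O.pow _).mul' (O.pow _) (by omega)
  · rw [io_tm _ _ _ (by simp only [ex]; positivity), cc_eq, ell_P, ← pow_mul, ← pow_add,
      ← zpow_natCast, mul_right_comm, ← zpow_add₀ q_ne]
    congr 2
    simp only [ex]; push_cast; ring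
  · simpa [Lk, mo_zero'] using Lk_approx 0 0 0 14 7 13 11 5 (by norm_num) (by norm_num)
      (by norm_num) (by norm_num) (by norm_num) (by norm_num) (by norm_num) n

theorem approx_a (n : ℕ) : ∃ K0 : ℤ, ∀ K, K0 ≤ K →
    O n (q⁻¹ * Lk 1 0 (5 * K + 1) - io (GS 19 8 10 - GS 17 16 10)) := by
  simpa using Lk_approx 1 0 1 19 8 17 16 10 (by norm_num) (by norm_num)
    (by norm_num) (by norm_num) (by norm_num) (by norm_num) (by norm_num) n

theorem KR_a : GS 19 8 10 - GS 17 16 10 = pr 1 1 * pr 3 3 * S 0 0 := by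
  refine main_link ella (fun i j => ?_) (hasSum_S 0 0) (fun i j => ?_) fun n => ?_
  · rw [ella_P]
    exact O.one.mono (by omega)
  · rw [io_tm _ _ _ (by simp only [ex]; positivity), cc_eq, ella_P, mul_one]
    congr 2
    simp only [ex]; push_cast; ring
  · obtain ⟨K0, h⟩ := approx_a n
    refine ⟨max K0 (n + 3), fun K hK => ?_⟩
    have := ((ella_Th K (by omega)).mono (show (n : ℤ) ≤ _ by omega)).add (h K (by omega))
    rwa [sub_add_sub_cancel] at this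

theorem KR_c : GS 23 13 14 - GS 22 17 14 = pr 1 1 * pr 3 3 * S 2 1 := by
  have key : (1 + X) * (GS 19 8 10 - GS 17 16 10) + X * (GS 14 7 5 - GS 13 11 5)
      + X * (GS 23 13 14 - GS 22 17 14) =
      pr 1 1 * pr 3 3 * (X * (S 1 1 + S 0 0 + S 2 1) + S 0 0) := by
    refine main_link ellc (fun i j => ?_) hasSum_c (fun i j => ?_) fun n => ?_
    · rw [ellc_P]
      exact (O.zpow _).mono (by omega)
    · rw [io_tm, cc_eq, ellc_P, mul_right_comm, ← zpow_add₀ q_ne]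
      · congr 2
        simp only [ex]; ring
      · simp only [ex]
        nlinarith [sq_nonneg ((i : ℤ) - 1), sq_ge j, (by positivity : (0 : ℤ) ≤ i * j)]
    · obtain ⟨K0, h0⟩ := approx_a n
      obtain ⟨K1, h1⟩ := Lk_approx 0 0 0 14 7 13 11 5 (by norm_num) (by norm_num)
        (by norm_num) (by norm_num) (by norm_num) (by norm_num) (by norm_num) n
      obtain ⟨K2, h2⟩ := Lk_approx 1 1 3 23 13 22 17 14 (by norm_num) (by norm_num)
        (by norm_num) (by norm_num) (by norm_num) (by norm_num) (by norm_num) n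
      refine ⟨max (max K0 K1) (max K2 (n + 4)), fun K hK => ?_⟩
      have := ((((ellc_Th K (by omega)).mono (show (n : ℤ) ≤ _ by omega)).add
        ((O.one.add (O.q.mono (by omega))).mul' (h0 K (by omega)) (by omega))).add
        (O.q.mul' (h1 K (by omega)) (by omega))).add (O.q.mul' (h2 K (by omega)) (by omega))
      convert this using 1
      simp only [map_add, map_mul, map_one, show io X = q from rfl, neg_zero, zpow_neg, zpow_ofNat]
      ring
  rw [KR_a, KR_b] at key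
  apply mul_left_cancel₀ (X_ne_zero (R := ℤ))
  linear_combination key

end Pool.Agent.MP_7258fc_nt.H38
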