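import Pool.Agent.MP_7258fc_nt.H38.Basic

namespace Pool.Agent.MP_7258fc_nt.H38

open Finset

/-- The weight lattice. -/
abbrev V : Type := ℤ × ℤ

/-- Laurent polynomials in two variables. -/
abbrev L : Type := AddMonoidAlgebra R V

/-- A monomial. -/
noncomputable def mo (v : V) : L := AddMonoidAlgebra.single v 1

theorem mo_mul (v w : V) : mo v * mo w = mo (v + w) := by
  simp [mo, AddMonoidAlgebra.single_mul_single]

theorem mo_zero : mo 0 = 1 := rfl

theorem mo_zero' : mo (0, 0) = 1 := rfl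

theorem coeff_mo (v w : V) : (mo v).coeff w = if v = w then 1 else 0 := by
  simp [mo, Finsupp.single_apply]

theorem eq_sum (f : L) : f = ∑ v ∈ f.coeff.support, f.coeff v • mo v := by
  conv_lhs => rw [← AddMonoidAlgebra.sum_coeff_single f]
  rw [Finsupp.sum]
  refine sum_congr rfl fun v _ => ?_
  simp [mo]

section
variable {M : Type*} [AddCommGroup M] [Module R M]

/-- The linear map with given values on monomials. -/
noncomputable def lin (φ : V → M) : L →ₗ[R] M := (AddMonoidAlgebra.basis V R).constr R φ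

theorem lin_mo (φ : V → M) (v : V) : lin φ (mo v) = φ v := by
  have : mo v = AddMonoidAlgebra.basis V R v := by simp [mo, AddMonoidAlgebra.basis_apply]
  rw [lin, this, Module.Basis.constr_basis]

theorem map_eq_sum (T : L →ₗ[R] M) (f : L) :
    T f = ∑ v ∈ f.coeff.support, f.coeff v • T (mo v) := by
  conv_lhs => rw [eq_sum f]
  simp [map_sum]

theorem lin_ext {T S : L →ₗ[R] M} (h : ∀ v, T (mo v) = S (mo v)) (f : L) : T f = S f := by
  rw [map_eq_sum T, map_eq_sum S]
  exact sum_congr rfl fun v _ => by rw [h]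

end

/-- Support inside a set. -/
def Sup (S : V → Prop) (f : L) : Prop := ∀ v, f.coeff v ≠ 0 → S v

theorem Sup.zero (S : V → Prop) : Sup S 0 := fun v h => by simp at h

theorem Sup.add {S : V → Prop} {f g : L} (hf : Sup S f) (hg : Sup S g) : Sup S (f + g) := by
  intro v h
  by_contra hv
  apply h
  have h1 : f.coeff v = 0 := by by_contra h1; exact hv (hf v h1)
  have h2 : g.coeff v = 0 := by by_contra h2; exact hv (hg v h2)
  simp [h1, h2]

theorem Sup.smul {S : V → Prop} {f : L} (hf : Sup S f) (c : R) : Sup S (c • f) := by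
  intro v h
  apply hf v
  intro h1
  apply h
  simp [h1]

theorem Sup.sub {S : V → Prop} {f g : L} (hf : Sup S f) (hg : Sup S g) : Sup S (f - g) := by
  have := hf.add (hg.smul (-1))
  rwa [neg_one_smul, ← sub_eq_add_neg] at this

theorem Sup.sum {ι : Type*} {S : V → Prop} (s : Finset ι) (f : ι → L)
    (h : ∀ i ∈ s, Sup S (f i)) : Sup S (∑ i ∈ s, f i) := by
  classical
  induction s using Finset.induction_on with
  | empty => simpa using Sup.zero S
  | insert a s ha ih =>
    rw [sum_insert ha]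
    exact (h a (mem_insert_self _ _)).add (ih fun i hi => h i (mem_insert_of_mem hi))

theorem Sup.mo {S : V → Prop} {v : V} (h : S v) : Sup S (mo v) := by
  intro w hw
  rw [coeff_mo] at hw
  split_ifs at hw with h1
  · exact h1 ▸ h
  · exact absurd rfl hw

theorem Sup.mono {S S' : V → Prop} {f : L} (hf : Sup S f) (h : ∀ v, S v → S' v) : Sup S' f :=
  fun v hv => h v (hf v hv)

theorem Sup.map {S S' : V → Prop} {f : L} (hf : Sup S f) (T : L →ₗ[R] L)
    (h : ∀ v, S v → Sup S' (T (H38.mo v))) : Sup S' (T f) := by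
  rw [map_eq_sum]
  exact Sup.sum _ _ fun v hv => (h v (hf v (Finsupp.mem_support_iff.1 hv))).smul _

theorem Sup.eq_on {M : Type*} [AddCommGroup M] [Module R M] {S : V → Prop} {f : L} (hf : Sup S f)
    (T T' : L →ₗ[R] M) (h : ∀ v, S v → T (H38.mo v) = T' (H38.mo v)) : T f = T' f := by
  rw [map_eq_sum T, map_eq_sum T']
  exact sum_congr rfl fun v hv => by rw [h v (hf v (Finsupp.mem_support_iff.1 hv))]

theorem Sup.top (f : L) : Sup (fun _ => True) f := fun _ _ => trivial

/-- All coefficients have order at least `d`. -/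
def Ord (d : ℤ) (f : L) : Prop := ∀ v, O d (f.coeff v)

theorem Ord.zero (d : ℤ) : Ord d 0 := fun v => by simpa using O.zero d

theorem Ord.add {d : ℤ} {f g : L} (hf : Ord d f) (hg : Ord d g) : Ord d (f + g) :=
  fun v => by simpa using (hf v).add (hg v)

theorem Ord.neg {d : ℤ} {f : L} (hf : Ord d f) : Ord d (-f) :=
  fun v => by simpa using (hf v).neg

theorem Ord.sub {d : ℤ} {f g : L} (hf : Ord d f) (hg : Ord d g) : Ord d (f - g) :=
  fun v => by simpa using (hf v).sub (hg v)

theorem Ord.smul {d e : ℤ} {c : R} {f : L} (hc : O d c) (hf : Ord e f) : Ord (d + e) (c • f) :=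
  fun v => by simpa using hc.mul (hf v)

theorem Ord.mono {d e : ℤ} {f : L} (hf : Ord d f) (h : e ≤ d) : Ord e f :=
  fun v => (hf v).mono h

theorem Ord.sum {ι : Type*} {d : ℤ} (s : Finset ι) (f : ι → L)
    (h : ∀ i ∈ s, Ord d (f i)) : Ord d (∑ i ∈ s, f i) := by
  classical
  induction s using Finset.induction_on with
  | empty => simpa using Ord.zero d
  | insert a s ha ih =>
    rw [sum_insert ha]
    exact (h a (mem_insert_self _ _)).add (ih fun i hi => h i (mem_insert_of_mem hi))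

theorem Ord.mo (v : V) : Ord 0 (mo v) := by
  intro w
  rw [coeff_mo]
  split_ifs
  · exact O.one
  · exact O.zero _

theorem Ord.zmo (d : ℤ) (v : V) : Ord d (q ^ d • H38.mo v) := by
  simpa using Ord.smul (O.zpow d) (Ord.mo v)

theorem Ord.map {S : V → Prop} {d e : ℤ} {f : L} (hf : Ord d f) (hs : Sup S f) (T : L →ₗ[R] L)
    (h : ∀ v, S v → Ord e (T (H38.mo v))) : Ord (d + e) (T f) := by
  rw [map_eq_sum]
  exact Ord.sum _ _ fun v hv => Ord.smul (hf v) (h v (hs v (Finsupp.mem_support_iff.1 hv)))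

theorem Ord.fun {d e : ℤ} {f : L} (hf : Ord d f) (T : L →ₗ[R] R)
    (h : ∀ v, O e (T (H38.mo v))) : O (d + e) (T f) := by
  rw [map_eq_sum]
  exact O.sum _ _ fun v _ => (hf v).mul (h v)

theorem Ord.mo_mul {d : ℤ} {f : L} (hf : Ord d f) (w : V) : Ord d (H38.mo w * f) := by
  have := hf.map (Sup.top f) (LinearMap.mulLeft R (H38.mo w)) (e := 0)
    (fun v _ => by simpa [H38.mo_mul] using Ord.mo _)
  simpa using this

/-- Affine substitutions. -/
noncomputable def aff (a b c d u v : ℤ) : L →ₐ[R] L :=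
  AddMonoidAlgebra.lift R L V
    { toFun := fun w => q ^ (u * w.toAdd.1 + v * w.toAdd.2) •
        mo (a * w.toAdd.1 + b * w.toAdd.2, c * w.toAdd.1 + d * w.toAdd.2)
      map_one' := by simp [mo_zero']
      map_mul' := by
        intro x y
        rw [smul_mul_smul_comm, mo_mul, ← zpow_add₀ q_ne]
        congr 2
        · simp; ring
        · simp; constructor <;> ring }

theorem aff_mo (a b c d u v : ℤ) (w : V) :
    aff a b c d u v (mo w) = q ^ (u * w.1 + v * w.2) • mo (a * w.1 + b * w.2, c * w.1 + d * w.2) := by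
  simp [aff, mo]

theorem aff_aff (a b c d u v a' b' c' d' u' v' : ℤ) (f : L) :
    aff a b c d u v (aff a' b' c' d' u' v' f) =
      aff (a * a' + b * c') (a * b' + b * d') (c * a' + d * c') (c * b' + d * d')
        (u * a' + v * c' + u') (u * b' + v * d' + v') f := by
  refine lin_ext (T := (aff a b c d u v).toLinearMap ∘ₗ (aff a' b' c' d' u' v').toLinearMap)
    (S := (aff _ _ _ _ _ _).toLinearMap) (fun w => ?_) f
  simp only [LinearMap.comp_apply, AlgHom.toLinearMap_apply, aff_mo, map_smul, smul_smul,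
    ← zpow_add₀ q_ne]
  congr 2
  · ring
  · ext <;> simp only <;> ring

theorem aff_id (f : L) : aff 1 0 0 1 0 0 f = f := by
  refine lin_ext (T := (aff 1 0 0 1 0 0).toLinearMap) (S := LinearMap.id) (fun w => ?_) f
  simp [aff_mo]

/-- Projection on the monomials satisfying `p`. -/
noncomputable def proj (p : V → Prop) [DecidablePred p] : L →ₗ[R] L :=
  lin fun v => if p v then mo v else 0

theorem proj_mo (p : V → Prop) [DecidablePred p] (v : V) :
    proj p (mo v) = if p v then mo v else 0 := lin_mo _ _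

theorem coeff_proj (p : V → Prop) [DecidablePred p] (f : L) (w : V) :
    (proj p f).coeff w = if p w then f.coeff w else 0 := by
  let c : L →ₗ[R] R := (Finsupp.lapply w) ∘ₗ (AddMonoidAlgebra.coeffLinearEquiv R).toLinearMap
  have hc : ∀ g : L, c g = g.coeff w := fun g => rfl
  by_cases hw : p w
  · rw [if_pos hw, ← hc, ← hc]
    refine lin_ext (T := c ∘ₗ proj p) (S := c) (fun v => ?_) f
    rw [LinearMap.comp_apply, proj_mo]
    split_ifs with hv
    · rfl
    · rw [map_zero, hc, coeff_mo, if_neg]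
      rintro rfl
      exact hv hw
  · rw [if_neg hw, ← hc]
    refine lin_ext (T := c ∘ₗ proj p) (S := 0) (fun v => ?_) f
    rw [LinearMap.comp_apply, proj_mo]
    split_ifs with hv
    · rw [hc, coeff_mo, if_neg]
      · rfl
      · rintro rfl
        exact hw hv
    · simp

/-- A Demazure type operator. -/
noncomputable def dem (β : V) (e : ℤ) (t : V → ℤ) : L →ₗ[R] L :=
  lin fun v => ∑ s ∈ Ico 0 (t v + 1), q ^ (e * s) • mo (v + s • β)
    - ∑ s ∈ Ico (t v + 1) 0, q ^ (e * s) • mo (v + s • β)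

/-- The associated reflection. -/
noncomputable def rfn (β : V) (e : ℤ) (t : V → ℤ) : L →ₗ[R] L :=
  lin fun v => q ^ (e * t v) • mo (v + t v • β)

theorem tele (g : ℤ → L) (a b : ℤ) (h : a ≤ b) : ∑ s ∈ Ico a b, (g s - g (s + 1)) = g a - g b := by
  induction b, h using Int.leInduction with
  | base => simp
  | succ b hb ih =>
    rw [← Finset.insert_Ico_right_eq_Ico_add_one hb, sum_insert right_notMem_Ico, ih]; ring

theorem dem_key (β : V) (e : ℤ) (t : V → ℤ) (f : L) :
    (1 - q ^ e • mo β) * dem β e t f = f - (q ^ e • mo β) * rfn β e t f := by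
  refine lin_ext (T := LinearMap.mulLeft R (1 - q ^ e • mo β) ∘ₗ dem β e t)
    (S := LinearMap.id - LinearMap.mulLeft R (q ^ e • mo β) ∘ₗ rfn β e t) (fun v => ?_) f
  simp only [LinearMap.comp_apply, LinearMap.mulLeft_apply, LinearMap.sub_apply,
    LinearMap.id_apply, dem, rfn, lin_mo]
  set g : ℤ → L := fun s => q ^ (e * s) • mo (v + s • β) with hg
  have h1 : ∀ s, (q ^ e • mo β) * g s = g (s + 1) := by
    intro s
    simp only [hg]
    rw [smul_mul_smul_comm, mo_mul, ← zpow_add₀ q_ne]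
    congr 2
    · ring
    · rw [add_smul, one_smul]; abel
  have h2 : ∀ s, (1 - q ^ e • mo β) * g s = g s - g (s + 1) := by
    intro s; rw [sub_mul, one_mul, h1]
  have h0 : g 0 = mo v := by simp [hg]
  change (1 - q ^ e • mo β) * (∑ s ∈ Ico 0 (t v + 1), g s - ∑ s ∈ Ico (t v + 1) 0, g s) =
    mo v - (q ^ e • mo β) * g (t v)
  rw [mul_sub, mul_sum, mul_sum, h1]
  simp only [h2]
  rcases le_total 0 (t v + 1) with h | h
  · rw [tele g _ _ h, Ico_eq_empty_of_le h, sum_empty, sub_zero, h0]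
  · rw [tele g _ _ h, Ico_eq_empty_of_le h, sum_empty, h0]; ring

theorem dem_mo (β : V) (e : ℤ) (t : V → ℤ) (v : V) :
    dem β e t (mo v) = ∑ s ∈ Ico 0 (t v + 1), q ^ (e * s) • mo (v + s • β)
      - ∑ s ∈ Ico (t v + 1) 0, q ^ (e * s) • mo (v + s • β) := lin_mo _ _

theorem sup_dem_mo {S : V → Prop} (β : V) (e : ℤ) (t : V → ℤ) (v : V)
    (h : ∀ s : ℤ, (0 ≤ s ∧ s ≤ t v) ∨ (t v < s ∧ s < 0) → S (v + s • β)) :
    Sup S (dem β e t (mo v)) := by
  rw [dem_mo]
  refine Sup.sub (Sup.sum _ _ fun s hs => (Sup.mo (h s ?_)).smul _)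
    (Sup.sum _ _ fun s hs => (Sup.mo (h s ?_)).smul _) <;> rw [mem_Ico] at hs <;> omega

theorem ord_dem_mo {d : ℤ} (β : V) (e : ℤ) (t : V → ℤ) (v : V)
    (h : ∀ s : ℤ, (0 ≤ s ∧ s ≤ t v) ∨ (t v < s ∧ s < 0) → d ≤ e * s) :
    Ord d (dem β e t (mo v)) := by
  rw [dem_mo]
  refine Ord.sub (Ord.sum _ _ fun s hs => (Ord.zmo _ _).mono (h s ?_))
    (Ord.sum _ _ fun s hs => (Ord.zmo _ _).mono (h s ?_)) <;> rw [mem_Ico] at hs <;> omega

theorem proj_dem_zero (p : V → Prop) [DecidablePred p] (β : V) (e : ℤ) (t : V → ℤ) (v : V)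
    (h : ∀ s : ℤ, (0 ≤ s ∧ s ≤ t v) ∨ (t v < s ∧ s < 0) → ¬ p (v + s • β)) :
    proj p (dem β e t (mo v)) = 0 := by
  rw [dem_mo, map_sub, map_sum, map_sum, sum_eq_zero, sum_eq_zero, sub_zero] <;>
  · intro s hs
    rw [mem_Ico] at hs
    rw [map_smul, proj_mo, if_neg (h s (by omega)), smul_zero]

theorem proj_dem_one (p : V → Prop) [DecidablePred p] (β : V) (e : ℤ) (t : V → ℤ) (v : V)
    (s0 : ℤ) (h0 : 0 ≤ s0) (h1 : s0 ≤ t v) (hp : p (v + s0 • β))
    (h : ∀ s : ℤ, 0 ≤ s → s ≤ t v → p (v + s • β) → s = s0) :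
    proj p (dem β e t (mo v)) = q ^ (e * s0) • mo (v + s0 • β) := by
  rw [dem_mo, Ico_eq_empty_of_le (a := t v + 1) (b := 0) (by omega), sum_empty, sub_zero, map_sum,
    sum_eq_single s0]
  · rw [map_smul, proj_mo, if_pos hp]
  · intro s hs hne
    rw [mem_Ico] at hs
    rw [map_smul, proj_mo, if_neg (fun hp => hne (h s (by omega) (by omega) hp)), smul_zero]
  · intro hs
    rw [mem_Ico] at hs
    omega

theorem proj_dem_comm (p : V → Prop) [DecidablePred p] (β : V) (e : ℤ) (t : V → ℤ)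
    (h : ∀ v, ∀ s : ℤ, p (v + s • β) ↔ p v) (f : L) :
    proj p (dem β e t f) = dem β e t (proj p f) := by
  refine lin_ext (T := proj p ∘ₗ dem β e t) (S := dem β e t ∘ₗ proj p) (fun v => ?_) f
  simp only [LinearMap.comp_apply]
  by_cases hv : p v
  · rw [proj_mo, if_pos hv, dem_mo, map_sub, map_sum, map_sum]
    congr 1 <;>
    · refine sum_congr rfl fun s _ => ?_
      rw [map_smul, proj_mo, if_pos ((h v s).2 hv)]
  · rw [proj_mo, if_neg hv, map_zero]
    exact proj_dem_zero p β e t v fun s _ hp => hv ((h v s).1 hp)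

theorem one_sub_mo_ne (c : R) (β : V) (hβ : β ≠ 0) : (1 : L) - c • mo β ≠ 0 := by
  intro h
  have := congrArg (fun g : L => g.coeff 0) h
  simp [← mo_zero, coeff_mo, hβ] at this

end Pool.Agent.MP_7258fc_nt.H38
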