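import Pool.Agent.MP_7258fc_nt.H38.Frame

set_option maxRecDepth 100000
set_option linter.style.longLine false
set_option linter.unusedSimpArgs false
set_option linter.unusedVariables false
set_option linter.unusedTactic false
set_option linter.unreachableTactic false
set_option linter.unnecessarySeqFocus false

namespace Pool.Agent.MP_7258fc_nt.H38

variable {K : Type*} [Field K]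

theorem Mr_zero (k : ℤ) (Q X0 X1 X2 X3 X4 X5 : K) :
    Mr k Q X0 X1 X2 X3 X4 X5 (fun _ _ => 0) = 0 := by simp [Mr]

theorem Mr_aux0 {Q X0 X1 X2 X3 X4 X5 : K} (h : Frame Q X0 X1 X2 X3 X4 X5) :
    (gP Q X0 X1 X2 X3 X4 X5) +
      (gA Q X0 X1) * ((X0 / Q) ^ (0 : ℤ)) +
      (gA Q X1 X2) * ((X1 / Q) ^ (0 : ℤ)) +
      (gA Q X2 X3) * ((X2 / Q) ^ (0 : ℤ)) +
      (gA Q X3 X4) * ((X3 / Q) ^ (0 : ℤ)) +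
      (gA Q X4 X5) * ((X4 / Q) ^ (0 : ℤ)) +
      (gA Q X5 X0) * ((X5 / Q) ^ (0 : ℤ)) +
      ((-1)) = 0 := by
  obtain ⟨nd, h2, h3, h4, h5⟩ := h
  subst h2 h3 h4 h5
  generalize X0 = x at *
  generalize X1 = z at *
  have hQ := nd.hQ
  have hx := nd.hx
  have hz := nd.hz
  have d0 := nd.ne 0 0 1 1 0 0 (by decide)
  have d1 := nd.ne 0 1 0 1 0 0 (by decide)
  have d2 := nd.ne 0 1 0 1 0 1 (by decide)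
  have d3 := nd.ne 1 0 1 0 0 0 (by decide)
  have d4 := nd.ne 1 1 0 0 0 0 (by decide)
  have d5 := nd.ne 1 1 0 0 0 1 (by decide)
  have d6 := nd.ne 0 0 1 0 0 0 (by decide)
  have d7 := nd.ne 0 1 0 0 0 0 (by decide)
  have d8 := nd.ne 0 1 0 0 0 1 (by decide)
  have d9 := nd.ne 0 1 1 0 0 0 (by decide)
  have d10 := nd.ne 0 2 0 0 0 1 (by decide)
  have d11 := nd.ne 0 1 0 0 0 2 (by decide)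
  have f0 := nd.inv2 1 1 0 0 0 0 (Q * x) (by field_simp)
  have f1 := nd.inv2 1 0 1 0 0 0 (Q * z) (by field_simp)
  have f2 := nd.inv1 0 1 0 1 0 1 (Q * (z / x)) (by field_simp)
  have f3 := nd.inv1 0 1 0 1 0 0 (Q * x⁻¹) (by field_simp)
  have f4 := nd.inv1 0 0 1 1 0 0 (Q * z⁻¹) (by field_simp)
  have f5 := nd.inv2 1 1 0 0 0 1 (Q * (x / z)) (by field_simp)
  have f6 := nd.inv1 0 1 0 1 0 0 (Q / x) (by field_simp)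
  have f7 := nd.inv1 0 1 0 0 0 0 (1 / x) (by field_simp)
  have f8 := nd.inv1 0 1 0 0 0 1 (z / x) (by field_simp)
  have f9 := nd.inv1 0 0 1 0 0 0 (1 / z) (by field_simp)
  have f10 := nd.inv1 0 2 0 0 0 1 (z / x ^ 2) (by field_simp)
  have f11 := nd.inv1 0 1 1 0 0 0 (1 / (x * z)) (by field_simp)
  have f12 := nd.inv1 0 0 1 1 0 0 (Q / z) (by field_simp)
  have f13 := nd.inv1 0 1 0 0 0 0 ((z / x) / z) (by field_simp)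
  have f14 := nd.inv2 0 1 0 0 0 1 (1 / (z / x)) (by field_simp)
  have f15 := nd.inv1 0 1 1 0 0 0 ((z / x) / z ^ 2) (by field_simp)
  have f16 := nd.inv2 0 1 0 0 0 2 (1 / (z * (z / x))) (by field_simp)
  have f17 := nd.inv2 1 1 0 0 0 1 (Q / (z / x)) (by field_simp)
  have f18 := nd.inv1 0 0 1 0 0 0 (x⁻¹ / (z / x)) (by field_simp)
  have f19 := nd.inv2 0 1 0 0 0 0 (1 / x⁻¹) (by field_simp)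
  have f20 := nd.inv2 0 1 0 0 0 2 (x⁻¹ / (z / x) ^ 2) (by field_simp)
  have f21 := nd.inv2 0 2 0 0 0 1 (1 / ((z / x) * x⁻¹)) (by field_simp)
  have f22 := nd.inv2 1 1 0 0 0 0 (Q / x⁻¹) (by field_simp)
  have f23 := nd.inv2 0 1 0 0 0 1 (z⁻¹ / x⁻¹) (by field_simp)
  have f24 := nd.inv2 0 0 1 0 0 0 (1 / z⁻¹) (by field_simp)
  have f25 := nd.inv2 0 2 0 0 0 1 (z⁻¹ / x⁻¹ ^ 2) (by field_simp)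
  have f26 := nd.inv2 0 1 1 0 0 0 (1 / (x⁻¹ * z⁻¹)) (by field_simp)
  have f27 := nd.inv2 1 0 1 0 0 0 (Q / z⁻¹) (by field_simp)
  have f28 := nd.inv2 0 1 0 0 0 0 ((x / z) / z⁻¹) (by field_simp)
  have f29 := nd.inv1 0 1 0 0 0 1 (1 / (x / z)) (by field_simp)
  have f30 := nd.inv2 0 1 1 0 0 0 ((x / z) / z⁻¹ ^ 2) (by field_simp)
  have f31 := nd.inv1 0 1 0 0 0 2 (1 / (z⁻¹ * (x / z))) (by field_simp)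
  have f32 := nd.inv1 0 1 0 1 0 1 (Q / (x / z)) (by field_simp)
  have f33 := nd.inv2 0 0 1 0 0 0 (x / (x / z)) (by field_simp)
  have f34 := nd.inv1 0 1 0 0 0 2 (x / (x / z) ^ 2) (by field_simp)
  have f35 := nd.inv1 0 2 0 0 0 1 (1 / ((x / z) * x)) (by field_simp)
  have t0 : ((gP Q x z (z / x) x⁻¹ z⁻¹ (x / z)) : K) = ((-1 : K) * Q ^ (5 : ℕ) * x ^ (2 : ℕ) * z ^ (2 : ℕ) + (-1 : K) * Q ^ (6 : ℕ) * x ^ (2 : ℕ) * z ^ (2 : ℕ)) / (1 * dd Q x z 0 0 1 1 0 0 * dd Q x z 0 1 0 1 0 0 * dd Q x z 0 1 0 1 0 1 * dd Q x z 1 0 1 0 0 0 * dd Q x z 1 1 0 0 0 0 * dd Q x z 1 1 0 0 0 1) := by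
    simp only [gA, gC, gP, gi]
    simp only [f0, f1, f2, f3, f4, f5]
    field_simp <;> ring
  have t1 : ((gA Q x z) * ((x / Q) ^ (0 : ℤ)) : K) = ((1 : K) * x ^ (6 : ℕ) * z ^ (2 : ℕ)) / (1 * dd Q x z 0 0 1 0 0 0 * dd Q x z 0 1 0 0 0 0 * dd Q x z 0 1 0 0 0 1 * dd Q x z 0 1 0 1 0 0 * dd Q x z 0 1 1 0 0 0 * dd Q x z 0 2 0 0 0 1) := by
    simp only [gA, gC, gP, gi]
    simp only [f6, f7, f8, f9, f10, f11]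
    field_simp <;> ring
  have t2 : ((gA Q z (z / x)) * ((z / Q) ^ (0 : ℤ)) : K) = ((1 : K) * x ^ (2 : ℕ) * z ^ (6 : ℕ)) / (1 * dd Q x z 0 0 1 0 0 0 * dd Q x z 0 0 1 1 0 0 * dd Q x z 0 1 0 0 0 0 * dd Q x z 0 1 0 0 0 1 * dd Q x z 0 1 0 0 0 2 * dd Q x z 0 1 1 0 0 0) := by
    simp only [gA, gC, gP, gi]
    simp only [f9, f12, f13, f14, f15, f16]
    field_simp <;> ring
  have t3 : ((gA Q (z / x) x⁻¹) * (((z / x) / Q) ^ (0 : ℤ)) : K) = ((-1 : K) * z ^ (6 : ℕ)) / (1 * dd Q x z 0 0 1 0 0 0 * dd Q x z 0 1 0 0 0 0 * dd Q x z 0 1 0 0 0 1 * dd Q x z 0 1 0 0 0 2 * dd Q x z 0 2 0 0 0 1 * dd Q x z 1 1 0 0 0 1) := by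
    simp only [gA, gC, gP, gi]
    simp only [f14, f17, f18, f19, f20, f21]
    field_simp <;> ring
  have t4 : ((gA Q x⁻¹ z⁻¹) * ((x⁻¹ / Q) ^ (0 : ℤ)) : K) = ((1 : K) * z ^ (2 : ℕ)) / (1 * dd Q x z 0 0 1 0 0 0 * dd Q x z 0 1 0 0 0 0 * dd Q x z 0 1 0 0 0 1 * dd Q x z 0 1 1 0 0 0 * dd Q x z 0 2 0 0 0 1 * dd Q x z 1 1 0 0 0 0) := by
    simp only [gA, gC, gP, gi]
    simp only [f19, f22, f23, f24, f25, f26]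
    field_simp <;> ring
  have t5 : ((gA Q z⁻¹ (x / z)) * ((z⁻¹ / Q) ^ (0 : ℤ)) : K) = ((1 : K) * x ^ (2 : ℕ)) / (1 * dd Q x z 0 0 1 0 0 0 * dd Q x z 0 1 0 0 0 0 * dd Q x z 0 1 0 0 0 1 * dd Q x z 0 1 0 0 0 2 * dd Q x z 0 1 1 0 0 0 * dd Q x z 1 0 1 0 0 0) := by
    simp only [gA, gC, gP, gi]
    simp only [f24, f27, f28, f29, f30, f31]
    field_simp <;> ring
  have t6 : ((gA Q (x / z) x) * (((x / z) / Q) ^ (0 : ℤ)) : K) = ((-1 : K) * x ^ (6 : ℕ)) / (1 * dd Q x z 0 0 1 0 0 0 * dd Q x z 0 1 0 0 0 0 * dd Q x z 0 1 0 0 0 1 * dd Q x z 0 1 0 0 0 2 * dd Q x z 0 1 0 1 0 1 * dd Q x z 0 2 0 0 0 1) := by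
    simp only [gA, gC, gP, gi]
    simp only [f7, f29, f32, f33, f34, f35]
    field_simp <;> ring
  have t7 : (((-1)) : K) = ((-1 : K) * 1) / (1) := by
    field_simp <;> ring
  have key : ((-1 : K) * Q ^ (5 : ℕ) * x ^ (2 : ℕ) * z ^ (2 : ℕ) + (-1 : K) * Q ^ (6 : ℕ) * x ^ (2 : ℕ) * z ^ (2 : ℕ)) * dd Q x z 0 0 1 0 0 0 * dd Q x z 0 1 0 0 0 0 * dd Q x z 0 1 0 0 0 1 * dd Q x z 0 1 1 0 0 0 * dd Q x z 0 2 0 0 0 1 * dd Q x z 0 1 0 0 0 2 +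
      ((1 : K) * x ^ (6 : ℕ) * z ^ (2 : ℕ)) * dd Q x z 0 0 1 1 0 0 * dd Q x z 0 1 0 1 0 1 * dd Q x z 1 0 1 0 0 0 * dd Q x z 1 1 0 0 0 0 * dd Q x z 1 1 0 0 0 1 * dd Q x z 0 1 0 0 0 2 +
      ((1 : K) * x ^ (2 : ℕ) * z ^ (6 : ℕ)) * dd Q x z 0 1 0 1 0 0 * dd Q x z 0 1 0 1 0 1 * dd Q x z 1 0 1 0 0 0 * dd Q x z 1 1 0 0 0 0 * dd Q x z 1 1 0 0 0 1 * dd Q x z 0 2 0 0 0 1 +
      ((-1 : K) * z ^ (6 : ℕ)) * dd Q x z 0 0 1 1 0 0 * dd Q x z 0 1 0 1 0 0 * dd Q x z 0 1 0 1 0 1 * dd Q x z 1 0 1 0 0 0 * dd Q x z 1 1 0 0 0 0 * dd Q x z 0 1 1 0 0 0 +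
      ((1 : K) * z ^ (2 : ℕ)) * dd Q x z 0 0 1 1 0 0 * dd Q x z 0 1 0 1 0 0 * dd Q x z 0 1 0 1 0 1 * dd Q x z 1 0 1 0 0 0 * dd Q x z 1 1 0 0 0 1 * dd Q x z 0 1 0 0 0 2 +
      ((1 : K) * x ^ (2 : ℕ)) * dd Q x z 0 0 1 1 0 0 * dd Q x z 0 1 0 1 0 0 * dd Q x z 0 1 0 1 0 1 * dd Q x z 1 1 0 0 0 0 * dd Q x z 1 1 0 0 0 1 * dd Q x z 0 2 0 0 0 1 +
      ((-1 : K) * x ^ (6 : ℕ)) * dd Q x z 0 0 1 1 0 0 * dd Q x z 0 1 0 1 0 0 * dd Q x z 1 0 1 0 0 0 * dd Q x z 1 1 0 0 0 0 * dd Q x z 1 1 0 0 0 1 * dd Q x z 0 1 1 0 0 0 +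
      ((-1 : K) * 1) * dd Q x z 0 0 1 1 0 0 * dd Q x z 0 1 0 1 0 0 * dd Q x z 0 1 0 1 0 1 * dd Q x z 1 0 1 0 0 0 * dd Q x z 1 1 0 0 0 0 * dd Q x z 1 1 0 0 0 1 * dd Q x z 0 0 1 0 0 0 * dd Q x z 0 1 0 0 0 0 * dd Q x z 0 1 0 0 0 1 * dd Q x z 0 1 1 0 0 0 * dd Q x z 0 2 0 0 0 1 * dd Q x z 0 1 0 0 0 2 = 0 := by
    simp only [dd]; ring
  have fin : ∀ n0 n1 n2 n3 n4 n5 n6 n7 : K, n0 * dd Q x z 0 0 1 0 0 0 * dd Q x z 0 1 0 0 0 0 * dd Q x z 0 1 0 0 0 1 * dd Q x z 0 1 1 0 0 0 * dd Q x z 0 2 0 0 0 1 * dd Q x z 0 1 0 0 0 2 + n1 * dd Q x z 0 0 1 1 0 0 * dd Q x z 0 1 0 1 0 1 * dd Q x z 1 0 1 0 0 0 * dd Q x z 1 1 0 0 0 0 * dd Q x z 1 1 0 0 0 1 * dd Q x z 0 1 0 0 0 2 + n2 * dd Q x z 0 1 0 1 0 0 * dd Q x z 0 1 0 1 0 1 * dd Q x z 1 0 1 0 0 0 * dd Q x z 1 1 0 0 0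 0 * dd Q x z 1 1 0 0 0 1 * dd Q x z 0 2 0 0 0 1 + n3 * dd Q x z 0 0 1 1 0 0 * dd Q x z 0 1 0 1 0 0 * dd Q x z 0 1 0 1 0 1 * dd Q x z 1 0 1 0 0 0 * dd Q x z 1 1 0 0 0 0 * dd Q x z 0 1 1 0 0 0 + n4 * dd Q x z 0 0 1 1 0 0 * dd Q x z 0 1 0 1 0 0 * dd Q x z 0 1 0 1 0 1 * dd Q x z 1 0 1 0 0 0 * dd Q x z 1 1 0 0 0 1 * dd Q x z 0 1 0 0 0 2 + n5 * dd Q x z 0 0 1 1 0 0 * dd Q x z 0 1 0 1 0 0 * dd Q x z 0 1 0 1 0 1 * dd Q x z 1 1 0 0 0 0 * dd Q x z 1 1 0 0 0 1 * dd Q x z 0 2 0 0 0 1 + n6 * dd Q x z 0 0 1 1 0 0 * dd Q x z 0 1 0 1 0 0 * dd Q x z 1 0 1 0 0 0 * dd Q x z 1 1 0 0 0 0 * dd Q x z 1 1 0 0 0 1 * dd Q x z 0 1 1 0 0 0 + n7 * dd Q x z 0 0 1 1 0 0 * dd Q x z 0 1 0 1 0 0 * dd Q x z 0 1 0 1 0 1 * dd Q x z 1 0 1 0 0 0 * dd Q x z 1 1 0 0 0 0 * dd Q x z 1 1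 0 0 0 1 * dd Q x z 0 0 1 0 0 0 * dd Q x z 0 1 0 0 0 0 * dd Q x z 0 1 0 0 0 1 * dd Q x z 0 1 1 0 0 0 * dd Q x z 0 2 0 0 0 1 * dd Q x z 0 1 0 0 0 2 = 0 → n0 / (1 * dd Q x z 0 0 1 1 0 0 * dd Q x z 0 1 0 1 0 0 * dd Q x z 0 1 0 1 0 1 * dd Q x z 1 0 1 0 0 0 * dd Q x z 1 1 0 0 0 0 * dd Q x z 1 1 0 0 0 1) + n1 / (1 * dd Q x z 0 0 1 0 0 0 * dd Q x z 0 1 0 0 0 0 * dd Q x z 0 1 0 0 0 1 * dd Q x z 0 1 0 1 0 0 * dd Q x z 0 1 1 0 0 0 * dd Q x z 0 2 0 0 0 1) + n2 / (1 * dd Q x z 0 0 1 0 0 0 * dd Q x z 0 0 1 1 0 0 * dd Q x z 0 1 0 0 0 0 * dd Q x z 0 1 0 0 0 1 * dd Q x z 0 1 0 0 0 2 * dd Q x z 0 1 1 0 0 0) + n3 / (1 * dd Q x z 0 0 1 0 0 0 * dd Q x z 0 1 0 0 0 0 * dd Q x z 0 1 0 0 0 1 * dd Q x z 0 1 0 0 0 2 * dd Q x z 0 2 0 0 0 1 * dd Q x z 1 1 0 0 0 1) + n4 / (1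 * dd Q x z 0 0 1 0 0 0 * dd Q x z 0 1 0 0 0 0 * dd Q x z 0 1 0 0 0 1 * dd Q x z 0 1 1 0 0 0 * dd Q x z 0 2 0 0 0 1 * dd Q x z 1 1 0 0 0 0) + n5 / (1 * dd Q x z 0 0 1 0 0 0 * dd Q x z 0 1 0 0 0 0 * dd Q x z 0 1 0 0 0 1 * dd Q x z 0 1 0 0 0 2 * dd Q x z 0 1 1 0 0 0 * dd Q x z 1 0 1 0 0 0) + n6 / (1 * dd Q x z 0 0 1 0 0 0 * dd Q x z 0 1 0 0 0 0 * dd Q x z 0 1 0 0 0 1 * dd Q x z 0 1 0 0 0 2 * dd Q x z 0 1 0 1 0 1 * dd Q x z 0 2 0 0 0 1) + n7 / (1) = 0 := by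
    intro n0 n1 n2 n3 n4 n5 n6 n7 hk
    refine Eq.trans (b := (n0 * dd Q x z 0 0 1 0 0 0 * dd Q x z 0 1 0 0 0 0 * dd Q x z 0 1 0 0 0 1 * dd Q x z 0 1 1 0 0 0 * dd Q x z 0 2 0 0 0 1 * dd Q x z 0 1 0 0 0 2 + n1 * dd Q x z 0 0 1 1 0 0 * dd Q x z 0 1 0 1 0 1 * dd Q x z 1 0 1 0 0 0 * dd Q x z 1 1 0 0 0 0 * dd Q x z 1 1 0 0 0 1 * dd Q x z 0 1 0 0 0 2 + n2 * dd Q x z 0 1 0 1 0 0 * dd Q x z 0 1 0 1 0 1 * dd Q x z 1 0 1 0 0 0 * dd Q x z 1 1 0 0 0 0 * dd Q x z 1 1 0 0 0 1 * dd Q x z 0 2 0 0 0 1 + n3 * dd Q x z 0 0 1 1 0 0 * dd Q x z 0 1 0 1 0 0 * dd Q x z 0 1 0 1 0 1 * dd Q x z 1 0 1 0 0 0 * dd Q x z 1 1 0 0 0 0 * dd Q x z 0 1 1 0 0 0 + n4 * dd Q x z 0 0 1 1 0 0 * dd Q x z 0 1 0 1 0 0 * dd Q x z 0 1 0 1 0 1 * dd Q x z 1 0 1 0 0 0 * dd Q x z 1 1 0 0 0 1 *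 dd Q x z 0 1 0 0 0 2 + n5 * dd Q x z 0 0 1 1 0 0 * dd Q x z 0 1 0 1 0 0 * dd Q x z 0 1 0 1 0 1 * dd Q x z 1 1 0 0 0 0 * dd Q x z 1 1 0 0 0 1 * dd Q x z 0 2 0 0 0 1 + n6 * dd Q x z 0 0 1 1 0 0 * dd Q x z 0 1 0 1 0 0 * dd Q x z 1 0 1 0 0 0 * dd Q x z 1 1 0 0 0 0 * dd Q x z 1 1 0 0 0 1 * dd Q x z 0 1 1 0 0 0 + n7 * dd Q x z 0 0 1 1 0 0 * dd Q x z 0 1 0 1 0 0 * dd Q x z 0 1 0 1 0 1 * dd Q x z 1 0 1 0 0 0 * dd Q x z 1 1 0 0 0 0 * dd Q x z 1 1 0 0 0 1 * dd Q x z 0 0 1 0 0 0 * dd Q x z 0 1 0 0 0 0 * dd Q x z 0 1 0 0 0 1 * dd Q x z 0 1 1 0 0 0 * dd Q x z 0 2 0 0 0 1 * dd Q x z 0 1 0 0 0 2) / (1 * dd Q x z 0 0 1 1 0 0 * dd Q x z 0 1 0 1 0 0 * dd Q x z 0 1 0 1 0 1 * dd Q x z 1 0 1 0 0 0 * dd Q x z 1 1 0 0 0 0 * dd Q x z 1 1 0 0 0 1 * dd Q x z 0 0 1 0 0 0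 * dd Q x z 0 1 0 0 0 0 * dd Q x z 0 1 0 0 0 1 * dd Q x z 0 1 1 0 0 0 * dd Q x z 0 2 0 0 0 1 * dd Q x z 0 1 0 0 0 2)) ?_ (by rw [hk, zero_div])
    field_simp <;> ring
  have fin2 := fin _ _ _ _ _ _ _ _ key
  linear_combination t0 + t1 + t2 + t3 + t4 + t5 + t6 + t7 + fin2

theorem Mr_one0 {Q X0 X1 X2 X3 X4 X5 : K} (h : Frame Q X0 X1 X2 X3 X4 X5) :
    Mr (0) Q X0 X1 X2 X3 X4 X5 (fun _ _ => 1) = 1 := by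
  have e := Mr_aux0 h
  simp only [Mr]
  linear_combination e

theorem Mr_aux1 {Q X0 X1 X2 X3 X4 X5 : K} (h : Frame Q X0 X1 X2 X3 X4 X5) :
    (gP Q X0 X1 X2 X3 X4 X5) +
      (gA Q X0 X1) * ((X0 / Q) ^ (1 : ℤ)) +
      (gA Q X1 X2) * ((X1 / Q) ^ (1 : ℤ)) +
      (gA Q X2 X3) * ((X2 / Q) ^ (1 : ℤ)) +
      (gA Q X3 X4) * ((X3 / Q) ^ (1 : ℤ)) +
      (gA Q X4 X5) * ((X4 / Q) ^ (1 : ℤ)) +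
      (gA Q X5 X0) * ((X5 / Q) ^ (1 : ℤ)) +
      ((-1)) * (p1 Q X0 X1 X2 X3 X4 X5) = 0 := by
  obtain ⟨nd, h2, h3, h4, h5⟩ := h
  subst h2 h3 h4 h5
  generalize X0 = x at *
  generalize X1 = z at *
  have hQ := nd.hQ
  have hx := nd.hx
  have hz := nd.hz
  have d0 := nd.ne 0 0 1 1 0 0 (by decide)
  have d1 := nd.ne 0 1 0 1 0 0 (by decide)
  have d2 := nd.ne 0 1 0 1 0 1 (by decide)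
  have d3 := nd.ne 1 0 1 0 0 0 (by decide)
  have d4 := nd.ne 1 1 0 0 0 0 (by decide)
  have d5 := nd.ne 1 1 0 0 0 1 (by decide)
  have d6 := nd.ne 0 0 1 0 0 0 (by decide)
  have d7 := nd.ne 0 1 0 0 0 0 (by decide)
  have d8 := nd.ne 0 1 0 0 0 1 (by decide)
  have d9 := nd.ne 0 1 1 0 0 0 (by decide)
  have d10 := nd.ne 0 2 0 0 0 1 (by decide)
  have d11 := nd.ne 0 1 0 0 0 2 (by decide)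
  have f0 := nd.inv2 1 1 0 0 0 0 (Q * x) (by field_simp)
  have f1 := nd.inv2 1 0 1 0 0 0 (Q * z) (by field_simp)
  have f2 := nd.inv1 0 1 0 1 0 1 (Q * (z / x)) (by field_simp)
  have f3 := nd.inv1 0 1 0 1 0 0 (Q * x⁻¹) (by field_simp)
  have f4 := nd.inv1 0 0 1 1 0 0 (Q * z⁻¹) (by field_simp)
  have f5 := nd.inv2 1 1 0 0 0 1 (Q * (x / z)) (by field_simp)
  have f6 := nd.inv1 0 1 0 1 0 0 (Q / x) (by field_simp)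
  have f7 := nd.inv1 0 1 0 0 0 0 (1 / x) (by field_simp)
  have f8 := nd.inv1 0 1 0 0 0 1 (z / x) (by field_simp)
  have f9 := nd.inv1 0 0 1 0 0 0 (1 / z) (by field_simp)
  have f10 := nd.inv1 0 2 0 0 0 1 (z / x ^ 2) (by field_simp)
  have f11 := nd.inv1 0 1 1 0 0 0 (1 / (x * z)) (by field_simp)
  have f12 := nd.inv1 0 0 1 1 0 0 (Q / z) (by field_simp)
  have f13 := nd.inv1 0 1 0 0 0 0 ((z / x) / z) (by field_simp)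
  have f14 := nd.inv2 0 1 0 0 0 1 (1 / (z / x)) (by field_simp)
  have f15 := nd.inv1 0 1 1 0 0 0 ((z / x) / z ^ 2) (by field_simp)
  have f16 := nd.inv2 0 1 0 0 0 2 (1 / (z * (z / x))) (by field_simp)
  have f17 := nd.inv2 1 1 0 0 0 1 (Q / (z / x)) (by field_simp)
  have f18 := nd.inv1 0 0 1 0 0 0 (x⁻¹ / (z / x)) (by field_simp)
  have f19 := nd.inv2 0 1 0 0 0 0 (1 / x⁻¹) (by field_simp)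
  have f20 := nd.inv2 0 1 0 0 0 2 (x⁻¹ / (z / x) ^ 2) (by field_simp)
  have f21 := nd.inv2 0 2 0 0 0 1 (1 / ((z / x) * x⁻¹)) (by field_simp)
  have f22 := nd.inv2 1 1 0 0 0 0 (Q / x⁻¹) (by field_simp)
  have f23 := nd.inv2 0 1 0 0 0 1 (z⁻¹ / x⁻¹) (by field_simp)
  have f24 := nd.inv2 0 0 1 0 0 0 (1 / z⁻¹) (by field_simp)
  have f25 := nd.inv2 0 2 0 0 0 1 (z⁻¹ / x⁻¹ ^ 2) (by field_simp)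
  have f26 := nd.inv2 0 1 1 0 0 0 (1 / (x⁻¹ * z⁻¹)) (by field_simp)
  have f27 := nd.inv2 1 0 1 0 0 0 (Q / z⁻¹) (by field_simp)
  have f28 := nd.inv2 0 1 0 0 0 0 ((x / z) / z⁻¹) (by field_simp)
  have f29 := nd.inv1 0 1 0 0 0 1 (1 / (x / z)) (by field_simp)
  have f30 := nd.inv2 0 1 1 0 0 0 ((x / z) / z⁻¹ ^ 2) (by field_simp)
  have f31 := nd.inv1 0 1 0 0 0 2 (1 / (z⁻¹ * (x / z))) (by field_simp)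
  have f32 := nd.inv1 0 1 0 1 0 1 (Q / (x / z)) (by field_simp)
  have f33 := nd.inv2 0 0 1 0 0 0 (x / (x / z)) (by field_simp)
  have f34 := nd.inv1 0 1 0 0 0 2 (x / (x / z) ^ 2) (by field_simp)
  have f35 := nd.inv1 0 2 0 0 0 1 (1 / ((x / z) * x)) (by field_simp)
  have g0 : p1 Q x z (z / x) x⁻¹ z⁻¹ (x / z) = ((1 : K) * z + (1 : K) * z ^ (2 : ℕ) + (1 : K) * x + (1 : K) * x * z + (1 : K) * x * z ^ (2 : ℕ) + (1 : K) * x ^ (2 : ℕ) + (1 : K) * x ^ (2 : ℕ) * z + (1 : K) * Q * x * z) / (Q * x * z) := by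
    simp only [p1, p2]; field_simp; ring
  have t0 : ((gP Q x z (z / x) x⁻¹ z⁻¹ (x / z)) : K) = ((-1 : K) * Q ^ (6 : ℕ) * x ^ (3 : ℕ) * z ^ (3 : ℕ) + (-1 : K) * Q ^ (7 : ℕ) * x ^ (3 : ℕ) * z ^ (3 : ℕ)) / (Q * x * z * dd Q x z 0 0 1 1 0 0 * dd Q x z 0 1 0 1 0 0 * dd Q x z 0 1 0 1 0 1 * dd Q x z 1 0 1 0 0 0 * dd Q x z 1 1 0 0 0 0 * dd Q x z 1 1 0 0 0 1) := by
    simp only [gA, gC, gP, gi]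
    simp only [f0, f1, f2, f3, f4, f5]
    field_simp <;> ring
  have t1 : ((gA Q x z) * ((x / Q) ^ (1 : ℤ)) : K) = ((1 : K) * x ^ (8 : ℕ) * z ^ (3 : ℕ)) / (Q * x * z * dd Q x z 0 0 1 0 0 0 * dd Q x z 0 1 0 0 0 0 * dd Q x z 0 1 0 0 0 1 * dd Q x z 0 1 0 1 0 0 * dd Q x z 0 1 1 0 0 0 * dd Q x z 0 2 0 0 0 1) := by
    simp only [gA, gC, gP, gi]
    simp only [f6, f7, f8, f9, f10, f11]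
    field_simp <;> ring
  have t2 : ((gA Q z (z / x)) * ((z / Q) ^ (1 : ℤ)) : K) = ((1 : K) * x ^ (3 : ℕ) * z ^ (8 : ℕ)) / (Q * x * z * dd Q x z 0 0 1 0 0 0 * dd Q x z 0 0 1 1 0 0 * dd Q x z 0 1 0 0 0 0 * dd Q x z 0 1 0 0 0 1 * dd Q x z 0 1 0 0 0 2 * dd Q x z 0 1 1 0 0 0) := by
    simp only [gA, gC, gP, gi]
    simp only [f9, f12, f13, f14, f15, f16]
    field_simp <;> ring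
  have t3 : ((gA Q (z / x) x⁻¹) * (((z / x) / Q) ^ (1 : ℤ)) : K) = ((-1 : K) * z ^ (8 : ℕ)) / (Q * x * z * dd Q x z 0 0 1 0 0 0 * dd Q x z 0 1 0 0 0 0 * dd Q x z 0 1 0 0 0 1 * dd Q x z 0 1 0 0 0 2 * dd Q x z 0 2 0 0 0 1 * dd Q x z 1 1 0 0 0 1) := by
    simp only [gA, gC, gP, gi]
    simp only [f14, f17, f18, f19, f20, f21]
    field_simp <;> ring
  have t4 : ((gA Q x⁻¹ z⁻¹) * ((x⁻¹ / Q) ^ (1 : ℤ)) : K) = ((1 : K) * z ^ (3 : ℕ)) / (Q * x * z * dd Q x z 0 0 1 0 0 0 * dd Q x z 0 1 0 0 0 0 * dd Q x z 0 1 0 0 0 1 * dd Q x z 0 1 1 0 0 0 * dd Q x z 0 2 0 0 0 1 * dd Q x z 1 1 0 0 0 0) := by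
    simp only [gA, gC, gP, gi]
    simp only [f19, f22, f23, f24, f25, f26]
    field_simp <;> ring
  have t5 : ((gA Q z⁻¹ (x / z)) * ((z⁻¹ / Q) ^ (1 : ℤ)) : K) = ((1 : K) * x ^ (3 : ℕ)) / (Q * x * z * dd Q x z 0 0 1 0 0 0 * dd Q x z 0 1 0 0 0 0 * dd Q x z 0 1 0 0 0 1 * dd Q x z 0 1 0 0 0 2 * dd Q x z 0 1 1 0 0 0 * dd Q x z 1 0 1 0 0 0) := by
    simp only [gA, gC, gP, gi]
    simp only [f24, f27, f28, f29, f30, f31]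
    field_simp <;> ring
  have t6 : ((gA Q (x / z) x) * (((x / z) / Q) ^ (1 : ℤ)) : K) = ((-1 : K) * x ^ (8 : ℕ)) / (Q * x * z * dd Q x z 0 0 1 0 0 0 * dd Q x z 0 1 0 0 0 0 * dd Q x z 0 1 0 0 0 1 * dd Q x z 0 1 0 0 0 2 * dd Q x z 0 1 0 1 0 1 * dd Q x z 0 2 0 0 0 1) := by
    simp only [gA, gC, gP, gi]
    simp only [f7, f29, f32, f33, f34, f35]
    field_simp <;> ring
  have t7 : (((-1)) * (p1 Q x z (z / x) x⁻¹ z⁻¹ (x / z)) : K) = ((-1 : K) * z + (-1 : K) * z ^ (2 : ℕ) + (-1 : K) * x + (-1 : K) * x * z + (-1 : K) * x * z ^ (2 : ℕ) + (-1 : K) * x ^ (2 : ℕ) + (-1 : K) * x ^ (2 : ℕ) * z + (-1 : K) * Q * x * z) / (Q * x * z) := by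
    rw [g0]
    field_simp <;> ring
  have key : ((-1 : K) * Q ^ (6 : ℕ) * x ^ (3 : ℕ) * z ^ (3 : ℕ) + (-1 : K) * Q ^ (7 : ℕ) * x ^ (3 : ℕ) * z ^ (3 : ℕ)) * dd Q x z 0 0 1 0 0 0 * dd Q x z 0 1 0 0 0 0 * dd Q x z 0 1 0 0 0 1 * dd Q x z 0 1 1 0 0 0 * dd Q x z 0 2 0 0 0 1 * dd Q x z 0 1 0 0 0 2 +
      ((1 : K) * x ^ (8 : ℕ) * z ^ (3 : ℕ)) * dd Q x z 0 0 1 1 0 0 * dd Q x z 0 1 0 1 0 1 * dd Q x z 1 0 1 0 0 0 * dd Q x z 1 1 0 0 0 0 * dd Q x z 1 1 0 0 0 1 * dd Q x z 0 1 0 0 0 2 +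
      ((1 : K) * x ^ (3 : ℕ) * z ^ (8 : ℕ)) * dd Q x z 0 1 0 1 0 0 * dd Q x z 0 1 0 1 0 1 * dd Q x z 1 0 1 0 0 0 * dd Q x z 1 1 0 0 0 0 * dd Q x z 1 1 0 0 0 1 * dd Q x z 0 2 0 0 0 1 +
      ((-1 : K) * z ^ (8 : ℕ)) * dd Q x z 0 0 1 1 0 0 * dd Q x z 0 1 0 1 0 0 * dd Q x z 0 1 0 1 0 1 * dd Q x z 1 0 1 0 0 0 * dd Q x z 1 1 0 0 0 0 * dd Q x z 0 1 1 0 0 0 +
      ((1 : K) * z ^ (3 : ℕ)) * dd Q x z 0 0 1 1 0 0 * dd Q x z 0 1 0 1 0 0 * dd Q x z 0 1 0 1 0 1 * dd Q x z 1 0 1 0 0 0 * dd Q x z 1 1 0 0 0 1 * dd Q x z 0 1 0 0 0 2 +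
      ((1 : K) * x ^ (3 : ℕ)) * dd Q x z 0 0 1 1 0 0 * dd Q x z 0 1 0 1 0 0 * dd Q x z 0 1 0 1 0 1 * dd Q x z 1 1 0 0 0 0 * dd Q x z 1 1 0 0 0 1 * dd Q x z 0 2 0 0 0 1 +
      ((-1 : K) * x ^ (8 : ℕ)) * dd Q x z 0 0 1 1 0 0 * dd Q x z 0 1 0 1 0 0 * dd Q x z 1 0 1 0 0 0 * dd Q x z 1 1 0 0 0 0 * dd Q x z 1 1 0 0 0 1 * dd Q x z 0 1 1 0 0 0 +
      ((-1 : K) * z + (-1 : K) * z ^ (2 : ℕ) + (-1 : K) * x + (-1 : K) * x * z + (-1 : K) * x * z ^ (2 : ℕ) + (-1 : K) * x ^ (2 : ℕ) + (-1 : K) * x ^ (2 : ℕ) * z + (-1 : K) * Q * x * z) * dd Q x z 0 0 1 1 0 0 * dd Q x z 0 1 0 1 0 0 * dd Q x z 0 1 0 1 0 1 * dd Q x z 1 0 1 0 0 0 * dd Q x z 1 1 0 0 0 0 * dd Q x z 1 1 0 0 0 1 * dd Q x z 0 0 1 0 0 0 * dd Q x z 0 1 0 0 0 0 * dd Q x z 0 1 0 0 0 1 * dd Q x z 0 1 1 0 0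 0 * dd Q x z 0 2 0 0 0 1 * dd Q x z 0 1 0 0 0 2 = 0 := by
    simp only [dd]; ring
  have fin : ∀ n0 n1 n2 n3 n4 n5 n6 n7 : K, n0 * dd Q x z 0 0 1 0 0 0 * dd Q x z 0 1 0 0 0 0 * dd Q x z 0 1 0 0 0 1 * dd Q x z 0 1 1 0 0 0 * dd Q x z 0 2 0 0 0 1 * dd Q x z 0 1 0 0 0 2 + n1 * dd Q x z 0 0 1 1 0 0 * dd Q x z 0 1 0 1 0 1 * dd Q x z 1 0 1 0 0 0 * dd Q x z 1 1 0 0 0 0 * dd Q x z 1 1 0 0 0 1 * dd Q x z 0 1 0 0 0 2 + n2 * dd Q x z 0 1 0 1 0 0 * dd Q x z 0 1 0 1 0 1 * dd Q x z 1 0 1 0 0 0 * dd Q x z 1 1 0 0 0 0 * dd Q x z 1 1 0 0 0 1 * dd Q x z 0 2 0 0 0 1 + n3 * dd Q x z 0 0 1 1 0 0 * dd Q x z 0 1 0 1 0 0 * dd Q x z 0 1 0 1 0 1 * dd Q x z 1 0 1 0 0 0 * dd Q x z 1 1 0 0 0 0 * dd Q x z 0 1 1 0 0 0 + n4 * dd Q x z 0 0 1 1 0 0 * dd Q x z 0 1 0 1 0 0 * dd Q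 x z 0 1 0 1 0 1 * dd Q x z 1 0 1 0 0 0 * dd Q x z 1 1 0 0 0 1 * dd Q x z 0 1 0 0 0 2 + n5 * dd Q x z 0 0 1 1 0 0 * dd Q x z 0 1 0 1 0 0 * dd Q x z 0 1 0 1 0 1 * dd Q x z 1 1 0 0 0 0 * dd Q x z 1 1 0 0 0 1 * dd Q x z 0 2 0 0 0 1 + n6 * dd Q x z 0 0 1 1 0 0 * dd Q x z 0 1 0 1 0 0 * dd Q x z 1 0 1 0 0 0 * dd Q x z 1 1 0 0 0 0 * dd Q x z 1 1 0 0 0 1 * dd Q x z 0 1 1 0 0 0 + n7 * dd Q x z 0 0 1 1 0 0 * dd Q x z 0 1 0 1 0 0 * dd Q x z 0 1 0 1 0 1 * dd Q x z 1 0 1 0 0 0 * dd Q x z 1 1 0 0 0 0 * dd Q x z 1 1 0 0 0 1 * dd Q x z 0 0 1 0 0 0 * dd Q x z 0 1 0 0 0 0 * dd Q x z 0 1 0 0 0 1 * dd Q x z 0 1 1 0 0 0 * dd Q x z 0 2 0 0 0 1 * dd Q x z 0 1 0 0 0 2 = 0 → n0 / (Q * x * z * dd Q x z 0 0 1 1 0 0 * dd Q x z 0 1 0 1 0 0 * dd Q x z 0 1 0 1 0 1 * dd Q x z 1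 0 1 0 0 0 * dd Q x z 1 1 0 0 0 0 * dd Q x z 1 1 0 0 0 1) + n1 / (Q * x * z * dd Q x z 0 0 1 0 0 0 * dd Q x z 0 1 0 0 0 0 * dd Q x z 0 1 0 0 0 1 * dd Q x z 0 1 0 1 0 0 * dd Q x z 0 1 1 0 0 0 * dd Q x z 0 2 0 0 0 1) + n2 / (Q * x * z * dd Q x z 0 0 1 0 0 0 * dd Q x z 0 0 1 1 0 0 * dd Q x z 0 1 0 0 0 0 * dd Q x z 0 1 0 0 0 1 * dd Q x z 0 1 0 0 0 2 * dd Q x z 0 1 1 0 0 0) + n3 / (Q * x * z * dd Q x z 0 0 1 0 0 0 * dd Q x z 0 1 0 0 0 0 * dd Q x z 0 1 0 0 0 1 * dd Q x z 0 1 0 0 0 2 * dd Q x z 0 2 0 0 0 1 * dd Q x z 1 1 0 0 0 1) + n4 / (Q * x * z * dd Q x z 0 0 1 0 0 0 * dd Q x z 0 1 0 0 0 0 * dd Q x z 0 1 0 0 0 1 * dd Q x z 0 1 1 0 0 0 * dd Q x z 0 2 0 0 0 1 * dd Q x z 1 1 0 0 0 0) + n5 / (Q * x * z * dd Q x z 0 0 1 0 0 0 * dd Q x z 0 1 0 0 0 0 * dd Q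 x z 0 1 0 0 0 1 * dd Q x z 0 1 0 0 0 2 * dd Q x z 0 1 1 0 0 0 * dd Q x z 1 0 1 0 0 0) + n6 / (Q * x * z * dd Q x z 0 0 1 0 0 0 * dd Q x z 0 1 0 0 0 0 * dd Q x z 0 1 0 0 0 1 * dd Q x z 0 1 0 0 0 2 * dd Q x z 0 1 0 1 0 1 * dd Q x z 0 2 0 0 0 1) + n7 / (Q * x * z) = 0 := by
    intro n0 n1 n2 n3 n4 n5 n6 n7 hk
    refine Eq.trans (b := (n0 * dd Q x z 0 0 1 0 0 0 * dd Q x z 0 1 0 0 0 0 * dd Q x z 0 1 0 0 0 1 * dd Q x z 0 1 1 0 0 0 * dd Q x z 0 2 0 0 0 1 * dd Q x z 0 1 0 0 0 2 + n1 * dd Q x z 0 0 1 1 0 0 * dd Q x z 0 1 0 1 0 1 * dd Q x z 1 0 1 0 0 0 * dd Q x z 1 1 0 0 0 0 * dd Q x z 1 1 0 0 0 1 * dd Q x z 0 1 0 0 0 2 + n2 * dd Q x z 0 1 0 1 0 0 * dd Q x z 0 1 0 1 0 1 * dd Q x z 1 0 1 0 0 0 * dd Q x z 1 1 0 0 0 0 * dd Q x z 1 1 0 0 0 1 * dd Q x z 0 2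 0 0 0 1 + n3 * dd Q x z 0 0 1 1 0 0 * dd Q x z 0 1 0 1 0 0 * dd Q x z 0 1 0 1 0 1 * dd Q x z 1 0 1 0 0 0 * dd Q x z 1 1 0 0 0 0 * dd Q x z 0 1 1 0 0 0 + n4 * dd Q x z 0 0 1 1 0 0 * dd Q x z 0 1 0 1 0 0 * dd Q x z 0 1 0 1 0 1 * dd Q x z 1 0 1 0 0 0 * dd Q x z 1 1 0 0 0 1 * dd Q x z 0 1 0 0 0 2 + n5 * dd Q x z 0 0 1 1 0 0 * dd Q x z 0 1 0 1 0 0 * dd Q x z 0 1 0 1 0 1 * dd Q x z 1 1 0 0 0 0 * dd Q x z 1 1 0 0 0 1 * dd Q x z 0 2 0 0 0 1 + n6 * dd Q x z 0 0 1 1 0 0 * dd Q x z 0 1 0 1 0 0 * dd Q x z 1 0 1 0 0 0 * dd Q x z 1 1 0 0 0 0 * dd Q x z 1 1 0 0 0 1 * dd Q x z 0 1 1 0 0 0 + n7 * dd Q x z 0 0 1 1 0 0 * dd Q x z 0 1 0 1 0 0 * dd Q x z 0 1 0 1 0 1 * dd Q x z 1 0 1 0 0 0 * dd Q x z 1 1 0 0 0 0 * dd Q x z 1 1 0 0 0 1 * dd Q x z 0 0 1 0 0 0 * dd Q x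 z 0 1 0 0 0 0 * dd Q x z 0 1 0 0 0 1 * dd Q x z 0 1 1 0 0 0 * dd Q x z 0 2 0 0 0 1 * dd Q x z 0 1 0 0 0 2) / (Q * x * z * dd Q x z 0 0 1 1 0 0 * dd Q x z 0 1 0 1 0 0 * dd Q x z 0 1 0 1 0 1 * dd Q x z 1 0 1 0 0 0 * dd Q x z 1 1 0 0 0 0 * dd Q x z 1 1 0 0 0 1 * dd Q x z 0 0 1 0 0 0 * dd Q x z 0 1 0 0 0 0 * dd Q x z 0 1 0 0 0 1 * dd Q x z 0 1 1 0 0 0 * dd Q x z 0 2 0 0 0 1 * dd Q x z 0 1 0 0 0 2)) ?_ (by rw [hk, zero_div])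
    field_simp <;> ring
  have fin2 := fin _ _ _ _ _ _ _ _ key
  linear_combination t0 + t1 + t2 + t3 + t4 + t5 + t6 + t7 + fin2

theorem Mr_one1 {Q X0 X1 X2 X3 X4 X5 : K} (h : Frame Q X0 X1 X2 X3 X4 X5) :
    Mr (1) Q X0 X1 X2 X3 X4 X5 (fun _ _ => 1) = p1 Q X0 X1 X2 X3 X4 X5 := by
  have e := Mr_aux1 h
  simp only [Mr]
  linear_combination e

theorem Mr_aux2 {Q X0 X1 X2 X3 X4 X5 : K} (h : Frame Q X0 X1 X2 X3 X4 X5) :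
    (gP Q X0 X1 X2 X3 X4 X5) +
      (gA Q X0 X1) * ((X0 / Q) ^ (2 : ℤ)) +
      (gA Q X1 X2) * ((X1 / Q) ^ (2 : ℤ)) +
      (gA Q X2 X3) * ((X2 / Q) ^ (2 : ℤ)) +
      (gA Q X3 X4) * ((X3 / Q) ^ (2 : ℤ)) +
      (gA Q X4 X5) * ((X4 / Q) ^ (2 : ℤ)) +
      (gA Q X5 X0) * ((X5 / Q) ^ (2 : ℤ)) +
      ((-1)) * (p2 Q X0 X1 X2 X3 X4 X5) = 0 := by
  obtain ⟨nd, h2, h3, h4, h5⟩ := h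
  subst h2 h3 h4 h5
  generalize X0 = x at *
  generalize X1 = z at *
  have hQ := nd.hQ
  have hx := nd.hx
  have hz := nd.hz
  have d0 := nd.ne 0 0 1 1 0 0 (by decide)
  have d1 := nd.ne 0 1 0 1 0 0 (by decide)
  have d2 := nd.ne 0 1 0 1 0 1 (by decide)
  have d3 := nd.ne 1 0 1 0 0 0 (by decide)
  have d4 := nd.ne 1 1 0 0 0 0 (by decide)
  have d5 := nd.ne 1 1 0 0 0 1 (by decide)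
  have d6 := nd.ne 0 0 1 0 0 0 (by decide)
  have d7 := nd.ne 0 1 0 0 0 0 (by decide)
  have d8 := nd.ne 0 1 0 0 0 1 (by decide)
  have d9 := nd.ne 0 1 1 0 0 0 (by decide)
  have d10 := nd.ne 0 2 0 0 0 1 (by decide)
  have d11 := nd.ne 0 1 0 0 0 2 (by decide)
  have f0 := nd.inv2 1 1 0 0 0 0 (Q * x) (by field_simp)
  have f1 := nd.inv2 1 0 1 0 0 0 (Q * z) (by field_simp)
  have f2 := nd.inv1 0 1 0 1 0 1 (Q * (z / x)) (by field_simp)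
  have f3 := nd.inv1 0 1 0 1 0 0 (Q * x⁻¹) (by field_simp)
  have f4 := nd.inv1 0 0 1 1 0 0 (Q * z⁻¹) (by field_simp)
  have f5 := nd.inv2 1 1 0 0 0 1 (Q * (x / z)) (by field_simp)
  have f6 := nd.inv1 0 1 0 1 0 0 (Q / x) (by field_simp)
  have f7 := nd.inv1 0 1 0 0 0 0 (1 / x) (by field_simp)
  have f8 := nd.inv1 0 1 0 0 0 1 (z / x) (by field_simp)
  have f9 := nd.inv1 0 0 1 0 0 0 (1 / z) (by field_simp)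
  have f10 := nd.inv1 0 2 0 0 0 1 (z / x ^ 2) (by field_simp)
  have f11 := nd.inv1 0 1 1 0 0 0 (1 / (x * z)) (by field_simp)
  have f12 := nd.inv1 0 0 1 1 0 0 (Q / z) (by field_simp)
  have f13 := nd.inv1 0 1 0 0 0 0 ((z / x) / z) (by field_simp)
  have f14 := nd.inv2 0 1 0 0 0 1 (1 / (z / x)) (by field_simp)
  have f15 := nd.inv1 0 1 1 0 0 0 ((z / x) / z ^ 2) (by field_simp)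
  have f16 := nd.inv2 0 1 0 0 0 2 (1 / (z * (z / x))) (by field_simp)
  have f17 := nd.inv2 1 1 0 0 0 1 (Q / (z / x)) (by field_simp)
  have f18 := nd.inv1 0 0 1 0 0 0 (x⁻¹ / (z / x)) (by field_simp)
  have f19 := nd.inv2 0 1 0 0 0 0 (1 / x⁻¹) (by field_simp)
  have f20 := nd.inv2 0 1 0 0 0 2 (x⁻¹ / (z / x) ^ 2) (by field_simp)
  have f21 := nd.inv2 0 2 0 0 0 1 (1 / ((z / x) * x⁻¹)) (by field_simp)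
  have f22 := nd.inv2 1 1 0 0 0 0 (Q / x⁻¹) (by field_simp)
  have f23 := nd.inv2 0 1 0 0 0 1 (z⁻¹ / x⁻¹) (by field_simp)
  have f24 := nd.inv2 0 0 1 0 0 0 (1 / z⁻¹) (by field_simp)
  have f25 := nd.inv2 0 2 0 0 0 1 (z⁻¹ / x⁻¹ ^ 2) (by field_simp)
  have f26 := nd.inv2 0 1 1 0 0 0 (1 / (x⁻¹ * z⁻¹)) (by field_simp)
  have f27 := nd.inv2 1 0 1 0 0 0 (Q / z⁻¹) (by field_simp)
  have f28 := nd.inv2 0 1 0 0 0 0 ((x / z) / z⁻¹) (by field_simp)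
  have f29 := nd.inv1 0 1 0 0 0 1 (1 / (x / z)) (by field_simp)
  have f30 := nd.inv2 0 1 1 0 0 0 ((x / z) / z⁻¹ ^ 2) (by field_simp)
  have f31 := nd.inv1 0 1 0 0 0 2 (1 / (z⁻¹ * (x / z))) (by field_simp)
  have f32 := nd.inv1 0 1 0 1 0 1 (Q / (x / z)) (by field_simp)
  have f33 := nd.inv2 0 0 1 0 0 0 (x / (x / z)) (by field_simp)
  have f34 := nd.inv1 0 1 0 0 0 2 (x / (x / z) ^ 2) (by field_simp)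
  have f35 := nd.inv1 0 2 0 0 0 1 (1 / ((x / z) * x)) (by field_simp)
  have g0 : p2 Q x z (z / x) x⁻¹ z⁻¹ (x / z) = ((1 : K) * z ^ (2 : ℕ) + (1 : K) * z ^ (3 : ℕ) + (1 : K) * z ^ (4 : ℕ) + (1 : K) * x * z + (2 : K) * x * z ^ (2 : ℕ) + (2 : K) * x * z ^ (3 : ℕ) + (1 : K) * x * z ^ (4 : ℕ) + (1 : K) * x ^ (2 : ℕ) + (2 : K) * x ^ (2 : ℕ) * z + (3 : K) * x ^ (2 : ℕ) * z ^ (2 : ℕ) + (2 : K) * x ^ (2 : ℕ) * z ^ (3 : ℕ) + (1 : K) * x ^ (2 : ℕ) * z ^ (4 : ℕ) + (1 : K) * x ^ (3 : ℕ) + (2 : K) * x ^ (3 : ℕ) * z + (2 : K) * x ^ (3 : ℕ) * z ^ (2 : ℕ) + (1 : K) * x ^ (3 : ℕ) * z ^ (3 : ℕ) + (1 : K) * x ^ (4 : ℕ) + (1 : K) * x ^ (4 : ℕ) * z + (1 : K) * x ^ (4 : ℕ) * z ^ (2 : ℕ) + (1 : K) * Q * x * z ^ (2 : ℕ) + (1 : K) * Q * x * z ^ (3 : ℕ) + (1 : K) * Q * x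 ^ (2 : ℕ) * z + (1 : K) * Q * x ^ (2 : ℕ) * z ^ (2 : ℕ) + (1 : K) * Q * x ^ (2 : ℕ) * z ^ (3 : ℕ) + (1 : K) * Q * x ^ (3 : ℕ) * z + (1 : K) * Q * x ^ (3 : ℕ) * z ^ (2 : ℕ) + (1 : K) * Q ^ (2 : ℕ) * x ^ (2 : ℕ) * z ^ (2 : ℕ)) / (Q ^ (2 : ℕ) * x ^ (2 : ℕ) * z ^ (2 : ℕ)) := by
    simp only [p1, p2]; field_simp; ring
  have t0 : ((gP Q x z (z / x) x⁻¹ z⁻¹ (x / z)) : K) = ((-1 : K) * Q ^ (7 : ℕ) * x ^ (4 : ℕ) * z ^ (4 : ℕ) + (-1 : K) * Q ^ (8 : ℕ) * x ^ (4 : ℕ) * z ^ (4 : ℕ)) / (Q ^ (2 : ℕ) * x ^ (2 : ℕ) * z ^ (2 : ℕ) * dd Q x z 0 0 1 1 0 0 * dd Q x z 0 1 0 1 0 0 * dd Q x z 0 1 0 1 0 1 * dd Q x z 1 0 1 0 0 0 * dd Q x z 1 1 0 0 0 0 * dd Q x z 1 1 0 0 0 1) := by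
    simp only [gA, gC, gP, gi]
    simp only [f0, f1, f2, f3, f4, f5]
    field_simp <;> ring
  have t1 : ((gA Q x z) * ((x / Q) ^ (2 : ℤ)) : K) = ((1 : K) * x ^ (10 : ℕ) * z ^ (4 : ℕ)) / (Q ^ (2 : ℕ) * x ^ (2 : ℕ) * z ^ (2 : ℕ) * dd Q x z 0 0 1 0 0 0 * dd Q x z 0 1 0 0 0 0 * dd Q x z 0 1 0 0 0 1 * dd Q x z 0 1 0 1 0 0 * dd Q x z 0 1 1 0 0 0 * dd Q x z 0 2 0 0 0 1) := by
    simp only [gA, gC, gP, gi]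
    simp only [f6, f7, f8, f9, f10, f11]
    field_simp <;> ring
  have t2 : ((gA Q z (z / x)) * ((z / Q) ^ (2 : ℤ)) : K) = ((1 : K) * x ^ (4 : ℕ) * z ^ (10 : ℕ)) / (Q ^ (2 : ℕ) * x ^ (2 : ℕ) * z ^ (2 : ℕ) * dd Q x z 0 0 1 0 0 0 * dd Q x z 0 0 1 1 0 0 * dd Q x z 0 1 0 0 0 0 * dd Q x z 0 1 0 0 0 1 * dd Q x z 0 1 0 0 0 2 * dd Q x z 0 1 1 0 0 0) := by
    simp only [gA, gC, gP, gi]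
    simp only [f9, f12, f13, f14, f15, f16]
    field_simp <;> ring
  have t3 : ((gA Q (z / x) x⁻¹) * (((z / x) / Q) ^ (2 : ℤ)) : K) = ((-1 : K) * z ^ (10 : ℕ)) / (Q ^ (2 : ℕ) * x ^ (2 : ℕ) * z ^ (2 : ℕ) * dd Q x z 0 0 1 0 0 0 * dd Q x z 0 1 0 0 0 0 * dd Q x z 0 1 0 0 0 1 * dd Q x z 0 1 0 0 0 2 * dd Q x z 0 2 0 0 0 1 * dd Q x z 1 1 0 0 0 1) := by
    simp only [gA, gC, gP, gi]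
    simp only [f14, f17, f18, f19, f20, f21]
    field_simp <;> ring
  have t4 : ((gA Q x⁻¹ z⁻¹) * ((x⁻¹ / Q) ^ (2 : ℤ)) : K) = ((1 : K) * z ^ (4 : ℕ)) / (Q ^ (2 : ℕ) * x ^ (2 : ℕ) * z ^ (2 : ℕ) * dd Q x z 0 0 1 0 0 0 * dd Q x z 0 1 0 0 0 0 * dd Q x z 0 1 0 0 0 1 * dd Q x z 0 1 1 0 0 0 * dd Q x z 0 2 0 0 0 1 * dd Q x z 1 1 0 0 0 0) := by
    simp only [gA, gC, gP, gi]
    simp only [f19, f22, f23, f24, f25, f26]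
    field_simp <;> ring
  have t5 : ((gA Q z⁻¹ (x / z)) * ((z⁻¹ / Q) ^ (2 : ℤ)) : K) = ((1 : K) * x ^ (4 : ℕ)) / (Q ^ (2 : ℕ) * x ^ (2 : ℕ) * z ^ (2 : ℕ) * dd Q x z 0 0 1 0 0 0 * dd Q x z 0 1 0 0 0 0 * dd Q x z 0 1 0 0 0 1 * dd Q x z 0 1 0 0 0 2 * dd Q x z 0 1 1 0 0 0 * dd Q x z 1 0 1 0 0 0) := by
    simp only [gA, gC, gP, gi]
    simp only [f24, f27, f28, f29, f30, f31]
    field_simp <;> ring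
  have t6 : ((gA Q (x / z) x) * (((x / z) / Q) ^ (2 : ℤ)) : K) = ((-1 : K) * x ^ (10 : ℕ)) / (Q ^ (2 : ℕ) * x ^ (2 : ℕ) * z ^ (2 : ℕ) * dd Q x z 0 0 1 0 0 0 * dd Q x z 0 1 0 0 0 0 * dd Q x z 0 1 0 0 0 1 * dd Q x z 0 1 0 0 0 2 * dd Q x z 0 1 0 1 0 1 * dd Q x z 0 2 0 0 0 1) := by
    simp only [gA, gC, gP, gi]
    simp only [f7, f29, f32, f33, f34, f35]
    field_simp <;> ring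
  have t7 : (((-1)) * (p2 Q x z (z / x) x⁻¹ z⁻¹ (x / z)) : K) = ((-1 : K) * z ^ (2 : ℕ) + (-1 : K) * z ^ (3 : ℕ) + (-1 : K) * z ^ (4 : ℕ) + (-1 : K) * x * z + (-2 : K) * x * z ^ (2 : ℕ) + (-2 : K) * x * z ^ (3 : ℕ) + (-1 : K) * x * z ^ (4 : ℕ) + (-1 : K) * x ^ (2 : ℕ) + (-2 : K) * x ^ (2 : ℕ) * z + (-3 : K) * x ^ (2 : ℕ) * z ^ (2 : ℕ) + (-2 : K) * x ^ (2 : ℕ) * z ^ (3 : ℕ) + (-1 : K) * x ^ (2 : ℕ) * z ^ (4 : ℕ) + (-1 : K) * x ^ (3 : ℕ) + (-2 : K) * x ^ (3 : ℕ) * z + (-2 : K) * x ^ (3 : ℕ) * z ^ (2 : ℕ) + (-1 : K) * x ^ (3 : ℕ) * z ^ (3 : ℕ) + (-1 : K) * x ^ (4 : ℕ) + (-1 : K) * x ^ (4 : ℕ) * z + (-1 : K) * x ^ (4 : ℕ) * z ^ (2 : ℕ) + (-1 : K) * Q * x * z ^ (2 : ℕ) + (-1 : K) * Q * x * z ^ (3 : ℕ) + (-1 : K) * Q * x ^ (2 : ℕ) * z + (-1 : K) * Q *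 x ^ (2 : ℕ) * z ^ (2 : ℕ) + (-1 : K) * Q * x ^ (2 : ℕ) * z ^ (3 : ℕ) + (-1 : K) * Q * x ^ (3 : ℕ) * z + (-1 : K) * Q * x ^ (3 : ℕ) * z ^ (2 : ℕ) + (-1 : K) * Q ^ (2 : ℕ) * x ^ (2 : ℕ) * z ^ (2 : ℕ)) / (Q ^ (2 : ℕ) * x ^ (2 : ℕ) * z ^ (2 : ℕ)) := by
    rw [g0]
    field_simp <;> ring
  have key : ((-1 : K) * Q ^ (7 : ℕ) * x ^ (4 : ℕ) * z ^ (4 : ℕ) + (-1 : K) * Q ^ (8 : ℕ) * x ^ (4 : ℕ) * z ^ (4 : ℕ)) * dd Q x z 0 0 1 0 0 0 * dd Q x z 0 1 0 0 0 0 * dd Q x z 0 1 0 0 0 1 * dd Q x z 0 1 1 0 0 0 * dd Q x z 0 2 0 0 0 1 * dd Q x z 0 1 0 0 0 2 +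
      ((1 : K) * x ^ (10 : ℕ) * z ^ (4 : ℕ)) * dd Q x z 0 0 1 1 0 0 * dd Q x z 0 1 0 1 0 1 * dd Q x z 1 0 1 0 0 0 * dd Q x z 1 1 0 0 0 0 * dd Q x z 1 1 0 0 0 1 * dd Q x z 0 1 0 0 0 2 +
      ((1 : K) * x ^ (4 : ℕ) * z ^ (10 : ℕ)) * dd Q x z 0 1 0 1 0 0 * dd Q x z 0 1 0 1 0 1 * dd Q x z 1 0 1 0 0 0 * dd Q x z 1 1 0 0 0 0 * dd Q x z 1 1 0 0 0 1 * dd Q x z 0 2 0 0 0 1 +
      ((-1 : K) * z ^ (10 : ℕ)) * dd Q x z 0 0 1 1 0 0 * dd Q x z 0 1 0 1 0 0 * dd Q x z 0 1 0 1 0 1 * dd Q x z 1 0 1 0 0 0 * dd Q x z 1 1 0 0 0 0 * dd Q x z 0 1 1 0 0 0 +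
      ((1 : K) * z ^ (4 : ℕ)) * dd Q x z 0 0 1 1 0 0 * dd Q x z 0 1 0 1 0 0 * dd Q x z 0 1 0 1 0 1 * dd Q x z 1 0 1 0 0 0 * dd Q x z 1 1 0 0 0 1 * dd Q x z 0 1 0 0 0 2 +
      ((1 : K) * x ^ (4 : ℕ)) * dd Q x z 0 0 1 1 0 0 * dd Q x z 0 1 0 1 0 0 * dd Q x z 0 1 0 1 0 1 * dd Q x z 1 1 0 0 0 0 * dd Q x z 1 1 0 0 0 1 * dd Q x z 0 2 0 0 0 1 +
      ((-1 : K) * x ^ (10 : ℕ)) * dd Q x z 0 0 1 1 0 0 * dd Q x z 0 1 0 1 0 0 * dd Q x z 1 0 1 0 0 0 * dd Q x z 1 1 0 0 0 0 * dd Q x z 1 1 0 0 0 1 * dd Q x z 0 1 1 0 0 0 +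
      ((-1 : K) * z ^ (2 : ℕ) + (-1 : K) * z ^ (3 : ℕ) + (-1 : K) * z ^ (4 : ℕ) + (-1 : K) * x * z + (-2 : K) * x * z ^ (2 : ℕ) + (-2 : K) * x * z ^ (3 : ℕ) + (-1 : K) * x * z ^ (4 : ℕ) + (-1 : K) * x ^ (2 : ℕ) + (-2 : K) * x ^ (2 : ℕ) * z + (-3 : K) * x ^ (2 : ℕ) * z ^ (2 : ℕ) + (-2 : K) * x ^ (2 : ℕ) * z ^ (3 : ℕ) + (-1 : K) * x ^ (2 : ℕ) * z ^ (4 : ℕ) + (-1 : K) * x ^ (3 : ℕ) + (-2 : K) * x ^ (3 : ℕ) * z + (-2 : K) * x ^ (3 : ℕ) * z ^ (2 : ℕ) + (-1 : K) * x ^ (3 : ℕ) * z ^ (3 : ℕ) + (-1 : K) * x ^ (4 : ℕ) + (-1 : K) * x ^ (4 : ℕ) * z + (-1 : K) * x ^ (4 : ℕ) * z ^ (2 : ℕ) + (-1 : K) * Q * x * z ^ (2 : ℕ) + (-1 : K) * Q * x * z ^ (3 : ℕ) + (-1 : K) * Q * x ^ (2 : ℕ) * z + (-1 : K) * Q * x ^ (2 : ℕ) * z ^ (2 : ℕ) + (-1 : K) * Q * x ^ (2 : ℕ) *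 z ^ (3 : ℕ) + (-1 : K) * Q * x ^ (3 : ℕ) * z + (-1 : K) * Q * x ^ (3 : ℕ) * z ^ (2 : ℕ) + (-1 : K) * Q ^ (2 : ℕ) * x ^ (2 : ℕ) * z ^ (2 : ℕ)) * dd Q x z 0 0 1 1 0 0 * dd Q x z 0 1 0 1 0 0 * dd Q x z 0 1 0 1 0 1 * dd Q x z 1 0 1 0 0 0 * dd Q x z 1 1 0 0 0 0 * dd Q x z 1 1 0 0 0 1 * dd Q x z 0 0 1 0 0 0 * dd Q x z 0 1 0 0 0 0 * dd Q x z 0 1 0 0 0 1 * dd Q x z 0 1 1 0 0 0 * dd Q x z 0 2 0 0 0 1 * dd Q x z 0 1 0 0 0 2 = 0 := by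
    simp only [dd]; ring
  have fin : ∀ n0 n1 n2 n3 n4 n5 n6 n7 : K, n0 * dd Q x z 0 0 1 0 0 0 * dd Q x z 0 1 0 0 0 0 * dd Q x z 0 1 0 0 0 1 * dd Q x z 0 1 1 0 0 0 * dd Q x z 0 2 0 0 0 1 * dd Q x z 0 1 0 0 0 2 + n1 * dd Q x z 0 0 1 1 0 0 * dd Q x z 0 1 0 1 0 1 * dd Q x z 1 0 1 0 0 0 * dd Q x z 1 1 0 0 0 0 * dd Q x z 1 1 0 0 0 1 * dd Q x z 0 1 0 0 0 2 + n2 * dd Q x z 0 1 0 1 0 0 * dd Q x z 0 1 0 1 0 1 * dd Q x z 1 0 1 0 0 0 * dd Q x z 1 1 0 0 0 0 * dd Q x z 1 1 0 0 0 1 * dd Q x z 0 2 0 0 0 1 + n3 * dd Q x z 0 0 1 1 0 0 * dd Q x z 0 1 0 1 0 0 * dd Q x z 0 1 0 1 0 1 * dd Q x z 1 0 1 0 0 0 * dd Q x z 1 1 0 0 0 0 * dd Q x z 0 1 1 0 0 0 + n4 * dd Q x z 0 0 1 1 0 0 * dd Q x z 0 1 0 1 0 0 * dd Q x z 0 1 0 1 0 1 * dd Q x z 1 0 1 0 0 0 * dd Q x z 1 1 0 0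 0 1 * dd Q x z 0 1 0 0 0 2 + n5 * dd Q x z 0 0 1 1 0 0 * dd Q x z 0 1 0 1 0 0 * dd Q x z 0 1 0 1 0 1 * dd Q x z 1 1 0 0 0 0 * dd Q x z 1 1 0 0 0 1 * dd Q x z 0 2 0 0 0 1 + n6 * dd Q x z 0 0 1 1 0 0 * dd Q x z 0 1 0 1 0 0 * dd Q x z 1 0 1 0 0 0 * dd Q x z 1 1 0 0 0 0 * dd Q x z 1 1 0 0 0 1 * dd Q x z 0 1 1 0 0 0 + n7 * dd Q x z 0 0 1 1 0 0 * dd Q x z 0 1 0 1 0 0 * dd Q x z 0 1 0 1 0 1 * dd Q x z 1 0 1 0 0 0 * dd Q x z 1 1 0 0 0 0 * dd Q x z 1 1 0 0 0 1 * dd Q x z 0 0 1 0 0 0 * dd Q x z 0 1 0 0 0 0 * dd Q x z 0 1 0 0 0 1 * dd Q x z 0 1 1 0 0 0 * dd Q x z 0 2 0 0 0 1 * dd Q x z 0 1 0 0 0 2 = 0 → n0 / (Q ^ (2 : ℕ) * x ^ (2 : ℕ) * z ^ (2 : ℕ) * dd Q x z 0 0 1 1 0 0 * dd Q x z 0 1 0 1 0 0 * dd Q x z 0 1 0 1 0 1 * dd Q x z 1 0 1 0 0 0 * dd Q x z 1 1 0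 0 0 0 * dd Q x z 1 1 0 0 0 1) + n1 / (Q ^ (2 : ℕ) * x ^ (2 : ℕ) * z ^ (2 : ℕ) * dd Q x z 0 0 1 0 0 0 * dd Q x z 0 1 0 0 0 0 * dd Q x z 0 1 0 0 0 1 * dd Q x z 0 1 0 1 0 0 * dd Q x z 0 1 1 0 0 0 * dd Q x z 0 2 0 0 0 1) + n2 / (Q ^ (2 : ℕ) * x ^ (2 : ℕ) * z ^ (2 : ℕ) * dd Q x z 0 0 1 0 0 0 * dd Q x z 0 0 1 1 0 0 * dd Q x z 0 1 0 0 0 0 * dd Q x z 0 1 0 0 0 1 * dd Q x z 0 1 0 0 0 2 * dd Q x z 0 1 1 0 0 0) + n3 / (Q ^ (2 : ℕ) * x ^ (2 : ℕ) * z ^ (2 : ℕ) * dd Q x z 0 0 1 0 0 0 * dd Q x z 0 1 0 0 0 0 * dd Q x z 0 1 0 0 0 1 * dd Q x z 0 1 0 0 0 2 * dd Q x z 0 2 0 0 0 1 * dd Q x z 1 1 0 0 0 1) + n4 / (Q ^ (2 : ℕ) * x ^ (2 : ℕ) * z ^ (2 : ℕ) * dd Q x z 0 0 1 0 0 0 * dd Q x z 0 1 0 0 0 0 * dd Q x z 0 1 0 0 0 1 * dd Q x z 0 1 1 0 0 0 * dd Q x z 0 2 0 0 0 1 *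 dd Q x z 1 1 0 0 0 0) + n5 / (Q ^ (2 : ℕ) * x ^ (2 : ℕ) * z ^ (2 : ℕ) * dd Q x z 0 0 1 0 0 0 * dd Q x z 0 1 0 0 0 0 * dd Q x z 0 1 0 0 0 1 * dd Q x z 0 1 0 0 0 2 * dd Q x z 0 1 1 0 0 0 * dd Q x z 1 0 1 0 0 0) + n6 / (Q ^ (2 : ℕ) * x ^ (2 : ℕ) * z ^ (2 : ℕ) * dd Q x z 0 0 1 0 0 0 * dd Q x z 0 1 0 0 0 0 * dd Q x z 0 1 0 0 0 1 * dd Q x z 0 1 0 0 0 2 * dd Q x z 0 1 0 1 0 1 * dd Q x z 0 2 0 0 0 1) + n7 / (Q ^ (2 : ℕ) * x ^ (2 : ℕ) * z ^ (2 : ℕ)) = 0 := by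
    intro n0 n1 n2 n3 n4 n5 n6 n7 hk
    refine Eq.trans (b := (n0 * dd Q x z 0 0 1 0 0 0 * dd Q x z 0 1 0 0 0 0 * dd Q x z 0 1 0 0 0 1 * dd Q x z 0 1 1 0 0 0 * dd Q x z 0 2 0 0 0 1 * dd Q x z 0 1 0 0 0 2 + n1 * dd Q x z 0 0 1 1 0 0 * dd Q x z 0 1 0 1 0 1 * dd Q x z 1 0 1 0 0 0 * dd Q x z 1 1 0 0 0 0 * dd Q x z 1 1 0 0 0 1 * dd Q x z 0 1 0 0 0 2 + n2 * dd Q x z 0 1 0 1 0 0 * dd Q x z 0 1 0 1 0 1 * dd Q x z 1 0 1 0 0 0 * dd Q x z 1 1 0 0 0 0 * dd Q x z 1 1 0 0 0 1 * dd Q x z 0 2 0 0 0 1 + n3 * dd Q x z 0 0 1 1 0 0 * dd Q x z 0 1 0 1 0 0 * dd Q x z 0 1 0 1 0 1 * dd Q x z 1 0 1 0 0 0 * dd Q x z 1 1 0 0 0 0 * dd Q x z 0 1 1 0 0 0 + n4 * dd Q x z 0 0 1 1 0 0 * dd Q x z 0 1 0 1 0 0 * dd Q x z 0 1 0 1 0 1 * dd Q x z 1 0 1 0 0 0 * dd Q x z 1 1 0 0 0 1 *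 dd Q x z 0 1 0 0 0 2 + n5 * dd Q x z 0 0 1 1 0 0 * dd Q x z 0 1 0 1 0 0 * dd Q x z 0 1 0 1 0 1 * dd Q x z 1 1 0 0 0 0 * dd Q x z 1 1 0 0 0 1 * dd Q x z 0 2 0 0 0 1 + n6 * dd Q x z 0 0 1 1 0 0 * dd Q x z 0 1 0 1 0 0 * dd Q x z 1 0 1 0 0 0 * dd Q x z 1 1 0 0 0 0 * dd Q x z 1 1 0 0 0 1 * dd Q x z 0 1 1 0 0 0 + n7 * dd Q x z 0 0 1 1 0 0 * dd Q x z 0 1 0 1 0 0 * dd Q x z 0 1 0 1 0 1 * dd Q x z 1 0 1 0 0 0 * dd Q x z 1 1 0 0 0 0 * dd Q x z 1 1 0 0 0 1 * dd Q x z 0 0 1 0 0 0 * dd Q x z 0 1 0 0 0 0 * dd Q x z 0 1 0 0 0 1 * dd Q x z 0 1 1 0 0 0 * dd Q x z 0 2 0 0 0 1 * dd Q x z 0 1 0 0 0 2) / (Q ^ (2 : ℕ) * x ^ (2 : ℕ) * z ^ (2 : ℕ) * dd Q x z 0 0 1 1 0 0 * dd Q x z 0 1 0 1 0 0 * dd Q x z 0 1 0 1 0 1 * dd Q x z 1 0 1 0 0 0 * dd Q x z 1 1 0 0 0 0 * dd Q x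 z 1 1 0 0 0 1 * dd Q x z 0 0 1 0 0 0 * dd Q x z 0 1 0 0 0 0 * dd Q x z 0 1 0 0 0 1 * dd Q x z 0 1 1 0 0 0 * dd Q x z 0 2 0 0 0 1 * dd Q x z 0 1 0 0 0 2)) ?_ (by rw [hk, zero_div])
    field_simp <;> ring
  have fin2 := fin _ _ _ _ _ _ _ _ key
  linear_combination t0 + t1 + t2 + t3 + t4 + t5 + t6 + t7 + fin2

theorem Mr_one2 {Q X0 X1 X2 X3 X4 X5 : K} (h : Frame Q X0 X1 X2 X3 X4 X5) :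
    Mr (2) Q X0 X1 X2 X3 X4 X5 (fun _ _ => 1) = p2 Q X0 X1 X2 X3 X4 X5 := by
  have e := Mr_aux2 h
  simp only [Mr]
  linear_combination e

theorem Mr_auxm1 {Q X0 X1 X2 X3 X4 X5 : K} (h : Frame Q X0 X1 X2 X3 X4 X5) :
    (gP Q X0 X1 X2 X3 X4 X5) +
      (gA Q X0 X1) * ((X0 / Q) ^ (-1 : ℤ)) +
      (gA Q X1 X2) * ((X1 / Q) ^ (-1 : ℤ)) +
      (gA Q X2 X3) * ((X2 / Q) ^ (-1 : ℤ)) +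
      (gA Q X3 X4) * ((X3 / Q) ^ (-1 : ℤ)) +
      (gA Q X4 X5) * ((X4 / Q) ^ (-1 : ℤ)) +
      (gA Q X5 X0) * ((X5 / Q) ^ (-1 : ℤ)) = 0 := by
  obtain ⟨nd, h2, h3, h4, h5⟩ := h
  subst h2 h3 h4 h5
  generalize X0 = x at *
  generalize X1 = z at *
  have hQ := nd.hQ
  have hx := nd.hx
  have hz := nd.hz
  have d0 := nd.ne 0 0 1 1 0 0 (by decide)
  have d1 := nd.ne 0 1 0 1 0 0 (by decide)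
  have d2 := nd.ne 0 1 0 1 0 1 (by decide)
  have d3 := nd.ne 1 0 1 0 0 0 (by decide)
  have d4 := nd.ne 1 1 0 0 0 0 (by decide)
  have d5 := nd.ne 1 1 0 0 0 1 (by decide)
  have d6 := nd.ne 0 0 1 0 0 0 (by decide)
  have d7 := nd.ne 0 1 0 0 0 0 (by decide)
  have d8 := nd.ne 0 1 0 0 0 1 (by decide)
  have d9 := nd.ne 0 1 1 0 0 0 (by decide)
  have d10 := nd.ne 0 2 0 0 0 1 (by decide)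
  have d11 := nd.ne 0 1 0 0 0 2 (by decide)
  have f0 := nd.inv2 1 1 0 0 0 0 (Q * x) (by field_simp)
  have f1 := nd.inv2 1 0 1 0 0 0 (Q * z) (by field_simp)
  have f2 := nd.inv1 0 1 0 1 0 1 (Q * (z / x)) (by field_simp)
  have f3 := nd.inv1 0 1 0 1 0 0 (Q * x⁻¹) (by field_simp)
  have f4 := nd.inv1 0 0 1 1 0 0 (Q * z⁻¹) (by field_simp)
  have f5 := nd.inv2 1 1 0 0 0 1 (Q * (x / z)) (by field_simp)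
  have f6 := nd.inv1 0 1 0 1 0 0 (Q / x) (by field_simp)
  have f7 := nd.inv1 0 1 0 0 0 0 (1 / x) (by field_simp)
  have f8 := nd.inv1 0 1 0 0 0 1 (z / x) (by field_simp)
  have f9 := nd.inv1 0 0 1 0 0 0 (1 / z) (by field_simp)
  have f10 := nd.inv1 0 2 0 0 0 1 (z / x ^ 2) (by field_simp)
  have f11 := nd.inv1 0 1 1 0 0 0 (1 / (x * z)) (by field_simp)
  have f12 := nd.inv1 0 0 1 1 0 0 (Q / z) (by field_simp)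
  have f13 := nd.inv1 0 1 0 0 0 0 ((z / x) / z) (by field_simp)
  have f14 := nd.inv2 0 1 0 0 0 1 (1 / (z / x)) (by field_simp)
  have f15 := nd.inv1 0 1 1 0 0 0 ((z / x) / z ^ 2) (by field_simp)
  have f16 := nd.inv2 0 1 0 0 0 2 (1 / (z * (z / x))) (by field_simp)
  have f17 := nd.inv2 1 1 0 0 0 1 (Q / (z / x)) (by field_simp)
  have f18 := nd.inv1 0 0 1 0 0 0 (x⁻¹ / (z / x)) (by field_simp)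
  have f19 := nd.inv2 0 1 0 0 0 0 (1 / x⁻¹) (by field_simp)
  have f20 := nd.inv2 0 1 0 0 0 2 (x⁻¹ / (z / x) ^ 2) (by field_simp)
  have f21 := nd.inv2 0 2 0 0 0 1 (1 / ((z / x) * x⁻¹)) (by field_simp)
  have f22 := nd.inv2 1 1 0 0 0 0 (Q / x⁻¹) (by field_simp)
  have f23 := nd.inv2 0 1 0 0 0 1 (z⁻¹ / x⁻¹) (by field_simp)
  have f24 := nd.inv2 0 0 1 0 0 0 (1 / z⁻¹) (by field_simp)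
  have f25 := nd.inv2 0 2 0 0 0 1 (z⁻¹ / x⁻¹ ^ 2) (by field_simp)
  have f26 := nd.inv2 0 1 1 0 0 0 (1 / (x⁻¹ * z⁻¹)) (by field_simp)
  have f27 := nd.inv2 1 0 1 0 0 0 (Q / z⁻¹) (by field_simp)
  have f28 := nd.inv2 0 1 0 0 0 0 ((x / z) / z⁻¹) (by field_simp)
  have f29 := nd.inv1 0 1 0 0 0 1 (1 / (x / z)) (by field_simp)
  have f30 := nd.inv2 0 1 1 0 0 0 ((x / z) / z⁻¹ ^ 2) (by field_simp)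
  have f31 := nd.inv1 0 1 0 0 0 2 (1 / (z⁻¹ * (x / z))) (by field_simp)
  have f32 := nd.inv1 0 1 0 1 0 1 (Q / (x / z)) (by field_simp)
  have f33 := nd.inv2 0 0 1 0 0 0 (x / (x / z)) (by field_simp)
  have f34 := nd.inv1 0 1 0 0 0 2 (x / (x / z) ^ 2) (by field_simp)
  have f35 := nd.inv1 0 2 0 0 0 1 (1 / ((x / z) * x)) (by field_simp)
  have t0 : ((gP Q x z (z / x) x⁻¹ z⁻¹ (x / z)) : K) = ((-1 : K) * Q ^ (5 : ℕ) * x ^ (2 : ℕ) * z ^ (2 : ℕ) + (-1 : K) * Q ^ (6 : ℕ) * x ^ (2 : ℕ) * z ^ (2 : ℕ)) / (1 * dd Q x z 0 0 1 1 0 0 * dd Q x z 0 1 0 1 0 0 * dd Q x z 0 1 0 1 0 1 * dd Q x z 1 0 1 0 0 0 * dd Q x z 1 1 0 0 0 0 * dd Q x z 1 1 0 0 0 1) := by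
    simp only [gA, gC, gP, gi]
    simp only [f0, f1, f2, f3, f4, f5]
    field_simp <;> ring
  have t1 : ((gA Q x z) * ((x / Q) ^ (-1 : ℤ)) : K) = ((1 : K) * Q * x ^ (5 : ℕ) * z ^ (2 : ℕ)) / (1 * dd Q x z 0 0 1 0 0 0 * dd Q x z 0 1 0 0 0 0 * dd Q x z 0 1 0 0 0 1 * dd Q x z 0 1 0 1 0 0 * dd Q x z 0 1 1 0 0 0 * dd Q x z 0 2 0 0 0 1) := by
    simp only [gA, gC, gP, gi]
    simp only [f6, f7, f8, f9, f10, f11]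
    field_simp <;> ring
  have t2 : ((gA Q z (z / x)) * ((z / Q) ^ (-1 : ℤ)) : K) = ((1 : K) * Q * x ^ (2 : ℕ) * z ^ (5 : ℕ)) / (1 * dd Q x z 0 0 1 0 0 0 * dd Q x z 0 0 1 1 0 0 * dd Q x z 0 1 0 0 0 0 * dd Q x z 0 1 0 0 0 1 * dd Q x z 0 1 0 0 0 2 * dd Q x z 0 1 1 0 0 0) := by
    simp only [gA, gC, gP, gi]
    simp only [f9, f12, f13, f14, f15, f16]
    field_simp <;> ring
  have t3 : ((gA Q (z / x) x⁻¹) * (((z / x) / Q) ^ (-1 : ℤ)) : K) = ((-1 : K) * Q * x * z ^ (5 : ℕ)) / (1 * dd Q x z 0 0 1 0 0 0 * dd Q x z 0 1 0 0 0 0 * dd Q x z 0 1 0 0 0 1 * dd Q x z 0 1 0 0 0 2 * dd Q x z 0 2 0 0 0 1 * dd Q x z 1 1 0 0 0 1) := by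
    simp only [gA, gC, gP, gi]
    simp only [f14, f17, f18, f19, f20, f21]
    field_simp <;> ring
  have t4 : ((gA Q x⁻¹ z⁻¹) * ((x⁻¹ / Q) ^ (-1 : ℤ)) : K) = ((1 : K) * Q * x * z ^ (2 : ℕ)) / (1 * dd Q x z 0 0 1 0 0 0 * dd Q x z 0 1 0 0 0 0 * dd Q x z 0 1 0 0 0 1 * dd Q x z 0 1 1 0 0 0 * dd Q x z 0 2 0 0 0 1 * dd Q x z 1 1 0 0 0 0) := by
    simp only [gA, gC, gP, gi]
    simp only [f19, f22, f23, f24, f25, f26]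
    field_simp <;> ring
  have t5 : ((gA Q z⁻¹ (x / z)) * ((z⁻¹ / Q) ^ (-1 : ℤ)) : K) = ((1 : K) * Q * x ^ (2 : ℕ) * z) / (1 * dd Q x z 0 0 1 0 0 0 * dd Q x z 0 1 0 0 0 0 * dd Q x z 0 1 0 0 0 1 * dd Q x z 0 1 0 0 0 2 * dd Q x z 0 1 1 0 0 0 * dd Q x z 1 0 1 0 0 0) := by
    simp only [gA, gC, gP, gi]
    simp only [f24, f27, f28, f29, f30, f31]
    field_simp <;> ring
  have t6 : ((gA Q (x / z) x) * (((x / z) / Q) ^ (-1 : ℤ)) : K) = ((-1 : K) * Q * x ^ (5 : ℕ) * z) / (1 * dd Q x z 0 0 1 0 0 0 * dd Q x z 0 1 0 0 0 0 * dd Q x z 0 1 0 0 0 1 * dd Q x z 0 1 0 0 0 2 * dd Q x z 0 1 0 1 0 1 * dd Q x z 0 2 0 0 0 1) := by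
    simp only [gA, gC, gP, gi]
    simp only [f7, f29, f32, f33, f34, f35]
    field_simp <;> ring
  have key : ((-1 : K) * Q ^ (5 : ℕ) * x ^ (2 : ℕ) * z ^ (2 : ℕ) + (-1 : K) * Q ^ (6 : ℕ) * x ^ (2 : ℕ) * z ^ (2 : ℕ)) * dd Q x z 0 0 1 0 0 0 * dd Q x z 0 1 0 0 0 0 * dd Q x z 0 1 0 0 0 1 * dd Q x z 0 1 1 0 0 0 * dd Q x z 0 2 0 0 0 1 * dd Q x z 0 1 0 0 0 2 +
      ((1 : K) * Q * x ^ (5 : ℕ) * z ^ (2 : ℕ)) * dd Q x z 0 0 1 1 0 0 * dd Q x z 0 1 0 1 0 1 * dd Q x z 1 0 1 0 0 0 * dd Q x z 1 1 0 0 0 0 * dd Q x z 1 1 0 0 0 1 * dd Q x z 0 1 0 0 0 2 +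
      ((1 : K) * Q * x ^ (2 : ℕ) * z ^ (5 : ℕ)) * dd Q x z 0 1 0 1 0 0 * dd Q x z 0 1 0 1 0 1 * dd Q x z 1 0 1 0 0 0 * dd Q x z 1 1 0 0 0 0 * dd Q x z 1 1 0 0 0 1 * dd Q x z 0 2 0 0 0 1 +
      ((-1 : K) * Q * x * z ^ (5 : ℕ)) * dd Q x z 0 0 1 1 0 0 * dd Q x z 0 1 0 1 0 0 * dd Q x z 0 1 0 1 0 1 * dd Q x z 1 0 1 0 0 0 * dd Q x z 1 1 0 0 0 0 * dd Q x z 0 1 1 0 0 0 +
      ((1 : K) * Q * x * z ^ (2 : ℕ)) * dd Q x z 0 0 1 1 0 0 * dd Q x z 0 1 0 1 0 0 * dd Q x z 0 1 0 1 0 1 * dd Q x z 1 0 1 0 0 0 * dd Q x z 1 1 0 0 0 1 * dd Q x z 0 1 0 0 0 2 +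
      ((1 : K) * Q * x ^ (2 : ℕ) * z) * dd Q x z 0 0 1 1 0 0 * dd Q x z 0 1 0 1 0 0 * dd Q x z 0 1 0 1 0 1 * dd Q x z 1 1 0 0 0 0 * dd Q x z 1 1 0 0 0 1 * dd Q x z 0 2 0 0 0 1 +
      ((-1 : K) * Q * x ^ (5 : ℕ) * z) * dd Q x z 0 0 1 1 0 0 * dd Q x z 0 1 0 1 0 0 * dd Q x z 1 0 1 0 0 0 * dd Q x z 1 1 0 0 0 0 * dd Q x z 1 1 0 0 0 1 * dd Q x z 0 1 1 0 0 0 = 0 := by
    simp only [dd]; ring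
  have fin : ∀ n0 n1 n2 n3 n4 n5 n6 : K, n0 * dd Q x z 0 0 1 0 0 0 * dd Q x z 0 1 0 0 0 0 * dd Q x z 0 1 0 0 0 1 * dd Q x z 0 1 1 0 0 0 * dd Q x z 0 2 0 0 0 1 * dd Q x z 0 1 0 0 0 2 + n1 * dd Q x z 0 0 1 1 0 0 * dd Q x z 0 1 0 1 0 1 * dd Q x z 1 0 1 0 0 0 * dd Q x z 1 1 0 0 0 0 * dd Q x z 1 1 0 0 0 1 * dd Q x z 0 1 0 0 0 2 + n2 * dd Q x z 0 1 0 1 0 0 * dd Q x z 0 1 0 1 0 1 * dd Q x z 1 0 1 0 0 0 * dd Q x z 1 1 0 0 0 0 * dd Q x z 1 1 0 0 0 1 * dd Q x z 0 2 0 0 0 1 + n3 * dd Q x z 0 0 1 1 0 0 * dd Q x z 0 1 0 1 0 0 * dd Q x z 0 1 0 1 0 1 * dd Q x z 1 0 1 0 0 0 * dd Q x z 1 1 0 0 0 0 * dd Q x z 0 1 1 0 0 0 + n4 * dd Q x z 0 0 1 1 0 0 * dd Q x z 0 1 0 1 0 0 * dd Q x z 0 1 0 1 0 1 * dd Q x z 1 0 1 0 0 0 * dd Q x z 1 1 0 0 0 1 * dd Q x z 0 1 0 0 0 2 +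 n5 * dd Q x z 0 0 1 1 0 0 * dd Q x z 0 1 0 1 0 0 * dd Q x z 0 1 0 1 0 1 * dd Q x z 1 1 0 0 0 0 * dd Q x z 1 1 0 0 0 1 * dd Q x z 0 2 0 0 0 1 + n6 * dd Q x z 0 0 1 1 0 0 * dd Q x z 0 1 0 1 0 0 * dd Q x z 1 0 1 0 0 0 * dd Q x z 1 1 0 0 0 0 * dd Q x z 1 1 0 0 0 1 * dd Q x z 0 1 1 0 0 0 = 0 → n0 / (1 * dd Q x z 0 0 1 1 0 0 * dd Q x z 0 1 0 1 0 0 * dd Q x z 0 1 0 1 0 1 * dd Q x z 1 0 1 0 0 0 * dd Q x z 1 1 0 0 0 0 * dd Q x z 1 1 0 0 0 1) + n1 / (1 * dd Q x z 0 0 1 0 0 0 * dd Q x z 0 1 0 0 0 0 * dd Q x z 0 1 0 0 0 1 * dd Q x z 0 1 0 1 0 0 * dd Q x z 0 1 1 0 0 0 * dd Q x z 0 2 0 0 0 1) + n2 / (1 * dd Q x z 0 0 1 0 0 0 * dd Q x z 0 0 1 1 0 0 * dd Q x z 0 1 0 0 0 0 * dd Q x z 0 1 0 0 0 1 * dd Q x z 0 1 0 0 0 2 * dd Q x z 0 1 1 0 0 0) + n3 / (1 * dd Q x z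 0 0 1 0 0 0 * dd Q x z 0 1 0 0 0 0 * dd Q x z 0 1 0 0 0 1 * dd Q x z 0 1 0 0 0 2 * dd Q x z 0 2 0 0 0 1 * dd Q x z 1 1 0 0 0 1) + n4 / (1 * dd Q x z 0 0 1 0 0 0 * dd Q x z 0 1 0 0 0 0 * dd Q x z 0 1 0 0 0 1 * dd Q x z 0 1 1 0 0 0 * dd Q x z 0 2 0 0 0 1 * dd Q x z 1 1 0 0 0 0) + n5 / (1 * dd Q x z 0 0 1 0 0 0 * dd Q x z 0 1 0 0 0 0 * dd Q x z 0 1 0 0 0 1 * dd Q x z 0 1 0 0 0 2 * dd Q x z 0 1 1 0 0 0 * dd Q x z 1 0 1 0 0 0) + n6 / (1 * dd Q x z 0 0 1 0 0 0 * dd Q x z 0 1 0 0 0 0 * dd Q x z 0 1 0 0 0 1 * dd Q x z 0 1 0 0 0 2 * dd Q x z 0 1 0 1 0 1 * dd Q x z 0 2 0 0 0 1) = 0 := by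
    intro n0 n1 n2 n3 n4 n5 n6 hk
    refine Eq.trans (b := (n0 * dd Q x z 0 0 1 0 0 0 * dd Q x z 0 1 0 0 0 0 * dd Q x z 0 1 0 0 0 1 * dd Q x z 0 1 1 0 0 0 * dd Q x z 0 2 0 0 0 1 * dd Q x z 0 1 0 0 0 2 + n1 * dd Q x z 0 0 1 1 0 0 * dd Q x z 0 1 0 1 0 1 * dd Q x z 1 0 1 0 0 0 * dd Q x z 1 1 0 0 0 0 * dd Q x z 1 1 0 0 0 1 * dd Q x z 0 1 0 0 0 2 + n2 * dd Q x z 0 1 0 1 0 0 * dd Q x z 0 1 0 1 0 1 * dd Q x z 1 0 1 0 0 0 * dd Q x z 1 1 0 0 0 0 * dd Q x z 1 1 0 0 0 1 * dd Q x z 0 2 0 0 0 1 + n3 * dd Q x z 0 0 1 1 0 0 * dd Q x z 0 1 0 1 0 0 * dd Q x z 0 1 0 1 0 1 * dd Q x z 1 0 1 0 0 0 * dd Q x z 1 1 0 0 0 0 * dd Q x z 0 1 1 0 0 0 + n4 * dd Q x z 0 0 1 1 0 0 * dd Q x z 0 1 0 1 0 0 * dd Q x z 0 1 0 1 0 1 * dd Q x z 1 0 1 0 0 0 * dd Q x z 1 1 0 0 0 1 * dd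 Q x z 0 1 0 0 0 2 + n5 * dd Q x z 0 0 1 1 0 0 * dd Q x z 0 1 0 1 0 0 * dd Q x z 0 1 0 1 0 1 * dd Q x z 1 1 0 0 0 0 * dd Q x z 1 1 0 0 0 1 * dd Q x z 0 2 0 0 0 1 + n6 * dd Q x z 0 0 1 1 0 0 * dd Q x z 0 1 0 1 0 0 * dd Q x z 1 0 1 0 0 0 * dd Q x z 1 1 0 0 0 0 * dd Q x z 1 1 0 0 0 1 * dd Q x z 0 1 1 0 0 0) / (1 * dd Q x z 0 0 1 1 0 0 * dd Q x z 0 1 0 1 0 0 * dd Q x z 0 1 0 1 0 1 * dd Q x z 1 0 1 0 0 0 * dd Q x z 1 1 0 0 0 0 * dd Q x z 1 1 0 0 0 1 * dd Q x z 0 0 1 0 0 0 * dd Q x z 0 1 0 0 0 0 * dd Q x z 0 1 0 0 0 1 * dd Q x z 0 1 1 0 0 0 * dd Q x z 0 2 0 0 0 1 * dd Q x z 0 1 0 0 0 2)) ?_ (by rw [hk, zero_div])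
    field_simp <;> ring
  have fin2 := fin _ _ _ _ _ _ _ key
  linear_combination t0 + t1 + t2 + t3 + t4 + t5 + t6 + fin2

theorem Mr_onem1 {Q X0 X1 X2 X3 X4 X5 : K} (h : Frame Q X0 X1 X2 X3 X4 X5) :
    Mr (-1) Q X0 X1 X2 X3 X4 X5 (fun _ _ => 1) = 0 := by
  have e := Mr_auxm1 h
  simp only [Mr]
  linear_combination e

theorem Mr_auxm2 {Q X0 X1 X2 X3 X4 X5 : K} (h : Frame Q X0 X1 X2 X3 X4 X5) :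
    (gP Q X0 X1 X2 X3 X4 X5) +
      (gA Q X0 X1) * ((X0 / Q) ^ (-2 : ℤ)) +
      (gA Q X1 X2) * ((X1 / Q) ^ (-2 : ℤ)) +
      (gA Q X2 X3) * ((X2 / Q) ^ (-2 : ℤ)) +
      (gA Q X3 X4) * ((X3 / Q) ^ (-2 : ℤ)) +
      (gA Q X4 X5) * ((X4 / Q) ^ (-2 : ℤ)) +
      (gA Q X5 X0) * ((X5 / Q) ^ (-2 : ℤ)) = 0 := by
  obtain ⟨nd, h2, h3, h4, h5⟩ := h
  subst h2 h3 h4 h5
  generalize X0 = x at *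
  generalize X1 = z at *
  have hQ := nd.hQ
  have hx := nd.hx
  have hz := nd.hz
  have d0 := nd.ne 0 0 1 1 0 0 (by decide)
  have d1 := nd.ne 0 1 0 1 0 0 (by decide)
  have d2 := nd.ne 0 1 0 1 0 1 (by decide)
  have d3 := nd.ne 1 0 1 0 0 0 (by decide)
  have d4 := nd.ne 1 1 0 0 0 0 (by decide)
  have d5 := nd.ne 1 1 0 0 0 1 (by decide)
  have d6 := nd.ne 0 0 1 0 0 0 (by decide)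
  have d7 := nd.ne 0 1 0 0 0 0 (by decide)
  have d8 := nd.ne 0 1 0 0 0 1 (by decide)
  have d9 := nd.ne 0 1 1 0 0 0 (by decide)
  have d10 := nd.ne 0 2 0 0 0 1 (by decide)
  have d11 := nd.ne 0 1 0 0 0 2 (by decide)
  have f0 := nd.inv2 1 1 0 0 0 0 (Q * x) (by field_simp)
  have f1 := nd.inv2 1 0 1 0 0 0 (Q * z) (by field_simp)
  have f2 := nd.inv1 0 1 0 1 0 1 (Q * (z / x)) (by field_simp)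
  have f3 := nd.inv1 0 1 0 1 0 0 (Q * x⁻¹) (by field_simp)
  have f4 := nd.inv1 0 0 1 1 0 0 (Q * z⁻¹) (by field_simp)
  have f5 := nd.inv2 1 1 0 0 0 1 (Q * (x / z)) (by field_simp)
  have f6 := nd.inv1 0 1 0 1 0 0 (Q / x) (by field_simp)
  have f7 := nd.inv1 0 1 0 0 0 0 (1 / x) (by field_simp)
  have f8 := nd.inv1 0 1 0 0 0 1 (z / x) (by field_simp)
  have f9 := nd.inv1 0 0 1 0 0 0 (1 / z) (by field_simp)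
  have f10 := nd.inv1 0 2 0 0 0 1 (z / x ^ 2) (by field_simp)
  have f11 := nd.inv1 0 1 1 0 0 0 (1 / (x * z)) (by field_simp)
  have f12 := nd.inv1 0 0 1 1 0 0 (Q / z) (by field_simp)
  have f13 := nd.inv1 0 1 0 0 0 0 ((z / x) / z) (by field_simp)
  have f14 := nd.inv2 0 1 0 0 0 1 (1 / (z / x)) (by field_simp)
  have f15 := nd.inv1 0 1 1 0 0 0 ((z / x) / z ^ 2) (by field_simp)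
  have f16 := nd.inv2 0 1 0 0 0 2 (1 / (z * (z / x))) (by field_simp)
  have f17 := nd.inv2 1 1 0 0 0 1 (Q / (z / x)) (by field_simp)
  have f18 := nd.inv1 0 0 1 0 0 0 (x⁻¹ / (z / x)) (by field_simp)
  have f19 := nd.inv2 0 1 0 0 0 0 (1 / x⁻¹) (by field_simp)
  have f20 := nd.inv2 0 1 0 0 0 2 (x⁻¹ / (z / x) ^ 2) (by field_simp)
  have f21 := nd.inv2 0 2 0 0 0 1 (1 / ((z / x) * x⁻¹)) (by field_simp)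
  have f22 := nd.inv2 1 1 0 0 0 0 (Q / x⁻¹) (by field_simp)
  have f23 := nd.inv2 0 1 0 0 0 1 (z⁻¹ / x⁻¹) (by field_simp)
  have f24 := nd.inv2 0 0 1 0 0 0 (1 / z⁻¹) (by field_simp)
  have f25 := nd.inv2 0 2 0 0 0 1 (z⁻¹ / x⁻¹ ^ 2) (by field_simp)
  have f26 := nd.inv2 0 1 1 0 0 0 (1 / (x⁻¹ * z⁻¹)) (by field_simp)
  have f27 := nd.inv2 1 0 1 0 0 0 (Q / z⁻¹) (by field_simp)
  have f28 := nd.inv2 0 1 0 0 0 0 ((x / z) / z⁻¹) (by field_simp)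
  have f29 := nd.inv1 0 1 0 0 0 1 (1 / (x / z)) (by field_simp)
  have f30 := nd.inv2 0 1 1 0 0 0 ((x / z) / z⁻¹ ^ 2) (by field_simp)
  have f31 := nd.inv1 0 1 0 0 0 2 (1 / (z⁻¹ * (x / z))) (by field_simp)
  have f32 := nd.inv1 0 1 0 1 0 1 (Q / (x / z)) (by field_simp)
  have f33 := nd.inv2 0 0 1 0 0 0 (x / (x / z)) (by field_simp)
  have f34 := nd.inv1 0 1 0 0 0 2 (x / (x / z) ^ 2) (by field_simp)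
  have f35 := nd.inv1 0 2 0 0 0 1 (1 / ((x / z) * x)) (by field_simp)
  have t0 : ((gP Q x z (z / x) x⁻¹ z⁻¹ (x / z)) : K) = ((-1 : K) * Q ^ (5 : ℕ) * x ^ (2 : ℕ) * z ^ (2 : ℕ) + (-1 : K) * Q ^ (6 : ℕ) * x ^ (2 : ℕ) * z ^ (2 : ℕ)) / (1 * dd Q x z 0 0 1 1 0 0 * dd Q x z 0 1 0 1 0 0 * dd Q x z 0 1 0 1 0 1 * dd Q x z 1 0 1 0 0 0 * dd Q x z 1 1 0 0 0 0 * dd Q x z 1 1 0 0 0 1) := by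
    simp only [gA, gC, gP, gi]
    simp only [f0, f1, f2, f3, f4, f5]
    field_simp <;> ring
  have t1 : ((gA Q x z) * ((x / Q) ^ (-2 : ℤ)) : K) = ((1 : K) * Q ^ (2 : ℕ) * x ^ (4 : ℕ) * z ^ (2 : ℕ)) / (1 * dd Q x z 0 0 1 0 0 0 * dd Q x z 0 1 0 0 0 0 * dd Q x z 0 1 0 0 0 1 * dd Q x z 0 1 0 1 0 0 * dd Q x z 0 1 1 0 0 0 * dd Q x z 0 2 0 0 0 1) := by
    simp only [gA, gC, gP, gi]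
    simp only [f6, f7, f8, f9, f10, f11]
    field_simp <;> ring
  have t2 : ((gA Q z (z / x)) * ((z / Q) ^ (-2 : ℤ)) : K) = ((1 : K) * Q ^ (2 : ℕ) * x ^ (2 : ℕ) * z ^ (4 : ℕ)) / (1 * dd Q x z 0 0 1 0 0 0 * dd Q x z 0 0 1 1 0 0 * dd Q x z 0 1 0 0 0 0 * dd Q x z 0 1 0 0 0 1 * dd Q x z 0 1 0 0 0 2 * dd Q x z 0 1 1 0 0 0) := by
    simp only [gA, gC, gP, gi]
    simp only [f9, f12, f13, f14, f15, f16]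
    field_simp <;> ring
  have t3 : ((gA Q (z / x) x⁻¹) * (((z / x) / Q) ^ (-2 : ℤ)) : K) = ((-1 : K) * Q ^ (2 : ℕ) * x ^ (2 : ℕ) * z ^ (4 : ℕ)) / (1 * dd Q x z 0 0 1 0 0 0 * dd Q x z 0 1 0 0 0 0 * dd Q x z 0 1 0 0 0 1 * dd Q x z 0 1 0 0 0 2 * dd Q x z 0 2 0 0 0 1 * dd Q x z 1 1 0 0 0 1) := by
    simp only [gA, gC, gP, gi]
    simp only [f14, f17, f18, f19, f20, f21]
    field_simp <;> ring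
  have t4 : ((gA Q x⁻¹ z⁻¹) * ((x⁻¹ / Q) ^ (-2 : ℤ)) : K) = ((1 : K) * Q ^ (2 : ℕ) * x ^ (2 : ℕ) * z ^ (2 : ℕ)) / (1 * dd Q x z 0 0 1 0 0 0 * dd Q x z 0 1 0 0 0 0 * dd Q x z 0 1 0 0 0 1 * dd Q x z 0 1 1 0 0 0 * dd Q x z 0 2 0 0 0 1 * dd Q x z 1 1 0 0 0 0) := by
    simp only [gA, gC, gP, gi]
    simp only [f19, f22, f23, f24, f25, f26]
    field_simp <;> ring
  have t5 : ((gA Q z⁻¹ (x / z)) * ((z⁻¹ / Q) ^ (-2 : ℤ)) : K) = ((1 : K) * Q ^ (2 : ℕ) * x ^ (2 : ℕ) * z ^ (2 : ℕ)) / (1 * dd Q x z 0 0 1 0 0 0 * dd Q x z 0 1 0 0 0 0 * dd Q x z 0 1 0 0 0 1 * dd Q x z 0 1 0 0 0 2 * dd Q x z 0 1 1 0 0 0 * dd Q x z 1 0 1 0 0 0) := by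
    simp only [gA, gC, gP, gi]
    simp only [f24, f27, f28, f29, f30, f31]
    field_simp <;> ring
  have t6 : ((gA Q (x / z) x) * (((x / z) / Q) ^ (-2 : ℤ)) : K) = ((-1 : K) * Q ^ (2 : ℕ) * x ^ (4 : ℕ) * z ^ (2 : ℕ)) / (1 * dd Q x z 0 0 1 0 0 0 * dd Q x z 0 1 0 0 0 0 * dd Q x z 0 1 0 0 0 1 * dd Q x z 0 1 0 0 0 2 * dd Q x z 0 1 0 1 0 1 * dd Q x z 0 2 0 0 0 1) := by
    simp only [gA, gC, gP, gi]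
    simp only [f7, f29, f32, f33, f34, f35]
    field_simp <;> ring
  have key : ((-1 : K) * Q ^ (5 : ℕ) * x ^ (2 : ℕ) * z ^ (2 : ℕ) + (-1 : K) * Q ^ (6 : ℕ) * x ^ (2 : ℕ) * z ^ (2 : ℕ)) * dd Q x z 0 0 1 0 0 0 * dd Q x z 0 1 0 0 0 0 * dd Q x z 0 1 0 0 0 1 * dd Q x z 0 1 1 0 0 0 * dd Q x z 0 2 0 0 0 1 * dd Q x z 0 1 0 0 0 2 +
      ((1 : K) * Q ^ (2 : ℕ) * x ^ (4 : ℕ) * z ^ (2 : ℕ)) * dd Q x z 0 0 1 1 0 0 * dd Q x z 0 1 0 1 0 1 * dd Q x z 1 0 1 0 0 0 * dd Q x z 1 1 0 0 0 0 * dd Q x z 1 1 0 0 0 1 * dd Q x z 0 1 0 0 0 2 +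
      ((1 : K) * Q ^ (2 : ℕ) * x ^ (2 : ℕ) * z ^ (4 : ℕ)) * dd Q x z 0 1 0 1 0 0 * dd Q x z 0 1 0 1 0 1 * dd Q x z 1 0 1 0 0 0 * dd Q x z 1 1 0 0 0 0 * dd Q x z 1 1 0 0 0 1 * dd Q x z 0 2 0 0 0 1 +
      ((-1 : K) * Q ^ (2 : ℕ) * x ^ (2 : ℕ) * z ^ (4 : ℕ)) * dd Q x z 0 0 1 1 0 0 * dd Q x z 0 1 0 1 0 0 * dd Q x z 0 1 0 1 0 1 * dd Q x z 1 0 1 0 0 0 * dd Q x z 1 1 0 0 0 0 * dd Q x z 0 1 1 0 0 0 +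
      ((1 : K) * Q ^ (2 : ℕ) * x ^ (2 : ℕ) * z ^ (2 : ℕ)) * dd Q x z 0 0 1 1 0 0 * dd Q x z 0 1 0 1 0 0 * dd Q x z 0 1 0 1 0 1 * dd Q x z 1 0 1 0 0 0 * dd Q x z 1 1 0 0 0 1 * dd Q x z 0 1 0 0 0 2 +
      ((1 : K) * Q ^ (2 : ℕ) * x ^ (2 : ℕ) * z ^ (2 : ℕ)) * dd Q x z 0 0 1 1 0 0 * dd Q x z 0 1 0 1 0 0 * dd Q x z 0 1 0 1 0 1 * dd Q x z 1 1 0 0 0 0 * dd Q x z 1 1 0 0 0 1 * dd Q x z 0 2 0 0 0 1 +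
      ((-1 : K) * Q ^ (2 : ℕ) * x ^ (4 : ℕ) * z ^ (2 : ℕ)) * dd Q x z 0 0 1 1 0 0 * dd Q x z 0 1 0 1 0 0 * dd Q x z 1 0 1 0 0 0 * dd Q x z 1 1 0 0 0 0 * dd Q x z 1 1 0 0 0 1 * dd Q x z 0 1 1 0 0 0 = 0 := by
    simp only [dd]; ring
  have fin : ∀ n0 n1 n2 n3 n4 n5 n6 : K, n0 * dd Q x z 0 0 1 0 0 0 * dd Q x z 0 1 0 0 0 0 * dd Q x z 0 1 0 0 0 1 * dd Q x z 0 1 1 0 0 0 * dd Q x z 0 2 0 0 0 1 * dd Q x z 0 1 0 0 0 2 + n1 * dd Q x z 0 0 1 1 0 0 * dd Q x z 0 1 0 1 0 1 * dd Q x z 1 0 1 0 0 0 * dd Q x z 1 1 0 0 0 0 * dd Q x z 1 1 0 0 0 1 * dd Q x z 0 1 0 0 0 2 + n2 * dd Q x z 0 1 0 1 0 0 * dd Q x z 0 1 0 1 0 1 * dd Q x z 1 0 1 0 0 0 * dd Q x z 1 1 0 0 0 0 * dd Q x z 1 1 0 0 0 1 * dd Q x z 0 2 0 0 0 1 + n3 * dd Q x z 0 0 1 1 0 0 * dd Q x z 0 1 0 1 0 0 * dd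 Q x z 0 1 0 1 0 1 * dd Q x z 1 0 1 0 0 0 * dd Q x z 1 1 0 0 0 0 * dd Q x z 0 1 1 0 0 0 + n4 * dd Q x z 0 0 1 1 0 0 * dd Q x z 0 1 0 1 0 0 * dd Q x z 0 1 0 1 0 1 * dd Q x z 1 0 1 0 0 0 * dd Q x z 1 1 0 0 0 1 * dd Q x z 0 1 0 0 0 2 + n5 * dd Q x z 0 0 1 1 0 0 * dd Q x z 0 1 0 1 0 0 * dd Q x z 0 1 0 1 0 1 * dd Q x z 1 1 0 0 0 0 * dd Q x z 1 1 0 0 0 1 * dd Q x z 0 2 0 0 0 1 + n6 * dd Q x z 0 0 1 1 0 0 * dd Q x z 0 1 0 1 0 0 * dd Q x z 1 0 1 0 0 0 * dd Q x z 1 1 0 0 0 0 * dd Q x z 1 1 0 0 0 1 * dd Q x z 0 1 1 0 0 0 = 0 → n0 / (1 * dd Q x z 0 0 1 1 0 0 * dd Q x z 0 1 0 1 0 0 * dd Q x z 0 1 0 1 0 1 * dd Q x z 1 0 1 0 0 0 * dd Q x z 1 1 0 0 0 0 * dd Q x z 1 1 0 0 0 1) + n1 / (1 * dd Q x z 0 0 1 0 0 0 * dd Q x z 0 1 0 0 0 0 * dd Q x z 0 1 0 0 0 1 * dd Q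 x z 0 1 0 1 0 0 * dd Q x z 0 1 1 0 0 0 * dd Q x z 0 2 0 0 0 1) + n2 / (1 * dd Q x z 0 0 1 0 0 0 * dd Q x z 0 0 1 1 0 0 * dd Q x z 0 1 0 0 0 0 * dd Q x z 0 1 0 0 0 1 * dd Q x z 0 1 0 0 0 2 * dd Q x z 0 1 1 0 0 0) + n3 / (1 * dd Q x z 0 0 1 0 0 0 * dd Q x z 0 1 0 0 0 0 * dd Q x z 0 1 0 0 0 1 * dd Q x z 0 1 0 0 0 2 * dd Q x z 0 2 0 0 0 1 * dd Q x z 1 1 0 0 0 1) + n4 / (1 * dd Q x z 0 0 1 0 0 0 * dd Q x z 0 1 0 0 0 0 * dd Q x z 0 1 0 0 0 1 * dd Q x z 0 1 1 0 0 0 * dd Q x z 0 2 0 0 0 1 * dd Q x z 1 1 0 0 0 0) + n5 / (1 * dd Q x z 0 0 1 0 0 0 * dd Q x z 0 1 0 0 0 0 * dd Q x z 0 1 0 0 0 1 * dd Q x z 0 1 0 0 0 2 * dd Q x z 0 1 1 0 0 0 * dd Q x z 1 0 1 0 0 0) + n6 / (1 * dd Q x z 0 0 1 0 0 0 * dd Q x z 0 1 0 0 0 0 * dd Q x z 0 1 0 0 0 1 * dd Q x z 0 1 0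 0 0 2 * dd Q x z 0 1 0 1 0 1 * dd Q x z 0 2 0 0 0 1) = 0 := by
    intro n0 n1 n2 n3 n4 n5 n6 hk
    refine Eq.trans (b := (n0 * dd Q x z 0 0 1 0 0 0 * dd Q x z 0 1 0 0 0 0 * dd Q x z 0 1 0 0 0 1 * dd Q x z 0 1 1 0 0 0 * dd Q x z 0 2 0 0 0 1 * dd Q x z 0 1 0 0 0 2 + n1 * dd Q x z 0 0 1 1 0 0 * dd Q x z 0 1 0 1 0 1 * dd Q x z 1 0 1 0 0 0 * dd Q x z 1 1 0 0 0 0 * dd Q x z 1 1 0 0 0 1 * dd Q x z 0 1 0 0 0 2 + n2 * dd Q x z 0 1 0 1 0 0 * dd Q x z 0 1 0 1 0 1 * dd Q x z 1 0 1 0 0 0 * dd Q x z 1 1 0 0 0 0 * dd Q x z 1 1 0 0 0 1 * dd Q x z 0 2 0 0 0 1 + n3 * dd Q x z 0 0 1 1 0 0 * dd Q x z 0 1 0 1 0 0 * dd Q x z 0 1 0 1 0 1 * dd Q x z 1 0 1 0 0 0 * dd Q x z 1 1 0 0 0 0 * dd Q x z 0 1 1 0 0 0 + n4 * dd Q x z 0 0 1 1 0 0 * dd Q x z 0 1 0 1 0 0 * dd Q x z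 0 1 0 1 0 1 * dd Q x z 1 0 1 0 0 0 * dd Q x z 1 1 0 0 0 1 * dd Q x z 0 1 0 0 0 2 + n5 * dd Q x z 0 0 1 1 0 0 * dd Q x z 0 1 0 1 0 0 * dd Q x z 0 1 0 1 0 1 * dd Q x z 1 1 0 0 0 0 * dd Q x z 1 1 0 0 0 1 * dd Q x z 0 2 0 0 0 1 + n6 * dd Q x z 0 0 1 1 0 0 * dd Q x z 0 1 0 1 0 0 * dd Q x z 1 0 1 0 0 0 * dd Q x z 1 1 0 0 0 0 * dd Q x z 1 1 0 0 0 1 * dd Q x z 0 1 1 0 0 0) / (1 * dd Q x z 0 0 1 1 0 0 * dd Q x z 0 1 0 1 0 0 * dd Q x z 0 1 0 1 0 1 * dd Q x z 1 0 1 0 0 0 * dd Q x z 1 1 0 0 0 0 * dd Q x z 1 1 0 0 0 1 * dd Q x z 0 0 1 0 0 0 * dd Q x z 0 1 0 0 0 0 * dd Q x z 0 1 0 0 0 1 * dd Q x z 0 1 1 0 0 0 * dd Q x z 0 2 0 0 0 1 * dd Q x z 0 1 0 0 0 2)) ?_ (by rw [hk, zero_div])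
    field_simp <;> ring
  have fin2 := fin _ _ _ _ _ _ _ key
  linear_combination t0 + t1 + t2 + t3 + t4 + t5 + t6 + fin2

theorem Mr_onem2 {Q X0 X1 X2 X3 X4 X5 : K} (h : Frame Q X0 X1 X2 X3 X4 X5) :
    Mr (-2) Q X0 X1 X2 X3 X4 X5 (fun _ _ => 1) = 0 := by
  have e := Mr_auxm2 h
  simp only [Mr]
  linear_combination e


end Pool.Agent.MP_7258fc_nt.H38
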