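import Pool.Agent.MP_7258fc_nt.H38.Lam

namespace Pool.Agent.MP_7258fc_nt.H38

open Finset

/-- First simple reflection. -/
noncomputable def s1 : L →ₐ[R] L := aff 0 1 1 0 0 0
/-- Second simple reflection. -/
noncomputable def s2 : L →ₐ[R] L := aff 1 1 0 (-1) 0 0
/-- Reflection in the highest short root. -/
noncomputable def st : L →ₐ[R] L := aff (-1) (-1) 0 1 0 0
/-- A `q`-shift. -/
noncomputable def T (u v : ℤ) : L →ₐ[R] L := aff 1 0 0 1 u v
/-- Powers of `y = q⁻¹ x`. -/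
noncomputable def yk (k : ℤ) : L := q ^ (-k) • mo (k, 0)

/-- First Demazure operator. -/
noncomputable def D1 : L →ₗ[R] L := dem (-1, 1) 0 fun v => v.1 - v.2
/-- Second Demazure operator. -/
noncomputable def D2 : L →ₗ[R] L := dem (1, -2) 0 fun v => v.2
/-- Affine Demazure operator at level `k`. -/
noncomputable def D0 (k : ℤ) : L →ₗ[R] L := dem (1, 0) (-1) fun v => k - (2 * v.1 + v.2)
/-- The symmetriser. -/
noncomputable def DD : L →ₗ[R] L := D1 ∘ₗ D2 ∘ₗ D1 ∘ₗ D2 ∘ₗ D1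
/-- The basic operators. -/
noncomputable def M (k : ℤ) : L →ₗ[R] L := DD ∘ₗ D0 k

theorem DD_apply (f : L) : DD f = D1 (D2 (D1 (D2 (D1 f)))) := rfl
theorem M_apply (k : ℤ) (f : L) : M k f = DD (D0 k f) := rfl

theorem s1_mo (v : V) : s1 (mo v) = mo (v.2, v.1) := by simp [s1, aff_mo]
theorem s2_mo (v : V) : s2 (mo v) = mo (v.1 + v.2, -v.2) := by simp [s2, aff_mo]
theorem st_mo (v : V) : st (mo v) = mo (-v.1 - v.2, v.2) := by
  simp [st, aff_mo, sub_eq_add_neg]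
theorem T_mo (a b : ℤ) (v : V) : T a b (mo v) = q ^ (a * v.1 + b * v.2) • mo v := by
  simp [T, aff_mo]

theorem T_T (a b c d : ℤ) (f : L) : T a b (T c d f) = T (a + c) (b + d) f := by
  simp [T, aff_aff]

theorem T_zero (f : L) : T 0 0 f = f := aff_id f

theorem s1_s1 (f : L) : s1 (s1 f) = f := by simp [s1, aff_aff, aff_id]
theorem s2_s2 (f : L) : s2 (s2 f) = f := by simp [s2, aff_aff, aff_id]
theorem st_st (f : L) : st (st f) = f := by simp [st, aff_aff, aff_id]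
theorem st_eq (f : L) : st f = s1 (s2 (s1 (s2 (s1 f)))) := by simp [st, s1, s2, aff_aff]

theorem yk_mul (a b : ℤ) : yk a * yk b = yk (a + b) := by
  rw [yk, yk, yk, smul_mul_smul_comm, mo_mul, ← zpow_add₀ q_ne]
  congr 2
  ring

theorem yk_zero : yk 0 = 1 := by simp [yk, mo_zero']

theorem D1_key (f : L) : (1 - mo (-1, 1)) * D1 f = f - mo (-1, 1) * s1 f := by
  have h := dem_key (-1, 1) 0 (fun v => v.1 - v.2) f
  have h2 : rfn (-1, 1) 0 (fun v => v.1 - v.2) f = s1 f :=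
    lin_ext (S := s1.toLinearMap) (fun v => by
      simp only [rfn, lin_mo, AlgHom.toLinearMap_apply, s1_mo, zero_mul, zpow_zero, one_smul]
      congr 1; ext <;> simp) f
  simpa [h2, D1] using h

theorem D2_key (f : L) : (1 - mo (1, -2)) * D2 f = f - mo (1, -2) * s2 f := by
  have h := dem_key (1, -2) 0 (fun v => v.2) f
  have h2 : rfn (1, -2) 0 (fun v => v.2) f = s2 f :=
    lin_ext (S := s2.toLinearMap) (fun v => by
      simp only [rfn, lin_mo, AlgHom.toLinearMap_apply, s2_mo, zero_mul, zpow_zero, one_smul]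
      congr 1; ext <;> simp; ring) f
  simpa [h2, D2] using h

theorem yk_T_st_mo (k : ℤ) (v : V) : yk k * T (-2) (-1) (st (mo v)) =
    q ^ (-1 * (k - (2 * v.1 + v.2))) • mo (v + (k - (2 * v.1 + v.2)) • ((1 : ℤ), (0 : ℤ))) := by
  rw [st_mo, T_mo, yk, smul_mul_smul_comm, mo_mul, ← zpow_add₀ q_ne]
  congr 2
  · simp only; ring
  · ext <;> simp; ring

theorem D0_key (k : ℤ) (f : L) :
    (1 - yk 1) * D0 k f = f - yk (k + 1) * T (-2) (-1) (st f) := by
  have h := dem_key (1, 0) (-1) (fun v => k - (2 * v.1 + v.2)) f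
  have h2 : rfn (1, 0) (-1) (fun v => k - (2 * v.1 + v.2)) f = yk k * T (-2) (-1) (st f) :=
    lin_ext (S := LinearMap.mulLeft R (yk k) ∘ₗ (T (-2) (-1)).toLinearMap ∘ₗ st.toLinearMap)
      (fun v => by
        simp only [rfn, lin_mo, AlgHom.toLinearMap_apply, LinearMap.comp_apply,
          LinearMap.mulLeft_apply, yk_T_st_mo]) f
  rw [h2] at h
  rw [add_comm k 1, ← yk_mul, mul_assoc]
  exact h

theorem ne1 : (1 : L) - mo (-1, 1) ≠ 0 := by
  simpa using one_sub_mo_ne 1 (-1, 1) (by simp)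
theorem ne1' : (1 : L) - mo (1, -1) ≠ 0 := by
  simpa using one_sub_mo_ne 1 (1, -1) (by simp)
theorem ne2 : (1 : L) - mo (1, -2) ≠ 0 := by
  simpa using one_sub_mo_ne 1 (1, -2) (by simp)
theorem ne2' : (1 : L) - mo (-1, 2) ≠ 0 := by
  simpa using one_sub_mo_ne 1 (-1, 2) (by simp)
theorem ne0 : (1 : L) - yk 1 ≠ 0 := one_sub_mo_ne _ (1, 0) (by simp)

theorem D1_mul (g : L) {h : L} (hh : s1 h = h) : D1 (g * h) = D1 g * h := by
  apply mul_left_cancel₀ ne1
  rw [← mul_assoc, D1_key, D1_key, map_mul, hh]; ring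

theorem D2_mul (g : L) {h : L} (hh : s2 h = h) : D2 (g * h) = D2 g * h := by
  apply mul_left_cancel₀ ne2
  rw [← mul_assoc, D2_key, D2_key, map_mul, hh]; ring

theorem D1_fix {h : L} (hh : s1 h = h) : D1 h = h := by
  apply mul_left_cancel₀ ne1
  rw [D1_key, hh]; ring

theorem D2_fix {h : L} (hh : s2 h = h) : D2 h = h := by
  apply mul_left_cancel₀ ne2
  rw [D2_key, hh]; ring

theorem s1_D1 (f : L) : s1 (D1 f) = D1 f := by
  apply mul_left_cancel₀ ne1'
  have h := D1_key f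
  have h2 := congrArg s1 h
  rw [map_mul, map_sub, map_sub, map_mul, map_one, s1_s1, s1_mo] at h2
  have h3 : mo (1, -1) * mo (-1, 1) = 1 := by rw [mo_mul]; exact mo_zero'
  simp only at h2
  linear_combination h2 + mo (1, -1) * h + (D1 f - s1 f) * h3

theorem D1_D1 (f : L) : D1 (D1 f) = D1 f := D1_fix (s1_D1 f)

theorem D0_sub (k : ℤ) (f : L) : D0 k f - D0 (k - 1) f = yk k * T (-2) (-1) (st f) := by
  apply mul_left_cancel₀ ne0
  rw [mul_sub, D0_key, D0_key, sub_add_cancel, add_comm k 1, ← yk_mul]; ring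

theorem s2_D0 (k : ℤ) {f : L} (hf : s2 f = f) : s2 (D0 k f) = D0 k f := by
  apply mul_left_cancel₀ ne0
  have h := D0_key k f
  have h2 := congrArg s2 h
  have hy : ∀ k, s2 (yk k) = yk k := fun k => by simp [yk, s2_mo]
  have h3 : s2 (T (-2) (-1) (st f)) = T (-2) (-1) (st (s2 f)) := by
    simp [s2, T, st, aff_aff]
  rw [map_mul, map_sub, map_sub, map_mul, map_one, hy, hy, h3, hf] at h2
  rw [h2, h]

/-- Weyl group invariance. -/
structure Inv (f : L) : Prop where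
  h1 : s1 f = f
  h2 : s2 f = f

theorem Inv.st {f : L} (h : Inv f) : st f = f := by
  rw [st_eq, h.h1, h.h2, h.h1, h.h2, h.h1]

theorem Inv.one : Inv 1 := ⟨map_one _, map_one _⟩
theorem Inv.zero : Inv 0 := ⟨map_zero _, map_zero _⟩
theorem Inv.add {f g : L} (hf : Inv f) (hg : Inv g) : Inv (f + g) :=
  ⟨by rw [map_add, hf.h1, hg.h1], by rw [map_add, hf.h2, hg.h2]⟩
theorem Inv.sub {f g : L} (hf : Inv f) (hg : Inv g) : Inv (f - g) :=
  ⟨by rw [map_sub, hf.h1, hg.h1], by rw [map_sub, hf.h2, hg.h2]⟩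
theorem Inv.smul {f : L} (hf : Inv f) (c : R) : Inv (c • f) :=
  ⟨by rw [map_smul, hf.h1], by rw [map_smul, hf.h2]⟩
theorem Inv.sum {ι : Type*} (s : Finset ι) (f : ι → L) (h : ∀ i ∈ s, Inv (f i)) :
    Inv (∑ i ∈ s, f i) :=
  ⟨by rw [map_sum]; exact sum_congr rfl fun i hi => (h i hi).h1,
   by rw [map_sum]; exact sum_congr rfl fun i hi => (h i hi).h2⟩

theorem DD_mul (g : L) {h : L} (hh : Inv h) : DD (g * h) = DD g * h := by
  simp only [DD_apply, D1_mul _ hh.h1, D2_mul _ hh.h2]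

theorem DD_fix {h : L} (hh : Inv h) : DD h = h := by
  simp only [DD_apply, D1_fix hh.h1, D2_fix hh.h2]

/-- The polygon with short bound `E` and long bound `F`. -/
def hull (E F : ℤ) (v : V) : Prop :=
  -E ≤ 2 * v.1 + v.2 ∧ 2 * v.1 + v.2 ≤ E ∧ -E ≤ v.1 + 2 * v.2 ∧ v.1 + 2 * v.2 ≤ E ∧
  -E ≤ v.1 - v.2 ∧ v.1 - v.2 ≤ E ∧ -F ≤ v.1 ∧ v.1 ≤ F ∧ -F ≤ v.2 ∧ v.2 ≤ F ∧
  -F ≤ v.1 + v.2 ∧ v.1 + v.2 ≤ F

theorem Sup.D1 {E F : ℤ} {f : L} (h : Sup (hull E F) f) : Sup (hull E F) (D1 f) :=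
  h.map _ fun v hv => sup_dem_mo _ _ _ _ fun s hs => by
    simp only [hull, Prod.fst_add, Prod.snd_add, Prod.smul_mk, smul_eq_mul] at *; omega

theorem Sup.D2 {E F : ℤ} {f : L} (h : Sup (hull E F) f) : Sup (hull E F) (D2 f) :=
  h.map _ fun v hv => sup_dem_mo _ _ _ _ fun s hs => by
    simp only [hull, Prod.fst_add, Prod.snd_add, Prod.smul_mk, smul_eq_mul] at *; omega

theorem Sup.D0 {E F k : ℤ} (hk : 0 ≤ k) {f : L} (h : Sup (hull E F) f) :
    Sup (hull (E + 2 * k) (F + k)) (D0 k f) :=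
  h.map _ fun v hv => sup_dem_mo _ _ _ _ fun s hs => by
    simp only [hull, Prod.fst_add, Prod.snd_add, Prod.smul_mk, smul_eq_mul] at *; omega

theorem Sup.DD {E F : ℤ} {f : L} (h : Sup (hull E F) f) : Sup (hull E F) (DD f) :=
  h.D1.D2.D1.D2.D1

theorem Sup.M {E F k : ℤ} (hk : 0 ≤ k) {f : L} (h : Sup (hull E F) f) :
    Sup (hull (E + 2 * k) (F + k)) (M k f) := (h.D0 hk).DD

theorem Ord.D1 {d : ℤ} {f : L} (h : Ord d f) : Ord d (D1 f) := by
  simpa using h.map (Sup.top f) H38.D1 (e := 0) fun v _ => ord_dem_mo _ _ _ _ fun s _ => by simp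

theorem Ord.D2 {d : ℤ} {f : L} (h : Ord d f) : Ord d (D2 f) := by
  simpa using h.map (Sup.top f) H38.D2 (e := 0) fun v _ => ord_dem_mo _ _ _ _ fun s _ => by simp

theorem Ord.DD {d : ℤ} {f : L} (h : Ord d f) : Ord d (DD f) := h.D1.D2.D1.D2.D1

theorem Ord.D0 {d E F k : ℤ} (hk : 0 ≤ E + k) {f : L} (h : Ord d f) (hs : Sup (hull E F) f) :
    Ord (d - (E + k)) (D0 k f) := by
  rw [sub_eq_add_neg]
  exact h.map hs (H38.D0 k) fun v hv => ord_dem_mo _ _ _ _ fun s hs => by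
    simp only [hull] at *; omega

/-- Projection on a short face. -/
noncomputable def pE (E : ℤ) : L →ₗ[R] L := proj fun v => 2 * v.1 + v.2 = E
/-- Projection on a long face. -/
noncomputable def pF (F : ℤ) : L →ₗ[R] L := proj fun v => v.1 + v.2 = F

theorem pE_D1 {E F : ℤ} {f : L} (h : Sup (hull E F) f) : pE E (D1 f) = pE E f := by
  refine h.eq_on (pE E ∘ₗ D1) (pE E) fun v hv => ?_
  rw [LinearMap.comp_apply, pE, proj_mo]
  split_ifs with h1
  · rw [D1, proj_dem_one _ _ _ _ _ 0]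
    · simp
    all_goals simp only [hull, Prod.fst_add, Prod.snd_add, Prod.smul_mk, smul_eq_mul] at *
    all_goals omega
  · refine proj_dem_zero _ _ _ _ _ fun s hs => ?_
    simp only [hull, Prod.fst_add, Prod.snd_add, Prod.smul_mk, smul_eq_mul] at *; omega

theorem pE_D2 (E : ℤ) (f : L) : pE E (D2 f) = D2 (pE E f) :=
  proj_dem_comm _ _ _ _ (fun v s => by
    simp only [Prod.fst_add, Prod.snd_add, Prod.smul_mk, smul_eq_mul]; omega) f

theorem pF_D1 (F : ℤ) (f : L) : pF F (D1 f) = D1 (pF F f) :=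
  proj_dem_comm _ _ _ _ (fun v s => by
    simp only [Prod.fst_add, Prod.snd_add, Prod.smul_mk, smul_eq_mul]; omega) f

theorem pF_D2 {E F : ℤ} {f : L} (h : Sup (hull E F) f) : pF F (D2 f) = pF F f := by
  refine h.eq_on (pF F ∘ₗ D2) (pF F) fun v hv => ?_
  rw [LinearMap.comp_apply, pF, proj_mo]
  split_ifs with h1
  · rw [D2, proj_dem_one _ _ _ _ _ 0]
    · simp
    all_goals simp only [hull, Prod.fst_add, Prod.snd_add, Prod.smul_mk, smul_eq_mul] at *
    all_goals omega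
  · refine proj_dem_zero _ _ _ _ _ fun s hs => ?_
    simp only [hull, Prod.fst_add, Prod.snd_add, Prod.smul_mk, smul_eq_mul] at *; omega

theorem s2_pE (E : ℤ) (f : L) : s2 (pE E f) = pE E (s2 f) := by
  refine lin_ext (T := s2.toLinearMap ∘ₗ pE E) (S := pE E ∘ₗ s2.toLinearMap) (fun v => ?_) f
  simp only [LinearMap.comp_apply, AlgHom.toLinearMap_apply, pE, proj_mo, s2_mo]
  have : 2 * (v.1 + v.2) + -v.2 = 2 * v.1 + v.2 := by ring
  rw [this]
  split_ifs
  · rw [s2_mo]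
  · simp

theorem pE_DD {E F : ℤ} {g : L} (h : Sup (hull E F) g) (h2 : s2 g = g) :
    pE E (DD g) = pE E g := by
  have h3 : D2 (pE E g) = pE E g := D2_fix (by rw [s2_pE, h2])
  rw [DD_apply, pE_D1 h.D1.D2.D1.D2, pE_D2, pE_D1 h.D1.D2, pE_D2, pE_D1 h, h3, h3]

theorem pF_DD {E F : ℤ} {g : L} (h : Sup (hull E F) g) : pF F (DD g) = D1 (pF F g) := by
  rw [DD_apply, pF_D1, pF_D2 h.D1.D2.D1, pF_D1, pF_D2 h.D1, pF_D1, D1_D1, D1_D1]

theorem pE_D0 {E F k : ℤ} (hk : 0 ≤ k) {f : L} (h : Sup (hull E F) f) :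
    pE (E + 2 * k) (D0 k f) = q ^ (-E - k) • (mo (k, 0) * pE E (st f)) := by
  refine h.eq_on (pE (E + 2 * k) ∘ₗ D0 k)
    (q ^ (-E - k) • (LinearMap.mulLeft R (mo (k, 0)) ∘ₗ pE E ∘ₗ st.toLinearMap)) fun v hv => ?_
  simp only [LinearMap.comp_apply, LinearMap.smul_apply, LinearMap.mulLeft_apply,
    AlgHom.toLinearMap_apply, st_mo, pE, proj_mo]
  split_ifs with h1
  · rw [D0, proj_dem_one _ _ _ _ _ (E + k), mo_mul]
    · congr 2
      · ring
      · ext <;> simp only [Prod.fst_add, Prod.snd_add, Prod.smul_mk, smul_eq_mul] <;> omega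
    all_goals simp only [hull, Prod.fst_add, Prod.snd_add, Prod.smul_mk, smul_eq_mul] at *
    all_goals omega
  · rw [mul_zero, smul_zero]
    refine proj_dem_zero _ _ _ _ _ fun s hs => ?_
    simp only [hull, Prod.fst_add, Prod.snd_add, Prod.smul_mk, smul_eq_mul] at *; omega

theorem pF_D0 {E F k : ℤ} (hk : 0 ≤ k) {f : L} (h : Sup (hull E F) f) :
    pF (F + k) (D0 k f) = yk k * T (-2) (-1) (pF F (st f)) := by
  refine h.eq_on (pF (F + k) ∘ₗ D0 k)
    (LinearMap.mulLeft R (yk k) ∘ₗ (T (-2) (-1)).toLinearMap ∘ₗ pF F ∘ₗ st.toLinearMap)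
    fun v hv => ?_
  simp only [LinearMap.comp_apply, LinearMap.mulLeft_apply, AlgHom.toLinearMap_apply]
  rw [st_mo, pF, pF, proj_mo]
  split_ifs with h1
  · rw [D0, proj_dem_one _ _ _ _ _ (k - (2 * v.1 + v.2)), ← st_mo, yk_T_st_mo]
    all_goals simp only [hull, Prod.fst_add, Prod.snd_add, Prod.smul_mk, smul_eq_mul] at *
    all_goals omega
  · rw [map_zero, mul_zero]
    refine proj_dem_zero _ _ _ _ _ fun s hs => ?_
    simp only [hull, Prod.fst_add, Prod.snd_add, Prod.smul_mk, smul_eq_mul] at *; omega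

theorem pE_M {E F k : ℤ} (hk : 0 ≤ k) {f : L} (h : Sup (hull E F) f) (hi : Inv f) :
    pE (E + 2 * k) (M k f) = q ^ (-E - k) • (mo (k, 0) * pE E f) := by
  rw [M_apply, pE_DD (h.D0 hk) (s2_D0 k hi.h2), pE_D0 hk h, hi.st]

theorem pF_M {E F k : ℤ} (hk : 0 ≤ k) {f : L} (h : Sup (hull E F) f) (hi : Inv f) :
    pF (F + k) (M k f) = D1 (yk k * T (-2) (-1) (pF F f)) := by
  rw [M_apply, pF_DD (h.D0 hk), pF_D0 hk h, hi.st]

theorem ord_lead {E F k : ℤ} (hk : 0 ≤ E + k) {f : L} (ho : Ord 0 f) (h : Sup (hull E F) f) :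
    Ord 1 (q ^ (E + k) • D0 k f - mo (k, 0) * pE E (st f)) := by
  have := ho.map h (q ^ (E + k) • D0 k - LinearMap.mulLeft R (mo (k, 0)) ∘ₗ pE E ∘ₗ st.toLinearMap)
    (e := 1) fun v hv => ?_
  · simpa using this
  simp only [LinearMap.comp_apply, LinearMap.smul_apply, LinearMap.mulLeft_apply,
    LinearMap.sub_apply, AlgHom.toLinearMap_apply, st_mo, pE, proj_mo]
  split_ifs with h1
  · have ht : k - (2 * v.1 + v.2) = E + k := by omega
    rw [D0, dem_mo, ht, Ico_eq_empty_of_le (a := E + k + 1) (b := 0) (by omega), sum_empty,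
      sub_zero, ← Finset.insert_Ico_right_eq_Ico_add_one hk, sum_insert right_notMem_Ico,
      smul_add, smul_smul, ← zpow_add₀ q_ne, mo_mul]
    have e1 : E + k + -1 * (E + k) = 0 := by ring
    have e2 : v + (E + k) • ((1 : ℤ), (0 : ℤ)) = (k, 0) + (-v.1 - v.2, v.2) := by
      ext <;> simp only [Prod.fst_add, Prod.snd_add, Prod.smul_mk, smul_eq_mul] <;> omega
    rw [e1, e2, zpow_zero, one_smul, add_sub_cancel_left, smul_sum]
    refine Ord.sum _ _ fun s hs => ?_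
    rw [smul_smul, ← zpow_add₀ q_ne]
    rw [mem_Ico] at hs
    exact (Ord.zmo _ _).mono (by omega)
  · rw [mul_zero, sub_zero]
    have := Ord.smul (O.zpow (E + k)) (ord_dem_mo (d := 1 - (E + k)) (1, 0) (-1)
      (fun v => k - (2 * v.1 + v.2)) v fun s hs => by simp only [hull] at *; omega)
    simpa [D0] using this

theorem ord_lead_M {E F k : ℤ} (hk : 0 ≤ E + k) {f : L} (ho : Ord 0 f) (h : Sup (hull E F) f)
    (hi : Inv f) : Ord 1 (q ^ (E + k) • M k f - DD (mo (k, 0) * pE E f)) := by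
  have := (ord_lead hk ho h).DD
  rwa [map_sub, map_smul, hi.st] at this

end Pool.Agent.MP_7258fc_nt.H38
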