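import Pool.Agent.MP_7258fc_nt.H38.MrOne

set_option maxRecDepth 100000
set_option linter.style.longLine false
set_option linter.unusedSimpArgs false
set_option linter.unusedVariables false
set_option linter.unusedTactic false
set_option linter.unreachableTactic false
set_option linter.unnecessarySeqFocus false

namespace Pool.Agent.MP_7258fc_nt.H38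

variable {K : Type*} [Field K]

theorem R2b_dbl {Q X0 X1 X2 X3 X4 X5 : K} (h : Frame Q X0 X1 X2 X3 X4 X5) :
    ((1)) * (gA Q X0 X1) * ((X0 / Q) ^ (0 : ℤ)) * (gA Q (Q ^ (-2 : ℤ) * X0) (Q ^ (-1 : ℤ) * X1)) * (((Q ^ (-2 : ℤ) * X0) / Q) ^ (2 : ℤ)) +
      ((-Q ^ (-3 : ℤ))) * (gA Q X0 X1) * ((X0 / Q) ^ (2 : ℤ)) * (gA Q (Q ^ (-2 : ℤ) * X0) (Q ^ (-1 : ℤ) * X1)) * (((Q ^ (-2 : ℤ) * X0) / Q) ^ (0 : ℤ)) +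
      ((-Q ^ (-2 : ℤ) + Q ^ (-1 : ℤ))) * (gA Q X0 X1) * ((X0 / Q) ^ (1 : ℤ)) * (gA Q (Q ^ (-2 : ℤ) * X0) (Q ^ (-1 : ℤ) * X1)) * (((Q ^ (-2 : ℤ) * X0) / Q) ^ (1 : ℤ)) = 0 := by
  obtain ⟨nd, h2, h3, h4, h5⟩ := h
  subst h2 h3 h4 h5
  generalize X0 = x at *
  generalize X1 = z at *
  have hQ := nd.hQ
  have hx := nd.hx
  have hz := nd.hz
  have d0 := nd.ne 0 0 1 0 0 0 (by decide)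
  have d1 := nd.ne 0 0 1 1 0 0 (by decide)
  have d2 := nd.ne 0 1 0 0 0 0 (by decide)
  have d3 := nd.ne 0 1 0 0 0 1 (by decide)
  have d4 := nd.ne 0 1 0 1 0 0 (by decide)
  have d5 := nd.ne 0 1 0 1 0 1 (by decide)
  have d6 := nd.ne 0 1 0 2 0 0 (by decide)
  have d7 := nd.ne 0 1 0 3 0 0 (by decide)
  have d8 := nd.ne 0 1 1 0 0 0 (by decide)
  have d9 := nd.ne 0 1 1 3 0 0 (by decide)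
  have d10 := nd.ne 0 2 0 0 0 1 (by decide)
  have d11 := nd.ne 0 2 0 3 0 1 (by decide)
  have f0 := nd.inv1 0 1 0 1 0 0 (Q / x) (by field_simp)
  have f1 := nd.inv1 0 1 0 0 0 0 (1 / x) (by field_simp)
  have f2 := nd.inv1 0 1 0 0 0 1 (z / x) (by field_simp)
  have f3 := nd.inv1 0 0 1 0 0 0 (1 / z) (by field_simp)
  have f4 := nd.inv1 0 2 0 0 0 1 (z / x ^ 2) (by field_simp)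
  have f5 := nd.inv1 0 1 1 0 0 0 (1 / (x * z)) (by field_simp)
  have f6 := nd.inv1 0 1 0 3 0 0 (Q / (Q ^ (-2 : ℤ) * x)) (by field_simp)
  have f7 := nd.inv1 0 1 0 2 0 0 (1 / (Q ^ (-2 : ℤ) * x)) (by field_simp)
  have f8 := nd.inv1 0 1 0 1 0 1 ((Q ^ (-1 : ℤ) * z) / (Q ^ (-2 : ℤ) * x)) (by field_simp)
  have f9 := nd.inv1 0 0 1 1 0 0 (1 / (Q ^ (-1 : ℤ) * z)) (by field_simp)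
  have f10 := nd.inv1 0 2 0 3 0 1 ((Q ^ (-1 : ℤ) * z) / (Q ^ (-2 : ℤ) * x) ^ 2) (by field_simp)
  have f11 := nd.inv1 0 1 1 3 0 0 (1 / ((Q ^ (-2 : ℤ) * x) * (Q ^ (-1 : ℤ) * z))) (by field_simp)
  have t0 : (((1)) * (gA Q x z) * ((x / Q) ^ (0 : ℤ)) * (gA Q (Q ^ (-2 : ℤ) * x) (Q ^ (-1 : ℤ) * z)) * (((Q ^ (-2 : ℤ) * x) / Q) ^ (2 : ℤ)) + ((-Q ^ (-3 : ℤ))) * (gA Q x z) * ((x / Q) ^ (2 : ℤ)) * (gA Q (Q ^ (-2 : ℤ) * x) (Q ^ (-1 : ℤ) * z)) * (((Q ^ (-2 : ℤ) * x) / Q) ^ (0 : ℤ)) + ((-Q ^ (-2 : ℤ) + Q ^ (-1 : ℤ))) * (gA Q x z) * ((x / Q) ^ (1 : ℤ)) * (gA Q (Q ^ (-2 : ℤ) * x) (Q ^ (-1 : ℤ) * z)) * (((Q ^ (-2 : ℤ) * x) / Q) ^ (1 : ℤ)) : K) = 0 := by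
    simp only [gA, gC, gP, gi]
    simp only [f0, f1, f2, f3, f4, f5, f6, f7, f8, f9, f10, f11]
    field_simp <;> ring
  linear_combination t0

theorem R2b_long {Q X0 X1 X2 X3 X4 X5 : K} (h : Frame Q X0 X1 X2 X3 X4 X5) :
    ((1)) * (gA Q X0 X1) * ((X0 / Q) ^ (0 : ℤ)) * (gA Q (Q ^ (-1 : ℤ) * X1) (Q ^ (1 : ℤ) * X2)) * (((Q ^ (-1 : ℤ) * X1) / Q) ^ (2 : ℤ)) +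
      ((1)) * (gA Q X1 X2) * ((X1 / Q) ^ (0 : ℤ)) * (gA Q (Q ^ (-1 : ℤ) * X0) (Q ^ (-2 : ℤ) * X1)) * (((Q ^ (-1 : ℤ) * X0) / Q) ^ (2 : ℤ)) +
      ((-Q ^ (-3 : ℤ))) * (gA Q X0 X1) * ((X0 / Q) ^ (2 : ℤ)) * (gA Q (Q ^ (-1 : ℤ) * X1) (Q ^ (1 : ℤ) * X2)) * (((Q ^ (-1 : ℤ) * X1) / Q) ^ (0 : ℤ)) +
      ((-Q ^ (-3 : ℤ))) * (gA Q X1 X2) * ((X1 / Q) ^ (2 : ℤ)) * (gA Q (Q ^ (-1 : ℤ) * X0) (Q ^ (-2 : ℤ) * X1)) * (((Q ^ (-1 : ℤ) * X0) / Q) ^ (0 : ℤ)) +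
      ((-Q ^ (-2 : ℤ) + Q ^ (-1 : ℤ))) * (gA Q X0 X1) * ((X0 / Q) ^ (1 : ℤ)) * (gA Q (Q ^ (-1 : ℤ) * X1) (Q ^ (1 : ℤ) * X2)) * (((Q ^ (-1 : ℤ) * X1) / Q) ^ (1 : ℤ)) +
      ((-Q ^ (-2 : ℤ) + Q ^ (-1 : ℤ))) * (gA Q X1 X2) * ((X1 / Q) ^ (1 : ℤ)) * (gA Q (Q ^ (-1 : ℤ) * X0) (Q ^ (-2 : ℤ) * X1)) * (((Q ^ (-1 : ℤ) * X0) / Q) ^ (1 : ℤ)) = 0 := by
  obtain ⟨nd, h2, h3, h4, h5⟩ := h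
  subst h2 h3 h4 h5
  generalize X0 = x at *
  generalize X1 = z at *
  have hQ := nd.hQ
  have hx := nd.hx
  have hz := nd.hz
  have d0 := nd.ne 0 0 1 0 0 0 (by decide)
  have d1 := nd.ne 0 0 1 1 0 0 (by decide)
  have d2 := nd.ne 0 0 1 2 0 0 (by decide)
  have d3 := nd.ne 0 1 0 0 0 0 (by decide)
  have d4 := nd.ne 0 1 0 0 0 1 (by decide)
  have d5 := nd.ne 0 1 0 0 0 2 (by decide)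
  have d6 := nd.ne 0 1 0 1 0 0 (by decide)
  have d7 := nd.ne 0 1 0 1 0 1 (by decide)
  have d8 := nd.ne 0 1 0 2 0 0 (by decide)
  have d9 := nd.ne 0 1 1 0 0 0 (by decide)
  have d10 := nd.ne 0 1 1 3 0 0 (by decide)
  have d11 := nd.ne 0 2 0 0 0 1 (by decide)
  have d12 := nd.ne 1 1 0 0 0 1 (by decide)
  have f0 := nd.inv1 0 1 0 1 0 0 (Q / x) (by field_simp)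
  have f1 := nd.inv1 0 1 0 0 0 0 (1 / x) (by field_simp)
  have f2 := nd.inv1 0 1 0 0 0 1 (z / x) (by field_simp)
  have f3 := nd.inv1 0 0 1 0 0 0 (1 / z) (by field_simp)
  have f4 := nd.inv1 0 2 0 0 0 1 (z / x ^ 2) (by field_simp)
  have f5 := nd.inv1 0 1 1 0 0 0 (1 / (x * z)) (by field_simp)
  have f6 := nd.inv1 0 0 1 2 0 0 (Q / (Q ^ (-1 : ℤ) * z)) (by field_simp)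
  have f7 := nd.inv1 0 0 1 1 0 0 (1 / (Q ^ (-1 : ℤ) * z)) (by field_simp)
  have f8 := nd.inv1 0 1 0 2 0 0 ((Q ^ (1 : ℤ) * (z / x)) / (Q ^ (-1 : ℤ) * z)) (by field_simp)
  have f9 := nd.inv2 0 1 0 1 0 1 (1 / (Q ^ (1 : ℤ) * (z / x))) (by field_simp)
  have f10 := nd.inv1 0 1 1 3 0 0 ((Q ^ (1 : ℤ) * (z / x)) / (Q ^ (-1 : ℤ) * z) ^ 2) (by field_simp)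
  have f11 := nd.inv2 0 1 0 0 0 2 (1 / ((Q ^ (-1 : ℤ) * z) * (Q ^ (1 : ℤ) * (z / x)))) (by field_simp)
  have f12 := nd.inv1 0 0 1 1 0 0 (Q / z) (by field_simp)
  have f13 := nd.inv1 0 1 0 0 0 0 ((z / x) / z) (by field_simp)
  have f14 := nd.inv2 0 1 0 0 0 1 (1 / (z / x)) (by field_simp)
  have f15 := nd.inv1 0 1 1 0 0 0 ((z / x) / z ^ 2) (by field_simp)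
  have f16 := nd.inv2 0 1 0 0 0 2 (1 / (z * (z / x))) (by field_simp)
  have f17 := nd.inv1 0 1 0 2 0 0 (Q / (Q ^ (-1 : ℤ) * x)) (by field_simp)
  have f18 := nd.inv1 0 1 0 1 0 0 (1 / (Q ^ (-1 : ℤ) * x)) (by field_simp)
  have f19 := nd.inv1 1 1 0 0 0 1 ((Q ^ (-2 : ℤ) * z) / (Q ^ (-1 : ℤ) * x)) (by field_simp)
  have f20 := nd.inv1 0 0 1 2 0 0 (1 / (Q ^ (-2 : ℤ) * z)) (by field_simp)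
  have f21 := nd.inv1 0 2 0 0 0 1 ((Q ^ (-2 : ℤ) * z) / (Q ^ (-1 : ℤ) * x) ^ 2) (by field_simp)
  have f22 := nd.inv1 0 1 1 3 0 0 (1 / ((Q ^ (-1 : ℤ) * x) * (Q ^ (-2 : ℤ) * z))) (by field_simp)
  have t0 : (((1)) * (gA Q x z) * ((x / Q) ^ (0 : ℤ)) * (gA Q (Q ^ (-1 : ℤ) * z) (Q ^ (1 : ℤ) * (z / x))) * (((Q ^ (-1 : ℤ) * z) / Q) ^ (2 : ℤ)) + ((-Q ^ (-3 : ℤ))) * (gA Q x z) * ((x / Q) ^ (2 : ℤ)) * (gA Q (Q ^ (-1 : ℤ) * z) (Q ^ (1 : ℤ) * (z / x))) * (((Q ^ (-1 : ℤ) * z) / Q) ^ (0 : ℤ)) + ((-Q ^ (-2 : ℤ) + Q ^ (-1 : ℤ))) * (gA Q x z) * ((x / Q) ^ (1 : ℤ)) * (gA Q (Q ^ (-1 : ℤ) * z) (Q ^ (1 : ℤ) * (z / x))) * (((Q ^ (-1 : ℤ) * z) / Q) ^ (1 : ℤ)) : K) = ((-1 : K) * x ^ (9 : ℕ) * z ^ (9 : ℕ)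 + (-1 : K) * x ^ (10 : ℕ) * z ^ (8 : ℕ) + (1 : K) * Q * x ^ (8 : ℕ) * z ^ (10 : ℕ) + (1 : K) * Q * x ^ (9 : ℕ) * z ^ (9 : ℕ)) / (Q ^ (4 : ℕ) * dd Q x z 0 0 1 0 0 0 * dd Q x z 0 0 1 1 0 0 * dd Q x z 0 0 1 2 0 0 * dd Q x z 0 1 0 0 0 0 * dd Q x z 0 1 0 0 0 1 * dd Q x z 0 1 0 0 0 2 * dd Q x z 0 1 0 1 0 0 * dd Q x z 0 1 0 1 0 1 * dd Q x z 0 1 0 2 0 0 * dd Q x z 0 1 1 0 0 0 * dd Q x z 0 1 1 3 0 0 * dd Q x z 0 2 0 0 0 1) := by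
    simp only [gA, gC, gP, gi]
    simp only [f0, f1, f2, f3, f4, f5, f6, f7, f8, f9, f10, f11]
    field_simp <;> ring
  have t1 : (((1)) * (gA Q z (z / x)) * ((z / Q) ^ (0 : ℤ)) * (gA Q (Q ^ (-1 : ℤ) * x) (Q ^ (-2 : ℤ) * z)) * (((Q ^ (-1 : ℤ) * x) / Q) ^ (2 : ℤ)) + ((-Q ^ (-3 : ℤ))) * (gA Q z (z / x)) * ((z / Q) ^ (2 : ℤ)) * (gA Q (Q ^ (-1 : ℤ) * x) (Q ^ (-2 : ℤ) * z)) * (((Q ^ (-1 : ℤ) * x) / Q) ^ (0 : ℤ)) + ((-Q ^ (-2 : ℤ) + Q ^ (-1 : ℤ))) * (gA Q z (z / x)) * ((z / Q) ^ (1 : ℤ)) * (gA Q (Q ^ (-1 : ℤ) * x) (Q ^ (-2 : ℤ) * z)) * (((Q ^ (-1 : ℤ) * x) / Q) ^ (1 : ℤ)) : K) = ((-1 : K) * x ^ (8 : ℕ) * z ^ (10 : ℕ) + (-1 : K) * x ^ (9 : ℕ) * z ^ (9 : ℕ) + (1 : K) * Q * x ^ (9 : ℕ) *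 z ^ (9 : ℕ) + (1 : K) * Q * x ^ (10 : ℕ) * z ^ (8 : ℕ)) / (Q ^ (4 : ℕ) * dd Q x z 0 0 1 0 0 0 * dd Q x z 0 0 1 1 0 0 * dd Q x z 0 0 1 2 0 0 * dd Q x z 0 1 0 0 0 0 * dd Q x z 0 1 0 0 0 1 * dd Q x z 0 1 0 0 0 2 * dd Q x z 0 1 0 1 0 0 * dd Q x z 0 1 0 2 0 0 * dd Q x z 0 1 1 0 0 0 * dd Q x z 0 1 1 3 0 0 * dd Q x z 0 2 0 0 0 1 * dd Q x z 1 1 0 0 0 1) := by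
    simp only [gA, gC, gP, gi]
    simp only [f3, f12, f13, f14, f15, f16, f17, f18, f19, f20, f21, f22]
    field_simp <;> ring
  have key : ((-1 : K) * x ^ (9 : ℕ) * z ^ (9 : ℕ) + (-1 : K) * x ^ (10 : ℕ) * z ^ (8 : ℕ) + (1 : K) * Q * x ^ (8 : ℕ) * z ^ (10 : ℕ) + (1 : K) * Q * x ^ (9 : ℕ) * z ^ (9 : ℕ)) * dd Q x z 1 1 0 0 0 1 +
      ((-1 : K) * x ^ (8 : ℕ) * z ^ (10 : ℕ) + (-1 : K) * x ^ (9 : ℕ) * z ^ (9 : ℕ) + (1 : K) * Q * x ^ (9 : ℕ) * z ^ (9 : ℕ) + (1 : K) * Q * x ^ (10 : ℕ) * z ^ (8 : ℕ)) * dd Q x z 0 1 0 1 0 1 = 0 := by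
    simp only [dd]; ring
  have fin : ∀ n0 n1 : K, n0 * dd Q x z 1 1 0 0 0 1 + n1 * dd Q x z 0 1 0 1 0 1 = 0 → n0 / (Q ^ (4 : ℕ) * dd Q x z 0 0 1 0 0 0 * dd Q x z 0 0 1 1 0 0 * dd Q x z 0 0 1 2 0 0 * dd Q x z 0 1 0 0 0 0 * dd Q x z 0 1 0 0 0 1 * dd Q x z 0 1 0 0 0 2 * dd Q x z 0 1 0 1 0 0 * dd Q x z 0 1 0 1 0 1 * dd Q x z 0 1 0 2 0 0 * dd Q x z 0 1 1 0 0 0 * dd Q x z 0 1 1 3 0 0 * dd Q x z 0 2 0 0 0 1) + n1 / (Q ^ (4 : ℕ) * dd Q x z 0 0 1 0 0 0 * dd Q x z 0 0 1 1 0 0 * dd Q x z 0 0 1 2 0 0 * dd Q x z 0 1 0 0 0 0 * dd Q x z 0 1 0 0 0 1 * dd Q x z 0 1 0 0 0 2 * dd Q x z 0 1 0 1 0 0 * dd Q x z 0 1 0 2 0 0 * dd Q x z 0 1 1 0 0 0 * dd Q x z 0 1 1 3 0 0 * dd Q x z 0 2 0 0 0 1 * dd Q x z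 1 1 0 0 0 1) = 0 := by
    intro n0 n1 hk
    refine Eq.trans (b := (n0 * dd Q x z 1 1 0 0 0 1 + n1 * dd Q x z 0 1 0 1 0 1) / (Q ^ (4 : ℕ) * dd Q x z 0 0 1 0 0 0 * dd Q x z 0 0 1 1 0 0 * dd Q x z 0 0 1 2 0 0 * dd Q x z 0 1 0 0 0 0 * dd Q x z 0 1 0 0 0 1 * dd Q x z 0 1 0 0 0 2 * dd Q x z 0 1 0 1 0 0 * dd Q x z 0 1 0 1 0 1 * dd Q x z 0 1 0 2 0 0 * dd Q x z 0 1 1 0 0 0 * dd Q x z 0 1 1 3 0 0 * dd Q x z 0 2 0 0 0 1 * dd Q x z 1 1 0 0 0 1)) ?_ (by rw [hk, zero_div])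
    field_simp <;> ring
  have fin2 := fin _ _ key
  linear_combination t0 + t1 + fin2

theorem R2b_short {Q X0 X1 X2 X3 X4 X5 : K} (h : Frame Q X0 X1 X2 X3 X4 X5) :
    ((1)) * (gP Q X0 X1 X2 X3 X4 X5) * (gA Q X0 X1) * ((X0 / Q) ^ (2 : ℤ)) +
      ((1)) * (gA Q X0 X1) * ((X0 / Q) ^ (0 : ℤ)) * (gP Q (Q ^ (-2 : ℤ) * X0) (Q ^ (-1 : ℤ) * X1) (Q ^ (1 : ℤ) * X2) (Q ^ (2 : ℤ) * X3) (Q ^ (1 : ℤ) * X4) (Q ^ (-1 : ℤ) * X5)) +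
      ((1)) * (gA Q X1 X2) * ((X1 / Q) ^ (0 : ℤ)) * (gA Q (Q ^ (1 : ℤ) * X5) (Q ^ (-1 : ℤ) * X0)) * (((Q ^ (1 : ℤ) * X5) / Q) ^ (2 : ℤ)) +
      ((1)) * (gA Q X5 X0) * ((X5 / Q) ^ (0 : ℤ)) * (gA Q (Q ^ (1 : ℤ) * X1) (Q ^ (2 : ℤ) * X2)) * (((Q ^ (1 : ℤ) * X1) / Q) ^ (2 : ℤ)) +
      ((-Q ^ (-3 : ℤ))) * (gP Q X0 X1 X2 X3 X4 X5) * (gA Q X0 X1) * ((X0 / Q) ^ (0 : ℤ)) +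
      ((-Q ^ (-3 : ℤ))) * (gA Q X0 X1) * ((X0 / Q) ^ (2 : ℤ)) * (gP Q (Q ^ (-2 : ℤ) * X0) (Q ^ (-1 : ℤ) * X1) (Q ^ (1 : ℤ) * X2) (Q ^ (2 : ℤ) * X3) (Q ^ (1 : ℤ) * X4) (Q ^ (-1 : ℤ) * X5)) +
      ((-Q ^ (-3 : ℤ))) * (gA Q X1 X2) * ((X1 / Q) ^ (2 : ℤ)) * (gA Q (Q ^ (1 : ℤ) * X5) (Q ^ (-1 : ℤ) * X0)) * (((Q ^ (1 : ℤ) * X5) / Q) ^ (0 : ℤ)) +
      ((-Q ^ (-3 : ℤ))) * (gA Q X5 X0) * ((X5 / Q) ^ (2 : ℤ)) * (gA Q (Q ^ (1 : ℤ) * X1) (Q ^ (2 : ℤ) * X2)) * (((Q ^ (1 : ℤ) * X1) / Q) ^ (0 : ℤ)) +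
      ((-Q ^ (-2 : ℤ) + Q ^ (-1 : ℤ))) * (gP Q X0 X1 X2 X3 X4 X5) * (gA Q X0 X1) * ((X0 / Q) ^ (1 : ℤ)) +
      ((-Q ^ (-2 : ℤ) + Q ^ (-1 : ℤ))) * (gA Q X0 X1) * ((X0 / Q) ^ (1 : ℤ)) * (gP Q (Q ^ (-2 : ℤ) * X0) (Q ^ (-1 : ℤ) * X1) (Q ^ (1 : ℤ) * X2) (Q ^ (2 : ℤ) * X3) (Q ^ (1 : ℤ) * X4) (Q ^ (-1 : ℤ) * X5)) +
      ((-Q ^ (-2 : ℤ) + Q ^ (-1 : ℤ))) * (gA Q X1 X2) * ((X1 / Q) ^ (1 : ℤ)) * (gA Q (Q ^ (1 : ℤ) * X5) (Q ^ (-1 : ℤ) * X0)) * (((Q ^ (1 : ℤ) * X5) / Q) ^ (1 : ℤ)) +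
      ((-Q ^ (-2 : ℤ) + Q ^ (-1 : ℤ))) * (gA Q X5 X0) * ((X5 / Q) ^ (1 : ℤ)) * (gA Q (Q ^ (1 : ℤ) * X1) (Q ^ (2 : ℤ) * X2)) * (((Q ^ (1 : ℤ) * X1) / Q) ^ (1 : ℤ)) = 0 := by
  obtain ⟨nd, h2, h3, h4, h5⟩ := h
  subst h2 h3 h4 h5
  generalize X0 = x at *
  generalize X1 = z at *
  have hQ := nd.hQ
  have hx := nd.hx
  have hz := nd.hz
  have d0 := nd.ne 0 0 1 0 0 0 (by decide)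
  have d1 := nd.ne 0 0 1 1 0 0 (by decide)
  have d2 := nd.ne 0 1 0 0 0 0 (by decide)
  have d3 := nd.ne 0 1 0 0 0 1 (by decide)
  have d4 := nd.ne 0 1 0 1 0 0 (by decide)
  have d5 := nd.ne 0 1 0 1 0 1 (by decide)
  have d6 := nd.ne 0 1 1 0 0 0 (by decide)
  have d7 := nd.ne 0 2 0 0 0 1 (by decide)
  have d8 := nd.ne 1 0 1 0 0 0 (by decide)
  have d9 := nd.ne 1 1 0 0 0 0 (by decide)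
  have d10 := nd.ne 1 1 0 0 0 1 (by decide)
  have d11 := nd.ne 0 0 1 2 0 0 (by decide)
  have d12 := nd.ne 0 1 0 2 0 1 (by decide)
  have d13 := nd.ne 0 1 0 3 0 0 (by decide)
  have d14 := nd.ne 0 1 0 0 0 2 (by decide)
  have d15 := nd.ne 3 1 0 0 0 2 (by decide)
  have d16 := nd.ne 0 1 0 3 0 2 (by decide)
  have f0 := nd.inv2 1 1 0 0 0 0 (Q * x) (by field_simp)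
  have f1 := nd.inv2 1 0 1 0 0 0 (Q * z) (by field_simp)
  have f2 := nd.inv1 0 1 0 1 0 1 (Q * (z / x)) (by field_simp)
  have f3 := nd.inv1 0 1 0 1 0 0 (Q * x⁻¹) (by field_simp)
  have f4 := nd.inv1 0 0 1 1 0 0 (Q * z⁻¹) (by field_simp)
  have f5 := nd.inv2 1 1 0 0 0 1 (Q * (x / z)) (by field_simp)
  have f6 := nd.inv1 0 1 0 1 0 0 (Q / x) (by field_simp)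
  have f7 := nd.inv1 0 1 0 0 0 0 (1 / x) (by field_simp)
  have f8 := nd.inv1 0 1 0 0 0 1 (z / x) (by field_simp)
  have f9 := nd.inv1 0 0 1 0 0 0 (1 / z) (by field_simp)
  have f10 := nd.inv1 0 2 0 0 0 1 (z / x ^ 2) (by field_simp)
  have f11 := nd.inv1 0 1 1 0 0 0 (1 / (x * z)) (by field_simp)
  have f12 := nd.inv2 0 1 0 1 0 0 (Q * (Q ^ (-2 : ℤ) * x)) (by field_simp)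
  have f13 := nd.inv2 0 0 1 0 0 0 (Q * (Q ^ (-1 : ℤ) * z)) (by field_simp)
  have f14 := nd.inv1 0 1 0 2 0 1 (Q * (Q ^ (1 : ℤ) * (z / x))) (by field_simp)
  have f15 := nd.inv1 0 1 0 3 0 0 (Q * (Q ^ (2 : ℤ) * x⁻¹)) (by field_simp)
  have f16 := nd.inv1 0 0 1 2 0 0 (Q * (Q ^ (1 : ℤ) * z⁻¹)) (by field_simp)
  have f17 := nd.inv2 0 1 0 0 0 1 (Q * (Q ^ (-1 : ℤ) * (x / z))) (by field_simp)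
  have f18 := nd.inv1 0 0 1 1 0 0 (Q / z) (by field_simp)
  have f19 := nd.inv1 0 1 0 0 0 0 ((z / x) / z) (by field_simp)
  have f20 := nd.inv2 0 1 0 0 0 1 (1 / (z / x)) (by field_simp)
  have f21 := nd.inv1 0 1 1 0 0 0 ((z / x) / z ^ 2) (by field_simp)
  have f22 := nd.inv2 0 1 0 0 0 2 (1 / (z * (z / x))) (by field_simp)
  have f23 := nd.inv1 0 1 0 0 0 1 (Q / (Q ^ (1 : ℤ) * (x / z))) (by field_simp)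
  have f24 := nd.inv1 1 1 0 0 0 1 (1 / (Q ^ (1 : ℤ) * (x / z))) (by field_simp)
  have f25 := nd.inv2 0 0 1 2 0 0 ((Q ^ (-1 : ℤ) * x) / (Q ^ (1 : ℤ) * (x / z))) (by field_simp)
  have f26 := nd.inv1 0 1 0 1 0 0 (1 / (Q ^ (-1 : ℤ) * x)) (by field_simp)
  have f27 := nd.inv1 3 1 0 0 0 2 ((Q ^ (-1 : ℤ) * x) / (Q ^ (1 : ℤ) * (x / z)) ^ 2) (by field_simp)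
  have f28 := nd.inv1 0 2 0 0 0 1 (1 / ((Q ^ (1 : ℤ) * (x / z)) * (Q ^ (-1 : ℤ) * x))) (by field_simp)
  have f29 := nd.inv1 0 1 0 1 0 1 (Q / (x / z)) (by field_simp)
  have f30 := nd.inv1 0 1 0 0 0 1 (1 / (x / z)) (by field_simp)
  have f31 := nd.inv2 0 0 1 0 0 0 (x / (x / z)) (by field_simp)
  have f32 := nd.inv1 0 1 0 0 0 2 (x / (x / z) ^ 2) (by field_simp)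
  have f33 := nd.inv1 0 2 0 0 0 1 (1 / ((x / z) * x)) (by field_simp)
  have f34 := nd.inv1 0 0 1 0 0 0 (Q / (Q ^ (1 : ℤ) * z)) (by field_simp)
  have f35 := nd.inv1 1 0 1 0 0 0 (1 / (Q ^ (1 : ℤ) * z)) (by field_simp)
  have f36 := nd.inv1 0 1 0 1 0 0 ((Q ^ (2 : ℤ) * (z / x)) / (Q ^ (1 : ℤ) * z)) (by field_simp)
  have f37 := nd.inv2 0 1 0 2 0 1 (1 / (Q ^ (2 : ℤ) * (z / x))) (by field_simp)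
  have f38 := nd.inv1 0 1 1 0 0 0 ((Q ^ (2 : ℤ) * (z / x)) / (Q ^ (1 : ℤ) * z) ^ 2) (by field_simp)
  have f39 := nd.inv2 0 1 0 3 0 2 (1 / ((Q ^ (1 : ℤ) * z) * (Q ^ (2 : ℤ) * (z / x)))) (by field_simp)
  have t0 : (((1)) * (gP Q x z (z / x) x⁻¹ z⁻¹ (x / z)) * (gA Q x z) * ((x / Q) ^ (2 : ℤ)) + ((-Q ^ (-3 : ℤ))) * (gP Q x z (z / x) x⁻¹ z⁻¹ (x / z)) * (gA Q x z) * ((x / Q) ^ (0 : ℤ)) + ((-Q ^ (-2 : ℤ) + Q ^ (-1 : ℤ))) * (gP Q x z (z / x) x⁻¹ z⁻¹ (x / z)) * (gA Q x z) * ((x / Q) ^ (1 : ℤ)) : K) = ((1 : K) * Q ^ (2 : ℕ) * x ^ (8 : ℕ) * z ^ (4 : ℕ) + (1 : K) * Q ^ (2 : ℕ) * x ^ (9 : ℕ) * z ^ (4 : ℕ) + (1 : K) * Q ^ (3 : ℕ) * x ^ (8 : ℕ) * z ^ (4 : ℕ) + (-1 : K) * Q ^ (3 : ℕ) * x ^ (10 :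 ℕ) * z ^ (4 : ℕ) + (-1 : K) * Q ^ (4 : ℕ) * x ^ (9 : ℕ) * z ^ (4 : ℕ) + (-1 : K) * Q ^ (4 : ℕ) * x ^ (10 : ℕ) * z ^ (4 : ℕ)) / (1 * dd Q x z 0 0 1 0 0 0 * dd Q x z 0 0 1 1 0 0 * dd Q x z 0 1 0 0 0 0 * dd Q x z 0 1 0 0 0 1 * dd Q x z 0 1 0 1 0 0 ^ (2 : ℕ) * dd Q x z 0 1 0 1 0 1 * dd Q x z 0 1 1 0 0 0 * dd Q x z 0 2 0 0 0 1 * dd Q x z 1 0 1 0 0 0 * dd Q x z 1 1 0 0 0 0 * dd Q x z 1 1 0 0 0 1) := by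
    simp only [gA, gC, gP, gi]
    simp only [f0, f1, f2, f3, f4, f5, f6, f7, f8, f9, f10, f11]
    field_simp <;> ring
  have t1 : (((1)) * (gA Q x z) * ((x / Q) ^ (0 : ℤ)) * (gP Q (Q ^ (-2 : ℤ) * x) (Q ^ (-1 : ℤ) * z) (Q ^ (1 : ℤ) * (z / x)) (Q ^ (2 : ℤ) * x⁻¹) (Q ^ (1 : ℤ) * z⁻¹) (Q ^ (-1 : ℤ) * (x / z))) + ((-Q ^ (-3 : ℤ))) * (gA Q x z) * ((x / Q) ^ (2 : ℤ)) * (gP Q (Q ^ (-2 : ℤ) * x) (Q ^ (-1 : ℤ) * z) (Q ^ (1 : ℤ) * (z / x)) (Q ^ (2 : ℤ) * x⁻¹) (Q ^ (1 : ℤ) * z⁻¹) (Q ^ (-1 : ℤ) * (x / z))) + ((-Q ^ (-2 : ℤ) + Q ^ (-1 : ℤ))) * (gA Q x z) * ((x / Q) ^ (1 : ℤ)) * (gP Q (Q ^ (-2 : ℤ) * x) (Q ^ (-1 : ℤ) * z) (Q ^ (1 : ℤ) * (z / x)) (Q ^ (2 : ℤ) * x⁻¹) (Q ^ (1 : ℤ) * z⁻¹) (Q ^ (-1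 : ℤ) * (x / z))) : K) = ((1 : K) * Q * x ^ (10 : ℕ) * z ^ (4 : ℕ) + (1 : K) * Q ^ (2 : ℕ) * x ^ (10 : ℕ) * z ^ (4 : ℕ) + (1 : K) * Q ^ (3 : ℕ) * x ^ (9 : ℕ) * z ^ (4 : ℕ) + (-1 : K) * Q ^ (5 : ℕ) * x ^ (9 : ℕ) * z ^ (4 : ℕ) + (-1 : K) * Q ^ (6 : ℕ) * x ^ (8 : ℕ) * z ^ (4 : ℕ) + (-1 : K) * Q ^ (7 : ℕ) * x ^ (8 : ℕ) * z ^ (4 : ℕ)) / (1 * dd Q x z 0 0 1 0 0 0 ^ (2 : ℕ) * dd Q x z 0 0 1 2 0 0 * dd Q x z 0 1 0 0 0 0 * dd Q x z 0 1 0 0 0 1 ^ (2 : ℕ) * dd Q x z 0 1 0 1 0 0 ^ (2 : ℕ) * dd Q x z 0 1 0 2 0 1 * dd Q x z 0 1 0 3 0 0 * dd Q x z 0 1 1 0 0 0 * dd Q x z 0 2 0 0 0 1) := by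
    simp only [gA, gC, gP, gi]
    simp only [f6, f7, f8, f9, f10, f11, f12, f13, f14, f15, f16, f17]
    field_simp <;> ring
  have t2 : (((1)) * (gA Q z (z / x)) * ((z / Q) ^ (0 : ℤ)) * (gA Q (Q ^ (1 : ℤ) * (x / z)) (Q ^ (-1 : ℤ) * x)) * (((Q ^ (1 : ℤ) * (x / z)) / Q) ^ (2 : ℤ)) + ((-Q ^ (-3 : ℤ))) * (gA Q z (z / x)) * ((z / Q) ^ (2 : ℤ)) * (gA Q (Q ^ (1 : ℤ) * (x / z)) (Q ^ (-1 : ℤ) * x)) * (((Q ^ (1 : ℤ) * (x / z)) / Q) ^ (0 : ℤ)) + ((-Q ^ (-2 : ℤ) + Q ^ (-1 : ℤ))) * (gA Q z (z / x)) * ((z / Q) ^ (1 : ℤ)) * (gA Q (Q ^ (1 : ℤ) * (x / z)) (Q ^ (-1 : ℤ) * x)) * (((Q ^ (1 : ℤ) * (x / z)) / Q) ^ (1 : ℤ)) : K) = ((1 : K) * Q * x ^ (8 : ℕ) * z ^ (8 : ℕ) + (1 : K) * Q ^ (3 : ℕ) * x ^ (9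 : ℕ) * z ^ (6 : ℕ) + (-1 : K) * Q ^ (4 : ℕ) * x ^ (9 : ℕ) * z ^ (6 : ℕ) + (-1 : K) * Q ^ (6 : ℕ) * x ^ (10 : ℕ) * z ^ (4 : ℕ)) / (1 * dd Q x z 0 0 1 0 0 0 * dd Q x z 0 0 1 1 0 0 * dd Q x z 0 0 1 2 0 0 * dd Q x z 0 1 0 0 0 0 * dd Q x z 0 1 0 0 0 1 ^ (2 : ℕ) * dd Q x z 0 1 0 0 0 2 * dd Q x z 0 1 0 1 0 0 * dd Q x z 0 1 1 0 0 0 * dd Q x z 0 2 0 0 0 1 * dd Q x z 1 1 0 0 0 1 * dd Q x z 3 1 0 0 0 2) := by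
    simp only [gA, gC, gP, gi]
    simp only [f9, f18, f19, f20, f21, f22, f23, f24, f25, f26, f27, f28]
    field_simp <;> ring
  have t3 : (((1)) * (gA Q (x / z) x) * (((x / z) / Q) ^ (0 : ℤ)) * (gA Q (Q ^ (1 : ℤ) * z) (Q ^ (2 : ℤ) * (z / x))) * (((Q ^ (1 : ℤ) * z) / Q) ^ (2 : ℤ)) + ((-Q ^ (-3 : ℤ))) * (gA Q (x / z) x) * (((x / z) / Q) ^ (2 : ℤ)) * (gA Q (Q ^ (1 : ℤ) * z) (Q ^ (2 : ℤ) * (z / x))) * (((Q ^ (1 : ℤ) * z) / Q) ^ (0 : ℤ)) + ((-Q ^ (-2 : ℤ) + Q ^ (-1 : ℤ))) * (gA Q (x / z) x) * (((x / z) / Q) ^ (1 : ℤ)) * (gA Q (Q ^ (1 : ℤ) * z) (Q ^ (2 : ℤ) * (z / x))) * (((Q ^ (1 : ℤ) * z) / Q) ^ (1 : ℤ)) : K) = ((1 : K) * Q * x ^ (10 : ℕ) * z ^ (4 : ℕ) + (1 : K) * Q ^ (3 : ℕ) * x ^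 (9 : ℕ) * z ^ (6 : ℕ) + (-1 : K) * Q ^ (4 : ℕ) * x ^ (9 : ℕ) * z ^ (6 : ℕ) + (-1 : K) * Q ^ (6 : ℕ) * x ^ (8 : ℕ) * z ^ (8 : ℕ)) / (1 * dd Q x z 0 0 1 0 0 0 ^ (2 : ℕ) * dd Q x z 0 1 0 0 0 0 * dd Q x z 0 1 0 0 0 1 * dd Q x z 0 1 0 0 0 2 * dd Q x z 0 1 0 1 0 0 * dd Q x z 0 1 0 1 0 1 * dd Q x z 0 1 0 2 0 1 * dd Q x z 0 1 0 3 0 2 * dd Q x z 0 1 1 0 0 0 * dd Q x z 0 2 0 0 0 1 * dd Q x z 1 0 1 0 0 0) := by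
    simp only [gA, gC, gP, gi]
    simp only [f7, f29, f30, f31, f32, f33, f34, f35, f36, f37, f38, f39]
    field_simp <;> ring
  have key : ((1 : K) * Q ^ (2 : ℕ) * x ^ (8 : ℕ) * z ^ (4 : ℕ) + (1 : K) * Q ^ (2 : ℕ) * x ^ (9 : ℕ) * z ^ (4 : ℕ) + (1 : K) * Q ^ (3 : ℕ) * x ^ (8 : ℕ) * z ^ (4 : ℕ) + (-1 : K) * Q ^ (3 : ℕ) * x ^ (10 : ℕ) * z ^ (4 : ℕ) + (-1 : K) * Q ^ (4 : ℕ) * x ^ (9 : ℕ) * z ^ (4 : ℕ) + (-1 : K) * Q ^ (4 : ℕ) * x ^ (10 : ℕ) * z ^ (4 : ℕ)) * dd Q x z 0 0 1 0 0 0 * dd Q x z 0 1 0 0 0 1 * dd Q x z 0 0 1 2 0 0 * dd Q x z 0 1 0 2 0 1 * dd Q x z 0 1 0 3 0 0 * dd Q x z 0 1 0 0 0 2 * dd Q x z 3 1 0 0 0 2 * dd Q x z 0 1 0 3 0 2 +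
      ((1 : K) * Q * x ^ (10 : ℕ) * z ^ (4 : ℕ) + (1 : K) * Q ^ (2 : ℕ) * x ^ (10 : ℕ) * z ^ (4 : ℕ) + (1 : K) * Q ^ (3 : ℕ) * x ^ (9 : ℕ) * z ^ (4 : ℕ) + (-1 : K) * Q ^ (5 : ℕ) * x ^ (9 : ℕ) * z ^ (4 : ℕ) + (-1 : K) * Q ^ (6 : ℕ) * x ^ (8 : ℕ) * z ^ (4 : ℕ) + (-1 : K) * Q ^ (7 : ℕ) * x ^ (8 : ℕ) * z ^ (4 : ℕ)) * dd Q x z 0 0 1 1 0 0 * dd Q x z 0 1 0 1 0 1 * dd Q x z 1 0 1 0 0 0 * dd Q x z 1 1 0 0 0 0 * dd Q x z 1 1 0 0 0 1 * dd Q x z 0 1 0 0 0 2 * dd Q x z 3 1 0 0 0 2 * dd Q x z 0 1 0 3 0 2 +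
      ((1 : K) * Q * x ^ (8 : ℕ) * z ^ (8 : ℕ) + (1 : K) * Q ^ (3 : ℕ) * x ^ (9 : ℕ) * z ^ (6 : ℕ) + (-1 : K) * Q ^ (4 : ℕ) * x ^ (9 : ℕ) * z ^ (6 : ℕ) + (-1 : K) * Q ^ (6 : ℕ) * x ^ (10 : ℕ) * z ^ (4 : ℕ)) * dd Q x z 0 0 1 0 0 0 * dd Q x z 0 1 0 1 0 0 * dd Q x z 0 1 0 1 0 1 * dd Q x z 1 0 1 0 0 0 * dd Q x z 1 1 0 0 0 0 * dd Q x z 0 1 0 2 0 1 * dd Q x z 0 1 0 3 0 0 * dd Q x z 0 1 0 3 0 2 +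
      ((1 : K) * Q * x ^ (10 : ℕ) * z ^ (4 : ℕ) + (1 : K) * Q ^ (3 : ℕ) * x ^ (9 : ℕ) * z ^ (6 : ℕ) + (-1 : K) * Q ^ (4 : ℕ) * x ^ (9 : ℕ) * z ^ (6 : ℕ) + (-1 : K) * Q ^ (6 : ℕ) * x ^ (8 : ℕ) * z ^ (8 : ℕ)) * dd Q x z 0 0 1 1 0 0 * dd Q x z 0 1 0 0 0 1 * dd Q x z 0 1 0 1 0 0 * dd Q x z 1 1 0 0 0 0 * dd Q x z 1 1 0 0 0 1 * dd Q x z 0 0 1 2 0 0 * dd Q x z 0 1 0 3 0 0 * dd Q x z 3 1 0 0 0 2 = 0 := by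
    simp only [dd]; ring
  have fin : ∀ n0 n1 n2 n3 : K, n0 * dd Q x z 0 0 1 0 0 0 * dd Q x z 0 1 0 0 0 1 * dd Q x z 0 0 1 2 0 0 * dd Q x z 0 1 0 2 0 1 * dd Q x z 0 1 0 3 0 0 * dd Q x z 0 1 0 0 0 2 * dd Q x z 3 1 0 0 0 2 * dd Q x z 0 1 0 3 0 2 + n1 * dd Q x z 0 0 1 1 0 0 * dd Q x z 0 1 0 1 0 1 * dd Q x z 1 0 1 0 0 0 * dd Q x z 1 1 0 0 0 0 * dd Q x z 1 1 0 0 0 1 * dd Q x z 0 1 0 0 0 2 * dd Q x z 3 1 0 0 0 2 * dd Q x z 0 1 0 3 0 2 + n2 * dd Q x z 0 0 1 0 0 0 * dd Q x z 0 1 0 1 0 0 * dd Q x z 0 1 0 1 0 1 * dd Q x z 1 0 1 0 0 0 * dd Q x z 1 1 0 0 0 0 * dd Q x z 0 1 0 2 0 1 * dd Q x z 0 1 0 3 0 0 * dd Q x z 0 1 0 3 0 2 + n3 * dd Q x z 0 0 1 1 0 0 * dd Q x z 0 1 0 0 0 1 * dd Q x z 0 1 0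 1 0 0 * dd Q x z 1 1 0 0 0 0 * dd Q x z 1 1 0 0 0 1 * dd Q x z 0 0 1 2 0 0 * dd Q x z 0 1 0 3 0 0 * dd Q x z 3 1 0 0 0 2 = 0 → n0 / (1 * dd Q x z 0 0 1 0 0 0 * dd Q x z 0 0 1 1 0 0 * dd Q x z 0 1 0 0 0 0 * dd Q x z 0 1 0 0 0 1 * dd Q x z 0 1 0 1 0 0 ^ (2 : ℕ) * dd Q x z 0 1 0 1 0 1 * dd Q x z 0 1 1 0 0 0 * dd Q x z 0 2 0 0 0 1 * dd Q x z 1 0 1 0 0 0 * dd Q x z 1 1 0 0 0 0 * dd Q x z 1 1 0 0 0 1) + n1 / (1 * dd Q x z 0 0 1 0 0 0 ^ (2 : ℕ) * dd Q x z 0 0 1 2 0 0 * dd Q x z 0 1 0 0 0 0 * dd Q x z 0 1 0 0 0 1 ^ (2 : ℕ) * dd Q x z 0 1 0 1 0 0 ^ (2 : ℕ) * dd Q x z 0 1 0 2 0 1 * dd Q x z 0 1 0 3 0 0 * dd Q x z 0 1 1 0 0 0 * dd Q x z 0 2 0 0 0 1) + n2 / (1 * dd Q x z 0 0 1 0 0 0 * dd Q x z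 0 0 1 1 0 0 * dd Q x z 0 0 1 2 0 0 * dd Q x z 0 1 0 0 0 0 * dd Q x z 0 1 0 0 0 1 ^ (2 : ℕ) * dd Q x z 0 1 0 0 0 2 * dd Q x z 0 1 0 1 0 0 * dd Q x z 0 1 1 0 0 0 * dd Q x z 0 2 0 0 0 1 * dd Q x z 1 1 0 0 0 1 * dd Q x z 3 1 0 0 0 2) + n3 / (1 * dd Q x z 0 0 1 0 0 0 ^ (2 : ℕ) * dd Q x z 0 1 0 0 0 0 * dd Q x z 0 1 0 0 0 1 * dd Q x z 0 1 0 0 0 2 * dd Q x z 0 1 0 1 0 0 * dd Q x z 0 1 0 1 0 1 * dd Q x z 0 1 0 2 0 1 * dd Q x z 0 1 0 3 0 2 * dd Q x z 0 1 1 0 0 0 * dd Q x z 0 2 0 0 0 1 * dd Q x z 1 0 1 0 0 0) = 0 := by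
    intro n0 n1 n2 n3 hk
    refine Eq.trans (b := (n0 * dd Q x z 0 0 1 0 0 0 * dd Q x z 0 1 0 0 0 1 * dd Q x z 0 0 1 2 0 0 * dd Q x z 0 1 0 2 0 1 * dd Q x z 0 1 0 3 0 0 * dd Q x z 0 1 0 0 0 2 * dd Q x z 3 1 0 0 0 2 * dd Q x z 0 1 0 3 0 2 + n1 * dd Q x z 0 0 1 1 0 0 * dd Q x z 0 1 0 1 0 1 * dd Q x z 1 0 1 0 0 0 * dd Q x z 1 1 0 0 0 0 * dd Q x z 1 1 0 0 0 1 * dd Q x z 0 1 0 0 0 2 * dd Q x z 3 1 0 0 0 2 * dd Q x z 0 1 0 3 0 2 + n2 * dd Q x z 0 0 1 0 0 0 * dd Q x z 0 1 0 1 0 0 * dd Q x z 0 1 0 1 0 1 * dd Q x z 1 0 1 0 0 0 * dd Q x z 1 1 0 0 0 0 * dd Q x z 0 1 0 2 0 1 * dd Q x z 0 1 0 3 0 0 * dd Q x z 0 1 0 3 0 2 + n3 * dd Q x z 0 0 1 1 0 0 * dd Q x z 0 1 0 0 0 1 * dd Q x z 0 1 0 1 0 0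 * dd Q x z 1 1 0 0 0 0 * dd Q x z 1 1 0 0 0 1 * dd Q x z 0 0 1 2 0 0 * dd Q x z 0 1 0 3 0 0 * dd Q x z 3 1 0 0 0 2) / (1 * dd Q x z 0 0 1 0 0 0 ^ (2 : ℕ) * dd Q x z 0 0 1 1 0 0 * dd Q x z 0 1 0 0 0 0 * dd Q x z 0 1 0 0 0 1 ^ (2 : ℕ) * dd Q x z 0 1 0 1 0 0 ^ (2 : ℕ) * dd Q x z 0 1 0 1 0 1 * dd Q x z 0 1 1 0 0 0 * dd Q x z 0 2 0 0 0 1 * dd Q x z 1 0 1 0 0 0 * dd Q x z 1 1 0 0 0 0 * dd Q x z 1 1 0 0 0 1 * dd Q x z 0 0 1 2 0 0 * dd Q x z 0 1 0 2 0 1 * dd Q x z 0 1 0 3 0 0 * dd Q x z 0 1 0 0 0 2 * dd Q x z 3 1 0 0 0 2 * dd Q x z 0 1 0 3 0 2)) ?_ (by rw [hk, zero_div])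
    field_simp <;> ring
  have fin2 := fin _ _ _ _ key
  linear_combination t0 + t1 + t2 + t3 + fin2

theorem R2b_one {Q X0 X1 X2 X3 X4 X5 : K} (h : Frame Q X0 X1 X2 X3 X4 X5) :
    ((1)) * (gP Q X0 X1 X2 X3 X4 X5) * (p2 Q X0 X1 X2 X3 X4 X5) +
      ((1)) * (gA Q X0 X1) * ((X0 / Q) ^ (0 : ℤ)) * (p2 Q (Q ^ (-2 : ℤ) * X0) (Q ^ (-1 : ℤ) * X1) (Q ^ (1 : ℤ) * X2) (Q ^ (2 : ℤ) * X3) (Q ^ (1 : ℤ) * X4) (Q ^ (-1 : ℤ) * X5)) +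
      ((1)) * (gA Q X1 X2) * ((X1 / Q) ^ (0 : ℤ)) * (p2 Q (Q ^ (-1 : ℤ) * X0) (Q ^ (-2 : ℤ) * X1) (Q ^ (-1 : ℤ) * X2) (Q ^ (1 : ℤ) * X3) (Q ^ (2 : ℤ) * X4) (Q ^ (1 : ℤ) * X5)) +
      ((1)) * (gA Q X2 X3) * ((X2 / Q) ^ (0 : ℤ)) * (p2 Q (Q ^ (1 : ℤ) * X0) (Q ^ (-1 : ℤ) * X1) (Q ^ (-2 : ℤ) * X2) (Q ^ (-1 : ℤ) * X3) (Q ^ (1 : ℤ) * X4) (Q ^ (2 : ℤ) * X5)) +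
      ((1)) * (gA Q X3 X4) * ((X3 / Q) ^ (0 : ℤ)) * (p2 Q (Q ^ (2 : ℤ) * X0) (Q ^ (1 : ℤ) * X1) (Q ^ (-1 : ℤ) * X2) (Q ^ (-2 : ℤ) * X3) (Q ^ (-1 : ℤ) * X4) (Q ^ (1 : ℤ) * X5)) +
      ((1)) * (gA Q X4 X5) * ((X4 / Q) ^ (0 : ℤ)) * (p2 Q (Q ^ (1 : ℤ) * X0) (Q ^ (2 : ℤ) * X1) (Q ^ (1 : ℤ) * X2) (Q ^ (-1 : ℤ) * X3) (Q ^ (-2 : ℤ) * X4) (Q ^ (-1 : ℤ) * X5)) +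
      ((1)) * (gA Q X5 X0) * ((X5 / Q) ^ (0 : ℤ)) * (p2 Q (Q ^ (-1 : ℤ) * X0) (Q ^ (1 : ℤ) * X1) (Q ^ (2 : ℤ) * X2) (Q ^ (1 : ℤ) * X3) (Q ^ (-1 : ℤ) * X4) (Q ^ (-2 : ℤ) * X5)) +
      ((-Q ^ (-3 : ℤ))) * (p2 Q X0 X1 X2 X3 X4 X5) +
      ((-Q ^ (-2 : ℤ) + Q ^ (-1 : ℤ))) * (gP Q X0 X1 X2 X3 X4 X5) * (p1 Q X0 X1 X2 X3 X4 X5) +
      ((-Q ^ (-2 : ℤ) + Q ^ (-1 : ℤ))) * (gA Q X0 X1) * ((X0 / Q) ^ (1 : ℤ)) * (p1 Q (Q ^ (-2 : ℤ) * X0) (Q ^ (-1 : ℤ) * X1) (Q ^ (1 : ℤ) * X2) (Q ^ (2 : ℤ) * X3) (Q ^ (1 : ℤ) * X4) (Q ^ (-1 : ℤ) * X5)) +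
      ((-Q ^ (-2 : ℤ) + Q ^ (-1 : ℤ))) * (gA Q X1 X2) * ((X1 / Q) ^ (1 : ℤ)) * (p1 Q (Q ^ (-1 : ℤ) * X0) (Q ^ (-2 : ℤ) * X1) (Q ^ (-1 : ℤ) * X2) (Q ^ (1 : ℤ) * X3) (Q ^ (2 : ℤ) * X4) (Q ^ (1 : ℤ) * X5)) +
      ((-Q ^ (-2 : ℤ) + Q ^ (-1 : ℤ))) * (gA Q X2 X3) * ((X2 / Q) ^ (1 : ℤ)) * (p1 Q (Q ^ (1 : ℤ) * X0) (Q ^ (-1 : ℤ) * X1) (Q ^ (-2 : ℤ) * X2) (Q ^ (-1 : ℤ) * X3) (Q ^ (1 : ℤ) * X4) (Q ^ (2 : ℤ) * X5)) +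
      ((-Q ^ (-2 : ℤ) + Q ^ (-1 : ℤ))) * (gA Q X3 X4) * ((X3 / Q) ^ (1 : ℤ)) * (p1 Q (Q ^ (2 : ℤ) * X0) (Q ^ (1 : ℤ) * X1) (Q ^ (-1 : ℤ) * X2) (Q ^ (-2 : ℤ) * X3) (Q ^ (-1 : ℤ) * X4) (Q ^ (1 : ℤ) * X5)) +
      ((-Q ^ (-2 : ℤ) + Q ^ (-1 : ℤ))) * (gA Q X4 X5) * ((X4 / Q) ^ (1 : ℤ)) * (p1 Q (Q ^ (1 : ℤ) * X0) (Q ^ (2 : ℤ) * X1) (Q ^ (1 : ℤ) * X2) (Q ^ (-1 : ℤ) * X3) (Q ^ (-2 : ℤ) * X4) (Q ^ (-1 : ℤ) * X5)) +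
      ((-Q ^ (-2 : ℤ) + Q ^ (-1 : ℤ))) * (gA Q X5 X0) * ((X5 / Q) ^ (1 : ℤ)) * (p1 Q (Q ^ (-1 : ℤ) * X0) (Q ^ (1 : ℤ) * X1) (Q ^ (2 : ℤ) * X2) (Q ^ (1 : ℤ) * X3) (Q ^ (-1 : ℤ) * X4) (Q ^ (-2 : ℤ) * X5)) = 0 := by
  obtain ⟨nd, h2, h3, h4, h5⟩ := h
  subst h2 h3 h4 h5
  generalize X0 = x at *
  generalize X1 = z at *
  have hQ := nd.hQ
  have hx := nd.hx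
  have hz := nd.hz
  have d0 := nd.ne 0 0 1 1 0 0 (by decide)
  have d1 := nd.ne 0 1 0 1 0 0 (by decide)
  have d2 := nd.ne 0 1 0 1 0 1 (by decide)
  have d3 := nd.ne 1 0 1 0 0 0 (by decide)
  have d4 := nd.ne 1 1 0 0 0 0 (by decide)
  have d5 := nd.ne 1 1 0 0 0 1 (by decide)
  have d6 := nd.ne 0 0 1 0 0 0 (by decide)
  have d7 := nd.ne 0 1 0 0 0 0 (by decide)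
  have d8 := nd.ne 0 1 0 0 0 1 (by decide)
  have d9 := nd.ne 0 1 1 0 0 0 (by decide)
  have d10 := nd.ne 0 2 0 0 0 1 (by decide)
  have d11 := nd.ne 0 1 0 0 0 2 (by decide)
  have f0 := nd.inv2 1 1 0 0 0 0 (Q * x) (by field_simp)
  have f1 := nd.inv2 1 0 1 0 0 0 (Q * z) (by field_simp)
  have f2 := nd.inv1 0 1 0 1 0 1 (Q * (z / x)) (by field_simp)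
  have f3 := nd.inv1 0 1 0 1 0 0 (Q * x⁻¹) (by field_simp)
  have f4 := nd.inv1 0 0 1 1 0 0 (Q * z⁻¹) (by field_simp)
  have f5 := nd.inv2 1 1 0 0 0 1 (Q * (x / z)) (by field_simp)
  have f6 := nd.inv1 0 1 0 1 0 0 (Q / x) (by field_simp)
  have f7 := nd.inv1 0 1 0 0 0 0 (1 / x) (by field_simp)
  have f8 := nd.inv1 0 1 0 0 0 1 (z / x) (by field_simp)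
  have f9 := nd.inv1 0 0 1 0 0 0 (1 / z) (by field_simp)
  have f10 := nd.inv1 0 2 0 0 0 1 (z / x ^ 2) (by field_simp)
  have f11 := nd.inv1 0 1 1 0 0 0 (1 / (x * z)) (by field_simp)
  have f12 := nd.inv1 0 0 1 1 0 0 (Q / z) (by field_simp)
  have f13 := nd.inv1 0 1 0 0 0 0 ((z / x) / z) (by field_simp)
  have f14 := nd.inv2 0 1 0 0 0 1 (1 / (z / x)) (by field_simp)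
  have f15 := nd.inv1 0 1 1 0 0 0 ((z / x) / z ^ 2) (by field_simp)
  have f16 := nd.inv2 0 1 0 0 0 2 (1 / (z * (z / x))) (by field_simp)
  have f17 := nd.inv2 1 1 0 0 0 1 (Q / (z / x)) (by field_simp)
  have f18 := nd.inv1 0 0 1 0 0 0 (x⁻¹ / (z / x)) (by field_simp)
  have f19 := nd.inv2 0 1 0 0 0 0 (1 / x⁻¹) (by field_simp)
  have f20 := nd.inv2 0 1 0 0 0 2 (x⁻¹ / (z / x) ^ 2) (by field_simp)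
  have f21 := nd.inv2 0 2 0 0 0 1 (1 / ((z / x) * x⁻¹)) (by field_simp)
  have f22 := nd.inv2 1 1 0 0 0 0 (Q / x⁻¹) (by field_simp)
  have f23 := nd.inv2 0 1 0 0 0 1 (z⁻¹ / x⁻¹) (by field_simp)
  have f24 := nd.inv2 0 0 1 0 0 0 (1 / z⁻¹) (by field_simp)
  have f25 := nd.inv2 0 2 0 0 0 1 (z⁻¹ / x⁻¹ ^ 2) (by field_simp)
  have f26 := nd.inv2 0 1 1 0 0 0 (1 / (x⁻¹ * z⁻¹)) (by field_simp)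
  have f27 := nd.inv2 1 0 1 0 0 0 (Q / z⁻¹) (by field_simp)
  have f28 := nd.inv2 0 1 0 0 0 0 ((x / z) / z⁻¹) (by field_simp)
  have f29 := nd.inv1 0 1 0 0 0 1 (1 / (x / z)) (by field_simp)
  have f30 := nd.inv2 0 1 1 0 0 0 ((x / z) / z⁻¹ ^ 2) (by field_simp)
  have f31 := nd.inv1 0 1 0 0 0 2 (1 / (z⁻¹ * (x / z))) (by field_simp)
  have f32 := nd.inv1 0 1 0 1 0 1 (Q / (x / z)) (by field_simp)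
  have f33 := nd.inv2 0 0 1 0 0 0 (x / (x / z)) (by field_simp)
  have f34 := nd.inv1 0 1 0 0 0 2 (x / (x / z) ^ 2) (by field_simp)
  have f35 := nd.inv1 0 2 0 0 0 1 (1 / ((x / z) * x)) (by field_simp)
  have g0 : p2 Q x z (z / x) x⁻¹ z⁻¹ (x / z) = ((1 : K) * z ^ (2 : ℕ) + (1 : K) * z ^ (3 : ℕ) + (1 : K) * z ^ (4 : ℕ) + (1 : K) * x * z + (2 : K) * x * z ^ (2 : ℕ) + (2 : K) * x * z ^ (3 : ℕ) + (1 : K) * x * z ^ (4 : ℕ) + (1 : K) * x ^ (2 : ℕ) + (2 : K) * x ^ (2 : ℕ) * z + (3 : K) * x ^ (2 : ℕ) * z ^ (2 : ℕ) + (2 : K) * x ^ (2 : ℕ) * z ^ (3 : ℕ) + (1 : K) * x ^ (2 : ℕ) * z ^ (4 : ℕ) + (1 : K) * x ^ (3 : ℕ) + (2 : K) * x ^ (3 : ℕ) * z + (2 : K) * x ^ (3 : ℕ) * z ^ (2 : ℕ) + (1 : K) *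 x ^ (3 : ℕ) * z ^ (3 : ℕ) + (1 : K) * x ^ (4 : ℕ) + (1 : K) * x ^ (4 : ℕ) * z + (1 : K) * x ^ (4 : ℕ) * z ^ (2 : ℕ) + (1 : K) * Q * x * z ^ (2 : ℕ) + (1 : K) * Q * x * z ^ (3 : ℕ) + (1 : K) * Q * x ^ (2 : ℕ) * z + (1 : K) * Q * x ^ (2 : ℕ) * z ^ (2 : ℕ) + (1 : K) * Q * x ^ (2 : ℕ) * z ^ (3 : ℕ) + (1 : K) * Q * x ^ (3 : ℕ) * z + (1 : K) * Q * x ^ (3 : ℕ) * z ^ (2 : ℕ) + (1 : K) * Q ^ (2 : ℕ) * x ^ (2 : ℕ) * z ^ (2 : ℕ)) / (Q ^ (2 : ℕ) * x ^ (2 : ℕ) * z ^ (2 : ℕ)) := by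
    simp only [p1, p2]; field_simp; ring
  have g1 : p2 Q (Q ^ (-2 : ℤ) * x) (Q ^ (-1 : ℤ) * z) (Q ^ (1 : ℤ) * (z / x)) (Q ^ (2 : ℤ) * x⁻¹) (Q ^ (1 : ℤ) * z⁻¹) (Q ^ (-1 : ℤ) * (x / z)) = ((1 : K) * x ^ (4 : ℕ) * z ^ (2 : ℕ) + (1 : K) * Q * x ^ (3 : ℕ) * z ^ (3 : ℕ) + (1 : K) * Q * x ^ (4 : ℕ) * z + (1 : K) * Q ^ (2 : ℕ) * x ^ (2 : ℕ) * z ^ (4 : ℕ) + (2 : K) * Q ^ (2 : ℕ) * x ^ (3 : ℕ) * z ^ (2 : ℕ) + (1 : K) * Q ^ (2 : ℕ) * x ^ (4 : ℕ) + (2 : K) * Q ^ (3 : ℕ) * x ^ (2 : ℕ) * z ^ (3 : ℕ) + (2 : K) * Q ^ (3 : ℕ) * x ^ (3 : ℕ) * z + (1 : K) * Q ^ (3 : ℕ) * x ^ (3 : ℕ) * z ^ (2 : ℕ) + (1 : K) * Q ^ (4 : ℕ) * x * z ^ (4 : ℕ) + (3 : K) * Q ^ (4 : ℕ) * x ^ (2 : ℕ) * z ^ (2 : ℕ) + (1 : K)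 * Q ^ (4 : ℕ) * x ^ (2 : ℕ) * z ^ (3 : ℕ) + (1 : K) * Q ^ (4 : ℕ) * x ^ (3 : ℕ) + (1 : K) * Q ^ (4 : ℕ) * x ^ (3 : ℕ) * z + (2 : K) * Q ^ (5 : ℕ) * x * z ^ (3 : ℕ) + (2 : K) * Q ^ (5 : ℕ) * x ^ (2 : ℕ) * z + (1 : K) * Q ^ (5 : ℕ) * x ^ (2 : ℕ) * z ^ (2 : ℕ) + (1 : K) * Q ^ (6 : ℕ) * z ^ (4 : ℕ) + (2 : K) * Q ^ (6 : ℕ) * x * z ^ (2 : ℕ) + (1 : K) * Q ^ (6 : ℕ) * x * z ^ (3 : ℕ) + (1 : K) * Q ^ (6 : ℕ) * x ^ (2 : ℕ) + (1 : K) * Q ^ (6 : ℕ) * x ^ (2 : ℕ) * z + (1 : K) * Q ^ (6 : ℕ) * x ^ (2 : ℕ) * z ^ (2 : ℕ) + (1 : K) * Q ^ (7 : ℕ) * z ^ (3 : ℕ) + (1 : K) * Q ^ (7 : ℕ) * x * z + (1 : K) * Q ^ (7 : ℕ) * x * z ^ (2 : ℕ) + (1 : K) * Q ^ (8 : ℕ) * z ^ (2 : ℕ)) / (Q ^ (6 : ℕ) * x ^ (2 : ℕ)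 * z ^ (2 : ℕ)) := by
    simp only [p1, p2]; field_simp; ring
  have g2 : p2 Q (Q ^ (-1 : ℤ) * x) (Q ^ (-2 : ℤ) * z) (Q ^ (-1 : ℤ) * (z / x)) (Q ^ (1 : ℤ) * x⁻¹) (Q ^ (2 : ℤ) * z⁻¹) (Q ^ (1 : ℤ) * (x / z)) = ((1 : K) * x ^ (2 : ℕ) * z ^ (4 : ℕ) + (1 : K) * Q * x * z ^ (4 : ℕ) + (1 : K) * Q * x ^ (3 : ℕ) * z ^ (3 : ℕ) + (1 : K) * Q ^ (2 : ℕ) * z ^ (4 : ℕ) + (2 : K) * Q ^ (2 : ℕ) * x ^ (2 : ℕ) * z ^ (3 : ℕ) + (1 : K) * Q ^ (2 : ℕ) * x ^ (4 : ℕ) * z ^ (2 : ℕ) + (2 : K) * Q ^ (3 : ℕ) * x * z ^ (3 : ℕ) + (1 : K) * Q ^ (3 : ℕ) * x ^ (2 : ℕ) * z ^ (3 : ℕ) + (2 : K) * Q ^ (3 : ℕ) * x ^ (3 : ℕ) * z ^ (2 : ℕ) + (1 : K) * Q ^ (4 : ℕ) * z ^ (3 : ℕ) + (1 : K) * Q ^ (4 : ℕ) * x * z ^ (3 : ℕ) + (3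 : K) * Q ^ (4 : ℕ) * x ^ (2 : ℕ) * z ^ (2 : ℕ) + (1 : K) * Q ^ (4 : ℕ) * x ^ (3 : ℕ) * z ^ (2 : ℕ) + (1 : K) * Q ^ (4 : ℕ) * x ^ (4 : ℕ) * z + (2 : K) * Q ^ (5 : ℕ) * x * z ^ (2 : ℕ) + (1 : K) * Q ^ (5 : ℕ) * x ^ (2 : ℕ) * z ^ (2 : ℕ) + (2 : K) * Q ^ (5 : ℕ) * x ^ (3 : ℕ) * z + (1 : K) * Q ^ (6 : ℕ) * z ^ (2 : ℕ) + (1 : K) * Q ^ (6 : ℕ) * x * z ^ (2 : ℕ) + (2 : K) * Q ^ (6 : ℕ) * x ^ (2 : ℕ) * z + (1 : K) * Q ^ (6 : ℕ) * x ^ (2 : ℕ) * z ^ (2 : ℕ) + (1 : K) * Q ^ (6 : ℕ) * x ^ (3 : ℕ) * z + (1 : K) * Q ^ (6 : ℕ) * x ^ (4 : ℕ) + (1 : K) * Q ^ (7 : ℕ) * x * z + (1 : K) * Q ^ (7 : ℕ) * x ^ (2 : ℕ) * z + (1 : K) * Q ^ (7 : ℕ) * x ^ (3 : ℕ) + (1 : K) * Q ^ (8 : ℕ) * x ^ (2 : ℕ)) / (Q ^ (6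 : ℕ) * x ^ (2 : ℕ) * z ^ (2 : ℕ)) := by
    simp only [p1, p2]; field_simp; ring
  have g3 : p2 Q (Q ^ (1 : ℤ) * x) (Q ^ (-1 : ℤ) * z) (Q ^ (-2 : ℤ) * (z / x)) (Q ^ (-1 : ℤ) * x⁻¹) (Q ^ (1 : ℤ) * z⁻¹) (Q ^ (2 : ℤ) * (x / z)) = ((1 : K) * z ^ (4 : ℕ) + (1 : K) * Q * z ^ (3 : ℕ) + (1 : K) * Q * x * z ^ (4 : ℕ) + (1 : K) * Q ^ (2 : ℕ) * z ^ (2 : ℕ) + (2 : K) * Q ^ (2 : ℕ) * x * z ^ (3 : ℕ) + (1 : K) * Q ^ (2 : ℕ) * x ^ (2 : ℕ) * z ^ (4 : ℕ) + (2 : K) * Q ^ (3 : ℕ) * x * z ^ (2 : ℕ) + (1 : K) * Q ^ (3 : ℕ) * x * z ^ (3 : ℕ) + (2 : K) * Q ^ (3 : ℕ) * x ^ (2 : ℕ) * z ^ (3 : ℕ) + (1 : K) * Q ^ (4 : ℕ) * x * z + (1 : K) * Q ^ (4 : ℕ) * x * z ^ (2 : ℕ) + (3 : K) * Q ^ (4 : ℕ) * x ^ (2 : ℕ)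 * z ^ (2 : ℕ) + (1 : K) * Q ^ (4 : ℕ) * x ^ (2 : ℕ) * z ^ (3 : ℕ) + (1 : K) * Q ^ (4 : ℕ) * x ^ (3 : ℕ) * z ^ (3 : ℕ) + (2 : K) * Q ^ (5 : ℕ) * x ^ (2 : ℕ) * z + (1 : K) * Q ^ (5 : ℕ) * x ^ (2 : ℕ) * z ^ (2 : ℕ) + (2 : K) * Q ^ (5 : ℕ) * x ^ (3 : ℕ) * z ^ (2 : ℕ) + (1 : K) * Q ^ (6 : ℕ) * x ^ (2 : ℕ) + (1 : K) * Q ^ (6 : ℕ) * x ^ (2 : ℕ) * z + (1 : K) * Q ^ (6 : ℕ) * x ^ (2 : ℕ) * z ^ (2 : ℕ) + (2 : K) * Q ^ (6 : ℕ) * x ^ (3 : ℕ) * z + (1 : K) * Q ^ (6 : ℕ) * x ^ (3 : ℕ) * z ^ (2 : ℕ) + (1 : K) * Q ^ (6 : ℕ) * x ^ (4 : ℕ) * z ^ (2 : ℕ) + (1 : K) * Q ^ (7 : ℕ) * x ^ (3 : ℕ) + (1 : K) * Q ^ (7 : ℕ) * x ^ (3 : ℕ) * z + (1 : K) * Q ^ (7 : ℕ) * x ^ (4 : ℕ) * z + (1 : K) * Q ^ (8 : ℕ) *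 x ^ (4 : ℕ)) / (Q ^ (6 : ℕ) * x ^ (2 : ℕ) * z ^ (2 : ℕ)) := by
    simp only [p1, p2]; field_simp; ring
  have g4 : p2 Q (Q ^ (2 : ℤ) * x) (Q ^ (1 : ℤ) * z) (Q ^ (-1 : ℤ) * (z / x)) (Q ^ (-2 : ℤ) * x⁻¹) (Q ^ (-1 : ℤ) * z⁻¹) (Q ^ (1 : ℤ) * (x / z)) = ((1 : K) * z ^ (2 : ℕ) + (1 : K) * Q * z ^ (3 : ℕ) + (1 : K) * Q * x * z + (1 : K) * Q ^ (2 : ℕ) * z ^ (4 : ℕ) + (2 : K) * Q ^ (2 : ℕ) * x * z ^ (2 : ℕ) + (1 : K) * Q ^ (2 : ℕ) * x ^ (2 : ℕ) + (1 : K) * Q ^ (3 : ℕ) * x * z ^ (2 : ℕ) + (2 : K) * Q ^ (3 : ℕ) * x * z ^ (3 : ℕ) + (2 : K) * Q ^ (3 : ℕ) * x ^ (2 : ℕ) * z + (1 : K) * Q ^ (4 : ℕ) * x * z ^ (3 : ℕ) + (1 : K) * Q ^ (4 : ℕ) * x * z ^ (4 : ℕ) + (1 : K) * Q ^ (4 : ℕ) * x ^ (2 : ℕ) *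 z + (3 : K) * Q ^ (4 : ℕ) * x ^ (2 : ℕ) * z ^ (2 : ℕ) + (1 : K) * Q ^ (4 : ℕ) * x ^ (3 : ℕ) + (1 : K) * Q ^ (5 : ℕ) * x ^ (2 : ℕ) * z ^ (2 : ℕ) + (2 : K) * Q ^ (5 : ℕ) * x ^ (2 : ℕ) * z ^ (3 : ℕ) + (2 : K) * Q ^ (5 : ℕ) * x ^ (3 : ℕ) * z + (1 : K) * Q ^ (6 : ℕ) * x ^ (2 : ℕ) * z ^ (2 : ℕ) + (1 : K) * Q ^ (6 : ℕ) * x ^ (2 : ℕ) * z ^ (3 : ℕ) + (1 : K) * Q ^ (6 : ℕ) * x ^ (2 : ℕ) * z ^ (4 : ℕ) + (1 : K) * Q ^ (6 : ℕ) * x ^ (3 : ℕ) * z + (2 : K) * Q ^ (6 : ℕ) * x ^ (3 : ℕ) * z ^ (2 : ℕ) + (1 : K) * Q ^ (6 : ℕ) * x ^ (4 : ℕ) + (1 : K) * Q ^ (7 : ℕ) * x ^ (3 : ℕ) * z ^ (2 : ℕ) + (1 : K) * Q ^ (7 : ℕ) * x ^ (3 : ℕ) * z ^ (3 : ℕ) + (1 : K) * Q ^ (7 : ℕ) * x ^ (4 : ℕ) * z + (1 : K) * Q ^ (8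 : ℕ) * x ^ (4 : ℕ) * z ^ (2 : ℕ)) / (Q ^ (6 : ℕ) * x ^ (2 : ℕ) * z ^ (2 : ℕ)) := by
    simp only [p1, p2]; field_simp; ring
  have g5 : p2 Q (Q ^ (1 : ℤ) * x) (Q ^ (2 : ℤ) * z) (Q ^ (1 : ℤ) * (z / x)) (Q ^ (-1 : ℤ) * x⁻¹) (Q ^ (-2 : ℤ) * z⁻¹) (Q ^ (-1 : ℤ) * (x / z)) = ((1 : K) * x ^ (2 : ℕ) + (1 : K) * Q * x * z + (1 : K) * Q * x ^ (3 : ℕ) + (1 : K) * Q ^ (2 : ℕ) * z ^ (2 : ℕ) + (2 : K) * Q ^ (2 : ℕ) * x ^ (2 : ℕ) * z + (1 : K) * Q ^ (2 : ℕ) * x ^ (4 : ℕ) + (2 : K) * Q ^ (3 : ℕ) * x * z ^ (2 : ℕ) + (1 : K) * Q ^ (3 : ℕ) * x ^ (2 : ℕ) * z + (2 : K) * Q ^ (3 : ℕ) * x ^ (3 : ℕ) * z + (1 : K) * Q ^ (4 : ℕ) * z ^ (3 : ℕ) + (1 : K) * Q ^ (4 : ℕ) * x * z ^ (2 : ℕ) + (3 : K) * Q ^ (4 : ℕ)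 * x ^ (2 : ℕ) * z ^ (2 : ℕ) + (1 : K) * Q ^ (4 : ℕ) * x ^ (3 : ℕ) * z + (1 : K) * Q ^ (4 : ℕ) * x ^ (4 : ℕ) * z + (2 : K) * Q ^ (5 : ℕ) * x * z ^ (3 : ℕ) + (1 : K) * Q ^ (5 : ℕ) * x ^ (2 : ℕ) * z ^ (2 : ℕ) + (2 : K) * Q ^ (5 : ℕ) * x ^ (3 : ℕ) * z ^ (2 : ℕ) + (1 : K) * Q ^ (6 : ℕ) * z ^ (4 : ℕ) + (1 : K) * Q ^ (6 : ℕ) * x * z ^ (3 : ℕ) + (1 : K) * Q ^ (6 : ℕ) * x ^ (2 : ℕ) * z ^ (2 : ℕ) + (2 : K) * Q ^ (6 : ℕ) * x ^ (2 : ℕ) * z ^ (3 : ℕ) + (1 : K) * Q ^ (6 : ℕ) * x ^ (3 : ℕ) * z ^ (2 : ℕ) + (1 : K) * Q ^ (6 : ℕ) * x ^ (4 : ℕ) * z ^ (2 : ℕ) + (1 : K) * Q ^ (7 : ℕ) * x * z ^ (4 : ℕ) + (1 : K) * Q ^ (7 : ℕ) * x ^ (2 : ℕ) * z ^ (3 : ℕ) + (1 : K) * Q ^ (7 : ℕ) * x ^ (3 : ℕ) * z ^ (3 : ℕ)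 + (1 : K) * Q ^ (8 : ℕ) * x ^ (2 : ℕ) * z ^ (4 : ℕ)) / (Q ^ (6 : ℕ) * x ^ (2 : ℕ) * z ^ (2 : ℕ)) := by
    simp only [p1, p2]; field_simp; ring
  have g6 : p2 Q (Q ^ (-1 : ℤ) * x) (Q ^ (1 : ℤ) * z) (Q ^ (2 : ℤ) * (z / x)) (Q ^ (1 : ℤ) * x⁻¹) (Q ^ (-1 : ℤ) * z⁻¹) (Q ^ (-2 : ℤ) * (x / z)) = ((1 : K) * x ^ (4 : ℕ) + (1 : K) * Q * x ^ (3 : ℕ) + (1 : K) * Q * x ^ (4 : ℕ) * z + (1 : K) * Q ^ (2 : ℕ) * x ^ (2 : ℕ) + (2 : K) * Q ^ (2 : ℕ) * x ^ (3 : ℕ) * z + (1 : K) * Q ^ (2 : ℕ) * x ^ (4 : ℕ) * z ^ (2 : ℕ) + (2 : K) * Q ^ (3 : ℕ) * x ^ (2 : ℕ) * z + (1 : K) * Q ^ (3 : ℕ) * x ^ (3 : ℕ) * z + (2 : K) * Q ^ (3 : ℕ) * x ^ (3 : ℕ) * z ^ (2 : ℕ) + (1 : K) * Q ^ (4 : ℕ) * x * z + (1 : K) * Q ^ (4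 : ℕ) * x ^ (2 : ℕ) * z + (3 : K) * Q ^ (4 : ℕ) * x ^ (2 : ℕ) * z ^ (2 : ℕ) + (1 : K) * Q ^ (4 : ℕ) * x ^ (3 : ℕ) * z ^ (2 : ℕ) + (1 : K) * Q ^ (4 : ℕ) * x ^ (3 : ℕ) * z ^ (3 : ℕ) + (2 : K) * Q ^ (5 : ℕ) * x * z ^ (2 : ℕ) + (1 : K) * Q ^ (5 : ℕ) * x ^ (2 : ℕ) * z ^ (2 : ℕ) + (2 : K) * Q ^ (5 : ℕ) * x ^ (2 : ℕ) * z ^ (3 : ℕ) + (1 : K) * Q ^ (6 : ℕ) * z ^ (2 : ℕ) + (1 : K) * Q ^ (6 : ℕ) * x * z ^ (2 : ℕ) + (2 : K) * Q ^ (6 : ℕ) * x * z ^ (3 : ℕ) + (1 : K) * Q ^ (6 : ℕ) * x ^ (2 : ℕ) * z ^ (2 : ℕ) + (1 : K) * Q ^ (6 : ℕ) * x ^ (2 : ℕ) * z ^ (3 : ℕ) + (1 : K) * Q ^ (6 : ℕ) * x ^ (2 : ℕ) * z ^ (4 : ℕ) + (1 : K) * Q ^ (7 : ℕ) * z ^ (3 : ℕ) + (1 : K) * Q ^ (7 : ℕ) * x * z ^ (3 : ℕ) + (1 :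 K) * Q ^ (7 : ℕ) * x * z ^ (4 : ℕ) + (1 : K) * Q ^ (8 : ℕ) * z ^ (4 : ℕ)) / (Q ^ (6 : ℕ) * x ^ (2 : ℕ) * z ^ (2 : ℕ)) := by
    simp only [p1, p2]; field_simp; ring
  have g7 : p1 Q x z (z / x) x⁻¹ z⁻¹ (x / z) = ((1 : K) * z + (1 : K) * z ^ (2 : ℕ) + (1 : K) * x + (1 : K) * x * z + (1 : K) * x * z ^ (2 : ℕ) + (1 : K) * x ^ (2 : ℕ) + (1 : K) * x ^ (2 : ℕ) * z + (1 : K) * Q * x * z) / (Q * x * z) := by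
    simp only [p1, p2]; field_simp; ring
  have g8 : p1 Q (Q ^ (-2 : ℤ) * x) (Q ^ (-1 : ℤ) * z) (Q ^ (1 : ℤ) * (z / x)) (Q ^ (2 : ℤ) * x⁻¹) (Q ^ (1 : ℤ) * z⁻¹) (Q ^ (-1 : ℤ) * (x / z)) = ((1 : K) * x ^ (2 : ℕ) * z + (1 : K) * Q * x * z ^ (2 : ℕ) + (1 : K) * Q * x ^ (2 : ℕ) + (1 : K) * Q ^ (2 : ℕ) * x * z + (1 : K) * Q ^ (3 : ℕ) * z ^ (2 : ℕ) + (1 : K) * Q ^ (3 : ℕ) * x + (1 : K) * Q ^ (3 : ℕ) * x * z + (1 : K) * Q ^ (4 : ℕ) * z) / (Q ^ (3 : ℕ) * x * z) := by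
    simp only [p1, p2]; field_simp; ring
  have g9 : p1 Q (Q ^ (-1 : ℤ) * x) (Q ^ (-2 : ℤ) * z) (Q ^ (-1 : ℤ) * (z / x)) (Q ^ (1 : ℤ) * x⁻¹) (Q ^ (2 : ℤ) * z⁻¹) (Q ^ (1 : ℤ) * (x / z)) = ((1 : K) * x * z ^ (2 : ℕ) + (1 : K) * Q * z ^ (2 : ℕ) + (1 : K) * Q * x ^ (2 : ℕ) * z + (1 : K) * Q ^ (2 : ℕ) * x * z + (1 : K) * Q ^ (3 : ℕ) * z + (1 : K) * Q ^ (3 : ℕ) * x * z + (1 : K) * Q ^ (3 : ℕ) * x ^ (2 : ℕ) + (1 : K) * Q ^ (4 : ℕ) * x) / (Q ^ (3 : ℕ) * x * z) := by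
    simp only [p1, p2]; field_simp; ring
  have g10 : p1 Q (Q ^ (1 : ℤ) * x) (Q ^ (-1 : ℤ) * z) (Q ^ (-2 : ℤ) * (z / x)) (Q ^ (-1 : ℤ) * x⁻¹) (Q ^ (1 : ℤ) * z⁻¹) (Q ^ (2 : ℤ) * (x / z)) = ((1 : K) * z ^ (2 : ℕ) + (1 : K) * Q * z + (1 : K) * Q * x * z ^ (2 : ℕ) + (1 : K) * Q ^ (2 : ℕ) * x * z + (1 : K) * Q ^ (3 : ℕ) * x + (1 : K) * Q ^ (3 : ℕ) * x * z + (1 : K) * Q ^ (3 : ℕ) * x ^ (2 : ℕ) * z + (1 : K) * Q ^ (4 : ℕ) * x ^ (2 : ℕ)) / (Q ^ (3 : ℕ) * x * z) := by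
    simp only [p1, p2]; field_simp; ring
  have g11 : p1 Q (Q ^ (2 : ℤ) * x) (Q ^ (1 : ℤ) * z) (Q ^ (-1 : ℤ) * (z / x)) (Q ^ (-2 : ℤ) * x⁻¹) (Q ^ (-1 : ℤ) * z⁻¹) (Q ^ (1 : ℤ) * (x / z)) = ((1 : K) * z + (1 : K) * Q * z ^ (2 : ℕ) + (1 : K) * Q * x + (1 : K) * Q ^ (2 : ℕ) * x * z + (1 : K) * Q ^ (3 : ℕ) * x * z + (1 : K) * Q ^ (3 : ℕ) * x * z ^ (2 : ℕ) + (1 : K) * Q ^ (3 : ℕ) * x ^ (2 : ℕ) + (1 : K) * Q ^ (4 : ℕ) * x ^ (2 : ℕ) * z) / (Q ^ (3 : ℕ) * x * z) := by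
    simp only [p1, p2]; field_simp; ring
  have g12 : p1 Q (Q ^ (1 : ℤ) * x) (Q ^ (2 : ℤ) * z) (Q ^ (1 : ℤ) * (z / x)) (Q ^ (-1 : ℤ) * x⁻¹) (Q ^ (-2 : ℤ) * z⁻¹) (Q ^ (-1 : ℤ) * (x / z)) = ((1 : K) * x + (1 : K) * Q * z + (1 : K) * Q * x ^ (2 : ℕ) + (1 : K) * Q ^ (2 : ℕ) * x * z + (1 : K) * Q ^ (3 : ℕ) * z ^ (2 : ℕ) + (1 : K) * Q ^ (3 : ℕ) * x * z + (1 : K) * Q ^ (3 : ℕ) * x ^ (2 : ℕ) * z + (1 : K) * Q ^ (4 : ℕ) * x * z ^ (2 : ℕ)) / (Q ^ (3 : ℕ) * x * z) := by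
    simp only [p1, p2]; field_simp; ring
  have g13 : p1 Q (Q ^ (-1 : ℤ) * x) (Q ^ (1 : ℤ) * z) (Q ^ (2 : ℤ) * (z / x)) (Q ^ (1 : ℤ) * x⁻¹) (Q ^ (-1 : ℤ) * z⁻¹) (Q ^ (-2 : ℤ) * (x / z)) = ((1 : K) * x ^ (2 : ℕ) + (1 : K) * Q * x + (1 : K) * Q * x ^ (2 : ℕ) * z + (1 : K) * Q ^ (2 : ℕ) * x * z + (1 : K) * Q ^ (3 : ℕ) * z + (1 : K) * Q ^ (3 : ℕ) * x * z + (1 : K) * Q ^ (3 : ℕ) * x * z ^ (2 : ℕ) + (1 : K) * Q ^ (4 : ℕ) * z ^ (2 : ℕ)) / (Q ^ (3 : ℕ) * x * z) := by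
    simp only [p1, p2]; field_simp; ring
  have t0 : (((1)) * (gP Q x z (z / x) x⁻¹ z⁻¹ (x / z)) * (p2 Q x z (z / x) x⁻¹ z⁻¹ (x / z)) + ((-Q ^ (-2 : ℤ) + Q ^ (-1 : ℤ))) * (gP Q x z (z / x) x⁻¹ z⁻¹ (x / z)) * (p1 Q x z (z / x) x⁻¹ z⁻¹ (x / z)) : K) = ((1 : K) * Q ^ (7 : ℕ) * x ^ (3 : ℕ) * z ^ (4 : ℕ) + (1 : K) * Q ^ (7 : ℕ) * x ^ (3 : ℕ) * z ^ (5 : ℕ) + (1 : K) * Q ^ (7 : ℕ) * x ^ (4 : ℕ) * z ^ (3 : ℕ) + (1 : K) * Q ^ (7 : ℕ) * x ^ (4 : ℕ) * z ^ (4 : ℕ) + (1 : K) * Q ^ (7 : ℕ) * x ^ (4 : ℕ) * z ^ (5 : ℕ) + (1 : K) * Q ^ (7 : ℕ) * x ^ (5 : ℕ) * z ^ (3 : ℕ) + (1 : K) * Q ^ (7 : ℕ) * x ^ (5 : ℕ) * z ^ (4 : ℕ) + (-1 : K) * Q ^ (8 : ℕ) * x ^ (2 : ℕ) * z ^ (4 : ℕ) + (-1 : K) * Q ^ (8 : ℕ)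 * x ^ (2 : ℕ) * z ^ (5 : ℕ) + (-1 : K) * Q ^ (8 : ℕ) * x ^ (2 : ℕ) * z ^ (6 : ℕ) + (-1 : K) * Q ^ (8 : ℕ) * x ^ (3 : ℕ) * z ^ (3 : ℕ) + (-2 : K) * Q ^ (8 : ℕ) * x ^ (3 : ℕ) * z ^ (4 : ℕ) + (-2 : K) * Q ^ (8 : ℕ) * x ^ (3 : ℕ) * z ^ (5 : ℕ) + (-1 : K) * Q ^ (8 : ℕ) * x ^ (3 : ℕ) * z ^ (6 : ℕ) + (-1 : K) * Q ^ (8 : ℕ) * x ^ (4 : ℕ) * z ^ (2 : ℕ) + (-2 : K) * Q ^ (8 : ℕ) * x ^ (4 : ℕ) * z ^ (3 : ℕ) + (-2 : K) * Q ^ (8 : ℕ) * x ^ (4 : ℕ) * z ^ (4 : ℕ) + (-2 : K) * Q ^ (8 : ℕ) * x ^ (4 : ℕ) * z ^ (5 : ℕ) + (-1 : K) * Q ^ (8 : ℕ) * x ^ (4 : ℕ) * z ^ (6 : ℕ) + (-1 : K) * Q ^ (8 : ℕ) * x ^ (5 : ℕ) * z ^ (2 : ℕ) + (-2 : K) * Q ^ (8 : ℕ) * x ^ (5 : ℕ) * z ^ (3 : ℕ) + (-2 : K) * Q ^ (8 : ℕ) *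 x ^ (5 : ℕ) * z ^ (4 : ℕ) + (-1 : K) * Q ^ (8 : ℕ) * x ^ (5 : ℕ) * z ^ (5 : ℕ) + (-1 : K) * Q ^ (8 : ℕ) * x ^ (6 : ℕ) * z ^ (2 : ℕ) + (-1 : K) * Q ^ (8 : ℕ) * x ^ (6 : ℕ) * z ^ (3 : ℕ) + (-1 : K) * Q ^ (8 : ℕ) * x ^ (6 : ℕ) * z ^ (4 : ℕ) + (-1 : K) * Q ^ (9 : ℕ) * x ^ (2 : ℕ) * z ^ (4 : ℕ) + (-1 : K) * Q ^ (9 : ℕ) * x ^ (2 : ℕ) * z ^ (5 : ℕ) + (-1 : K) * Q ^ (9 : ℕ) * x ^ (2 : ℕ) * z ^ (6 : ℕ) + (-1 : K) * Q ^ (9 : ℕ) * x ^ (3 : ℕ) * z ^ (3 : ℕ) + (-4 : K) * Q ^ (9 : ℕ) * x ^ (3 : ℕ) * z ^ (4 : ℕ) + (-4 : K) * Q ^ (9 : ℕ) * x ^ (3 : ℕ) * z ^ (5 : ℕ) + (-1 : K) * Q ^ (9 : ℕ) * x ^ (3 : ℕ) * z ^ (6 : ℕ) + (-1 : K) * Q ^ (9 : ℕ) * x ^ (4 : ℕ) * z ^ (2 : ℕ) + (-4 : K) * Q ^ (9 : ℕ) * x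 ^ (4 : ℕ) * z ^ (3 : ℕ) + (-5 : K) * Q ^ (9 : ℕ) * x ^ (4 : ℕ) * z ^ (4 : ℕ) + (-4 : K) * Q ^ (9 : ℕ) * x ^ (4 : ℕ) * z ^ (5 : ℕ) + (-1 : K) * Q ^ (9 : ℕ) * x ^ (4 : ℕ) * z ^ (6 : ℕ) + (-1 : K) * Q ^ (9 : ℕ) * x ^ (5 : ℕ) * z ^ (2 : ℕ) + (-4 : K) * Q ^ (9 : ℕ) * x ^ (5 : ℕ) * z ^ (3 : ℕ) + (-4 : K) * Q ^ (9 : ℕ) * x ^ (5 : ℕ) * z ^ (4 : ℕ) + (-1 : K) * Q ^ (9 : ℕ) * x ^ (5 : ℕ) * z ^ (5 : ℕ) + (-1 : K) * Q ^ (9 : ℕ) * x ^ (6 : ℕ) * z ^ (2 : ℕ) + (-1 : K) * Q ^ (9 : ℕ) * x ^ (6 : ℕ) * z ^ (3 : ℕ) + (-1 : K) * Q ^ (9 : ℕ) * x ^ (6 : ℕ) * z ^ (4 : ℕ) + (-1 : K) * Q ^ (10 : ℕ) * x ^ (3 : ℕ) * z ^ (4 : ℕ) + (-1 : K) * Q ^ (10 : ℕ) * x ^ (3 : ℕ) * z ^ (5 : ℕ) + (-1 : K) * Q ^ (10 : ℕ) *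 x ^ (4 : ℕ) * z ^ (3 : ℕ) + (-3 : K) * Q ^ (10 : ℕ) * x ^ (4 : ℕ) * z ^ (4 : ℕ) + (-1 : K) * Q ^ (10 : ℕ) * x ^ (4 : ℕ) * z ^ (5 : ℕ) + (-1 : K) * Q ^ (10 : ℕ) * x ^ (5 : ℕ) * z ^ (3 : ℕ) + (-1 : K) * Q ^ (10 : ℕ) * x ^ (5 : ℕ) * z ^ (4 : ℕ) + (-1 : K) * Q ^ (11 : ℕ) * x ^ (4 : ℕ) * z ^ (4 : ℕ)) / (Q ^ (5 : ℕ) * x ^ (2 : ℕ) * z ^ (2 : ℕ) * dd Q x z 0 0 1 1 0 0 * dd Q x z 0 1 0 1 0 0 * dd Q x z 0 1 0 1 0 1 * dd Q x z 1 0 1 0 0 0 * dd Q x z 1 1 0 0 0 0 * dd Q x z 1 1 0 0 0 1) := by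
    rw [g0, g7]
    simp only [gA, gC, gP, gi]
    simp only [f0, f1, f2, f3, f4, f5]
    field_simp <;> ring
  have t1 : (((1)) * (gA Q x z) * ((x / Q) ^ (0 : ℤ)) * (p2 Q (Q ^ (-2 : ℤ) * x) (Q ^ (-1 : ℤ) * z) (Q ^ (1 : ℤ) * (z / x)) (Q ^ (2 : ℤ) * x⁻¹) (Q ^ (1 : ℤ) * z⁻¹) (Q ^ (-1 : ℤ) * (x / z))) + ((-Q ^ (-2 : ℤ) + Q ^ (-1 : ℤ))) * (gA Q x z) * ((x / Q) ^ (1 : ℤ)) * (p1 Q (Q ^ (-2 : ℤ) * x) (Q ^ (-1 : ℤ) * z) (Q ^ (1 : ℤ) * (z / x)) (Q ^ (2 : ℤ) * x⁻¹) (Q ^ (1 : ℤ) * z⁻¹) (Q ^ (-1 : ℤ) * (x / z))) : K) = ((1 : K) * x ^ (10 : ℕ) * z ^ (4 : ℕ) + (1 : K) * Q * x ^ (8 : ℕ) * z ^ (6 : ℕ) + (1 : K) * Q * x ^ (9 : ℕ) * z ^ (4 : ℕ) + (1 : K) * Q * x ^ (9 : ℕ) * z ^ (5 : ℕ) + (1 : K) * Q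 * x ^ (10 : ℕ) * z ^ (2 : ℕ) + (1 : K) * Q * x ^ (10 : ℕ) * z ^ (3 : ℕ) + (1 : K) * Q ^ (2 : ℕ) * x ^ (8 : ℕ) * z ^ (5 : ℕ) + (1 : K) * Q ^ (2 : ℕ) * x ^ (9 : ℕ) * z ^ (3 : ℕ) + (1 : K) * Q ^ (2 : ℕ) * x ^ (9 : ℕ) * z ^ (4 : ℕ) + (1 : K) * Q ^ (3 : ℕ) * x ^ (7 : ℕ) * z ^ (6 : ℕ) + (2 : K) * Q ^ (3 : ℕ) * x ^ (8 : ℕ) * z ^ (4 : ℕ) + (2 : K) * Q ^ (3 : ℕ) * x ^ (8 : ℕ) * z ^ (5 : ℕ) + (1 : K) * Q ^ (3 : ℕ) * x ^ (9 : ℕ) * z ^ (2 : ℕ) + (2 : K) * Q ^ (3 : ℕ) * x ^ (9 : ℕ) * z ^ (3 : ℕ) + (1 : K) * Q ^ (3 : ℕ) * x ^ (9 : ℕ) * z ^ (4 : ℕ) + (2 : K) * Q ^ (4 : ℕ) * x ^ (7 : ℕ) * z ^ (5 : ℕ) + (2 : K) * Q ^ (4 : ℕ) * x ^ (8 : ℕ) * z ^ (3 : ℕ) + (2 : K) * Q ^ (4 : ℕ) * x ^ (8 : ℕ) * z ^ (4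 : ℕ) + (1 : K) * Q ^ (5 : ℕ) * x ^ (6 : ℕ) * z ^ (6 : ℕ) + (2 : K) * Q ^ (5 : ℕ) * x ^ (7 : ℕ) * z ^ (4 : ℕ) + (1 : K) * Q ^ (5 : ℕ) * x ^ (7 : ℕ) * z ^ (5 : ℕ) + (1 : K) * Q ^ (5 : ℕ) * x ^ (8 : ℕ) * z ^ (2 : ℕ) + (1 : K) * Q ^ (5 : ℕ) * x ^ (8 : ℕ) * z ^ (3 : ℕ) + (1 : K) * Q ^ (5 : ℕ) * x ^ (8 : ℕ) * z ^ (4 : ℕ) + (1 : K) * Q ^ (6 : ℕ) * x ^ (6 : ℕ) * z ^ (5 : ℕ) + (1 : K) * Q ^ (6 : ℕ) * x ^ (7 : ℕ) * z ^ (3 : ℕ) + (1 : K) * Q ^ (6 : ℕ) * x ^ (7 : ℕ) * z ^ (4 : ℕ) + (1 : K) * Q ^ (7 : ℕ) * x ^ (6 : ℕ) * z ^ (4 : ℕ)) / (Q ^ (5 : ℕ) * x ^ (2 : ℕ) * z ^ (2 : ℕ) * dd Q x z 0 0 1 0 0 0 * dd Q x z 0 1 0 0 0 0 * dd Q x z 0 1 0 0 0 1 * dd Q x z 0 1 0 1 0 0 * dd Q x z 0 1 1 0 0 0 * dd Q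 x z 0 2 0 0 0 1) := by
    rw [g1, g8]
    simp only [gA, gC, gP, gi]
    simp only [f6, f7, f8, f9, f10, f11]
    field_simp <;> ring
  have t2 : (((1)) * (gA Q z (z / x)) * ((z / Q) ^ (0 : ℤ)) * (p2 Q (Q ^ (-1 : ℤ) * x) (Q ^ (-2 : ℤ) * z) (Q ^ (-1 : ℤ) * (z / x)) (Q ^ (1 : ℤ) * x⁻¹) (Q ^ (2 : ℤ) * z⁻¹) (Q ^ (1 : ℤ) * (x / z))) + ((-Q ^ (-2 : ℤ) + Q ^ (-1 : ℤ))) * (gA Q z (z / x)) * ((z / Q) ^ (1 : ℤ)) * (p1 Q (Q ^ (-1 : ℤ) * x) (Q ^ (-2 : ℤ) * z) (Q ^ (-1 : ℤ) * (z / x)) (Q ^ (1 : ℤ) * x⁻¹) (Q ^ (2 : ℤ) * z⁻¹) (Q ^ (1 : ℤ) * (x / z))) : K) = ((1 : K) * x ^ (4 : ℕ) * z ^ (10 : ℕ) + (1 : K) * Q * x ^ (2 : ℕ) * z ^ (10 : ℕ) + (1 : K) * Q * x ^ (3 : ℕ) * z ^ (10 : ℕ) + (1 : K) * Q *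 x ^ (4 : ℕ) * z ^ (9 : ℕ) + (1 : K) * Q * x ^ (5 : ℕ) * z ^ (9 : ℕ) + (1 : K) * Q * x ^ (6 : ℕ) * z ^ (8 : ℕ) + (1 : K) * Q ^ (2 : ℕ) * x ^ (3 : ℕ) * z ^ (9 : ℕ) + (1 : K) * Q ^ (2 : ℕ) * x ^ (4 : ℕ) * z ^ (9 : ℕ) + (1 : K) * Q ^ (2 : ℕ) * x ^ (5 : ℕ) * z ^ (8 : ℕ) + (1 : K) * Q ^ (3 : ℕ) * x ^ (2 : ℕ) * z ^ (9 : ℕ) + (2 : K) * Q ^ (3 : ℕ) * x ^ (3 : ℕ) * z ^ (9 : ℕ) + (2 : K) * Q ^ (3 : ℕ) * x ^ (4 : ℕ) * z ^ (8 : ℕ) + (1 : K) * Q ^ (3 : ℕ) * x ^ (4 : ℕ) * z ^ (9 : ℕ) + (2 : K) * Q ^ (3 : ℕ) * x ^ (5 : ℕ) * z ^ (8 : ℕ) + (1 : K) * Q ^ (3 : ℕ) * x ^ (6 : ℕ) * z ^ (7 : ℕ) + (2 : K) * Q ^ (4 : ℕ) * x ^ (3 : ℕ) * z ^ (8 : ℕ) + (2 : K) * Q ^ (4 : ℕ) * x ^ (4 : ℕ) * z ^ (8 : ℕ) + (2 : K)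 * Q ^ (4 : ℕ) * x ^ (5 : ℕ) * z ^ (7 : ℕ) + (1 : K) * Q ^ (5 : ℕ) * x ^ (2 : ℕ) * z ^ (8 : ℕ) + (1 : K) * Q ^ (5 : ℕ) * x ^ (3 : ℕ) * z ^ (8 : ℕ) + (2 : K) * Q ^ (5 : ℕ) * x ^ (4 : ℕ) * z ^ (7 : ℕ) + (1 : K) * Q ^ (5 : ℕ) * x ^ (4 : ℕ) * z ^ (8 : ℕ) + (1 : K) * Q ^ (5 : ℕ) * x ^ (5 : ℕ) * z ^ (7 : ℕ) + (1 : K) * Q ^ (5 : ℕ) * x ^ (6 : ℕ) * z ^ (6 : ℕ) + (1 : K) * Q ^ (6 : ℕ) * x ^ (3 : ℕ) * z ^ (7 : ℕ) + (1 : K) * Q ^ (6 : ℕ) * x ^ (4 : ℕ) * z ^ (7 : ℕ) + (1 : K) * Q ^ (6 : ℕ) * x ^ (5 : ℕ) * z ^ (6 : ℕ) + (1 : K) * Q ^ (7 : ℕ) * x ^ (4 : ℕ) * z ^ (6 : ℕ)) / (Q ^ (5 : ℕ) * x ^ (2 : ℕ) * z ^ (2 : ℕ) * dd Q x z 0 0 1 0 0 0 * dd Q x z 0 0 1 1 0 0 * dd Q x z 0 1 0 0 0 0 * dd Q x z 0 1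 0 0 0 1 * dd Q x z 0 1 0 0 0 2 * dd Q x z 0 1 1 0 0 0) := by
    rw [g2, g9]
    simp only [gA, gC, gP, gi]
    simp only [f9, f12, f13, f14, f15, f16]
    field_simp <;> ring
  have t3 : (((1)) * (gA Q (z / x) x⁻¹) * (((z / x) / Q) ^ (0 : ℤ)) * (p2 Q (Q ^ (1 : ℤ) * x) (Q ^ (-1 : ℤ) * z) (Q ^ (-2 : ℤ) * (z / x)) (Q ^ (-1 : ℤ) * x⁻¹) (Q ^ (1 : ℤ) * z⁻¹) (Q ^ (2 : ℤ) * (x / z))) + ((-Q ^ (-2 : ℤ) + Q ^ (-1 : ℤ))) * (gA Q (z / x) x⁻¹) * (((z / x) / Q) ^ (1 : ℤ)) * (p1 Q (Q ^ (1 : ℤ) * x) (Q ^ (-1 : ℤ) * z) (Q ^ (-2 : ℤ) * (z / x)) (Q ^ (-1 : ℤ) * x⁻¹) (Q ^ (1 : ℤ) * z⁻¹) (Q ^ (2 : ℤ) * (x / z))) : K) = ((-1 : K) * z ^ (10 : ℕ) + (-1 : K) * Q * z ^ (8 : ℕ) + (-1 : K) * Q * z ^ (9 : ℕ)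 + (-1 : K) * Q * x * z ^ (9 : ℕ) + (-1 : K) * Q * x * z ^ (10 : ℕ) + (-1 : K) * Q * x ^ (2 : ℕ) * z ^ (10 : ℕ) + (-1 : K) * Q ^ (2 : ℕ) * x * z ^ (8 : ℕ) + (-1 : K) * Q ^ (2 : ℕ) * x * z ^ (9 : ℕ) + (-1 : K) * Q ^ (2 : ℕ) * x ^ (2 : ℕ) * z ^ (9 : ℕ) + (-1 : K) * Q ^ (3 : ℕ) * x * z ^ (7 : ℕ) + (-2 : K) * Q ^ (3 : ℕ) * x * z ^ (8 : ℕ) + (-1 : K) * Q ^ (3 : ℕ) * x * z ^ (9 : ℕ) + (-2 : K) * Q ^ (3 : ℕ) * x ^ (2 : ℕ) * z ^ (8 : ℕ) + (-2 : K) * Q ^ (3 : ℕ) * x ^ (2 : ℕ) * z ^ (9 : ℕ) + (-1 : K) * Q ^ (3 : ℕ) * x ^ (3 : ℕ) * z ^ (9 : ℕ) + (-2 : K) * Q ^ (4 : ℕ) * x ^ (2 : ℕ) * z ^ (7 : ℕ) + (-2 : K) * Q ^ (4 : ℕ) * x ^ (2 : ℕ) * z ^ (8 : ℕ) + (-2 : K) * Q ^ (4 : ℕ) * x ^ (3 : ℕ) * z ^ (8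 : ℕ) + (-1 : K) * Q ^ (5 : ℕ) * x ^ (2 : ℕ) * z ^ (6 : ℕ) + (-1 : K) * Q ^ (5 : ℕ) * x ^ (2 : ℕ) * z ^ (7 : ℕ) + (-1 : K) * Q ^ (5 : ℕ) * x ^ (2 : ℕ) * z ^ (8 : ℕ) + (-2 : K) * Q ^ (5 : ℕ) * x ^ (3 : ℕ) * z ^ (7 : ℕ) + (-1 : K) * Q ^ (5 : ℕ) * x ^ (3 : ℕ) * z ^ (8 : ℕ) + (-1 : K) * Q ^ (5 : ℕ) * x ^ (4 : ℕ) * z ^ (8 : ℕ) + (-1 : K) * Q ^ (6 : ℕ) * x ^ (3 : ℕ) * z ^ (6 : ℕ) + (-1 : K) * Q ^ (6 : ℕ) * x ^ (3 : ℕ) * z ^ (7 : ℕ) + (-1 : K) * Q ^ (6 : ℕ) * x ^ (4 : ℕ) * z ^ (7 : ℕ) + (-1 : K) * Q ^ (7 : ℕ) * x ^ (4 : ℕ) * z ^ (6 : ℕ)) / (Q ^ (5 : ℕ) * x ^ (2 : ℕ) * z ^ (2 : ℕ) * dd Q x z 0 0 1 0 0 0 * dd Q x z 0 1 0 0 0 0 * dd Q x z 0 1 0 0 0 1 * dd Q x z 0 1 0 0 0 2 * dd Q x z 0 2 0 0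 0 1 * dd Q x z 1 1 0 0 0 1) := by
    rw [g3, g10]
    simp only [gA, gC, gP, gi]
    simp only [f14, f17, f18, f19, f20, f21]
    field_simp <;> ring
  have t4 : (((1)) * (gA Q x⁻¹ z⁻¹) * ((x⁻¹ / Q) ^ (0 : ℤ)) * (p2 Q (Q ^ (2 : ℤ) * x) (Q ^ (1 : ℤ) * z) (Q ^ (-1 : ℤ) * (z / x)) (Q ^ (-2 : ℤ) * x⁻¹) (Q ^ (-1 : ℤ) * z⁻¹) (Q ^ (1 : ℤ) * (x / z))) + ((-Q ^ (-2 : ℤ) + Q ^ (-1 : ℤ))) * (gA Q x⁻¹ z⁻¹) * ((x⁻¹ / Q) ^ (1 : ℤ)) * (p1 Q (Q ^ (2 : ℤ) * x) (Q ^ (1 : ℤ) * z) (Q ^ (-1 : ℤ) * (z / x)) (Q ^ (-2 : ℤ) * x⁻¹) (Q ^ (-1 : ℤ) * z⁻¹) (Q ^ (1 : ℤ) * (x / z))) : K) = ((1 : K) * z ^ (4 : ℕ) + (1 : K) * Q * z ^ (5 : ℕ) + (1 : K) * Q * z ^ (6 : ℕ) + (1 : K) * Q * x * z ^ (3 : ℕ) + (1 : K) * Q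 * x * z ^ (4 : ℕ) + (1 : K) * Q * x ^ (2 : ℕ) * z ^ (2 : ℕ) + (1 : K) * Q ^ (2 : ℕ) * x * z ^ (4 : ℕ) + (1 : K) * Q ^ (2 : ℕ) * x * z ^ (5 : ℕ) + (1 : K) * Q ^ (2 : ℕ) * x ^ (2 : ℕ) * z ^ (3 : ℕ) + (1 : K) * Q ^ (3 : ℕ) * x * z ^ (4 : ℕ) + (2 : K) * Q ^ (3 : ℕ) * x * z ^ (5 : ℕ) + (1 : K) * Q ^ (3 : ℕ) * x * z ^ (6 : ℕ) + (2 : K) * Q ^ (3 : ℕ) * x ^ (2 : ℕ) * z ^ (3 : ℕ) + (2 : K) * Q ^ (3 : ℕ) * x ^ (2 : ℕ) * z ^ (4 : ℕ) + (1 : K) * Q ^ (3 : ℕ) * x ^ (3 : ℕ) * z ^ (2 : ℕ) + (2 : K) * Q ^ (4 : ℕ) * x ^ (2 : ℕ) * z ^ (4 : ℕ) + (2 : K) * Q ^ (4 : ℕ) * x ^ (2 : ℕ) * z ^ (5 : ℕ) + (2 : K) * Q ^ (4 : ℕ) * x ^ (3 : ℕ) * z ^ (3 : ℕ) + (1 : K) * Q ^ (5 : ℕ) * x ^ (2 : ℕ) * z ^ (4 : ℕ) + (1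 : K) * Q ^ (5 : ℕ) * x ^ (2 : ℕ) * z ^ (5 : ℕ) + (1 : K) * Q ^ (5 : ℕ) * x ^ (2 : ℕ) * z ^ (6 : ℕ) + (1 : K) * Q ^ (5 : ℕ) * x ^ (3 : ℕ) * z ^ (3 : ℕ) + (2 : K) * Q ^ (5 : ℕ) * x ^ (3 : ℕ) * z ^ (4 : ℕ) + (1 : K) * Q ^ (5 : ℕ) * x ^ (4 : ℕ) * z ^ (2 : ℕ) + (1 : K) * Q ^ (6 : ℕ) * x ^ (3 : ℕ) * z ^ (4 : ℕ) + (1 : K) * Q ^ (6 : ℕ) * x ^ (3 : ℕ) * z ^ (5 : ℕ) + (1 : K) * Q ^ (6 : ℕ) * x ^ (4 : ℕ) * z ^ (3 : ℕ) + (1 : K) * Q ^ (7 : ℕ) * x ^ (4 : ℕ) * z ^ (4 : ℕ)) / (Q ^ (5 : ℕ) * x ^ (2 : ℕ) * z ^ (2 : ℕ) * dd Q x z 0 0 1 0 0 0 * dd Q x z 0 1 0 0 0 0 * dd Q x z 0 1 0 0 0 1 * dd Q x z 0 1 1 0 0 0 * dd Q x z 0 2 0 0 0 1 * dd Q x z 1 1 0 0 0 0) := by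
    rw [g4, g11]
    simp only [gA, gC, gP, gi]
    simp only [f19, f22, f23, f24, f25, f26]
    field_simp <;> ring
  have t5 : (((1)) * (gA Q z⁻¹ (x / z)) * ((z⁻¹ / Q) ^ (0 : ℤ)) * (p2 Q (Q ^ (1 : ℤ) * x) (Q ^ (2 : ℤ) * z) (Q ^ (1 : ℤ) * (z / x)) (Q ^ (-1 : ℤ) * x⁻¹) (Q ^ (-2 : ℤ) * z⁻¹) (Q ^ (-1 : ℤ) * (x / z))) + ((-Q ^ (-2 : ℤ) + Q ^ (-1 : ℤ))) * (gA Q z⁻¹ (x / z)) * ((z⁻¹ / Q) ^ (1 : ℤ)) * (p1 Q (Q ^ (1 : ℤ) * x) (Q ^ (2 : ℤ) * z) (Q ^ (1 : ℤ) * (z / x)) (Q ^ (-1 : ℤ) * x⁻¹) (Q ^ (-2 : ℤ) * z⁻¹) (Q ^ (-1 : ℤ) * (x / z))) : K) = ((1 : K) * x ^ (4 : ℕ) + (1 : K) * Q * x ^ (2 : ℕ) * z ^ (2 : ℕ) + (1 : K) * Q * x ^ (3 : ℕ) * z + (1 : K) * Q * x ^ (4 : ℕ) * z + (1 : K) * Q * x ^ (5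 : ℕ) + (1 : K) * Q * x ^ (6 : ℕ) + (1 : K) * Q ^ (2 : ℕ) * x ^ (3 : ℕ) * z ^ (2 : ℕ) + (1 : K) * Q ^ (2 : ℕ) * x ^ (4 : ℕ) * z + (1 : K) * Q ^ (2 : ℕ) * x ^ (5 : ℕ) * z + (1 : K) * Q ^ (3 : ℕ) * x ^ (2 : ℕ) * z ^ (3 : ℕ) + (2 : K) * Q ^ (3 : ℕ) * x ^ (3 : ℕ) * z ^ (2 : ℕ) + (1 : K) * Q ^ (3 : ℕ) * x ^ (4 : ℕ) * z + (2 : K) * Q ^ (3 : ℕ) * x ^ (4 : ℕ) * z ^ (2 : ℕ) + (2 : K) * Q ^ (3 : ℕ) * x ^ (5 : ℕ) * z + (1 : K) * Q ^ (3 : ℕ) * x ^ (6 : ℕ) * z + (2 : K) * Q ^ (4 : ℕ) * x ^ (3 : ℕ) * z ^ (3 : ℕ) + (2 : K) * Q ^ (4 : ℕ) * x ^ (4 : ℕ) * z ^ (2 : ℕ) + (2 : K) * Q ^ (4 : ℕ) * x ^ (5 : ℕ) * z ^ (2 : ℕ) + (1 : K) * Q ^ (5 : ℕ) * x ^ (2 : ℕ) * z ^ (4 : ℕ) + (1 : K) * Q ^ (5 : ℕ) * x ^ (3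 : ℕ) * z ^ (3 : ℕ) + (1 : K) * Q ^ (5 : ℕ) * x ^ (4 : ℕ) * z ^ (2 : ℕ) + (2 : K) * Q ^ (5 : ℕ) * x ^ (4 : ℕ) * z ^ (3 : ℕ) + (1 : K) * Q ^ (5 : ℕ) * x ^ (5 : ℕ) * z ^ (2 : ℕ) + (1 : K) * Q ^ (5 : ℕ) * x ^ (6 : ℕ) * z ^ (2 : ℕ) + (1 : K) * Q ^ (6 : ℕ) * x ^ (3 : ℕ) * z ^ (4 : ℕ) + (1 : K) * Q ^ (6 : ℕ) * x ^ (4 : ℕ) * z ^ (3 : ℕ) + (1 : K) * Q ^ (6 : ℕ) * x ^ (5 : ℕ) * z ^ (3 : ℕ) + (1 : K) * Q ^ (7 : ℕ) * x ^ (4 : ℕ) * z ^ (4 : ℕ)) / (Q ^ (5 : ℕ) * x ^ (2 : ℕ) * z ^ (2 : ℕ) * dd Q x z 0 0 1 0 0 0 * dd Q x z 0 1 0 0 0 0 * dd Q x z 0 1 0 0 0 1 * dd Q x z 0 1 0 0 0 2 * dd Q x z 0 1 1 0 0 0 * dd Q x z 1 0 1 0 0 0) := by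
    rw [g5, g12]
    simp only [gA, gC, gP, gi]
    simp only [f24, f27, f28, f29, f30, f31]
    field_simp <;> ring
  have t6 : (((1)) * (gA Q (x / z) x) * (((x / z) / Q) ^ (0 : ℤ)) * (p2 Q (Q ^ (-1 : ℤ) * x) (Q ^ (1 : ℤ) * z) (Q ^ (2 : ℤ) * (z / x)) (Q ^ (1 : ℤ) * x⁻¹) (Q ^ (-1 : ℤ) * z⁻¹) (Q ^ (-2 : ℤ) * (x / z))) + ((-Q ^ (-2 : ℤ) + Q ^ (-1 : ℤ))) * (gA Q (x / z) x) * (((x / z) / Q) ^ (1 : ℤ)) * (p1 Q (Q ^ (-1 : ℤ) * x) (Q ^ (1 : ℤ) * z) (Q ^ (2 : ℤ) * (z / x)) (Q ^ (1 : ℤ) * x⁻¹) (Q ^ (-1 : ℤ) * z⁻¹) (Q ^ (-2 : ℤ) * (x / z))) : K) = ((-1 : K) * x ^ (10 : ℕ) + (-1 : K) * Q * x ^ (8 : ℕ) + (-1 : K) * Q * x ^ (9 : ℕ) + (-1 : K) * Q * x ^ (9 : ℕ) * z + (-1 : K) * Q * x ^ (10 : ℕ)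 * z + (-1 : K) * Q * x ^ (10 : ℕ) * z ^ (2 : ℕ) + (-1 : K) * Q ^ (2 : ℕ) * x ^ (8 : ℕ) * z + (-1 : K) * Q ^ (2 : ℕ) * x ^ (9 : ℕ) * z + (-1 : K) * Q ^ (2 : ℕ) * x ^ (9 : ℕ) * z ^ (2 : ℕ) + (-1 : K) * Q ^ (3 : ℕ) * x ^ (7 : ℕ) * z + (-2 : K) * Q ^ (3 : ℕ) * x ^ (8 : ℕ) * z + (-2 : K) * Q ^ (3 : ℕ) * x ^ (8 : ℕ) * z ^ (2 : ℕ) + (-1 : K) * Q ^ (3 : ℕ) * x ^ (9 : ℕ) * z + (-2 : K) * Q ^ (3 : ℕ) * x ^ (9 : ℕ) * z ^ (2 : ℕ) + (-1 : K) * Q ^ (3 : ℕ) * x ^ (9 : ℕ) * z ^ (3 : ℕ) + (-2 : K) * Q ^ (4 : ℕ) * x ^ (7 : ℕ) * z ^ (2 : ℕ) + (-2 : K) * Q ^ (4 : ℕ) * x ^ (8 : ℕ) * z ^ (2 : ℕ) + (-2 : K) * Q ^ (4 : ℕ) * x ^ (8 : ℕ) * z ^ (3 : ℕ) + (-1 : K) * Q ^ (5 : ℕ) * x ^ (6 : ℕ) * z ^ (2 : ℕ) + (-1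 : K) * Q ^ (5 : ℕ) * x ^ (7 : ℕ) * z ^ (2 : ℕ) + (-2 : K) * Q ^ (5 : ℕ) * x ^ (7 : ℕ) * z ^ (3 : ℕ) + (-1 : K) * Q ^ (5 : ℕ) * x ^ (8 : ℕ) * z ^ (2 : ℕ) + (-1 : K) * Q ^ (5 : ℕ) * x ^ (8 : ℕ) * z ^ (3 : ℕ) + (-1 : K) * Q ^ (5 : ℕ) * x ^ (8 : ℕ) * z ^ (4 : ℕ) + (-1 : K) * Q ^ (6 : ℕ) * x ^ (6 : ℕ) * z ^ (3 : ℕ) + (-1 : K) * Q ^ (6 : ℕ) * x ^ (7 : ℕ) * z ^ (3 : ℕ) + (-1 : K) * Q ^ (6 : ℕ) * x ^ (7 : ℕ) * z ^ (4 : ℕ) + (-1 : K) * Q ^ (7 : ℕ) * x ^ (6 : ℕ) * z ^ (4 : ℕ)) / (Q ^ (5 : ℕ) * x ^ (2 : ℕ) * z ^ (2 : ℕ) * dd Q x z 0 0 1 0 0 0 * dd Q x z 0 1 0 0 0 0 * dd Q x z 0 1 0 0 0 1 * dd Q x z 0 1 0 0 0 2 * dd Q x z 0 1 0 1 0 1 * dd Q x z 0 2 0 0 0 1) := by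
    rw [g6, g13]
    simp only [gA, gC, gP, gi]
    simp only [f7, f29, f32, f33, f34, f35]
    field_simp <;> ring
  have t7 : (((-Q ^ (-3 : ℤ))) * (p2 Q x z (z / x) x⁻¹ z⁻¹ (x / z)) : K) = ((-1 : K) * z ^ (2 : ℕ) + (-1 : K) * z ^ (3 : ℕ) + (-1 : K) * z ^ (4 : ℕ) + (-1 : K) * x * z + (-2 : K) * x * z ^ (2 : ℕ) + (-2 : K) * x * z ^ (3 : ℕ) + (-1 : K) * x * z ^ (4 : ℕ) + (-1 : K) * x ^ (2 : ℕ) + (-2 : K) * x ^ (2 : ℕ) * z + (-3 : K) * x ^ (2 : ℕ) * z ^ (2 : ℕ) + (-2 : K) * x ^ (2 : ℕ) * z ^ (3 : ℕ) + (-1 : K) * x ^ (2 : ℕ) * z ^ (4 : ℕ) + (-1 : K) * x ^ (3 : ℕ) + (-2 : K) * x ^ (3 : ℕ) * z + (-2 : K) * x ^ (3 : ℕ) * z ^ (2 : ℕ) + (-1 : K) * x ^ (3 : ℕ) * z ^ (3 : ℕ) + (-1 : K) * x ^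 (4 : ℕ) + (-1 : K) * x ^ (4 : ℕ) * z + (-1 : K) * x ^ (4 : ℕ) * z ^ (2 : ℕ) + (-1 : K) * Q * x * z ^ (2 : ℕ) + (-1 : K) * Q * x * z ^ (3 : ℕ) + (-1 : K) * Q * x ^ (2 : ℕ) * z + (-1 : K) * Q * x ^ (2 : ℕ) * z ^ (2 : ℕ) + (-1 : K) * Q * x ^ (2 : ℕ) * z ^ (3 : ℕ) + (-1 : K) * Q * x ^ (3 : ℕ) * z + (-1 : K) * Q * x ^ (3 : ℕ) * z ^ (2 : ℕ) + (-1 : K) * Q ^ (2 : ℕ) * x ^ (2 : ℕ) * z ^ (2 : ℕ)) / (Q ^ (5 : ℕ) * x ^ (2 : ℕ) * z ^ (2 : ℕ)) := by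
    rw [g0]
    field_simp <;> ring
  have key : ((1 : K) * Q ^ (7 : ℕ) * x ^ (3 : ℕ) * z ^ (4 : ℕ) + (1 : K) * Q ^ (7 : ℕ) * x ^ (3 : ℕ) * z ^ (5 : ℕ) + (1 : K) * Q ^ (7 : ℕ) * x ^ (4 : ℕ) * z ^ (3 : ℕ) + (1 : K) * Q ^ (7 : ℕ) * x ^ (4 : ℕ) * z ^ (4 : ℕ) + (1 : K) * Q ^ (7 : ℕ) * x ^ (4 : ℕ) * z ^ (5 : ℕ) + (1 : K) * Q ^ (7 : ℕ) * x ^ (5 : ℕ) * z ^ (3 : ℕ) + (1 : K) * Q ^ (7 : ℕ) * x ^ (5 : ℕ) * z ^ (4 : ℕ) + (-1 : K) * Q ^ (8 : ℕ) * x ^ (2 : ℕ) * z ^ (4 : ℕ) + (-1 : K) * Q ^ (8 : ℕ) * x ^ (2 : ℕ) * z ^ (5 : ℕ) + (-1 : K) * Q ^ (8 : ℕ) * x ^ (2 : ℕ) * z ^ (6 : ℕ) + (-1 : K) * Q ^ (8 : ℕ) * x ^ (3 : ℕ) * z ^ (3 : ℕ) + (-2 : K) * Q ^ (8 : ℕ) * x ^ (3 : ℕ) * z ^ (4 : ℕ) + (-2 : K) *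 Q ^ (8 : ℕ) * x ^ (3 : ℕ) * z ^ (5 : ℕ) + (-1 : K) * Q ^ (8 : ℕ) * x ^ (3 : ℕ) * z ^ (6 : ℕ) + (-1 : K) * Q ^ (8 : ℕ) * x ^ (4 : ℕ) * z ^ (2 : ℕ) + (-2 : K) * Q ^ (8 : ℕ) * x ^ (4 : ℕ) * z ^ (3 : ℕ) + (-2 : K) * Q ^ (8 : ℕ) * x ^ (4 : ℕ) * z ^ (4 : ℕ) + (-2 : K) * Q ^ (8 : ℕ) * x ^ (4 : ℕ) * z ^ (5 : ℕ) + (-1 : K) * Q ^ (8 : ℕ) * x ^ (4 : ℕ) * z ^ (6 : ℕ) + (-1 : K) * Q ^ (8 : ℕ) * x ^ (5 : ℕ) * z ^ (2 : ℕ) + (-2 : K) * Q ^ (8 : ℕ) * x ^ (5 : ℕ) * z ^ (3 : ℕ) + (-2 : K) * Q ^ (8 : ℕ) * x ^ (5 : ℕ) * z ^ (4 : ℕ) + (-1 : K) * Q ^ (8 : ℕ) * x ^ (5 : ℕ) * z ^ (5 : ℕ) + (-1 : K) * Q ^ (8 : ℕ) * x ^ (6 : ℕ) * z ^ (2 : ℕ) + (-1 : K) * Q ^ (8 : ℕ) * x ^ (6 : ℕ) * z ^ (3 : ℕ) + (-1 : K) * Q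 ^ (8 : ℕ) * x ^ (6 : ℕ) * z ^ (4 : ℕ) + (-1 : K) * Q ^ (9 : ℕ) * x ^ (2 : ℕ) * z ^ (4 : ℕ) + (-1 : K) * Q ^ (9 : ℕ) * x ^ (2 : ℕ) * z ^ (5 : ℕ) + (-1 : K) * Q ^ (9 : ℕ) * x ^ (2 : ℕ) * z ^ (6 : ℕ) + (-1 : K) * Q ^ (9 : ℕ) * x ^ (3 : ℕ) * z ^ (3 : ℕ) + (-4 : K) * Q ^ (9 : ℕ) * x ^ (3 : ℕ) * z ^ (4 : ℕ) + (-4 : K) * Q ^ (9 : ℕ) * x ^ (3 : ℕ) * z ^ (5 : ℕ) + (-1 : K) * Q ^ (9 : ℕ) * x ^ (3 : ℕ) * z ^ (6 : ℕ) + (-1 : K) * Q ^ (9 : ℕ) * x ^ (4 : ℕ) * z ^ (2 : ℕ) + (-4 : K) * Q ^ (9 : ℕ) * x ^ (4 : ℕ) * z ^ (3 : ℕ) + (-5 : K) * Q ^ (9 : ℕ) * x ^ (4 : ℕ) * z ^ (4 : ℕ) + (-4 : K) * Q ^ (9 : ℕ) * x ^ (4 : ℕ) * z ^ (5 : ℕ) + (-1 : K) * Q ^ (9 : ℕ) * x ^ (4 : ℕ) * z ^ (6 : ℕ) + (-1 : K) * Q ^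 (9 : ℕ) * x ^ (5 : ℕ) * z ^ (2 : ℕ) + (-4 : K) * Q ^ (9 : ℕ) * x ^ (5 : ℕ) * z ^ (3 : ℕ) + (-4 : K) * Q ^ (9 : ℕ) * x ^ (5 : ℕ) * z ^ (4 : ℕ) + (-1 : K) * Q ^ (9 : ℕ) * x ^ (5 : ℕ) * z ^ (5 : ℕ) + (-1 : K) * Q ^ (9 : ℕ) * x ^ (6 : ℕ) * z ^ (2 : ℕ) + (-1 : K) * Q ^ (9 : ℕ) * x ^ (6 : ℕ) * z ^ (3 : ℕ) + (-1 : K) * Q ^ (9 : ℕ) * x ^ (6 : ℕ) * z ^ (4 : ℕ) + (-1 : K) * Q ^ (10 : ℕ) * x ^ (3 : ℕ) * z ^ (4 : ℕ) + (-1 : K) * Q ^ (10 : ℕ) * x ^ (3 : ℕ) * z ^ (5 : ℕ) + (-1 : K) * Q ^ (10 : ℕ) * x ^ (4 : ℕ) * z ^ (3 : ℕ) + (-3 : K) * Q ^ (10 : ℕ) * x ^ (4 : ℕ) * z ^ (4 : ℕ) + (-1 : K) * Q ^ (10 : ℕ) * x ^ (4 : ℕ) * z ^ (5 : ℕ) + (-1 : K) * Q ^ (10 : ℕ) * x ^ (5 : ℕ) * z ^ (3 : ℕ) + (-1 : K) *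 Q ^ (10 : ℕ) * x ^ (5 : ℕ) * z ^ (4 : ℕ) + (-1 : K) * Q ^ (11 : ℕ) * x ^ (4 : ℕ) * z ^ (4 : ℕ)) * dd Q x z 0 0 1 0 0 0 * dd Q x z 0 1 0 0 0 0 * dd Q x z 0 1 0 0 0 1 * dd Q x z 0 1 1 0 0 0 * dd Q x z 0 2 0 0 0 1 * dd Q x z 0 1 0 0 0 2 +
      ((1 : K) * x ^ (10 : ℕ) * z ^ (4 : ℕ) + (1 : K) * Q * x ^ (8 : ℕ) * z ^ (6 : ℕ) + (1 : K) * Q * x ^ (9 : ℕ) * z ^ (4 : ℕ) + (1 : K) * Q * x ^ (9 : ℕ) * z ^ (5 : ℕ) + (1 : K) * Q * x ^ (10 : ℕ) * z ^ (2 : ℕ) + (1 : K) * Q * x ^ (10 : ℕ) * z ^ (3 : ℕ) + (1 : K) * Q ^ (2 : ℕ) * x ^ (8 : ℕ) * z ^ (5 : ℕ) + (1 : K) * Q ^ (2 : ℕ) * x ^ (9 : ℕ) * z ^ (3 : ℕ) + (1 : K) * Q ^ (2 : ℕ) * x ^ (9 : ℕ) * z ^ (4 : ℕ) + (1 : K) * Q ^ (3 : ℕ) * x ^ (7 : ℕ) * z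 ^ (6 : ℕ) + (2 : K) * Q ^ (3 : ℕ) * x ^ (8 : ℕ) * z ^ (4 : ℕ) + (2 : K) * Q ^ (3 : ℕ) * x ^ (8 : ℕ) * z ^ (5 : ℕ) + (1 : K) * Q ^ (3 : ℕ) * x ^ (9 : ℕ) * z ^ (2 : ℕ) + (2 : K) * Q ^ (3 : ℕ) * x ^ (9 : ℕ) * z ^ (3 : ℕ) + (1 : K) * Q ^ (3 : ℕ) * x ^ (9 : ℕ) * z ^ (4 : ℕ) + (2 : K) * Q ^ (4 : ℕ) * x ^ (7 : ℕ) * z ^ (5 : ℕ) + (2 : K) * Q ^ (4 : ℕ) * x ^ (8 : ℕ) * z ^ (3 : ℕ) + (2 : K) * Q ^ (4 : ℕ) * x ^ (8 : ℕ) * z ^ (4 : ℕ) + (1 : K) * Q ^ (5 : ℕ) * x ^ (6 : ℕ) * z ^ (6 : ℕ) + (2 : K) * Q ^ (5 : ℕ) * x ^ (7 : ℕ) * z ^ (4 : ℕ) + (1 : K) * Q ^ (5 : ℕ) * x ^ (7 : ℕ) * z ^ (5 : ℕ) + (1 : K) * Q ^ (5 : ℕ) * x ^ (8 : ℕ) * z ^ (2 : ℕ) + (1 : K) * Q ^ (5 : ℕ) * x ^ (8 : ℕ) * z ^ (3 : ℕ) + (1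 : K) * Q ^ (5 : ℕ) * x ^ (8 : ℕ) * z ^ (4 : ℕ) + (1 : K) * Q ^ (6 : ℕ) * x ^ (6 : ℕ) * z ^ (5 : ℕ) + (1 : K) * Q ^ (6 : ℕ) * x ^ (7 : ℕ) * z ^ (3 : ℕ) + (1 : K) * Q ^ (6 : ℕ) * x ^ (7 : ℕ) * z ^ (4 : ℕ) + (1 : K) * Q ^ (7 : ℕ) * x ^ (6 : ℕ) * z ^ (4 : ℕ)) * dd Q x z 0 0 1 1 0 0 * dd Q x z 0 1 0 1 0 1 * dd Q x z 1 0 1 0 0 0 * dd Q x z 1 1 0 0 0 0 * dd Q x z 1 1 0 0 0 1 * dd Q x z 0 1 0 0 0 2 +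
      ((1 : K) * x ^ (4 : ℕ) * z ^ (10 : ℕ) + (1 : K) * Q * x ^ (2 : ℕ) * z ^ (10 : ℕ) + (1 : K) * Q * x ^ (3 : ℕ) * z ^ (10 : ℕ) + (1 : K) * Q * x ^ (4 : ℕ) * z ^ (9 : ℕ) + (1 : K) * Q * x ^ (5 : ℕ) * z ^ (9 : ℕ) + (1 : K) * Q * x ^ (6 : ℕ) * z ^ (8 : ℕ) + (1 : K) * Q ^ (2 : ℕ) * x ^ (3 : ℕ) * z ^ (9 : ℕ) + (1 : K) * Q ^ (2 : ℕ) * x ^ (4 : ℕ) * z ^ (9 : ℕ) + (1 : K) * Q ^ (2 : ℕ) * x ^ (5 : ℕ) * z ^ (8 : ℕ) + (1 : K) * Q ^ (3 : ℕ) * x ^ (2 : ℕ) * z ^ (9 : ℕ) + (2 : K) * Q ^ (3 : ℕ) * x ^ (3 : ℕ) * z ^ (9 : ℕ) + (2 : K) * Q ^ (3 : ℕ) * x ^ (4 : ℕ) * z ^ (8 : ℕ) + (1 : K) * Q ^ (3 : ℕ) * x ^ (4 : ℕ) * z ^ (9 : ℕ) + (2 : K) * Q ^ (3 : ℕ) * x ^ (5 : ℕ) * z ^ (8 : ℕ) + (1 : K) * Q ^ (3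 : ℕ) * x ^ (6 : ℕ) * z ^ (7 : ℕ) + (2 : K) * Q ^ (4 : ℕ) * x ^ (3 : ℕ) * z ^ (8 : ℕ) + (2 : K) * Q ^ (4 : ℕ) * x ^ (4 : ℕ) * z ^ (8 : ℕ) + (2 : K) * Q ^ (4 : ℕ) * x ^ (5 : ℕ) * z ^ (7 : ℕ) + (1 : K) * Q ^ (5 : ℕ) * x ^ (2 : ℕ) * z ^ (8 : ℕ) + (1 : K) * Q ^ (5 : ℕ) * x ^ (3 : ℕ) * z ^ (8 : ℕ) + (2 : K) * Q ^ (5 : ℕ) * x ^ (4 : ℕ) * z ^ (7 : ℕ) + (1 : K) * Q ^ (5 : ℕ) * x ^ (4 : ℕ) * z ^ (8 : ℕ) + (1 : K) * Q ^ (5 : ℕ) * x ^ (5 : ℕ) * z ^ (7 : ℕ) + (1 : K) * Q ^ (5 : ℕ) * x ^ (6 : ℕ) * z ^ (6 : ℕ) + (1 : K) * Q ^ (6 : ℕ) * x ^ (3 : ℕ) * z ^ (7 : ℕ) + (1 : K) * Q ^ (6 : ℕ) * x ^ (4 : ℕ) * z ^ (7 : ℕ) + (1 : K) * Q ^ (6 : ℕ) * x ^ (5 : ℕ) * z ^ (6 : ℕ) + (1 : K) * Q ^ (7 : ℕ) * x ^ (4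 : ℕ) * z ^ (6 : ℕ)) * dd Q x z 0 1 0 1 0 0 * dd Q x z 0 1 0 1 0 1 * dd Q x z 1 0 1 0 0 0 * dd Q x z 1 1 0 0 0 0 * dd Q x z 1 1 0 0 0 1 * dd Q x z 0 2 0 0 0 1 +
      ((-1 : K) * z ^ (10 : ℕ) + (-1 : K) * Q * z ^ (8 : ℕ) + (-1 : K) * Q * z ^ (9 : ℕ) + (-1 : K) * Q * x * z ^ (9 : ℕ) + (-1 : K) * Q * x * z ^ (10 : ℕ) + (-1 : K) * Q * x ^ (2 : ℕ) * z ^ (10 : ℕ) + (-1 : K) * Q ^ (2 : ℕ) * x * z ^ (8 : ℕ) + (-1 : K) * Q ^ (2 : ℕ) * x * z ^ (9 : ℕ) + (-1 : K) * Q ^ (2 : ℕ) * x ^ (2 : ℕ) * z ^ (9 : ℕ) + (-1 : K) * Q ^ (3 : ℕ) * x * z ^ (7 : ℕ) + (-2 : K) * Q ^ (3 : ℕ) * x * z ^ (8 : ℕ) + (-1 : K) * Q ^ (3 : ℕ) * x * z ^ (9 : ℕ) + (-2 : K) * Q ^ (3 : ℕ) * x ^ (2 : ℕ) * z ^ (8 : ℕ) + (-2 : K)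 * Q ^ (3 : ℕ) * x ^ (2 : ℕ) * z ^ (9 : ℕ) + (-1 : K) * Q ^ (3 : ℕ) * x ^ (3 : ℕ) * z ^ (9 : ℕ) + (-2 : K) * Q ^ (4 : ℕ) * x ^ (2 : ℕ) * z ^ (7 : ℕ) + (-2 : K) * Q ^ (4 : ℕ) * x ^ (2 : ℕ) * z ^ (8 : ℕ) + (-2 : K) * Q ^ (4 : ℕ) * x ^ (3 : ℕ) * z ^ (8 : ℕ) + (-1 : K) * Q ^ (5 : ℕ) * x ^ (2 : ℕ) * z ^ (6 : ℕ) + (-1 : K) * Q ^ (5 : ℕ) * x ^ (2 : ℕ) * z ^ (7 : ℕ) + (-1 : K) * Q ^ (5 : ℕ) * x ^ (2 : ℕ) * z ^ (8 : ℕ) + (-2 : K) * Q ^ (5 : ℕ) * x ^ (3 : ℕ) * z ^ (7 : ℕ) + (-1 : K) * Q ^ (5 : ℕ) * x ^ (3 : ℕ) * z ^ (8 : ℕ) + (-1 : K) * Q ^ (5 : ℕ) * x ^ (4 : ℕ) * z ^ (8 : ℕ) + (-1 : K) * Q ^ (6 : ℕ) * x ^ (3 : ℕ) * z ^ (6 : ℕ) + (-1 : K) * Q ^ (6 : ℕ) * x ^ (3 : ℕ) * z ^ (7 : ℕ) + (-1 : K) *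 Q ^ (6 : ℕ) * x ^ (4 : ℕ) * z ^ (7 : ℕ) + (-1 : K) * Q ^ (7 : ℕ) * x ^ (4 : ℕ) * z ^ (6 : ℕ)) * dd Q x z 0 0 1 1 0 0 * dd Q x z 0 1 0 1 0 0 * dd Q x z 0 1 0 1 0 1 * dd Q x z 1 0 1 0 0 0 * dd Q x z 1 1 0 0 0 0 * dd Q x z 0 1 1 0 0 0 +
      ((1 : K) * z ^ (4 : ℕ) + (1 : K) * Q * z ^ (5 : ℕ) + (1 : K) * Q * z ^ (6 : ℕ) + (1 : K) * Q * x * z ^ (3 : ℕ) + (1 : K) * Q * x * z ^ (4 : ℕ) + (1 : K) * Q * x ^ (2 : ℕ) * z ^ (2 : ℕ) + (1 : K) * Q ^ (2 : ℕ) * x * z ^ (4 : ℕ) + (1 : K) * Q ^ (2 : ℕ) * x * z ^ (5 : ℕ) + (1 : K) * Q ^ (2 : ℕ) * x ^ (2 : ℕ) * z ^ (3 : ℕ) + (1 : K) * Q ^ (3 : ℕ) * x * z ^ (4 : ℕ) + (2 : K) * Q ^ (3 : ℕ) * x * z ^ (5 : ℕ) + (1 : K) * Q ^ (3 : ℕ) * x * z ^ (6 : ℕ) + (2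 : K) * Q ^ (3 : ℕ) * x ^ (2 : ℕ) * z ^ (3 : ℕ) + (2 : K) * Q ^ (3 : ℕ) * x ^ (2 : ℕ) * z ^ (4 : ℕ) + (1 : K) * Q ^ (3 : ℕ) * x ^ (3 : ℕ) * z ^ (2 : ℕ) + (2 : K) * Q ^ (4 : ℕ) * x ^ (2 : ℕ) * z ^ (4 : ℕ) + (2 : K) * Q ^ (4 : ℕ) * x ^ (2 : ℕ) * z ^ (5 : ℕ) + (2 : K) * Q ^ (4 : ℕ) * x ^ (3 : ℕ) * z ^ (3 : ℕ) + (1 : K) * Q ^ (5 : ℕ) * x ^ (2 : ℕ) * z ^ (4 : ℕ) + (1 : K) * Q ^ (5 : ℕ) * x ^ (2 : ℕ) * z ^ (5 : ℕ) + (1 : K) * Q ^ (5 : ℕ) * x ^ (2 : ℕ) * z ^ (6 : ℕ) + (1 : K) * Q ^ (5 : ℕ) * x ^ (3 : ℕ) * z ^ (3 : ℕ) + (2 : K) * Q ^ (5 : ℕ) * x ^ (3 : ℕ) * z ^ (4 : ℕ) + (1 : K) * Q ^ (5 : ℕ) * x ^ (4 : ℕ) * z ^ (2 : ℕ) + (1 : K) * Q ^ (6 : ℕ) * x ^ (3 : ℕ) * z ^ (4 : ℕ) + (1 : K) * Q ^ (6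 : ℕ) * x ^ (3 : ℕ) * z ^ (5 : ℕ) + (1 : K) * Q ^ (6 : ℕ) * x ^ (4 : ℕ) * z ^ (3 : ℕ) + (1 : K) * Q ^ (7 : ℕ) * x ^ (4 : ℕ) * z ^ (4 : ℕ)) * dd Q x z 0 0 1 1 0 0 * dd Q x z 0 1 0 1 0 0 * dd Q x z 0 1 0 1 0 1 * dd Q x z 1 0 1 0 0 0 * dd Q x z 1 1 0 0 0 1 * dd Q x z 0 1 0 0 0 2 +
      ((1 : K) * x ^ (4 : ℕ) + (1 : K) * Q * x ^ (2 : ℕ) * z ^ (2 : ℕ) + (1 : K) * Q * x ^ (3 : ℕ) * z + (1 : K) * Q * x ^ (4 : ℕ) * z + (1 : K) * Q * x ^ (5 : ℕ) + (1 : K) * Q * x ^ (6 : ℕ) + (1 : K) * Q ^ (2 : ℕ) * x ^ (3 : ℕ) * z ^ (2 : ℕ) + (1 : K) * Q ^ (2 : ℕ) * x ^ (4 : ℕ) * z + (1 : K) * Q ^ (2 : ℕ) * x ^ (5 : ℕ) * z + (1 : K) * Q ^ (3 : ℕ) * x ^ (2 : ℕ) * z ^ (3 : ℕ) + (2 : K) * Q ^ (3 : ℕ) * x ^ (3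 : ℕ) * z ^ (2 : ℕ) + (1 : K) * Q ^ (3 : ℕ) * x ^ (4 : ℕ) * z + (2 : K) * Q ^ (3 : ℕ) * x ^ (4 : ℕ) * z ^ (2 : ℕ) + (2 : K) * Q ^ (3 : ℕ) * x ^ (5 : ℕ) * z + (1 : K) * Q ^ (3 : ℕ) * x ^ (6 : ℕ) * z + (2 : K) * Q ^ (4 : ℕ) * x ^ (3 : ℕ) * z ^ (3 : ℕ) + (2 : K) * Q ^ (4 : ℕ) * x ^ (4 : ℕ) * z ^ (2 : ℕ) + (2 : K) * Q ^ (4 : ℕ) * x ^ (5 : ℕ) * z ^ (2 : ℕ) + (1 : K) * Q ^ (5 : ℕ) * x ^ (2 : ℕ) * z ^ (4 : ℕ) + (1 : K) * Q ^ (5 : ℕ) * x ^ (3 : ℕ) * z ^ (3 : ℕ) + (1 : K) * Q ^ (5 : ℕ) * x ^ (4 : ℕ) * z ^ (2 : ℕ) + (2 : K) * Q ^ (5 : ℕ) * x ^ (4 : ℕ) * z ^ (3 : ℕ) + (1 : K) * Q ^ (5 : ℕ) * x ^ (5 : ℕ) * z ^ (2 : ℕ) + (1 : K) * Q ^ (5 : ℕ) * x ^ (6 : ℕ) * z ^ (2 : ℕ) + (1 : K) * Q ^ (6 : ℕ) *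 x ^ (3 : ℕ) * z ^ (4 : ℕ) + (1 : K) * Q ^ (6 : ℕ) * x ^ (4 : ℕ) * z ^ (3 : ℕ) + (1 : K) * Q ^ (6 : ℕ) * x ^ (5 : ℕ) * z ^ (3 : ℕ) + (1 : K) * Q ^ (7 : ℕ) * x ^ (4 : ℕ) * z ^ (4 : ℕ)) * dd Q x z 0 0 1 1 0 0 * dd Q x z 0 1 0 1 0 0 * dd Q x z 0 1 0 1 0 1 * dd Q x z 1 1 0 0 0 0 * dd Q x z 1 1 0 0 0 1 * dd Q x z 0 2 0 0 0 1 +
      ((-1 : K) * x ^ (10 : ℕ) + (-1 : K) * Q * x ^ (8 : ℕ) + (-1 : K) * Q * x ^ (9 : ℕ) + (-1 : K) * Q * x ^ (9 : ℕ) * z + (-1 : K) * Q * x ^ (10 : ℕ) * z + (-1 : K) * Q * x ^ (10 : ℕ) * z ^ (2 : ℕ) + (-1 : K) * Q ^ (2 : ℕ) * x ^ (8 : ℕ) * z + (-1 : K) * Q ^ (2 : ℕ) * x ^ (9 : ℕ) * z + (-1 : K) * Q ^ (2 : ℕ) * x ^ (9 : ℕ) * z ^ (2 : ℕ) + (-1 : K) * Q ^ (3 : ℕ) * x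 ^ (7 : ℕ) * z + (-2 : K) * Q ^ (3 : ℕ) * x ^ (8 : ℕ) * z + (-2 : K) * Q ^ (3 : ℕ) * x ^ (8 : ℕ) * z ^ (2 : ℕ) + (-1 : K) * Q ^ (3 : ℕ) * x ^ (9 : ℕ) * z + (-2 : K) * Q ^ (3 : ℕ) * x ^ (9 : ℕ) * z ^ (2 : ℕ) + (-1 : K) * Q ^ (3 : ℕ) * x ^ (9 : ℕ) * z ^ (3 : ℕ) + (-2 : K) * Q ^ (4 : ℕ) * x ^ (7 : ℕ) * z ^ (2 : ℕ) + (-2 : K) * Q ^ (4 : ℕ) * x ^ (8 : ℕ) * z ^ (2 : ℕ) + (-2 : K) * Q ^ (4 : ℕ) * x ^ (8 : ℕ) * z ^ (3 : ℕ) + (-1 : K) * Q ^ (5 : ℕ) * x ^ (6 : ℕ) * z ^ (2 : ℕ) + (-1 : K) * Q ^ (5 : ℕ) * x ^ (7 : ℕ) * z ^ (2 : ℕ) + (-2 : K) * Q ^ (5 : ℕ) * x ^ (7 : ℕ) * z ^ (3 : ℕ) + (-1 : K) * Q ^ (5 : ℕ) * x ^ (8 : ℕ) * z ^ (2 : ℕ) + (-1 : K) * Q ^ (5 : ℕ) * x ^ (8 : ℕ) * z ^ (3 : ℕ) + (-1 :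 K) * Q ^ (5 : ℕ) * x ^ (8 : ℕ) * z ^ (4 : ℕ) + (-1 : K) * Q ^ (6 : ℕ) * x ^ (6 : ℕ) * z ^ (3 : ℕ) + (-1 : K) * Q ^ (6 : ℕ) * x ^ (7 : ℕ) * z ^ (3 : ℕ) + (-1 : K) * Q ^ (6 : ℕ) * x ^ (7 : ℕ) * z ^ (4 : ℕ) + (-1 : K) * Q ^ (7 : ℕ) * x ^ (6 : ℕ) * z ^ (4 : ℕ)) * dd Q x z 0 0 1 1 0 0 * dd Q x z 0 1 0 1 0 0 * dd Q x z 1 0 1 0 0 0 * dd Q x z 1 1 0 0 0 0 * dd Q x z 1 1 0 0 0 1 * dd Q x z 0 1 1 0 0 0 +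
      ((-1 : K) * z ^ (2 : ℕ) + (-1 : K) * z ^ (3 : ℕ) + (-1 : K) * z ^ (4 : ℕ) + (-1 : K) * x * z + (-2 : K) * x * z ^ (2 : ℕ) + (-2 : K) * x * z ^ (3 : ℕ) + (-1 : K) * x * z ^ (4 : ℕ) + (-1 : K) * x ^ (2 : ℕ) + (-2 : K) * x ^ (2 : ℕ) * z + (-3 : K) * x ^ (2 : ℕ) * z ^ (2 : ℕ) + (-2 : K) * x ^ (2 : ℕ) * z ^ (3 : ℕ) + (-1 : K) * x ^ (2 : ℕ) * z ^ (4 : ℕ) + (-1 : K) * x ^ (3 : ℕ) + (-2 : K) * x ^ (3 : ℕ) * z + (-2 : K) * x ^ (3 : ℕ) * z ^ (2 : ℕ) + (-1 : K) * x ^ (3 : ℕ) * z ^ (3 : ℕ) + (-1 : K) * x ^ (4 : ℕ) + (-1 : K) * x ^ (4 : ℕ) * z + (-1 : K) * x ^ (4 : ℕ) * z ^ (2 : ℕ) + (-1 : K) * Q * x * z ^ (2 : ℕ) + (-1 : K) * Q * x * z ^ (3 : ℕ) + (-1 : K) * Q * x ^ (2 : ℕ) * z + (-1 : K)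 * Q * x ^ (2 : ℕ) * z ^ (2 : ℕ) + (-1 : K) * Q * x ^ (2 : ℕ) * z ^ (3 : ℕ) + (-1 : K) * Q * x ^ (3 : ℕ) * z + (-1 : K) * Q * x ^ (3 : ℕ) * z ^ (2 : ℕ) + (-1 : K) * Q ^ (2 : ℕ) * x ^ (2 : ℕ) * z ^ (2 : ℕ)) * dd Q x z 0 0 1 1 0 0 * dd Q x z 0 1 0 1 0 0 * dd Q x z 0 1 0 1 0 1 * dd Q x z 1 0 1 0 0 0 * dd Q x z 1 1 0 0 0 0 * dd Q x z 1 1 0 0 0 1 * dd Q x z 0 0 1 0 0 0 * dd Q x z 0 1 0 0 0 0 * dd Q x z 0 1 0 0 0 1 * dd Q x z 0 1 1 0 0 0 * dd Q x z 0 2 0 0 0 1 * dd Q x z 0 1 0 0 0 2 = 0 := by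
    simp only [dd]; ring
  have fin : ∀ n0 n1 n2 n3 n4 n5 n6 n7 : K, n0 * dd Q x z 0 0 1 0 0 0 * dd Q x z 0 1 0 0 0 0 * dd Q x z 0 1 0 0 0 1 * dd Q x z 0 1 1 0 0 0 * dd Q x z 0 2 0 0 0 1 * dd Q x z 0 1 0 0 0 2 + n1 * dd Q x z 0 0 1 1 0 0 * dd Q x z 0 1 0 1 0 1 * dd Q x z 1 0 1 0 0 0 * dd Q x z 1 1 0 0 0 0 * dd Q x z 1 1 0 0 0 1 * dd Q x z 0 1 0 0 0 2 + n2 * dd Q x z 0 1 0 1 0 0 * dd Q x z 0 1 0 1 0 1 * dd Q x z 1 0 1 0 0 0 * dd Q x z 1 1 0 0 0 0 * dd Q x z 1 1 0 0 0 1 * dd Q x z 0 2 0 0 0 1 + n3 * dd Q x z 0 0 1 1 0 0 * dd Q x z 0 1 0 1 0 0 * dd Q x z 0 1 0 1 0 1 * dd Q x z 1 0 1 0 0 0 * dd Q x z 1 1 0 0 0 0 * dd Q x z 0 1 1 0 0 0 + n4 * dd Q x z 0 0 1 1 0 0 * dd Q x z 0 1 0 1 0 0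 * dd Q x z 0 1 0 1 0 1 * dd Q x z 1 0 1 0 0 0 * dd Q x z 1 1 0 0 0 1 * dd Q x z 0 1 0 0 0 2 + n5 * dd Q x z 0 0 1 1 0 0 * dd Q x z 0 1 0 1 0 0 * dd Q x z 0 1 0 1 0 1 * dd Q x z 1 1 0 0 0 0 * dd Q x z 1 1 0 0 0 1 * dd Q x z 0 2 0 0 0 1 + n6 * dd Q x z 0 0 1 1 0 0 * dd Q x z 0 1 0 1 0 0 * dd Q x z 1 0 1 0 0 0 * dd Q x z 1 1 0 0 0 0 * dd Q x z 1 1 0 0 0 1 * dd Q x z 0 1 1 0 0 0 + n7 * dd Q x z 0 0 1 1 0 0 * dd Q x z 0 1 0 1 0 0 * dd Q x z 0 1 0 1 0 1 * dd Q x z 1 0 1 0 0 0 * dd Q x z 1 1 0 0 0 0 * dd Q x z 1 1 0 0 0 1 * dd Q x z 0 0 1 0 0 0 * dd Q x z 0 1 0 0 0 0 * dd Q x z 0 1 0 0 0 1 * dd Q x z 0 1 1 0 0 0 * dd Q x z 0 2 0 0 0 1 * dd Q x z 0 1 0 0 0 2 = 0 → n0 / (Q ^ (5 : ℕ) * x ^ (2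 : ℕ) * z ^ (2 : ℕ) * dd Q x z 0 0 1 1 0 0 * dd Q x z 0 1 0 1 0 0 * dd Q x z 0 1 0 1 0 1 * dd Q x z 1 0 1 0 0 0 * dd Q x z 1 1 0 0 0 0 * dd Q x z 1 1 0 0 0 1) + n1 / (Q ^ (5 : ℕ) * x ^ (2 : ℕ) * z ^ (2 : ℕ) * dd Q x z 0 0 1 0 0 0 * dd Q x z 0 1 0 0 0 0 * dd Q x z 0 1 0 0 0 1 * dd Q x z 0 1 0 1 0 0 * dd Q x z 0 1 1 0 0 0 * dd Q x z 0 2 0 0 0 1) + n2 / (Q ^ (5 : ℕ) * x ^ (2 : ℕ) * z ^ (2 : ℕ) * dd Q x z 0 0 1 0 0 0 * dd Q x z 0 0 1 1 0 0 * dd Q x z 0 1 0 0 0 0 * dd Q x z 0 1 0 0 0 1 * dd Q x z 0 1 0 0 0 2 * dd Q x z 0 1 1 0 0 0) + n3 / (Q ^ (5 : ℕ) * x ^ (2 : ℕ) * z ^ (2 : ℕ) * dd Q x z 0 0 1 0 0 0 * dd Q x z 0 1 0 0 0 0 * dd Q x z 0 1 0 0 0 1 * dd Q x z 0 1 0 0 0 2 * dd Q x z 0 2 0 0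 0 1 * dd Q x z 1 1 0 0 0 1) + n4 / (Q ^ (5 : ℕ) * x ^ (2 : ℕ) * z ^ (2 : ℕ) * dd Q x z 0 0 1 0 0 0 * dd Q x z 0 1 0 0 0 0 * dd Q x z 0 1 0 0 0 1 * dd Q x z 0 1 1 0 0 0 * dd Q x z 0 2 0 0 0 1 * dd Q x z 1 1 0 0 0 0) + n5 / (Q ^ (5 : ℕ) * x ^ (2 : ℕ) * z ^ (2 : ℕ) * dd Q x z 0 0 1 0 0 0 * dd Q x z 0 1 0 0 0 0 * dd Q x z 0 1 0 0 0 1 * dd Q x z 0 1 0 0 0 2 * dd Q x z 0 1 1 0 0 0 * dd Q x z 1 0 1 0 0 0) + n6 / (Q ^ (5 : ℕ) * x ^ (2 : ℕ) * z ^ (2 : ℕ) * dd Q x z 0 0 1 0 0 0 * dd Q x z 0 1 0 0 0 0 * dd Q x z 0 1 0 0 0 1 * dd Q x z 0 1 0 0 0 2 * dd Q x z 0 1 0 1 0 1 * dd Q x z 0 2 0 0 0 1) + n7 / (Q ^ (5 : ℕ) * x ^ (2 : ℕ) * z ^ (2 : ℕ)) = 0 := by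
    intro n0 n1 n2 n3 n4 n5 n6 n7 hk
    refine Eq.trans (b := (n0 * dd Q x z 0 0 1 0 0 0 * dd Q x z 0 1 0 0 0 0 * dd Q x z 0 1 0 0 0 1 * dd Q x z 0 1 1 0 0 0 * dd Q x z 0 2 0 0 0 1 * dd Q x z 0 1 0 0 0 2 + n1 * dd Q x z 0 0 1 1 0 0 * dd Q x z 0 1 0 1 0 1 * dd Q x z 1 0 1 0 0 0 * dd Q x z 1 1 0 0 0 0 * dd Q x z 1 1 0 0 0 1 * dd Q x z 0 1 0 0 0 2 + n2 * dd Q x z 0 1 0 1 0 0 * dd Q x z 0 1 0 1 0 1 * dd Q x z 1 0 1 0 0 0 * dd Q x z 1 1 0 0 0 0 * dd Q x z 1 1 0 0 0 1 * dd Q x z 0 2 0 0 0 1 + n3 * dd Q x z 0 0 1 1 0 0 * dd Q x z 0 1 0 1 0 0 * dd Q x z 0 1 0 1 0 1 * dd Q x z 1 0 1 0 0 0 * dd Q x z 1 1 0 0 0 0 * dd Q x z 0 1 1 0 0 0 + n4 * dd Q x z 0 0 1 1 0 0 * dd Q x z 0 1 0 1 0 0 * dd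 Q x z 0 1 0 1 0 1 * dd Q x z 1 0 1 0 0 0 * dd Q x z 1 1 0 0 0 1 * dd Q x z 0 1 0 0 0 2 + n5 * dd Q x z 0 0 1 1 0 0 * dd Q x z 0 1 0 1 0 0 * dd Q x z 0 1 0 1 0 1 * dd Q x z 1 1 0 0 0 0 * dd Q x z 1 1 0 0 0 1 * dd Q x z 0 2 0 0 0 1 + n6 * dd Q x z 0 0 1 1 0 0 * dd Q x z 0 1 0 1 0 0 * dd Q x z 1 0 1 0 0 0 * dd Q x z 1 1 0 0 0 0 * dd Q x z 1 1 0 0 0 1 * dd Q x z 0 1 1 0 0 0 + n7 * dd Q x z 0 0 1 1 0 0 * dd Q x z 0 1 0 1 0 0 * dd Q x z 0 1 0 1 0 1 * dd Q x z 1 0 1 0 0 0 * dd Q x z 1 1 0 0 0 0 * dd Q x z 1 1 0 0 0 1 * dd Q x z 0 0 1 0 0 0 * dd Q x z 0 1 0 0 0 0 * dd Q x z 0 1 0 0 0 1 * dd Q x z 0 1 1 0 0 0 * dd Q x z 0 2 0 0 0 1 * dd Q x z 0 1 0 0 0 2) / (Q ^ (5 : ℕ) * x ^ (2 : ℕ) * z ^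 (2 : ℕ) * dd Q x z 0 0 1 1 0 0 * dd Q x z 0 1 0 1 0 0 * dd Q x z 0 1 0 1 0 1 * dd Q x z 1 0 1 0 0 0 * dd Q x z 1 1 0 0 0 0 * dd Q x z 1 1 0 0 0 1 * dd Q x z 0 0 1 0 0 0 * dd Q x z 0 1 0 0 0 0 * dd Q x z 0 1 0 0 0 1 * dd Q x z 0 1 1 0 0 0 * dd Q x z 0 2 0 0 0 1 * dd Q x z 0 1 0 0 0 2)) ?_ (by rw [hk, zero_div])
    field_simp <;> ring
  have fin2 := fin _ _ _ _ _ _ _ _ key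
  linear_combination t0 + t1 + t2 + t3 + t4 + t5 + t6 + t7 + fin2

theorem R2b_all {Q X0 X1 X2 X3 X4 X5 : K} (h : Frame Q X0 X1 X2 X3 X4 X5) (F : ℤ → ℤ → K) :
    (1) * MM (0) (2) Q X0 X1 X2 X3 X4 X5 F + (-Q ^ (-3 : ℤ)) * MM (2) (0) Q X0 X1 X2 X3 X4 X5 F + (-Q ^ (-2 : ℤ) + Q ^ (-1 : ℤ)) * MM (1) (1) Q X0 X1 X2 X3 X4 X5 F = 0 := by
  have h0 : (1) * MM (0) (2) Q X0 X1 X2 X3 X4 X5 (fun _ _ => 1) + (-Q ^ (-3 : ℤ)) * MM (2) (0) Q X0 X1 X2 X3 X4 X5 (fun _ _ => 1) + (-Q ^ (-2 : ℤ) + Q ^ (-1 : ℤ)) * MM (1) (1) Q X0 X1 X2 X3 X4 X5 (fun _ _ => 1) = 0 := by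
    have e := R2b_one h
    simp only [MM, Mr_one0 (h.shift _ _), Mr_one1 (h.shift _ _), Mr_one2 (h.shift _ _), Mr_onem1 (h.shift _ _), Mr_onem2 (h.shift _ _), Mr_zero, Mr_one0 h, Mr_one1 h, Mr_one2 h, Mr_onem1 h, Mr_onem2 h]
    simp only [Mr, Int.reduceNeg, Int.reduceAdd, Int.reduceSub, neg_neg, neg_zero, sub_zero, zpow_zero, one_mul, mul_one] at e ⊢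
    linear_combination e
  have a0 := R2b_dbl h
  have b0 := R2b_long h
  have c0 := R2b_short h
  have a1 := R2b_dbl h.rot
  have b1 := R2b_long h.rot
  have c1 := R2b_short h.rot
  have a2 := R2b_dbl h.rot.rot
  have b2 := R2b_long h.rot.rot
  have c2 := R2b_short h.rot.rot
  have a3 := R2b_dbl h.rot.rot.rot
  have b3 := R2b_long h.rot.rot.rot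
  have c3 := R2b_short h.rot.rot.rot
  have a4 := R2b_dbl h.rot.rot.rot.rot
  have b4 := R2b_long h.rot.rot.rot.rot
  have c4 := R2b_short h.rot.rot.rot.rot
  have a5 := R2b_dbl h.rot.rot.rot.rot.rot
  have b5 := R2b_long h.rot.rot.rot.rot.rot
  have c5 := R2b_short h.rot.rot.rot.rot.rot
  simp only [MM, Mr, gP, Int.reduceNeg, Int.reduceAdd, Int.reduceSub, neg_neg, neg_zero, sub_zero, zero_add, add_zero, zpow_zero, one_mul, mul_one] at *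
  linear_combination F 0 0 * h0 + (F (-4) (-2) - F 0 0) * a0 + (F (-3) (-3) - F 0 0) * b0 + (F (-2) (-1) - F 0 0) * c0 + (F (-2) (-4) - F 0 0) * a1 + (F 0 (-3) - F 0 0) * b1 + (F (-1) (-2) - F 0 0) * c1 + (F 2 (-2) - F 0 0) * a2 + (F 3 0 - F 0 0) * b2 + (F 1 (-1) - F 0 0) * c2 + (F 4 2 - F 0 0) * a3 + (F 3 3 - F 0 0) * b3 + (F 2 1 - F 0 0) * c3 + (F 2 4 - F 0 0) * a4 + (F 0 3 - F 0 0) * b4 + (F 1 2 - F 0 0) * c4 + (F (-2) 2 - F 0 0) * a5 + (F (-3) 0 - F 0 0) * b5 + (F (-1) 1 - F 0 0) * c5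

end Pool.Agent.MP_7258fc_nt.H38
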