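import Pool.Agent.MP_7258fc_nt.H38.Rat
import Pool.Agent.MP_7258fc_nt.H38.RelR1
import Pool.Agent.MP_7258fc_nt.H38.RelR2a
import Pool.Agent.MP_7258fc_nt.H38.RelR2b
import Pool.Agent.MP_7258fc_nt.H38.RelR3a
import Pool.Agent.MP_7258fc_nt.H38.RelR3b
import Pool.Agent.MP_7258fc_nt.H38.RelR4

namespace Pool.Agent.MP_7258fc_nt.H38

theorem R1L {f : L} (h : Inv f) : M 0 (M 1 f) = q ^ (-2 : ℤ) • M 1 (M 0 f) := by
  apply ev0_inj
  rw [ev_smul, ev_MM Fr_ev0 _ _ h, ev_MM Fr_ev0 _ _ h]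
  linear_combination R1_all Fr_ev0 (fun u v => ev0 (T u v f))

theorem R2aL {f : L} (h : Inv f) : M (-1) (M 1 f) = q ^ (-3 : ℤ) • M 1 (M (-1) f)
    + q ^ (-2 : ℤ) • M 0 (M 0 f) - q ^ (-1 : ℤ) • M 0 (M 0 f) := by
  apply ev0_inj
  simp only [map_add, map_sub, ev_smul, ev_MM Fr_ev0 _ _ h]
  linear_combination R2a_all Fr_ev0 (fun u v => ev0 (T u v f))

theorem R2bL {f : L} (h : Inv f) : M 0 (M 2 f) = q ^ (-3 : ℤ) • M 2 (M 0 f)
    + q ^ (-2 : ℤ) • M 1 (M 1 f) - q ^ (-1 : ℤ) • M 1 (M 1 f) := by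
  apply ev0_inj
  simp only [map_add, map_sub, ev_smul, ev_MM Fr_ev0 _ _ h]
  linear_combination R2b_all Fr_ev0 (fun u v => ev0 (T u v f))

theorem R3aL {f : L} (h : Inv f) : M (-2) (M 1 f) = q ^ (-4 : ℤ) • M 1 (M (-2) f)
    + q ^ (-4 : ℤ) • M 0 (M (-1) f) - q ^ (-2 : ℤ) • M 0 (M (-1) f) := by
  apply ev0_inj
  simp only [map_add, map_sub, ev_smul, ev_MM Fr_ev0 _ _ h]
  linear_combination R3a_all Fr_ev0 (fun u v => ev0 (T u v f))

theorem R3bL {f : L} (h : Inv f) : M (-1) (M 2 f) = q ^ (-4 : ℤ) • M 2 (M (-1) f)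
    + q ^ (-4 : ℤ) • M 1 (M 0 f) - q ^ (-2 : ℤ) • M 1 (M 0 f) := by
  apply ev0_inj
  simp only [map_add, map_sub, ev_smul, ev_MM Fr_ev0 _ _ h]
  linear_combination R3b_all Fr_ev0 (fun u v => ev0 (T u v f))

theorem R4L {f : L} (h : Inv f) : M (-2) (M 2 f) = q ^ (-5 : ℤ) • M 2 (M (-2) f)
    + q ^ (-5 : ℤ) • M 1 (M (-1) f) - q ^ (-3 : ℤ) • M 1 (M (-1) f)
    + q ^ (-4 : ℤ) • M 0 (M 0 f) - q ^ (-3 : ℤ) • M 0 (M 0 f)
    + q ^ (-1 : ℤ) • M 0 f - q • M 0 f := by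
  apply ev0_inj
  simp only [map_add, map_sub, ev_smul, ev_q_smul, ev_MM Fr_ev0 _ _ h, ev_M Fr_ev0 _ h]
  linear_combination R4_all Fr_ev0 (fun u v => ev0 (T u v f))

theorem M0_one : M 0 1 = 1 := by
  apply ev0_inj
  simp only [ev_M Fr_ev0 _ Inv.one, map_one, Mr_one0 Fr_ev0]

theorem Mm1_one : M (-1) 1 = 0 := by
  apply ev0_inj
  simp only [ev_M Fr_ev0 _ Inv.one, map_one, Mr_onem1 Fr_ev0, map_zero]

theorem Mm2_one : M (-2) 1 = 0 := by
  apply ev0_inj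
  simp only [ev_M Fr_ev0 _ Inv.one, map_one, Mr_onem2 Fr_ev0, map_zero]

/-- Raising in the first direction. -/
noncomputable def Pup (g : L) (j : ℕ) : ℕ → L
  | 0 => g
  | i + 1 => q ^ (2 * (i : ℤ) + 3 * j + 1) • M 1 (Pup g j i)

/-- The first column. -/
noncomputable def P0 : ℕ → L
  | 0 => 1
  | j + 1 => q⁻¹ • (Pup (P0 j) j 2 - q ^ (3 * (j : ℤ) + 2) • M 2 (P0 j))

/-- The `q`-Whittaker polynomials. -/
noncomputable def P (i j : ℕ) : L := Pup (P0 j) j i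

theorem P_zero : P 0 0 = 1 := rfl
theorem P_succ (i j : ℕ) : P (i + 1) j = q ^ (2 * (i : ℤ) + 3 * j + 1) • M 1 (P i j) := rfl
theorem P_succ' (j : ℕ) :
    P 0 (j + 1) = q⁻¹ • (P 2 j - q ^ (3 * (j : ℤ) + 2) • M 2 (P 0 j)) := rfl

theorem inv_P (i j : ℕ) : Inv (P i j) := by
  induction j generalizing i with
  | zero =>
    induction i with
    | zero => exact Inv.one
    | succ i ih => exact (ih.M 1).smul _
  | succ j ihj =>
    induction i with
    | zero => exact ((ihj 2).sub (((ihj 0).M 2).smul _)).smul _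
    | succ i ih => exact (ih.M 1).smul _

theorem M1_P (i j : ℕ) : M 1 (P i j) = (q⁻¹ * (q ^ i)⁻¹ ^ 2 * (q ^ j)⁻¹ ^ 3) • P (i + 1) j := by
  have hq := q_ne
  rw [P_succ, smul_smul]
  convert (one_smul R _).symm using 2
  simp only [zpow_add₀ hq, zpow_mul', zpow_natCast, zpow_ofNat]
  field_simp

theorem M2_P (j : ℕ) :
    M 2 (P 0 j) = (q⁻¹ ^ 2 * (q ^ j)⁻¹ ^ 3) • (P 2 j - q • P 0 (j + 1)) := by
  have hq := q_ne
  rw [P_succ', smul_smul, mul_inv_cancel₀ hq, one_smul, sub_sub_cancel, smul_smul]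
  convert (one_smul R _).symm using 2
  simp only [zpow_add₀ hq, zpow_mul', zpow_natCast, zpow_ofNat]
  field_simp

theorem P_succ2 (i j : ℕ) : P (i + 1) j = (q * (q ^ i) ^ 2 * (q ^ j) ^ 3) • M 1 (P i j) := by
  have hq := q_ne
  rw [M1_P, smul_smul]
  convert (one_smul R _).symm using 2
  field_simp

theorem P_succ2' (j : ℕ) :
    P 0 (j + 1) = q⁻¹ • (P 2 j - (q ^ 2 * (q ^ j) ^ 3) • M 2 (P 0 j)) := by
  have hq := q_ne
  rw [P_succ']
  congr 3
  simp only [zpow_add₀ hq, zpow_mul', zpow_natCast, zpow_ofNat]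
  ring

/-- The three lowering formulas. -/
structure Act (i j : ℕ) : Prop where
  a0 : M 0 (P i j) = ((q ^ i)⁻¹ ^ 2 * (q ^ j)⁻¹ ^ 3) • P i j
  a1 : M (-1) (P i j) = (q * (q ^ i)⁻¹ ^ 2 * (q ^ j)⁻¹ ^ 3 * (1 - q ^ i)) • P (i - 1) j
  a2 : M (-2) (P i j) =
    (q ^ 2 * (q ^ i)⁻¹ ^ 2 * (q ^ j)⁻¹ ^ 3 * (1 - q ^ i) * (1 - q ^ i * q⁻¹)) • P (i - 2) j
    - (q ^ 2 * (q ^ i)⁻¹ * (q ^ j)⁻¹ ^ 3 * (1 - (q ^ j) ^ 3)) • P i (j - 1)

theorem h1 (i j : ℕ) : (1 - q ^ i) • M 1 (P (i - 1) j) =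
    ((1 - q ^ i) * (q * (q ^ i)⁻¹ ^ 2 * (q ^ j)⁻¹ ^ 3)) • P i j := by
  have hq := q_ne
  rcases i with _ | i
  · simp
  · rw [Nat.add_sub_cancel, M1_P, smul_smul]
    congr 1
    field_simp
    ring

theorem h2 (i j : ℕ) : ((1 - q ^ i) * (1 - q ^ i * q⁻¹)) • M 1 (P (i - 2) j) =
    ((1 - q ^ i) * (1 - q ^ i * q⁻¹) * (q ^ 3 * (q ^ i)⁻¹ ^ 2 * (q ^ j)⁻¹ ^ 3)) • P (i - 1) j := by
  have hq := q_ne
  rcases i with _ | _ | i
  · simp
  · simp [hq]
  · rw [show i + 1 + 1 - 2 = i by omega, show i + 1 + 1 - 1 = i + 1 by omega, M1_P, smul_smul]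
    congr 1
    field_simp
    ring

theorem h3 (i j : ℕ) : (1 - (q ^ j) ^ 3) • M 1 (P i (j - 1)) =
    ((1 - (q ^ j) ^ 3) * (q ^ 2 * (q ^ i)⁻¹ ^ 2 * (q ^ j)⁻¹ ^ 3)) • P (i + 1) (j - 1) := by
  have hq := q_ne
  rcases j with _ | j
  · simp
  · rw [Nat.add_sub_cancel, M1_P, smul_smul]
    congr 1
    field_simp
    ring

theorem h4 (j : ℕ) : (1 - (q ^ j) ^ 3) • M 2 (P 0 (j - 1)) =
    ((1 - (q ^ j) ^ 3) * (q * (q ^ j)⁻¹ ^ 3)) • (P 2 (j - 1) - q • P 0 j) := by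
  have hq := q_ne
  rcases j with _ | j
  · simp
  · rw [Nat.add_sub_cancel, M2_P, smul_smul]
    congr 1
    field_simp
    ring

theorem Act.step {i j : ℕ} (h : Act i j) (h' : Act (i - 1) j) : Act (i + 1) j := by
  have hq := q_ne
  have hi := inv_P i j
  have hqi := pow_ne_zero i hq
  have hqj := pow_ne_zero j hq
  refine ⟨?_, ?_, ?_⟩
  · conv_lhs => rw [P_succ2, map_smul, R1L hi, h.a0, map_smul, M1_P]
    match_scalars
    field_simp
    ring
  · have e := h1 i j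
    conv_lhs => rw [P_succ2, map_smul, R2aL hi, h.a0, h.a1, map_smul, map_smul, h.a0, mul_smul _ (1 - q ^ i), e]
    rw [Nat.add_sub_cancel]
    match_scalars
    field_simp
    ring
  · have e2 := h2 i j
    have e3 := h3 i j
    have e4 : (1 - q ^ i) • M 0 (P (i - 1) j) =
        ((1 - q ^ i) * (q ^ 2 * (q ^ i)⁻¹ ^ 2 * (q ^ j)⁻¹ ^ 3)) • P (i - 1) j := by
      rw [h'.a0, smul_smul]
      rcases i with _ | i
      · simp
      · rw [Nat.add_sub_cancel]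
        congr 1
        field_simp
        ring
    conv_lhs => rw [P_succ2, map_smul, R3aL hi, h.a1, h.a2, map_sub, map_smul, map_smul, map_smul,
      mul_assoc _ (1 - q ^ i), mul_smul _ ((1 - q ^ i) * _), e2, mul_smul _ (1 - (q ^ j) ^ 3), e3,
      mul_smul _ (1 - q ^ i), e4]
    rw [show i + 1 - 2 = i - 1 by omega]
    match_scalars
    · field_simp
      ring
    · field_simp
      ring

theorem Act.all {j : ℕ} (h : Act 0 j) (i : ℕ) : Act i j := by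
  induction i using Nat.strong_induction_on with
  | _ i ih =>
    rcases i with _ | i
    · exact h
    · exact (ih i (by omega)).step (ih (i - 1) (by omega))

theorem act (i j : ℕ) : Act i j := by
  have hq := q_ne
  induction j generalizing i with
  | zero =>
    refine Act.all ⟨?_, ?_, ?_⟩ i
    · simp [P_zero, M0_one]
    · simp [P_zero, Mm1_one]
    · simp [P_zero, Mm2_one]
  | succ j ih =>
    have hi := inv_P 0 j
    have hqj := pow_ne_zero j hq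
    have b1 : M (-1) (P 0 j) = 0 := by simpa using (ih 0).a1
    refine Act.all ⟨?_, ?_, ?_⟩ i
    · conv_lhs => rw [P_succ2', map_smul, map_sub, map_smul, R2bL hi, (ih 2).a0, (ih 0).a0,
        map_smul, M1_P, map_smul, M1_P]
      rw [P_succ2']
      match_scalars
      · field_simp
        ring
      · field_simp
        ring
    · conv_lhs => rw [P_succ2', map_smul, map_sub, map_smul, R3bL hi, (ih 2).a1, (ih 0).a0, b1,
        map_smul, M1_P, map_zero]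
      match_scalars
      · field_simp
        ring
      · simp
    · have e4 := h4 j
      have b2 : M (-2) (P 0 j) = -((q ^ 2 * (q ^ j)⁻¹ ^ 3 * (1 - (q ^ j) ^ 3)) • P 0 (j - 1)) := by
        simpa using (ih 0).a2
      conv_lhs => rw [P_succ2', map_smul, map_sub, map_smul, R4L hi, (ih 2).a2, (ih 0).a0, b1, b2,
        map_smul, (ih 0).a0, map_zero, map_neg, map_smul, mul_smul _ (1 - (q ^ j) ^ 3) (M 2 _), e4]
      rw [Nat.add_sub_cancel]
      match_scalars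
      · field_simp
        ring
      · field_simp
        ring
      · simp

end Pool.Agent.MP_7258fc_nt.H38
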