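import Pool.Agent.MP_7258fc_nt.H38.Frame

set_option maxRecDepth 100000
set_option linter.style.longLine false
set_option linter.unusedSimpArgs false
set_option linter.unusedVariables false
set_option linter.unusedTactic false
set_option linter.unreachableTactic false
set_option linter.unnecessarySeqFocus false

namespace Pool.Agent.MP_7258fc_nt.H38

variable {K : Type*} [Field K]

theorem gP_aux {Q X0 X1 X2 X3 X4 X5 : K} (h : Frame Q X0 X1 X2 X3 X4 X5) :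
    (gC X0 X1) * ((1 - X0 / Q)⁻¹) +
      (gC X1 X2) * ((1 - X1 / Q)⁻¹) +
      (gC X2 X3) * ((1 - X2 / Q)⁻¹) +
      (gC X3 X4) * ((1 - X3 / Q)⁻¹) +
      (gC X4 X5) * ((1 - X4 / Q)⁻¹) +
      (gC X5 X0) * ((1 - X5 / Q)⁻¹) +
      ((-1)) * (gP Q X0 X1 X2 X3 X4 X5) = 0 := by
  obtain ⟨nd, h2, h3, h4, h5⟩ := h
  subst h2 h3 h4 h5
  generalize X0 = x at *
  generalize X1 = z at *
  have hQ := nd.hQ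
  have hx := nd.hx
  have hz := nd.hz
  have d0 := nd.ne 0 0 1 0 0 0 (by decide)
  have d1 := nd.ne 0 1 0 0 0 0 (by decide)
  have d2 := nd.ne 0 1 0 0 0 1 (by decide)
  have d3 := nd.ne 0 1 0 1 0 0 (by decide)
  have d4 := nd.ne 0 1 1 0 0 0 (by decide)
  have d5 := nd.ne 0 2 0 0 0 1 (by decide)
  have d6 := nd.ne 0 0 1 1 0 0 (by decide)
  have d7 := nd.ne 0 1 0 0 0 2 (by decide)
  have d8 := nd.ne 1 1 0 0 0 1 (by decide)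
  have d9 := nd.ne 1 1 0 0 0 0 (by decide)
  have d10 := nd.ne 1 0 1 0 0 0 (by decide)
  have d11 := nd.ne 0 1 0 1 0 1 (by decide)
  have f0 := nd.inv1 0 1 0 0 0 0 (1 / x) (by field_simp)
  have f1 := nd.inv1 0 1 0 0 0 1 (z / x) (by field_simp)
  have f2 := nd.inv1 0 0 1 0 0 0 (1 / z) (by field_simp)
  have f3 := nd.inv1 0 2 0 0 0 1 (z / x ^ 2) (by field_simp)
  have f4 := nd.inv1 0 1 1 0 0 0 (1 / (x * z)) (by field_simp)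
  have f5 := nd.inv2 0 1 0 1 0 0 (x / Q) (by field_simp)
  have f6 := nd.inv1 0 1 0 0 0 0 ((z / x) / z) (by field_simp)
  have f7 := nd.inv2 0 1 0 0 0 1 (1 / (z / x)) (by field_simp)
  have f8 := nd.inv1 0 1 1 0 0 0 ((z / x) / z ^ 2) (by field_simp)
  have f9 := nd.inv2 0 1 0 0 0 2 (1 / (z * (z / x))) (by field_simp)
  have f10 := nd.inv2 0 0 1 1 0 0 (z / Q) (by field_simp)
  have f11 := nd.inv1 0 0 1 0 0 0 (x⁻¹ / (z / x)) (by field_simp)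
  have f12 := nd.inv2 0 1 0 0 0 0 (1 / x⁻¹) (by field_simp)
  have f13 := nd.inv2 0 1 0 0 0 2 (x⁻¹ / (z / x) ^ 2) (by field_simp)
  have f14 := nd.inv2 0 2 0 0 0 1 (1 / ((z / x) * x⁻¹)) (by field_simp)
  have f15 := nd.inv1 1 1 0 0 0 1 ((z / x) / Q) (by field_simp)
  have f16 := nd.inv2 0 1 0 0 0 1 (z⁻¹ / x⁻¹) (by field_simp)
  have f17 := nd.inv2 0 0 1 0 0 0 (1 / z⁻¹) (by field_simp)
  have f18 := nd.inv2 0 2 0 0 0 1 (z⁻¹ / x⁻¹ ^ 2) (by field_simp)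
  have f19 := nd.inv2 0 1 1 0 0 0 (1 / (x⁻¹ * z⁻¹)) (by field_simp)
  have f20 := nd.inv1 1 1 0 0 0 0 (x⁻¹ / Q) (by field_simp)
  have f21 := nd.inv2 0 1 0 0 0 0 ((x / z) / z⁻¹) (by field_simp)
  have f22 := nd.inv1 0 1 0 0 0 1 (1 / (x / z)) (by field_simp)
  have f23 := nd.inv2 0 1 1 0 0 0 ((x / z) / z⁻¹ ^ 2) (by field_simp)
  have f24 := nd.inv1 0 1 0 0 0 2 (1 / (z⁻¹ * (x / z))) (by field_simp)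
  have f25 := nd.inv1 1 0 1 0 0 0 (z⁻¹ / Q) (by field_simp)
  have f26 := nd.inv2 0 0 1 0 0 0 (x / (x / z)) (by field_simp)
  have f27 := nd.inv1 0 1 0 0 0 2 (x / (x / z) ^ 2) (by field_simp)
  have f28 := nd.inv1 0 2 0 0 0 1 (1 / ((x / z) * x)) (by field_simp)
  have f29 := nd.inv2 0 1 0 1 0 1 ((x / z) / Q) (by field_simp)
  have f30 := nd.inv2 1 1 0 0 0 0 (Q * x) (by field_simp)
  have f31 := nd.inv2 1 0 1 0 0 0 (Q * z) (by field_simp)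
  have f32 := nd.inv1 0 1 0 1 0 1 (Q * (z / x)) (by field_simp)
  have f33 := nd.inv1 0 1 0 1 0 0 (Q * x⁻¹) (by field_simp)
  have f34 := nd.inv1 0 0 1 1 0 0 (Q * z⁻¹) (by field_simp)
  have f35 := nd.inv2 1 1 0 0 0 1 (Q * (x / z)) (by field_simp)
  have t0 : ((gC x z) * ((1 - x / Q)⁻¹) : K) = ((-1 : K) * Q * x ^ (5 : ℕ) * z ^ (2 : ℕ)) / (1 * dd Q x z 0 0 1 0 0 0 * dd Q x z 0 1 0 0 0 0 * dd Q x z 0 1 0 0 0 1 * dd Q x z 0 1 0 1 0 0 * dd Q x z 0 1 1 0 0 0 * dd Q x z 0 2 0 0 0 1) := by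
    simp only [gA, gC, gP, gi]
    simp only [f0, f1, f2, f3, f4, f5]
    field_simp <;> ring
  have t1 : ((gC z (z / x)) * ((1 - z / Q)⁻¹) : K) = ((-1 : K) * Q * x ^ (2 : ℕ) * z ^ (5 : ℕ)) / (1 * dd Q x z 0 0 1 0 0 0 * dd Q x z 0 0 1 1 0 0 * dd Q x z 0 1 0 0 0 0 * dd Q x z 0 1 0 0 0 1 * dd Q x z 0 1 0 0 0 2 * dd Q x z 0 1 1 0 0 0) := by
    simp only [gA, gC, gP, gi]
    simp only [f2, f6, f7, f8, f9, f10]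
    field_simp <;> ring
  have t2 : ((gC (z / x) x⁻¹) * ((1 - (z / x) / Q)⁻¹) : K) = ((1 : K) * Q * x * z ^ (5 : ℕ)) / (1 * dd Q x z 0 0 1 0 0 0 * dd Q x z 0 1 0 0 0 0 * dd Q x z 0 1 0 0 0 1 * dd Q x z 0 1 0 0 0 2 * dd Q x z 0 2 0 0 0 1 * dd Q x z 1 1 0 0 0 1) := by
    simp only [gA, gC, gP, gi]
    simp only [f7, f11, f12, f13, f14, f15]
    field_simp <;> ring
  have t3 : ((gC x⁻¹ z⁻¹) * ((1 - x⁻¹ / Q)⁻¹) : K) = ((-1 : K) * Q * x * z ^ (2 : ℕ)) / (1 * dd Q x z 0 0 1 0 0 0 * dd Q x z 0 1 0 0 0 0 * dd Q x z 0 1 0 0 0 1 * dd Q x z 0 1 1 0 0 0 * dd Q x z 0 2 0 0 0 1 * dd Q x z 1 1 0 0 0 0) := by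
    simp only [gA, gC, gP, gi]
    simp only [f12, f16, f17, f18, f19, f20]
    field_simp <;> ring
  have t4 : ((gC z⁻¹ (x / z)) * ((1 - z⁻¹ / Q)⁻¹) : K) = ((-1 : K) * Q * x ^ (2 : ℕ) * z) / (1 * dd Q x z 0 0 1 0 0 0 * dd Q x z 0 1 0 0 0 0 * dd Q x z 0 1 0 0 0 1 * dd Q x z 0 1 0 0 0 2 * dd Q x z 0 1 1 0 0 0 * dd Q x z 1 0 1 0 0 0) := by
    simp only [gA, gC, gP, gi]
    simp only [f17, f21, f22, f23, f24, f25]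
    field_simp <;> ring
  have t5 : ((gC (x / z) x) * ((1 - (x / z) / Q)⁻¹) : K) = ((1 : K) * Q * x ^ (5 : ℕ) * z) / (1 * dd Q x z 0 0 1 0 0 0 * dd Q x z 0 1 0 0 0 0 * dd Q x z 0 1 0 0 0 1 * dd Q x z 0 1 0 0 0 2 * dd Q x z 0 1 0 1 0 1 * dd Q x z 0 2 0 0 0 1) := by
    simp only [gA, gC, gP, gi]
    simp only [f0, f22, f26, f27, f28, f29]
    field_simp <;> ring
  have t6 : (((-1)) * (gP Q x z (z / x) x⁻¹ z⁻¹ (x / z)) : K) = ((1 : K) * Q ^ (5 : ℕ) * x ^ (2 : ℕ) * z ^ (2 : ℕ) + (1 : K) * Q ^ (6 : ℕ) * x ^ (2 : ℕ) * z ^ (2 : ℕ)) / (1 * dd Q x z 0 0 1 1 0 0 * dd Q x z 0 1 0 1 0 0 * dd Q x z 0 1 0 1 0 1 * dd Q x z 1 0 1 0 0 0 * dd Q x z 1 1 0 0 0 0 * dd Q x z 1 1 0 0 0 1) := by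
    simp only [gA, gC, gP, gi]
    simp only [f30, f31, f32, f33, f34, f35]
    field_simp <;> ring
  have key : ((-1 : K) * Q * x ^ (5 : ℕ) * z ^ (2 : ℕ)) * dd Q x z 0 0 1 1 0 0 * dd Q x z 0 1 0 0 0 2 * dd Q x z 1 1 0 0 0 1 * dd Q x z 1 1 0 0 0 0 * dd Q x z 1 0 1 0 0 0 * dd Q x z 0 1 0 1 0 1 +
      ((-1 : K) * Q * x ^ (2 : ℕ) * z ^ (5 : ℕ)) * dd Q x z 0 1 0 1 0 0 * dd Q x z 0 2 0 0 0 1 * dd Q x z 1 1 0 0 0 1 * dd Q x z 1 1 0 0 0 0 * dd Q x z 1 0 1 0 0 0 * dd Q x z 0 1 0 1 0 1 +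
      ((1 : K) * Q * x * z ^ (5 : ℕ)) * dd Q x z 0 1 0 1 0 0 * dd Q x z 0 1 1 0 0 0 * dd Q x z 0 0 1 1 0 0 * dd Q x z 1 1 0 0 0 0 * dd Q x z 1 0 1 0 0 0 * dd Q x z 0 1 0 1 0 1 +
      ((-1 : K) * Q * x * z ^ (2 : ℕ)) * dd Q x z 0 1 0 1 0 0 * dd Q x z 0 0 1 1 0 0 * dd Q x z 0 1 0 0 0 2 * dd Q x z 1 1 0 0 0 1 * dd Q x z 1 0 1 0 0 0 * dd Q x z 0 1 0 1 0 1 +
      ((-1 : K) * Q * x ^ (2 : ℕ) * z) * dd Q x z 0 1 0 1 0 0 * dd Q x z 0 2 0 0 0 1 * dd Q x z 0 0 1 1 0 0 * dd Q x z 1 1 0 0 0 1 * dd Q x z 1 1 0 0 0 0 * dd Q x z 0 1 0 1 0 1 +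
      ((1 : K) * Q * x ^ (5 : ℕ) * z) * dd Q x z 0 1 0 1 0 0 * dd Q x z 0 1 1 0 0 0 * dd Q x z 0 0 1 1 0 0 * dd Q x z 1 1 0 0 0 1 * dd Q x z 1 1 0 0 0 0 * dd Q x z 1 0 1 0 0 0 +
      ((1 : K) * Q ^ (5 : ℕ) * x ^ (2 : ℕ) * z ^ (2 : ℕ) + (1 : K) * Q ^ (6 : ℕ) * x ^ (2 : ℕ) * z ^ (2 : ℕ)) * dd Q x z 0 0 1 0 0 0 * dd Q x z 0 1 0 0 0 0 * dd Q x z 0 1 0 0 0 1 * dd Q x z 0 1 1 0 0 0 * dd Q x z 0 2 0 0 0 1 * dd Q x z 0 1 0 0 0 2 = 0 := by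
    simp only [dd]; ring
  have fin : ∀ n0 n1 n2 n3 n4 n5 n6 : K, n0 * dd Q x z 0 0 1 1 0 0 * dd Q x z 0 1 0 0 0 2 * dd Q x z 1 1 0 0 0 1 * dd Q x z 1 1 0 0 0 0 * dd Q x z 1 0 1 0 0 0 * dd Q x z 0 1 0 1 0 1 + n1 * dd Q x z 0 1 0 1 0 0 * dd Q x z 0 2 0 0 0 1 * dd Q x z 1 1 0 0 0 1 * dd Q x z 1 1 0 0 0 0 * dd Q x z 1 0 1 0 0 0 * dd Q x z 0 1 0 1 0 1 + n2 * dd Q x z 0 1 0 1 0 0 * dd Q x z 0 1 1 0 0 0 * dd Q x z 0 0 1 1 0 0 * dd Q x z 1 1 0 0 0 0 * dd Q x z 1 0 1 0 0 0 * dd Q x z 0 1 0 1 0 1 + n3 * dd Q x z 0 1 0 1 0 0 * dd Q x z 0 0 1 1 0 0 * dd Q x z 0 1 0 0 0 2 * dd Q x z 1 1 0 0 0 1 * dd Q x z 1 0 1 0 0 0 * dd Q x z 0 1 0 1 0 1 + n4 * dd Q x z 0 1 0 1 0 0 * dd Q x z 0 2 0 0 0 1 * dd Q x z 0 0 1 1 0 0 * dd Q x z 1 1 0 0 0 1 * dd Q x z 1 1 0 0 0 0 * dd Q x z 0 1 0 1 0 1 + n5 * dd Q x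 z 0 1 0 1 0 0 * dd Q x z 0 1 1 0 0 0 * dd Q x z 0 0 1 1 0 0 * dd Q x z 1 1 0 0 0 1 * dd Q x z 1 1 0 0 0 0 * dd Q x z 1 0 1 0 0 0 + n6 * dd Q x z 0 0 1 0 0 0 * dd Q x z 0 1 0 0 0 0 * dd Q x z 0 1 0 0 0 1 * dd Q x z 0 1 1 0 0 0 * dd Q x z 0 2 0 0 0 1 * dd Q x z 0 1 0 0 0 2 = 0 → n0 / (1 * dd Q x z 0 0 1 0 0 0 * dd Q x z 0 1 0 0 0 0 * dd Q x z 0 1 0 0 0 1 * dd Q x z 0 1 0 1 0 0 * dd Q x z 0 1 1 0 0 0 * dd Q x z 0 2 0 0 0 1) + n1 / (1 * dd Q x z 0 0 1 0 0 0 * dd Q x z 0 0 1 1 0 0 * dd Q x z 0 1 0 0 0 0 * dd Q x z 0 1 0 0 0 1 * dd Q x z 0 1 0 0 0 2 * dd Q x z 0 1 1 0 0 0) + n2 / (1 * dd Q x z 0 0 1 0 0 0 * dd Q x z 0 1 0 0 0 0 * dd Q x z 0 1 0 0 0 1 * dd Q x z 0 1 0 0 0 2 * dd Q x z 0 2 0 0 0 1 * dd Q x z 1 1 0 0 0 1) + n3 / (1 * dd Q x z 0 0 1 0 0 0 * dd Q x z 0 1 0 0 0 0 * dd Q x z 0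 1 0 0 0 1 * dd Q x z 0 1 1 0 0 0 * dd Q x z 0 2 0 0 0 1 * dd Q x z 1 1 0 0 0 0) + n4 / (1 * dd Q x z 0 0 1 0 0 0 * dd Q x z 0 1 0 0 0 0 * dd Q x z 0 1 0 0 0 1 * dd Q x z 0 1 0 0 0 2 * dd Q x z 0 1 1 0 0 0 * dd Q x z 1 0 1 0 0 0) + n5 / (1 * dd Q x z 0 0 1 0 0 0 * dd Q x z 0 1 0 0 0 0 * dd Q x z 0 1 0 0 0 1 * dd Q x z 0 1 0 0 0 2 * dd Q x z 0 1 0 1 0 1 * dd Q x z 0 2 0 0 0 1) + n6 / (1 * dd Q x z 0 0 1 1 0 0 * dd Q x z 0 1 0 1 0 0 * dd Q x z 0 1 0 1 0 1 * dd Q x z 1 0 1 0 0 0 * dd Q x z 1 1 0 0 0 0 * dd Q x z 1 1 0 0 0 1) = 0 := by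
    intro n0 n1 n2 n3 n4 n5 n6 hk
    refine Eq.trans (b := (n0 * dd Q x z 0 0 1 1 0 0 * dd Q x z 0 1 0 0 0 2 * dd Q x z 1 1 0 0 0 1 * dd Q x z 1 1 0 0 0 0 * dd Q x z 1 0 1 0 0 0 * dd Q x z 0 1 0 1 0 1 + n1 * dd Q x z 0 1 0 1 0 0 * dd Q x z 0 2 0 0 0 1 * dd Q x z 1 1 0 0 0 1 * dd Q x z 1 1 0 0 0 0 * dd Q x z 1 0 1 0 0 0 * dd Q x z 0 1 0 1 0 1 + n2 * dd Q x z 0 1 0 1 0 0 * dd Q x z 0 1 1 0 0 0 * dd Q x z 0 0 1 1 0 0 * dd Q x z 1 1 0 0 0 0 * dd Q x z 1 0 1 0 0 0 * dd Q x z 0 1 0 1 0 1 + n3 * dd Q x z 0 1 0 1 0 0 * dd Q x z 0 0 1 1 0 0 * dd Q x z 0 1 0 0 0 2 * dd Q x z 1 1 0 0 0 1 * dd Q x z 1 0 1 0 0 0 * dd Q x z 0 1 0 1 0 1 + n4 * dd Q x z 0 1 0 1 0 0 * dd Q x z 0 2 0 0 0 1 * dd Q x z 0 0 1 1 0 0 * dd Q x z 1 1 0 0 0 1 * dd Q x z 1 1 0 0 0 0 * dd Q x z 0 1 0 1 0 1 + n5 * dd Q x z 0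 1 0 1 0 0 * dd Q x z 0 1 1 0 0 0 * dd Q x z 0 0 1 1 0 0 * dd Q x z 1 1 0 0 0 1 * dd Q x z 1 1 0 0 0 0 * dd Q x z 1 0 1 0 0 0 + n6 * dd Q x z 0 0 1 0 0 0 * dd Q x z 0 1 0 0 0 0 * dd Q x z 0 1 0 0 0 1 * dd Q x z 0 1 1 0 0 0 * dd Q x z 0 2 0 0 0 1 * dd Q x z 0 1 0 0 0 2) / (1 * dd Q x z 0 0 1 0 0 0 * dd Q x z 0 1 0 0 0 0 * dd Q x z 0 1 0 0 0 1 * dd Q x z 0 1 0 1 0 0 * dd Q x z 0 1 1 0 0 0 * dd Q x z 0 2 0 0 0 1 * dd Q x z 0 0 1 1 0 0 * dd Q x z 0 1 0 0 0 2 * dd Q x z 1 1 0 0 0 1 * dd Q x z 1 1 0 0 0 0 * dd Q x z 1 0 1 0 0 0 * dd Q x z 0 1 0 1 0 1)) ?_ (by rw [hk, zero_div])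
    field_simp <;> ring
  have fin2 := fin _ _ _ _ _ _ _ key
  linear_combination t0 + t1 + t2 + t3 + t4 + t5 + t6 + fin2

/-- Effect of the first Demazure operator on rational forms. -/
def F1 (S : K → K → K → K → K → K → K → K → K → K → K → K → K)
    (X0 X1 X2 X3 X4 X5 G0 G1 G2 G3 G4 G5 : K) : K :=
  (1 - X2)⁻¹ * (S X0 X1 X2 X3 X4 X5 G0 G1 G2 G3 G4 G5 - X2 * S X1 X0 X5 X4 X3 X2 G1 G0 G5 G4 G3 G2)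

/-- Effect of the second Demazure operator on rational forms. -/
def F2 (S : K → K → K → K → K → K → K → K → K → K → K → K → K)
    (X0 X1 X2 X3 X4 X5 G0 G1 G2 G3 G4 G5 : K) : K :=
  (1 - X4 * X5)⁻¹ *
    (S X0 X1 X2 X3 X4 X5 G0 G1 G2 G3 G4 G5 - X4 * X5 * S X0 X5 X4 X3 X2 X1 G0 G5 G4 G3 G2 G1)

/-- The starting form. -/
def F0 (X0 X1 X2 X3 X4 X5 G0 G1 G2 G3 G4 G5 : K) : K := G0

theorem F5_eq {Q X0 X1 X2 X3 X4 X5 : K} (h : Frame Q X0 X1 X2 X3 X4 X5) (G0 G1 G2 G3 G4 G5 : K) :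
    F1 (F2 (F1 (F2 (F1 F0)))) X0 X1 X2 X3 X4 X5 G0 G1 G2 G3 G4 G5 =
      gC X0 X1 * G0 + gC X1 X2 * G1 + gC X2 X3 * G2 + gC X3 X4 * G3 + gC X4 X5 * G4 + gC X5 X0 * G5 := by
  obtain ⟨nd, h2, h3, h4, h5⟩ := h
  subst h2 h3 h4 h5
  generalize X0 = x at *
  generalize X1 = z at *
  have hQ := nd.hQ
  have hx := nd.hx
  have hz := nd.hz
  have d0 := nd.ne 0 0 1 0 0 0 (by decide)
  have d1 := nd.ne 0 1 0 0 0 0 (by decide)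
  have d2 := nd.ne 0 1 0 0 0 1 (by decide)
  have d3 := nd.ne 0 1 0 0 0 2 (by decide)
  have d4 := nd.ne 0 1 1 0 0 0 (by decide)
  have d5 := nd.ne 0 2 0 0 0 1 (by decide)
  have f0 := nd.inv1 0 1 0 0 0 1 ((z / x)) (by field_simp)
  have f1 := nd.inv2 0 1 0 0 0 2 (z⁻¹ * (x / z)) (by field_simp)
  have f2 := nd.inv1 0 0 1 0 0 0 (z⁻¹) (by field_simp)
  have f3 := nd.inv1 0 2 0 0 0 1 (x⁻¹ * (z / x)) (by field_simp)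
  have f4 := nd.inv2 0 1 0 0 0 1 ((x / z)) (by field_simp)
  have f5 := nd.inv1 0 1 0 0 0 0 (x⁻¹) (by field_simp)
  have f6 := nd.inv1 0 1 0 0 0 2 ((z / x) * z) (by field_simp)
  have f7 := nd.inv1 0 1 1 0 0 0 (x⁻¹ * z⁻¹) (by field_simp)
  have f8 := nd.inv2 0 0 1 0 0 0 (z) (by field_simp)
  have f9 := nd.inv2 0 2 0 0 0 1 ((x / z) * x) (by field_simp)
  have f10 := nd.inv1 0 1 1 0 0 0 (z⁻¹ * x⁻¹) (by field_simp)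
  have f11 := nd.inv2 0 1 0 0 0 0 (x) (by field_simp)
  have f12 := nd.inv1 0 1 0 0 0 0 (1 / x) (by field_simp)
  have f13 := nd.inv1 0 1 0 0 0 1 (z / x) (by field_simp)
  have f14 := nd.inv1 0 0 1 0 0 0 (1 / z) (by field_simp)
  have f15 := nd.inv1 0 2 0 0 0 1 (z / x ^ 2) (by field_simp)
  have f16 := nd.inv1 0 1 1 0 0 0 (1 / (x * z)) (by field_simp)
  have f17 := nd.inv1 0 1 0 0 0 0 ((z / x) / z) (by field_simp)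
  have f18 := nd.inv2 0 1 0 0 0 1 (1 / (z / x)) (by field_simp)
  have f19 := nd.inv1 0 1 1 0 0 0 ((z / x) / z ^ 2) (by field_simp)
  have f20 := nd.inv2 0 1 0 0 0 2 (1 / (z * (z / x))) (by field_simp)
  have f21 := nd.inv1 0 0 1 0 0 0 (x⁻¹ / (z / x)) (by field_simp)
  have f22 := nd.inv2 0 1 0 0 0 0 (1 / x⁻¹) (by field_simp)
  have f23 := nd.inv2 0 1 0 0 0 2 (x⁻¹ / (z / x) ^ 2) (by field_simp)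
  have f24 := nd.inv2 0 2 0 0 0 1 (1 / ((z / x) * x⁻¹)) (by field_simp)
  have f25 := nd.inv2 0 1 0 0 0 1 (z⁻¹ / x⁻¹) (by field_simp)
  have f26 := nd.inv2 0 0 1 0 0 0 (1 / z⁻¹) (by field_simp)
  have f27 := nd.inv2 0 2 0 0 0 1 (z⁻¹ / x⁻¹ ^ 2) (by field_simp)
  have f28 := nd.inv2 0 1 1 0 0 0 (1 / (x⁻¹ * z⁻¹)) (by field_simp)
  have f29 := nd.inv2 0 1 0 0 0 0 ((x / z) / z⁻¹) (by field_simp)
  have f30 := nd.inv1 0 1 0 0 0 1 (1 / (x / z)) (by field_simp)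
  have f31 := nd.inv2 0 1 1 0 0 0 ((x / z) / z⁻¹ ^ 2) (by field_simp)
  have f32 := nd.inv1 0 1 0 0 0 2 (1 / (z⁻¹ * (x / z))) (by field_simp)
  have f33 := nd.inv2 0 0 1 0 0 0 (x / (x / z)) (by field_simp)
  have f34 := nd.inv1 0 1 0 0 0 2 (x / (x / z) ^ 2) (by field_simp)
  have f35 := nd.inv1 0 2 0 0 0 1 (1 / ((x / z) * x)) (by field_simp)
  simp only [F1, F2, F0, gC]
  simp only [f0, f1, f2, f3, f4, f5, f6, f7, f8, f9, f10, f11, f12, f13, f14, f15, f16, f17, f18, f19, f20, f21, f22, f23, f24, f25, f26, f27, f28, f29, f30, f31, f32, f33, f34, f35]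
  field_simp
  simp only [dd]
  ring

end Pool.Agent.MP_7258fc_nt.H38
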