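import Pool.Agent.MP_7258fc_nt.H38.Ops
import Pool.Agent.MP_7258fc_nt.H38.Sym

namespace Pool.Agent.MP_7258fc_nt.H38

variable {K : Type*} [Field K]

/-- The image of `q`. -/
noncomputable def Qe (ev : L →+* K) : K := ev (algebraMap R L q)

/-- The frame attached to an evaluation. -/
def Fr (ev : L →+* K) : Prop :=
  Frame (Qe ev) (ev (mo (1, 0))) (ev (mo (0, 1))) (ev (mo (-1, 1))) (ev (mo (-1, 0)))
    (ev (mo (0, -1))) (ev (mo (1, -1)))

theorem ev_smul (ev : L →+* K) (k : ℤ) (f : L) : ev (q ^ k • f) = Qe ev ^ k * ev f := by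
  rw [Algebra.smul_def, map_mul, Qe]
  congr 1
  exact map_zpow₀ (ev.comp (algebraMap R L)) q k

theorem ev_q_smul (ev : L →+* K) (f : L) : ev (q • f) = Qe ev * ev f := by
  simpa using ev_smul ev 1 f

/-- Composition of an evaluation with a substitution. -/
noncomputable def evc (ev : L →+* K) (w : L →ₐ[R] L) : L →+* K := ev.comp (w : L →+* L)

theorem evc_apply (ev : L →+* K) (w : L →ₐ[R] L) (f : L) : evc ev w f = ev (w f) := rfl

theorem Qe_evc (ev : L →+* K) (w : L →ₐ[R] L) : Qe (evc ev w) = Qe ev := by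
  rw [Qe, evc_apply, AlgHom.commutes, Qe]

theorem ev_mo_zsmul (ev : L →+* K) (v : V) (k : ℤ) : ev (mo (k • v)) = ev (mo v) ^ k := by
  have h1 : ev (mo v) * ev (mo (-v)) = 1 := by
    rw [← map_mul, mo_mul, add_neg_cancel, mo_zero, map_one]
  have h0 : ev (mo v) ≠ 0 := left_ne_zero_of_mul_eq_one h1
  induction k using Int.induction_on with
  | zero => simp [mo_zero]
  | succ n ih => rw [add_smul, one_smul, ← mo_mul, map_mul, ih, zpow_add_one₀ h0]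
  | pred n ih =>
    rw [sub_smul, one_smul, sub_eq_add_neg, ← mo_mul, map_mul, ih, zpow_sub_one₀ h0,
      eq_inv_of_mul_eq_one_right h1]

theorem Fr.s1 {ev : L →+* K} (h : Fr ev) : Fr (evc ev s1) := by
  have := Frame.flip h
  simpa [Fr, Qe_evc, evc_apply, s1_mo] using this

theorem Fr.s2 {ev : L →+* K} (h : Fr ev) : Fr (evc ev s2) := by
  have := (Frame.flip h).rot
  simpa [Fr, Qe_evc, evc_apply, s2_mo] using this

theorem evc_T0 (ev : L →+* K) (u v : ℤ) :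
    evc ev (T u v) (mo (1, 0)) = Qe ev ^ u * ev (mo (1, 0)) := by
  simp [evc_apply, T_mo, ev_smul]
theorem evc_T1 (ev : L →+* K) (u v : ℤ) :
    evc ev (T u v) (mo (0, 1)) = Qe ev ^ v * ev (mo (0, 1)) := by
  simp [evc_apply, T_mo, ev_smul]
theorem evc_T2 (ev : L →+* K) (u v : ℤ) :
    evc ev (T u v) (mo (-1, 1)) = Qe ev ^ (v - u) * ev (mo (-1, 1)) := by
  rw [evc_apply, T_mo, ev_smul]; congr 2; simp only; ring
theorem evc_T3 (ev : L →+* K) (u v : ℤ) :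
    evc ev (T u v) (mo (-1, 0)) = Qe ev ^ (-u) * ev (mo (-1, 0)) := by
  rw [evc_apply, T_mo, ev_smul]; congr 2; simp only; ring
theorem evc_T4 (ev : L →+* K) (u v : ℤ) :
    evc ev (T u v) (mo (0, -1)) = Qe ev ^ (-v) * ev (mo (0, -1)) := by
  rw [evc_apply, T_mo, ev_smul]; congr 2; simp only; ring
theorem evc_T5 (ev : L →+* K) (u v : ℤ) :
    evc ev (T u v) (mo (1, -1)) = Qe ev ^ (u - v) * ev (mo (1, -1)) := by
  rw [evc_apply, T_mo, ev_smul]; congr 2; simp only; ring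

theorem Fr.T {ev : L →+* K} (h : Fr ev) (u v : ℤ) : Fr (evc ev (T u v)) := by
  have := Frame.shift h u v
  rw [Fr, Qe_evc, evc_T0, evc_T1, evc_T2, evc_T3, evc_T4, evc_T5]
  exact this

/-- Rotations. -/
noncomputable def r1 : L →ₐ[R] L := aff 0 (-1) 1 1 0 0
/-- Rotations. -/
noncomputable def r2 : L →ₐ[R] L := aff (-1) (-1) 1 0 0 0
/-- Rotations. -/
noncomputable def r3 : L →ₐ[R] L := aff (-1) 0 0 (-1) 0 0
/-- Rotations. -/
noncomputable def r4 : L →ₐ[R] L := aff 0 1 (-1) (-1) 0 0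
/-- Rotations. -/
noncomputable def r5 : L →ₐ[R] L := aff 1 1 (-1) 0 0 0

theorem s1_rot {g : L} (hg : s2 g = g) : s1 g = r1 g ∧ s1 (r1 g) = g ∧ s1 (r2 g) = r5 g ∧
    s1 (r3 g) = r4 g ∧ s1 (r4 g) = r3 g ∧ s1 (r5 g) = r2 g := by
  refine ⟨?_, ?_, ?_, ?_, ?_, ?_⟩ <;> conv_rhs => rw [← hg]
  all_goals simp [s1, s2, r1, r2, r3, r4, r5, aff_aff]

theorem s2_rot {g : L} (hg : s2 g = g) : s2 (r1 g) = r5 g ∧ s2 (r2 g) = r4 g ∧
    s2 (r3 g) = r3 g ∧ s2 (r4 g) = r2 g ∧ s2 (r5 g) = r1 g := by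
  refine ⟨?_, ?_, ?_, ?_, ?_⟩ <;> conv_rhs => rw [← hg]
  all_goals simp [s2, r1, r2, r3, r4, r5, aff_aff]

theorem Inv.rot {f : L} (h : Inv f) : r1 f = f ∧ r2 f = f ∧ r3 f = f ∧ r4 f = f ∧ r5 f = f := by
  obtain ⟨a0, a1, a2, a3, a4, a5⟩ := s1_rot h.h2
  obtain ⟨b1, b2, b3, b4, b5⟩ := s2_rot h.h2
  have c1 : r1 f = f := by rw [← a0, h.h1]
  have c5 : r5 f = f := by rw [← b1, c1, h.h2]
  have c2 : r2 f = f := by rw [← a5, c5, h.h1]
  have c4 : r4 f = f := by rw [← b2, c2, h.h2]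
  have c3 : r3 f = f := by rw [← a4, c4, h.h1]
  exact ⟨c1, c2, c3, c4, c5⟩

/-- `h` is given by the rational form `S` in the rotations of `g`. -/
def Form (K : Type*) [Field K] (S : K → K → K → K → K → K → K → K → K → K → K → K → K)
    (h g : L) : Prop :=
  ∀ ev : L →+* K, Fr ev → ev h = S (ev (mo (1, 0))) (ev (mo (0, 1))) (ev (mo (-1, 1)))
    (ev (mo (-1, 0))) (ev (mo (0, -1))) (ev (mo (1, -1))) (ev g) (ev (r1 g)) (ev (r2 g))
    (ev (r3 g)) (ev (r4 g)) (ev (r5 g))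

theorem Frame.ne2 {Q X0 X1 X2 X3 X4 X5 : K} (h : Frame Q X0 X1 X2 X3 X4 X5) : 1 - X2 ≠ 0 := by
  obtain ⟨nd, rfl, rfl, rfl, rfl⟩ := h
  intro h0
  apply nd.ind 0 (-1) 1 (by simp)
  have hx := nd.hx
  rw [sub_eq_zero] at h0
  rw [h0]; field_simp

theorem Frame.ne45 {Q X0 X1 X2 X3 X4 X5 : K} (h : Frame Q X0 X1 X2 X3 X4 X5) :
    1 - X4 * X5 ≠ 0 := by
  obtain ⟨nd, rfl, rfl, rfl, rfl⟩ := h
  intro h0
  apply nd.ind 0 1 (-2) (by simp)
  have hx := nd.hz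
  rw [sub_eq_zero] at h0
  rw [h0]; field_simp

theorem Frame.ne0 {Q X0 X1 X2 X3 X4 X5 : K} (h : Frame Q X0 X1 X2 X3 X4 X5) :
    1 - X0 / Q ≠ 0 := by
  intro h0
  apply h.nd.ind (-1) 1 0 (by simp)
  have hx := h.nd.hQ
  rw [sub_eq_zero] at h0
  rw [h0]; field_simp

theorem Form.D1 {S : K → K → K → K → K → K → K → K → K → K → K → K → K} {h g : L}
    (hg : s2 g = g) (hS : Form K S h g) : Form K (F1 S) (D1 h) g := by
  intro ev hev
  have e1 := congrArg ev (D1_key h)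
  have e2 := hS _ hev.s1
  obtain ⟨a0, a1, a2, a3, a4, a5⟩ := s1_rot hg
  simp only [evc_apply, s1_mo, a0, a1, a2, a3, a4, a5] at e2
  rw [map_mul, map_sub, map_sub, map_mul, map_one, e2, hS ev hev] at e1
  rw [F1, eq_inv_mul_iff_mul_eq₀ (Frame.ne2 hev)]
  exact e1

theorem Form.D2 {S : K → K → K → K → K → K → K → K → K → K → K → K → K} {h g : L}
    (hg : s2 g = g) (hS : Form K S h g) : Form K (F2 S) (D2 h) g := by
  intro ev hev
  have e1 := congrArg ev (D2_key h)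
  have e2 := hS _ hev.s2
  obtain ⟨a1, a2, a3, a4, a5⟩ := s2_rot hg
  have e3 : mo (1, -2) = mo (0, -1) * mo (1, -1) := by rw [mo_mul]; rfl
  simp only [evc_apply, s2_mo, hg, a1, a2, a3, a4, a5] at e2
  norm_num at e2
  rw [map_mul, map_sub, map_sub, map_mul, map_one, e2, hS ev hev, e3, map_mul] at e1
  rw [F2, eq_inv_mul_iff_mul_eq₀ (Frame.ne45 hev)]
  exact e1

theorem ev_DD {ev : L →+* K} (hev : Fr ev) {g : L} (hg : s2 g = g) :
    ev (DD g) = gC (ev (mo (1, 0))) (ev (mo (0, 1))) * ev g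
      + gC (ev (mo (0, 1))) (ev (mo (-1, 1))) * ev (r1 g)
      + gC (ev (mo (-1, 1))) (ev (mo (-1, 0))) * ev (r2 g)
      + gC (ev (mo (-1, 0))) (ev (mo (0, -1))) * ev (r3 g)
      + gC (ev (mo (0, -1))) (ev (mo (1, -1))) * ev (r4 g)
      + gC (ev (mo (1, -1))) (ev (mo (1, 0))) * ev (r5 g) := by
  have h0 : Form K F0 g g := fun ev _ => rfl
  have h5 := ((((h0.D1 hg).D2 hg).D1 hg).D2 hg).D1 hg ev hev
  rw [DD_apply, h5, F5_eq hev]

theorem gC_flip {Q X0 X1 X2 X3 X4 X5 : K} (h : Frame Q X0 X1 X2 X3 X4 X5) :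
    gC X0 X5 = gC X0 X1 := by
  obtain ⟨nd, rfl, rfl, rfl, rfl⟩ := h
  have hx := nd.hx
  have hz := nd.hz
  have e1 : X0 / X1 / X0 = 1 / X1 := by field_simp
  have e2 : 1 / (X0 / X1) = X1 / X0 := by field_simp
  have e3 : X0 / X1 / X0 ^ 2 = 1 / (X0 * X1) := by field_simp
  have e4 : 1 / (X0 * (X0 / X1)) = X1 / X0 ^ 2 := by field_simp
  rw [gC, gC, e1, e2, e3, e4]; ring

/-- The embedding in the field of fractions. -/
noncomputable def ev0 : L →+* FractionRing L := algebraMap L (FractionRing L)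

theorem ev0_inj : Function.Injective ev0 := IsFractionRing.injective L (FractionRing L)

theorem Fr_ev0 : Fr ev0 := by
  have hm : ∀ v, ev0 (mo v) * ev0 (mo (-v)) = 1 := fun v => by
    rw [← map_mul, mo_mul, add_neg_cancel, mo_zero, map_one]
  have h0 : ∀ v, ev0 (mo v) ≠ 0 := fun v => left_ne_zero_of_mul_eq_one (hm v)
  refine ⟨⟨?_, h0 _, h0 _, fun k m n hmn h1 => ?_⟩, ?_, ?_, ?_, ?_⟩
  · exact (map_ne_zero (ev0.comp (algebraMap R L))).2 q_ne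
  · rw [← ev_mo_zsmul, ← ev_mo_zsmul, mul_assoc, ← map_mul, ← ev_smul, mo_mul,
      ← map_one ev0] at h1
    apply one_sub_mo_ne (q ^ k) (m • (1, 0) + n • (0, 1)) (by simp; omega)
    rw [ev0_inj h1, sub_self]
  · rw [eq_div_iff (h0 _), ← map_mul, mo_mul]; rfl
  · exact eq_inv_of_mul_eq_one_right (hm (1, 0))
  · exact eq_inv_of_mul_eq_one_right (hm (0, 1))
  · rw [eq_div_iff (h0 _), ← map_mul, mo_mul]; rfl

theorem inv_DD {g : L} (hg : s2 g = g) : Inv (DD g) := by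
  refine ⟨s1_D1 _, ev0_inj ?_⟩
  have hev := Fr_ev0
  have e2 := ev_DD hev.s2 hg
  obtain ⟨a1, a2, a3, a4, a5⟩ := s2_rot hg
  simp only [evc_apply, s2_mo, hg, a1, a2, a3, a4, a5] at e2
  norm_num at e2
  rw [e2, ev_DD hev hg, gC_flip hev, gC_flip (Frame.rot hev), gC_flip (Frame.rot hev).rot,
    gC_flip (Frame.rot hev).rot.rot, gC_flip (Frame.rot hev).rot.rot.rot,
    gC_flip (Frame.rot hev).rot.rot.rot.rot]
  ring

theorem Inv.M (k : ℤ) {f : L} (h : Inv f) : Inv (M k f) := inv_DD (s2_D0 k h.h2)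

theorem ev_rot (ev : L →+* K) (k a b c d u v : ℤ) {f : L} (hf : st f = f)
    (hw : aff a b c d 0 0 f = f)
    (hT : aff a b c d 0 0 (T (-2) (-1) f) = T u v (aff a b c d 0 0 f))
    (hne : 1 - ev (mo (a, c)) / Qe ev ≠ 0) :
    ev (aff a b c d 0 0 (D0 k f)) = (1 - ev (mo (a, c)) / Qe ev)⁻¹ *
      (ev f - (ev (mo (a, c)) / Qe ev) ^ (k + 1) * ev (T u v f)) := by
  have hy : ∀ k : ℤ, ev (aff a b c d 0 0 (yk k)) = (ev (mo (a, c)) / Qe ev) ^ k := by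
    intro k
    rw [yk, map_smul, aff_mo, ev_smul, div_zpow, ← ev_mo_zsmul]
    simp [mul_comm, div_eq_mul_inv]
  have e1 := congrArg (fun g => ev (aff a b c d 0 0 g)) (D0_key k f)
  simp only [map_mul, map_sub, map_one, hy, hf, hT, hw, zpow_one] at e1
  rw [eq_inv_mul_iff_mul_eq₀ hne]
  exact e1

theorem gA_eq {Q X0 X1 X2 X3 X4 X5 : K} (h : Frame Q X0 X1 X2 X3 X4 X5) (k : ℤ) :
    gC X0 X1 * (1 - X0 / Q)⁻¹ * (X0 / Q) ^ (k + 1) = -(gA Q X0 X1 * (X0 / Q) ^ k) := by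
  have hQ := h.nd.hQ
  have hx := h.nd.hx
  have e1 : 1 - Q / X0 = -(1 - X0 / Q) * (X0 / Q)⁻¹ := by field_simp; ring
  rw [gA, e1, zpow_add_one₀ (div_ne_zero hx hQ), mul_inv, inv_inv, inv_neg]
  ring

theorem ev_M {ev : L →+* K} (hev : Fr ev) (k : ℤ) {f : L} (h : Inv f) :
    ev (M k f) = Mr k (Qe ev) (ev (mo (1, 0))) (ev (mo (0, 1))) (ev (mo (-1, 1)))
      (ev (mo (-1, 0))) (ev (mo (0, -1))) (ev (mo (1, -1))) (fun u v => ev (T u v f)) := by
  obtain ⟨c1, c2, c3, c4, c5⟩ := h.rot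
  have e0 := ev_rot ev k 1 0 0 1 (-2) (-1) h.st (aff_id f) (by simp [aff_id]) (Frame.ne0 hev)
  have e1 := ev_rot ev k 0 (-1) 1 1 (-1) (-2) h.st c1 (by simp [T, aff_aff]) (Frame.rot hev).ne0
  have e2 := ev_rot ev k (-1) (-1) 1 0 1 (-1) h.st c2 (by simp [T, aff_aff])
    (Frame.rot hev).rot.ne0
  have e3 := ev_rot ev k (-1) 0 0 (-1) 2 1 h.st c3 (by simp [T, aff_aff])
    (Frame.rot hev).rot.rot.ne0
  have e4 := ev_rot ev k 0 1 (-1) (-1) 1 2 h.st c4 (by simp [T, aff_aff])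
    (Frame.rot hev).rot.rot.rot.ne0
  have e5 := ev_rot ev k 1 1 (-1) 0 (-1) 1 h.st c5 (by simp [T, aff_aff])
    (Frame.rot hev).rot.rot.rot.rot.ne0
  rw [aff_id] at e0
  have g0 := gA_eq hev k
  have g1 := gA_eq (Frame.rot hev) k
  have g2 := gA_eq (Frame.rot hev).rot k
  have g3 := gA_eq (Frame.rot hev).rot.rot k
  have g4 := gA_eq (Frame.rot hev).rot.rot.rot k
  have g5 := gA_eq (Frame.rot hev).rot.rot.rot.rot k
  have gp := gP_aux hev
  rw [M_apply, ev_DD hev (s2_D0 k h.h2), r1, r2, r3, r4, r5, e0, e1, e2, e3, e4, e5, Mr]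
  simp only [T_zero]
  linear_combination ev f * gp - ev (T (-2) (-1) f) * g0 - ev (T (-1) (-2) f) * g1
    - ev (T 1 (-1) f) * g2 - ev (T 2 1 f) * g3 - ev (T 1 2 f) * g4 - ev (T (-1) 1 f) * g5

theorem ev_MM {ev : L →+* K} (hev : Fr ev) (a b : ℤ) {f : L} (h : Inv f) :
    ev (M a (M b f)) = MM a b (Qe ev) (ev (mo (1, 0))) (ev (mo (0, 1))) (ev (mo (-1, 1)))
      (ev (mo (-1, 0))) (ev (mo (0, -1))) (ev (mo (1, -1))) (fun u v => ev (T u v f)) := by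
  rw [ev_M hev a (h.M b), MM]
  congr 1
  funext u v
  have := ev_M (hev.T u v) b h
  rw [Qe_evc, evc_T0, evc_T1, evc_T2, evc_T3, evc_T4, evc_T5] at this
  simpa only [evc_apply, T_T] using this

end Pool.Agent.MP_7258fc_nt.H38
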