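import Pool.Agent.MP_7258fc_nt.H38.Tri

namespace Pool.Agent.MP_7258fc_nt.H38

open Finset

/-- The quadratic form of the lattice. -/
def Qf (v : V) : ℤ := v.1 ^ 2 + v.1 * v.2 + v.2 ^ 2

/-- Lattice points of small norm. -/
noncomputable def ball (N : ℤ) : Finset V := (Icc (-N) N ×ˢ Icc (-N) N).filter fun v => Qf v < N

theorem Qf_bound {v : V} {N : ℤ} (h : Qf v < N) :
    (-N ≤ v.1 ∧ v.1 ≤ N) ∧ (-N ≤ v.2 ∧ v.2 ≤ N) := by
  obtain ⟨a, b⟩ := v
  simp only [Qf] at *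
  refine ⟨⟨?_, ?_⟩, ?_, ?_⟩ <;> by_contra hc <;>
    nlinarith [sq_nonneg (a + 2 * b), sq_nonneg (2 * a + b), sq_nonneg a, sq_nonneg b,
      sq_nonneg (a + 1), sq_nonneg (b + 1), sq_nonneg (a - 1), sq_nonneg (b - 1)]

theorem mem_ball {v : V} {N : ℤ} : v ∈ ball N ↔ Qf v < N := by
  simp only [ball, mem_filter, mem_product, mem_Icc]
  exact ⟨fun h => h.2, fun h => ⟨Qf_bound h, h⟩⟩

theorem Qf_nonneg (v : V) : 0 ≤ Qf v := by
  simp only [Qf]
  nlinarith [sq_nonneg (v.1 + 2 * v.2), sq_nonneg v.1]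

/-- The truncated theta function. -/
noncomputable def Th (N : ℤ) : L := ∑ v ∈ ball N, q ^ Qf v • mo v

theorem coeff_Th (N : ℤ) (v : V) : (Th N).coeff v = if Qf v < N then q ^ Qf v else 0 := by
  rw [Th, ← cf_apply, map_sum]
  simp only [map_smul, cf_apply, coeff_mo, smul_eq_mul, mul_ite, mul_one, mul_zero, sum_ite_eq',
    mem_ball]

theorem inv_Th (N : ℤ) : Inv (Th N) := by
  constructor
  · ext ⟨a, b⟩
    have : Qf (b, a) = Qf (a, b) := by simp only [Qf]; ring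
    rw [coeff_s1, coeff_Th, coeff_Th, this]
  · ext ⟨a, b⟩
    have h := coeff_s2 (Th N) (a + b) (-b)
    have : Qf (a + b, -b) = Qf (a, b) := by simp only [Qf]; ring
    rw [add_neg_cancel_right, neg_neg] at h
    rw [h, coeff_Th, coeff_Th, this]

theorem ord_Th (N : ℤ) : Ord 0 (Th N) :=
  Ord.sum _ _ fun v _ => (Ord.zmo _ _).mono (Qf_nonneg v)

theorem sup_Th (N : ℤ) : Sup (hull (3 * N) (2 * N)) (Th N) :=
  Sup.sum _ _ fun v hv => (Sup.mo (by
    have := Qf_bound (mem_ball.1 hv)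
    simp only [hull]; omega)).smul _

theorem coeff_T (a b : ℤ) (g : L) (v : V) :
    (T a b g).coeff v = q ^ (a * v.1 + b * v.2) * g.coeff v := by
  refine lin_ext (T := cf v ∘ₗ (T a b).toLinearMap) (S := q ^ (a * v.1 + b * v.2) • cf v)
    (fun w => ?_) g
  simp only [LinearMap.comp_apply, AlgHom.toLinearMap_apply, T_mo, map_smul, cf_apply, coeff_mo,
    LinearMap.smul_apply, smul_eq_mul]
  split_ifs with h
  · rw [h]
  · simp

/-- The defect of quasi-periodicity. -/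
noncomputable def del (N : ℤ) : L := Th N - yk (-1) * T (-2) (-1) (Th N)

theorem ord_del (K : ℤ) (hK : 0 ≤ K) : Ord K (del (5 * K + 1)) := by
  rintro ⟨a, b⟩
  have e1 : (yk (-1) * T (-2) (-1) (Th (5 * K + 1))).coeff (a, b) =
      if Qf (a + 1, b) < 5 * K + 1 then q ^ Qf (a, b) else 0 := by
    rw [yk, smul_mul_assoc, AddMonoidAlgebra.coeff_smul_apply, coeff_mo_mul, coeff_T, coeff_Th]
    have : ((a, b) : V) - (-1, 0) = (a + 1, b) := by simp
    rw [this]
    split_ifs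
    · rw [smul_eq_mul, ← zpow_add₀ q_ne, ← zpow_add₀ q_ne]
      congr 1
      simp only [Qf]; ring
    · simp
  rw [del, AddMonoidAlgebra.coeff_sub, Finsupp.sub_apply, e1, coeff_Th]
  split_ifs with h1 h2 h2
  · simpa using O.zero _
  · rw [sub_zero]
    refine (O.zpow _).mono ?_
    simp only [Qf] at *
    nlinarith [sq_nonneg b, sq_nonneg (2 * a + b), sq_nonneg (2 * a + b - 1)]
  · rw [zero_sub]
    exact ((O.zpow _).mono (by omega)).neg
  · simpa using O.zero _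

theorem Ord.yk_mul {d : ℤ} {f : L} (h : Ord d f) (k : ℤ) : Ord (d - k) (yk k * f) := by
  rw [yk, smul_mul_assoc]
  exact (Ord.smul (O.zpow _) (h.mo_mul _)).mono (by omega)

theorem ord_of_unit {d K : ℤ} {h : L} (h0 : Ord d h) (h1 : Ord K ((1 - yk (-1)) * h)) :
    Ord K h := by
  have key : ∀ n : ℕ, Ord (min K (d + n)) h := by
    intro n
    induction n with
    | zero => exact h0.mono (by omega)
    | succ n ih =>
      have : h = (1 - yk (-1)) * h + yk (-1) * h := by ring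
      rw [this]
      exact (h1.mono (by omega)).add ((ih.yk_mul (-1)).mono (by omega))
  exact (key (K - d).toNat).mono (by omega)

theorem ord_D0_Th (K : ℤ) (hK : 0 ≤ K) : Ord K (D0 (-2) (Th (5 * K + 1))) := by
  refine ord_of_unit ((ord_Th _).D0 (by omega) (sup_Th _)) ?_
  have e := D0_key (-2) (Th (5 * K + 1))
  rw [(inv_Th _).st, show (-2 : ℤ) + 1 = -1 by norm_num, ← del] at e
  have e2 : yk (-1) * yk 1 = 1 := by rw [yk_mul]; exact yk_zero
  have : (1 - yk (-1)) * D0 (-2) (Th (5 * K + 1)) = -(yk (-1) * del (5 * K + 1)) := by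
    linear_combination (-yk (-1)) * e - D0 (-2) (Th (5 * K + 1)) * e2
  rw [this]
  exact (((ord_del K hK).yk_mul (-1)).mono (by omega)).neg

theorem ord_Mm2_Th (K : ℤ) (hK : 0 ≤ K) : Ord K (M (-2) (Th (5 * K + 1))) := (ord_D0_Th K hK).DD

theorem ord_Mm1_Th (K : ℤ) (hK : 0 ≤ K) :
    Ord K (M (-1) (Th (5 * K + 1)) - Th (5 * K + 1)) := by
  have e := D0_sub (-1) (Th (5 * K + 1))
  rw [(inv_Th _).st, show (-1 : ℤ) - 1 = -2 by norm_num] at e
  have : M (-1) (Th (5 * K + 1)) - Th (5 * K + 1) =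
      DD (D0 (-2) (Th (5 * K + 1)) - del (5 * K + 1)) := by
    have e3 : D0 (-2) (Th (5 * K + 1)) - del (5 * K + 1) =
        D0 (-1) (Th (5 * K + 1)) - Th (5 * K + 1) := by rw [del]; linear_combination -e
    rw [e3, map_sub, DD_fix (inv_Th _), M_apply]
  rw [this]
  exact ((ord_D0_Th K hK).sub (ord_del K hK)).DD

/-- The coefficient of the first lowering operator. -/
noncomputable def c1 (i j : ℕ) : R := q * (q ^ i)⁻¹ ^ 2 * (q ^ j)⁻¹ ^ 3 * (1 - q ^ i)
/-- First coefficient of the second lowering operator. -/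
noncomputable def c2 (i j : ℕ) : R :=
  q ^ 2 * (q ^ i)⁻¹ ^ 2 * (q ^ j)⁻¹ ^ 3 * (1 - q ^ i) * (1 - q ^ i * q⁻¹)
/-- Second coefficient of the second lowering operator. -/
noncomputable def d2 (i j : ℕ) : R := q ^ 2 * (q ^ i)⁻¹ * (q ^ j)⁻¹ ^ 3 * (1 - (q ^ j) ^ 3)

theorem rec1 {K : ℤ} {e : ℕ × ℕ →₀ R} (h : Ord K (M (-1) (lc e) - lc e)) (i j : ℕ) :
    O K (c1 (i + 1) j * e (i + 1, j) - e (i, j)) := by
  let m1 : (ℕ × ℕ →₀ R) →ₗ[R] (ℕ × ℕ →₀ R) :=
    Finsupp.linearCombination R fun μ => Finsupp.single (μ.1 - 1, μ.2) (c1 μ.1 μ.2)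
  have h1 : lc ∘ₗ m1 = M (-1) ∘ₗ lc := by
    refine Finsupp.lhom_ext fun μ c => ?_
    simp only [m1, LinearMap.comp_apply, Finsupp.linearCombination_single, map_smul, lc_single,
      (act _ _).a1, c1]
  have h2 : Finsupp.lapply (i, j) ∘ₗ m1 = c1 (i + 1) j • Finsupp.lapply (i + 1, j) := by
    refine Finsupp.lhom_ext fun ⟨a, b⟩ c => ?_
    simp only [m1, LinearMap.comp_apply, Finsupp.linearCombination_single, map_smul,
      Finsupp.lapply_apply, LinearMap.smul_apply, Finsupp.single_apply, smul_eq_mul, Prod.ext_iff]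
    rcases a with _ | a
    · simp [c1]
    · by_cases hc : a = i ∧ b = j
      · obtain ⟨rfl, rfl⟩ := hc
        simp [mul_comm]
      · rw [if_neg (by simpa using hc), if_neg (by simpa using hc)]; simp
  have h3 : M (-1) (lc e) - lc e = lc (m1 e - e) := by
    rw [map_sub]; congr 1; exact (LinearMap.congr_fun h1 e).symm
  rw [h3] at h
  have h4 := ord_lc h (i, j)
  have h5 : m1 e (i, j) = c1 (i + 1) j * e (i + 1, j) := LinearMap.congr_fun h2 e
  rwa [Finsupp.sub_apply, h5] at h4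

theorem rec2 {K : ℤ} {e : ℕ × ℕ →₀ R} (h : Ord K (M (-2) (lc e))) (j : ℕ) :
    O K (c2 2 j * e (2, j) - d2 0 (j + 1) * e (0, j + 1)) := by
  let m2 : (ℕ × ℕ →₀ R) →ₗ[R] (ℕ × ℕ →₀ R) :=
    Finsupp.linearCombination R fun μ => Finsupp.single (μ.1 - 2, μ.2) (c2 μ.1 μ.2)
      - Finsupp.single (μ.1, μ.2 - 1) (d2 μ.1 μ.2)
  have h1 : lc ∘ₗ m2 = M (-2) ∘ₗ lc := by
    refine Finsupp.lhom_ext fun μ c => ?_
    simp only [m2, LinearMap.comp_apply, Finsupp.linearCombination_single, map_smul, lc_single,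
      map_sub, (act _ _).a2, c2, d2]
  have h2 : Finsupp.lapply (0, j) ∘ₗ m2 =
      c2 2 j • Finsupp.lapply (2, j) - d2 0 (j + 1) • Finsupp.lapply (0, j + 1) := by
    refine Finsupp.lhom_ext fun ⟨a, b⟩ c => ?_
    simp only [m2, LinearMap.comp_apply, Finsupp.linearCombination_single, map_smul,
      Finsupp.lapply_apply, LinearMap.smul_apply, Finsupp.single_apply, smul_eq_mul, Prod.ext_iff,
      LinearMap.sub_apply, Finsupp.sub_apply, mul_sub]
    congr 1
    · rcases a with _ | _ | a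
      · simp [c2]
      · simp [c2, q_ne]
      · by_cases hc : a = 0 ∧ b = j
        · obtain ⟨rfl, rfl⟩ := hc
          simp [mul_comm]
        · rw [if_neg (by omega), if_neg (by omega)]; simp
    · rcases b with _ | b
      · simp [d2]
      · by_cases hc : a = 0 ∧ b = j
        · obtain ⟨rfl, rfl⟩ := hc
          simp [mul_comm]
        · rw [if_neg (by omega), if_neg (by omega)]; simp
  have h3 : M (-2) (lc e) = lc (m2 e) := (LinearMap.congr_fun h1 e).symm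
  rw [h3] at h
  have h4 := ord_lc h (0, j)
  have h5 : m2 e (0, j) = c2 2 j * e (2, j) - d2 0 (j + 1) * e (0, j + 1) :=
    LinearMap.congr_fun h2 e
  rwa [h5] at h4

/-- The coefficients of the expansion of the theta function. -/
noncomputable def cc (i j : ℕ) : R := q ^ (i ^ 2 + 3 * i * j + 3 * j ^ 2) * io (wt i j)

theorem cc_zero : cc 0 0 = 1 := by simp [cc, wt_zero]

theorem io_wt1 (i j : ℕ) : (1 - q ^ (i + 1)) * io (wt (i + 1) j) = io (wt i j) := by
  simpa [q] using congrArg io (wt_succ_left i j)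

theorem io_wt2 (i j : ℕ) : (1 - q ^ (3 * (j + 1))) * io (wt i (j + 1)) = io (wt i j) := by
  simpa [q] using congrArg io (wt_succ_right i j)

theorem c1_cc (i j : ℕ) : c1 (i + 1) j * cc (i + 1) j = cc i j := by
  have hq := q_ne
  rw [c1, cc, cc, ← io_wt1 i j]
  field_simp
  ring

theorem c2_cc (j : ℕ) : c2 2 j * cc 2 j = d2 0 (j + 1) * cc 0 (j + 1) := by
  have hq := q_ne
  have h1 := io_wt1 0 j
  have h2 := io_wt1 1 j
  have h3 := io_wt2 0 j
  rw [c2, d2, cc, cc]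
  field_simp
  linear_combination (q ^ (9 * j + 3 * j ^ 2 + 7)) * ((1 - q) * h2 + h1 - h3)

theorem c1_eq (i j : ℕ) :
    c1 (i + 1) j = q ^ (-(2 * (i : ℤ) + 3 * j + 1)) * (1 - q ^ (i + 1)) := by
  have hq := q_ne
  simp only [c1, zpow_neg, zpow_add₀ hq, zpow_mul', zpow_natCast, zpow_ofNat]
  field_simp
  ring

theorem c2_eq (j : ℕ) : c2 2 j = q ^ (-(3 * (j : ℤ) + 2)) * ((1 - q ^ 2) * (1 - q ^ 1)) := by
  have hq := q_ne
  simp only [c2, zpow_neg, zpow_add₀ hq, zpow_mul', zpow_natCast, zpow_ofNat]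
  field_simp

theorem d2_eq (j : ℕ) : d2 0 (j + 1) = q ^ (-(3 * (j : ℤ) + 1)) * (1 - q ^ (3 * (j + 1))) := by
  have hq := q_ne
  simp only [d2, zpow_neg, zpow_add₀ hq, zpow_mul', zpow_natCast, zpow_ofNat]
  field_simp
  ring

theorem err_ord {K : ℤ} {e : ℕ × ℕ →₀ R} (h1 : Ord K (M (-1) (lc e) - lc e))
    (h2 : Ord K (M (-2) (lc e))) (i j : ℕ) :
    O (K + 2 * i + 3 * j - 2) (e (i, j) - e (0, 0) * cc i j) := by
  have step : ∀ i j : ℕ, O (K + 2 * i + 3 * j - 2) (e (i, j) - e (0, 0) * cc i j) →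
      O (K + 2 * (i + 1 : ℕ) + 3 * j - 2) (e (i + 1, j) - e (0, 0) * cc (i + 1) j) := by
    intro i j ih
    have ih' : O (K - 1) (e (i, j) - e (0, 0) * cc i j) := by
      by_cases h0 : i = 0 ∧ j = 0
      · obtain ⟨rfl, rfl⟩ := h0
        simpa [cc_zero] using O.zero _
      · exact ih.mono (by omega)
    have a := ((rec1 h1 i j).mono (show K - 1 ≤ K by omega)).add ih'
    have b : c1 (i + 1) j * e (i + 1, j) - e (i, j) + (e (i, j) - e (0, 0) * cc i j) =
        q ^ (-(2 * (i : ℤ) + 3 * j + 1)) *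
          ((1 - q ^ (i + 1)) * (e (i + 1, j) - e (0, 0) * cc (i + 1) j)) := by
      rw [← mul_assoc, ← c1_eq, ← c1_cc i j]; ring
    rw [b] at a
    exact (O.of_one_sub_mul _ (by omega) a.of_zmul).mono (by push_cast; omega)
  have all : ∀ j : ℕ, O (K + 2 * (0 : ℕ) + 3 * j - 2) (e (0, j) - e (0, 0) * cc 0 j) →
      ∀ i : ℕ, O (K + 2 * i + 3 * j - 2) (e (i, j) - e (0, 0) * cc i j) := by
    intro j h i
    induction i with
    | zero => exact h
    | succ i ih => exact step i j ih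
  induction j generalizing i with
  | zero => exact all 0 (by simpa [cc_zero] using O.zero _) i
  | succ j ih =>
    refine all (j + 1) ?_ i
    have a : O K (c2 2 j * (e (2, j) - e (0, 0) * cc 2 j)) := by
      rw [c2_eq]
      exact ((O.zpow _).mul ((O.one_sub 2).mul (O.one_sub 1))).mul' (ih 2) (by push_cast; omega)
    have a2 := a.sub (rec2 h2 j)
    have b : c2 2 j * (e (2, j) - e (0, 0) * cc 2 j) -
        (c2 2 j * e (2, j) - d2 0 (j + 1) * e (0, j + 1)) = q ^ (-(3 * (j : ℤ) + 1)) *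
          ((1 - q ^ (3 * (j + 1))) * (e (0, j + 1) - e (0, 0) * cc 0 (j + 1))) := by
      rw [← mul_assoc, ← d2_eq]
      linear_combination (-e (0, 0)) * c2_cc j
    rw [b] at a2
    exact (O.of_one_sub_mul _ (by omega) a2.of_zmul).mono (by push_cast; omega)

theorem ord_cc (i j : ℕ) : O ((i : ℤ) ^ 2 + 3 * i * j + 3 * j ^ 2) (cc i j) :=
  (O.pow _).mul' (O.io _) (by push_cast; omega)

theorem deep {K : ℤ} {e : ℕ × ℕ →₀ R} (he : lc e = Th (5 * K + 1)) (n : ℕ)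
    (hn : 7 * (n : ℤ) ^ 2 + n + 2 ≤ K) : O n (io (poch 1 n * poch 3 n) - e (0, 0)) := by
  have hK : 0 ≤ K := le_trans (by positivity) hn
  have herr := err_ord (he ▸ ord_Mm1_Th K hK) (he ▸ ord_Mm2_Th K hK)
  have h00 : O 0 (e (0, 0)) := ord_lc (he ▸ ord_Th _) _
  have h1 := lc_coeff e (n, n)
  have hQ : Qf ((n : ℤ) + n, (n : ℤ)) = 7 * (n : ℤ) ^ 2 := by simp only [Qf]; ring
  rw [he, coeff_Th, hQ, if_pos (by nlinarith [sq_nonneg (n : ℤ)])] at h1
  have h2 : O (7 * (n : ℤ) ^ 2 + n) (∑ ν ∈ e.support.erase (n, n),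
      e ν * (P ν.1 ν.2).coeff (((n, n) : ℕ × ℕ).1 + ((n, n) : ℕ × ℕ).2, (((n, n) : ℕ × ℕ).2 : ℤ))) := by
    refine O.sum _ _ fun ⟨i, j⟩ hν => ?_
    by_cases h0 : (P i j).coeff ((n : ℤ) + n, (n : ℤ)) = 0
    · simp only [h0, mul_zero]; exact O.zero _
    · have h3 := P_coeff_ne h0
      have h4 : i ≠ n ∨ j ≠ n := by
        by_contra h5
        exact ne_of_mem_erase hν (Prod.ext (by simp only; omega) (by simp only; omega))
      have h5 : (1 : ℤ) ≤ 5 * (i - n) + 9 * (j - n) := by omega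
      have h6 : 7 * (n : ℤ) ^ 2 + n ≤ (i : ℤ) ^ 2 + 3 * i * j + 3 * j ^ 2 := by
        nlinarith [sq_nonneg (2 * ((i : ℤ) - n) + 3 * (j - n)), sq_nonneg ((j : ℤ) - n),
          mul_le_mul_of_nonneg_left h5 (Int.natCast_nonneg n)]
      have h7 : O (7 * (n : ℤ) ^ 2 + n) (e (i, j)) := by
        have := ((herr i j).mono (show 7 * (n : ℤ) ^ 2 + n ≤ _ by omega)).add
          (h00.mul' (ord_cc i j) (by omega))
        simpa using this
      exact h7.mul' ((good i j).ord _) (by omega)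
  have h3 := h2.add ((herr n n).mono (by omega))
  have h4 : q ^ (7 * (n : ℤ) ^ 2) * (1 - e (0, 0) * io (wt n n)) = q ^ (7 * (n : ℤ) ^ 2) -
      e (0, 0) * cc n n := by
    rw [cc, ← zpow_natCast, show ((n ^ 2 + 3 * n * n + 3 * n ^ 2 : ℕ) : ℤ) = 7 * (n : ℤ) ^ 2 by
      push_cast; ring]
    ring
  have h5 : O (7 * (n : ℤ) ^ 2 + n) (q ^ (7 * (n : ℤ) ^ 2) * (1 - e (0, 0) * io (wt n n))) := by
    rw [h4]
    convert h3 using 1
    rw [h1]; ring
  have h6 := (O.io (poch 1 n * poch 3 n)).mul' h5.of_zmul (show (n : ℤ) ≤ _ by omega)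
  convert h6 using 1
  have h7 := congrArg io (wt_mul n n)
  rw [map_mul, map_one] at h7
  linear_combination e (0, 0) * h7

theorem expansion (φ : L →ₗ[R] R) (hφ : ∀ i j : ℕ, O (-(2 * i + 3 * j)) (φ (P i j))) (n : ℕ)
    {K : ℤ} (hn : 7 * (n : ℤ) ^ 2 + n + 2 ≤ K) :
    ∃ e0 : R, O n (io (poch 1 n * poch 3 n) - e0) ∧ ∃ T0 : Finset (ℕ × ℕ), ∀ T, T0 ⊆ T →
      O n (φ (Th (5 * K + 1)) - e0 * ∑ μ ∈ T, cc μ.1 μ.2 * φ (P μ.1 μ.2)) := by
  have hK : 0 ≤ K := le_trans (by positivity) hn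
  obtain ⟨e, he⟩ := exists_lc (inv_Th (5 * K + 1))
  have herr := err_ord (he ▸ ord_Mm1_Th K hK) (he ▸ ord_Mm2_Th K hK)
  refine ⟨e (0, 0), deep he n hn, e.support, fun T hT => ?_⟩
  have : φ (Th (5 * K + 1)) = ∑ μ ∈ T, e μ * φ (P μ.1 μ.2) := by
    rw [← he, lc_apply, map_sum]
    simp only [map_smul, smul_eq_mul]
    refine sum_subset hT fun μ _ hμ => ?_
    rw [Finsupp.notMem_support_iff.1 hμ, zero_mul]
  rw [this, mul_sum, ← sum_sub_distrib]
  refine O.sum _ _ fun ⟨i, j⟩ _ => ?_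
  have := (herr i j).mul' (hφ i j) (show (n : ℤ) ≤ _ by nlinarith [sq_nonneg (n : ℤ)])
  convert this using 1
  ring

end Pool.Agent.MP_7258fc_nt.H38
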