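import Pool.Agent.MP_7258fc_nt.H38.Pol

namespace Pool.Agent.MP_7258fc_nt.H38

open Finset

/-- Coefficient functional. -/
noncomputable def cf (w : V) : L →ₗ[R] R :=
  (Finsupp.lapply w) ∘ₗ (AddMonoidAlgebra.coeffLinearEquiv R).toLinearMap

theorem cf_apply (w : V) (g : L) : cf w g = g.coeff w := rfl

theorem coeff_mo_mul (w v : V) (g : L) : (mo w * g).coeff v = g.coeff (v - w) := by
  rw [mo, AddMonoidAlgebra.coeff_single_mul_apply, one_mul, sub_eq_neg_add]

theorem coeff_s1 (g : L) (a b : ℤ) : (s1 g).coeff (b, a) = g.coeff (a, b) := by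
  refine lin_ext (T := cf (b, a) ∘ₗ s1.toLinearMap) (S := cf (a, b)) (fun v => ?_) g
  simp only [LinearMap.comp_apply, AlgHom.toLinearMap_apply, s1_mo, cf_apply, coeff_mo,
    Prod.ext_iff]
  congr 1
  exact propext ⟨fun h => by omega, fun h => by omega⟩

theorem coeff_s2 (g : L) (a b : ℤ) : (s2 g).coeff (a + b, -b) = g.coeff (a, b) := by
  refine lin_ext (T := cf (a + b, -b) ∘ₗ s2.toLinearMap) (S := cf (a, b)) (fun v => ?_) g
  simp only [LinearMap.comp_apply, AlgHom.toLinearMap_apply, s2_mo, cf_apply, coeff_mo,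
    Prod.ext_iff]
  congr 1
  exact propext ⟨fun h => by omega, fun h => by omega⟩

theorem Inv.c1 {f : L} (h : Inv f) (a b : ℤ) : f.coeff (b, a) = f.coeff (a, b) := by
  rw [← coeff_s1 f a b, h.h1]

theorem Inv.c2 {f : L} (h : Inv f) (a b c d : ℤ) (hc : c = a + b) (hd : d = -b) :
    f.coeff (c, d) = f.coeff (a, b) := by
  rw [← coeff_s2 f a b, h.h2, hc, hd]

theorem Inv.orb {f : L} (h : Inv f) (a b : ℤ) :
    f.coeff (b, a) = f.coeff (a, b) ∧ f.coeff (a + b, -b) = f.coeff (a, b) ∧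
    f.coeff (-b, a + b) = f.coeff (a, b) ∧ f.coeff (a + b, -a) = f.coeff (a, b) ∧
    f.coeff (-a, a + b) = f.coeff (a, b) ∧ f.coeff (a, -a - b) = f.coeff (a, b) ∧
    f.coeff (-a - b, a) = f.coeff (a, b) ∧ f.coeff (b, -a - b) = f.coeff (a, b) ∧
    f.coeff (-a - b, b) = f.coeff (a, b) ∧ f.coeff (-b, -a) = f.coeff (a, b) ∧
    f.coeff (-a, -b) = f.coeff (a, b) := by
  have e1 := h.c1 a b
  have e2 := h.c2 a b (a + b) (-b) rfl rfl
  have e3 := (h.c1 _ _).trans e2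
  have e4 := (h.c2 b a (a + b) (-a) (by ring) rfl).trans e1
  have e5 := (h.c1 _ _).trans e4
  have e6 := (h.c2 (-b) (a + b) a (-a - b) (by ring) (by ring)).trans e3
  have e7 := (h.c1 _ _).trans e6
  have e8 := (h.c2 (-a) (a + b) b (-a - b) (by ring) (by ring)).trans e5
  have e9 := (h.c1 _ _).trans e8
  have e10 := (h.c2 (-a - b) a (-b) (-a) (by ring) rfl).trans e7
  have e11 := (h.c1 _ _).trans e10
  exact ⟨e1, e2, e3, e4, e5, e6, e7, e8, e9, e10, e11⟩

theorem Inv.dom {f : L} (h : Inv f) (v : V) :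
    ∃ i j : ℕ, f.coeff ((i : ℤ) + j, (j : ℤ)) = f.coeff v := by
  obtain ⟨a, b⟩ := v
  have key : ∀ m n : ℤ, 0 ≤ n → n ≤ m → f.coeff (m, n) = f.coeff (a, b) →
      ∃ i j : ℕ, f.coeff ((i : ℤ) + j, (j : ℤ)) = f.coeff (a, b) := by
    intro m n h1 h2 h3
    refine ⟨(m - n).toNat, n.toNat, ?_⟩
    rw [← h3]
    congr 2 <;> omega
  obtain ⟨e1, e2, e3, e4, e5, e6, e7, e8, e9, e10, e11⟩ := h.orb a b
  have : (0 ≤ b ∧ b ≤ a) ∨ (0 ≤ a ∧ a ≤ b) ∨ (0 ≤ -b ∧ -b ≤ a + b) ∨ (0 ≤ a + b ∧ a + b ≤ -b) ∨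
      (0 ≤ -a ∧ -a ≤ a + b) ∨ (0 ≤ a + b ∧ a + b ≤ -a) ∨ (0 ≤ -a - b ∧ -a - b ≤ a) ∨
      (0 ≤ a ∧ a ≤ -a - b) ∨ (0 ≤ -a - b ∧ -a - b ≤ b) ∨ (0 ≤ b ∧ b ≤ -a - b) ∨
      (0 ≤ -a ∧ -a ≤ -b) ∨ (0 ≤ -b ∧ -b ≤ -a) := by omega
  rcases this with h | h | h | h | h | h | h | h | h | h | h | h
  exacts [key _ _ h.1 h.2 rfl, key _ _ h.1 h.2 e1, key _ _ h.1 h.2 e2, key _ _ h.1 h.2 e3,
    key _ _ h.1 h.2 e4, key _ _ h.1 h.2 e5, key _ _ h.1 h.2 e6, key _ _ h.1 h.2 e7,
    key _ _ h.1 h.2 e8, key _ _ h.1 h.2 e9, key _ _ h.1 h.2 e10, key _ _ h.1 h.2 e11]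

theorem Inv.shrink {f : L} (h : Inv f) {E F : ℤ} (hs : Sup (hull (E + 1) F) f)
    (hp : pE (E + 1) f = 0) : Sup (hull E F) f := by
  have h0 : ∀ a b : ℤ, f.coeff (a, b) ≠ 0 → 2 * a + b ≠ E + 1 := by
    intro a b hne he
    have := congrArg (fun g : L => g.coeff (a, b)) hp
    simp only [pE, coeff_proj, he, if_true] at this
    exact hne (by simpa using this)
  rintro ⟨a, b⟩ hv
  obtain ⟨e1, e2, e3, e4, e5, e6, e7, e8, e9, e10, e11⟩ := h.orb a b
  have := hs _ hv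
  have g0 := h0 _ _ hv
  have g1 := h0 _ _ (e1 ▸ hv)
  have g3 := h0 _ _ (e3 ▸ hv)
  have g5 := h0 _ _ (e5 ▸ hv)
  have g7 := h0 _ _ (e7 ▸ hv)
  have g9 := h0 _ _ (e9 ▸ hv)
  simp only [hull] at *
  omega

/-- Triangularity. -/
structure Good (i j : ℕ) : Prop where
  sup : Sup (hull (2 * i + 3 * j) (i + 2 * j)) (P i j)
  ord : Ord 0 (P i j)
  top : (P i j).coeff ((i : ℤ) + j, (j : ℤ)) = 1

theorem Good.pE_succ {i j : ℕ} (h : Good i j) :
    pE (2 * i + 3 * j + 2) (P (i + 1) j) = mo (1, 0) * pE (2 * i + 3 * j) (P i j) := by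
  have := pE_M (k := 1) (by norm_num) h.sup (inv_P i j)
  rw [mul_one] at this
  rw [P_succ, map_smul, this, smul_smul, ← zpow_add₀ q_ne]
  have : (2 * (i : ℤ) + 3 * j + 1 + (-(2 * i + 3 * j) - 1)) = 0 := by ring
  rw [this, zpow_zero, one_smul]

theorem Good.step {i j : ℕ} (h : Good i j) : Good (i + 1) j := by
  refine ⟨?_, ?_, ?_⟩
  · have := (h.sup.M (k := 1) (by norm_num)).smul (q ^ (2 * (i : ℤ) + 3 * j + 1))
    rw [P_succ]
    convert this using 2 <;> push_cast <;> ring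
  · have := Ord.smul (O.zpow (2 * (i : ℤ) + 3 * j + 1))
      (h.ord.D0 (k := 1) (by positivity) h.sup).DD
    rw [P_succ]
    exact this.mono (by omega)
  · have := congrArg (fun g : L => g.coeff (((i + 1 : ℕ) : ℤ) + j, (j : ℤ))) h.pE_succ
    simp only [pE, coeff_proj, coeff_mo_mul] at this
    rw [if_pos (by push_cast; ring), if_pos (by simp; ring)] at this
    rw [this, ← h.top]
    congr 1
    ext <;> simp
    ring

theorem Good.all {j : ℕ} (h : Good 0 j) (i : ℕ) : Good i j := by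
  induction i with
  | zero => exact h
  | succ i ih => exact ih.step

theorem D1_theta : D1 (mo (1, 0)) = mo (1, 0) + mo (0, 1) := by
  apply mul_left_cancel₀ ne1
  rw [D1_key, s1_mo]
  simp only [mul_add, sub_mul, one_mul, mo_mul]
  norm_num

theorem yk_T (k a b : ℤ) :
    yk k * T (-2) (-1) (mo (a, b)) = q ^ (-k - 2 * a - b) • mo (a + k, b) := by
  rw [T_mo, yk, smul_mul_smul_comm, mo_mul, ← zpow_add₀ q_ne]
  congr 2
  · simp only; ring
  · ext <;> simp; ring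

theorem good_col (j : ℕ) : Good 0 j ∧ pF (2 * j) (P 0 j) = mo ((j : ℤ), (j : ℤ)) := by
  have hq := q_ne
  induction j with
  | zero =>
    refine ⟨⟨?_, ?_, ?_⟩, ?_⟩
    · exact Sup.mo (v := 0) (by simp [hull])
    · exact Ord.mo 0
    · exact (coeff_mo 0 _).trans (by simp; rfl)
    · rw [P_zero, ← mo_zero', pF, proj_mo]; simp
  | succ j ih =>
    obtain ⟨g0, hf⟩ := ih
    have g1 := g0.step
    have g2 := g1.step
    have i0 := inv_P 0 j
    have i1 := inv_P 1 j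
    set g := P 2 j - q ^ (3 * (j : ℤ) + 2) • M 2 (P 0 j) with hg
    have hP : P 0 (j + 1) = q⁻¹ • g := P_succ' j
    have s0 : Sup (hull (3 * j) (2 * j)) (P 0 j) := by simpa using g0.sup
    have s1' : Sup (hull (3 * j + 2) (2 * j + 1)) (P 1 j) := by
      convert g1.sup using 2 <;> push_cast <;> ring
    have s2' : Sup (hull (3 * j + 3 + 1) (2 * j + 2)) (P 2 j) := by
      convert g2.sup using 2 <;> push_cast <;> ring
    have sg : Sup (hull (3 * j + 3 + 1) (2 * j + 2)) (P 0 (j + 1)) := by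
      rw [hP]
      refine (s2'.sub (Sup.smul ?_ _)).smul _
      convert s0.M (k := 2) (by norm_num) using 2
      ring
    have hp : pE (3 * j + 3 + 1) (P 0 (j + 1)) = 0 := by
      have e1 := pE_M (k := 0) le_rfl sg (inv_P 0 (j + 1))
      rw [(act 0 (j + 1)).a0, map_smul, mul_zero, add_zero, mo_zero', one_mul, ← sub_eq_zero,
        ← sub_smul, smul_eq_zero] at e1
      refine e1.resolve_left fun e2 => one_sub_ne 1 one_ne_zero ?_
      have e3 : q ^ (-(3 * (j : ℤ) + 3 + 1) - 0) = (q ^ (j + 1))⁻¹ ^ 3 * q⁻¹ := by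
        simp only [sub_zero, zpow_neg, zpow_add₀ hq, zpow_mul', zpow_natCast, zpow_ofNat]
        field_simp
        ring
      rw [e3] at e2
      field_simp at e2
      linear_combination -e2
    have p1 : pF (2 * j + 1) (P 1 j) = mo ((j : ℤ) + 1, (j : ℤ)) + mo ((j : ℤ), (j : ℤ) + 1) := by
      have e : mo ((j : ℤ) + 1, (j : ℤ)) = mo (1, 0) * mo ((j : ℤ), (j : ℤ)) := by
        rw [mo_mul, Prod.mk_add_mk, zero_add, add_comm]
      rw [P_succ, map_smul, pF_M (by norm_num) s0 i0, hf, yk_T, map_smul, smul_smul,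
        ← zpow_add₀ hq, e, D1_mul _ (s1_mo _), D1_theta, add_mul, mo_mul, mo_mul]
      have : 2 * ((0 : ℕ) : ℤ) + 3 * j + 1 + (-1 - 2 * j - j) = 0 := by push_cast; ring
      rw [this, zpow_zero, one_smul, Prod.mk_add_mk, Prod.mk_add_mk, zero_add, add_comm (1 : ℤ)]
    have pg : pF (2 * j + 2) g = q • mo ((j : ℤ) + 1, (j : ℤ) + 1) := by
      have e1 := pF_M (k := 1) (by norm_num) s1' i1
      have e2 := pF_M (k := 2) (by norm_num) s0 i0
      rw [p1, map_add, mul_add, yk_T, yk_T, map_add, map_smul, map_smul,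
        D1_fix (s1_mo ((j : ℤ) + 1, (j : ℤ) + 1)), add_assoc, add_assoc, one_add_one_eq_two] at e1
      rw [hf, yk_T, map_smul] at e2
      rw [hg, map_sub, P_succ 1 j, map_smul, map_smul, e1, e2, smul_add, smul_smul, smul_smul,
        smul_smul, ← zpow_add₀ hq, ← zpow_add₀ hq, ← zpow_add₀ hq]
      have a1 : 2 * ((1 : ℕ) : ℤ) + 3 * j + 1 + (-1 - 2 * (j + 1) - j) = 0 := by push_cast; ring
      have a2 : 2 * ((1 : ℕ) : ℤ) + 3 * j + 1 + (-1 - 2 * j - (j + 1)) = 1 := by push_cast; ring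
      have a3 : 3 * (j : ℤ) + 2 + (-2 - 2 * j - j) = 0 := by ring
      rw [a1, a2, a3, zpow_one]
      abel
    have pP : pF (2 * ((j + 1 : ℕ) : ℤ)) (P 0 (j + 1)) = mo ((j : ℤ) + 1, (j : ℤ) + 1) := by
      rw [hP, map_smul, show 2 * ((j + 1 : ℕ) : ℤ) = 2 * j + 2 by push_cast; ring, pg, smul_smul,
        inv_mul_cancel₀ hq, one_smul]
    refine ⟨⟨?_, ?_, ?_⟩, by simpa using pP⟩
    · convert (inv_P 0 (j + 1)).shrink sg hp using 2 <;> push_cast <;> ring
    · have e1 := ord_lead_M (k := 1) (by positivity) g1.ord s1' i1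
      have e2 := ord_lead_M (k := 2) (by positivity) g0.ord s0 i0
      have e3 := g0.pE_succ
      simp only [Nat.cast_zero, mul_zero, zero_add] at e3
      rw [e3, ← mul_assoc, mo_mul] at e1
      have e4 := e1.sub e2
      have e5 : P 2 j = q ^ (3 * (j : ℤ) + 2 + 1) • M 1 (P 1 j) := by
        rw [P_succ 1 j, show 2 * ((1 : ℕ) : ℤ) + 3 * j + 1 = 3 * (j : ℤ) + 2 + 1 by push_cast; ring]
      rw [← e5, show ((1 : ℤ), (0 : ℤ)) + (1, 0) = (2, 0) from rfl, sub_sub_sub_cancel_right,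
        ← hg] at e4
      rw [hP]
      have := Ord.smul (O.zpow (-1)) e4
      simpa using this
    · have : (pF (2 * ((j + 1 : ℕ) : ℤ)) (P 0 (j + 1))).coeff ((j : ℤ) + 1, (j : ℤ) + 1) =
          (mo ((j : ℤ) + 1, (j : ℤ) + 1)).coeff ((j : ℤ) + 1, (j : ℤ) + 1) := by rw [pP]
      rw [pF, coeff_proj, coeff_mo, if_pos rfl, if_pos (by push_cast; ring)] at this
      have e : ((((0 : ℕ) : ℤ) + ((j + 1 : ℕ) : ℤ), ((j + 1 : ℕ) : ℤ)) : V) =
          ((j : ℤ) + 1, (j : ℤ) + 1) := by simp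
      rw [e]
      exact this

theorem good (i j : ℕ) : Good i j := (good_col j).1.all i

theorem P_coeff_ne {i j i' j' : ℕ} (h : (P i j).coeff ((i' : ℤ) + j', (j' : ℤ)) ≠ 0) :
    2 * i' + 3 * j' ≤ 2 * i + 3 * j ∧ i' + 2 * j' ≤ i + 2 * j := by
  have := (good i j).sup _ h
  simp only [hull] at this
  omega

/-- Linear combinations of the polynomials. -/
noncomputable def lc : (ℕ × ℕ →₀ R) →ₗ[R] L :=
  Finsupp.linearCombination R fun μ => P μ.1 μ.2

theorem lc_apply (e : ℕ × ℕ →₀ R) : lc e = ∑ μ ∈ e.support, e μ • P μ.1 μ.2 := by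
  simp [lc, Finsupp.linearCombination_apply, Finsupp.sum]

theorem lc_single (μ : ℕ × ℕ) (c : R) : lc (Finsupp.single μ c) = c • P μ.1 μ.2 := by
  simp [lc]

theorem lc_coeff (e : ℕ × ℕ →₀ R) (μ : ℕ × ℕ) :
    (lc e).coeff ((μ.1 : ℤ) + μ.2, (μ.2 : ℤ)) = e μ +
      ∑ ν ∈ e.support.erase μ, e ν * (P ν.1 ν.2).coeff ((μ.1 : ℤ) + μ.2, (μ.2 : ℤ)) := by
  rw [lc_apply, ← cf_apply, map_sum]
  simp only [map_smul, cf_apply, smul_eq_mul]
  by_cases h : μ ∈ e.support
  · rw [← add_sum_erase _ _ h, (good _ _).top, mul_one]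
  · rw [erase_eq_of_notMem h, Finsupp.notMem_support_iff.1 h, zero_add]

theorem ord_lc {K : ℤ} {e : ℕ × ℕ →₀ R} (h : Ord K (lc e)) (μ : ℕ × ℕ) : O K (e μ) := by
  set H := e.support.sup (fun μ => 3 * μ.1 + 5 * μ.2) + 1 with hH
  have key : ∀ n : ℕ, ∀ μ : ℕ × ℕ, H ≤ 3 * μ.1 + 5 * μ.2 + n → O K (e μ) := by
    intro n
    induction n with
    | zero =>
      intro μ hμ
      have : μ ∉ e.support := fun hm => by
        have := le_sup (f := fun μ : ℕ × ℕ => 3 * μ.1 + 5 * μ.2) hm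
        omega
      rw [Finsupp.notMem_support_iff.1 this]
      exact O.zero _
    | succ n ih =>
      intro μ hμ
      rw [eq_sub_of_add_eq (lc_coeff e μ).symm]
      refine (h _).sub (O.sum _ _ fun ν hν => ?_)
      by_cases h0 : (P ν.1 ν.2).coeff ((μ.1 : ℤ) + μ.2, (μ.2 : ℤ)) = 0
      · rw [h0, mul_zero]; exact O.zero _
      · have h1 := P_coeff_ne h0
        have h2 : ν ≠ μ := ne_of_mem_erase hν
        have h3 : ν.1 ≠ μ.1 ∨ ν.2 ≠ μ.2 := by
          by_contra h4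
          exact h2 (Prod.ext (by omega) (by omega))
        exact (ih ν (by omega)).mul' ((good _ _).ord _) (by omega)
  exact key H μ (by omega)

theorem exists_lc {f : L} (h : Inv f) : ∃ e, lc e = f := by
  have key : ∀ H : ℕ, ∀ f : L, Inv f →
      (∀ i j : ℕ, H ≤ 3 * i + 5 * j → f.coeff ((i : ℤ) + j, (j : ℤ)) = 0) → ∃ e, lc e = f := by
    intro H
    induction H with
    | zero =>
      intro f hf h0
      refine ⟨0, ?_⟩
      rw [map_zero]
      ext v
      obtain ⟨i, j, hij⟩ := hf.dom v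
      rw [← hij, h0 i j (by omega)]
      simp
    | succ H ih =>
      intro f hf h0
      set S := (range (H + 1) ×ˢ range (H + 1)).filter fun μ : ℕ × ℕ => 3 * μ.1 + 5 * μ.2 = H
        with hS
      have hmem : ∀ μ : ℕ × ℕ, μ ∈ S ↔ 3 * μ.1 + 5 * μ.2 = H := fun μ => by
        simp only [hS, mem_filter, mem_product, mem_range]; omega
      obtain ⟨e, he⟩ := ih (f - ∑ μ ∈ S, f.coeff ((μ.1 : ℤ) + μ.2, (μ.2 : ℤ)) • P μ.1 μ.2)
        (hf.sub (Inv.sum _ _ fun μ _ => (inv_P _ _).smul _)) (fun i j hij => by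
          rw [← cf_apply, map_sub, map_sum]
          simp only [map_smul, cf_apply, smul_eq_mul]
          have hz : ∀ μ ∈ S, μ ≠ (i, j) →
              f.coeff ((μ.1 : ℤ) + μ.2, (μ.2 : ℤ)) * (P μ.1 μ.2).coeff ((i : ℤ) + j, (j : ℤ)) = 0 := by
            intro μ hμ hne
            rw [hmem] at hμ
            by_cases h1 : (P μ.1 μ.2).coeff ((i : ℤ) + j, (j : ℤ)) = 0
            · rw [h1, mul_zero]
            · have := P_coeff_ne h1
              exact absurd (Prod.ext (by simp only; omega) (by simp only; omega)) hne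
          rw [sum_eq_single (i, j) hz]
          · rw [(good i j).top, mul_one, sub_self]
          · intro hn
            rw [hmem] at hn
            rw [h0 i j (by simp only at hn; omega), zero_mul])
      refine ⟨e + ∑ μ ∈ S, Finsupp.single μ (f.coeff ((μ.1 : ℤ) + μ.2, (μ.2 : ℤ))), ?_⟩
      rw [map_add, he, map_sum]
      simp only [lc_single, sub_add_cancel]
  refine key (f.coeff.support.sup (fun v => (3 * v.1 + 2 * v.2).toNat) + 1) f h fun i j hij => ?_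
  by_contra hne
  have := le_sup (f := fun v : V => (3 * v.1 + 2 * v.2).toNat) (Finsupp.mem_support_iff.2 hne)
  simp only at this
  omega

end Pool.Agent.MP_7258fc_nt.H38
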